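import Mathlib

open Topology Filter Set MeasureTheory

namespace Pool.Agent.H664.CantorField

noncomputable section

/-! ### A normalised bump -/

def B0 (x : ℝ) : ℝ := expNegInvGlue x * expNegInvGlue (1 - x)

lemma contDiff_B0 {n : ℕ∞} : ContDiff ℝ n B0 :=
  expNegInvGlue.contDiff.mul (expNegInvGlue.contDiff.comp (contDiff_const.sub contDiff_id))

lemma B0_nonneg (x : ℝ) : 0 ≤ B0 x :=
  mul_nonneg (expNegInvGlue.nonneg _) (expNegInvGlue.nonneg _)

lemma B0_of_le {x : ℝ} (h : x ≤ 0) : B0 x = 0 := by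
  unfold B0; rw [expNegInvGlue.zero_of_nonpos h, zero_mul]

lemma B0_of_ge {x : ℝ} (h : 1 ≤ x) : B0 x = 0 := by
  unfold B0; rw [expNegInvGlue.zero_of_nonpos (by linarith : 1 - x ≤ 0), mul_zero]

lemma B0_pos {x : ℝ} (h : 0 < x) (h' : x < 1) : 0 < B0 x :=
  mul_pos (expNegInvGlue.pos_of_pos h) (expNegInvGlue.pos_of_pos (by linarith))

def kap : ℝ := ∫ x in (0:ℝ)..1, B0 x

lemma kap_pos : 0 < kap :=
  intervalIntegral.intervalIntegral_pos_of_pos_on
    ((contDiff_B0 (n := 0)).continuous.intervalIntegrable _ _)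
    (fun _ hx => B0_pos hx.1 hx.2) zero_lt_one

def B (x : ℝ) : ℝ := B0 x / kap

lemma contDiff_B {n : ℕ∞} : ContDiff ℝ n B := contDiff_B0.div_const _

lemma continuous_B : Continuous B := (contDiff_B (n := 0)).continuous

lemma B_nonneg (x : ℝ) : 0 ≤ B x := div_nonneg (B0_nonneg x) kap_pos.le

lemma B_of_le {x : ℝ} (h : x ≤ 0) : B x = 0 := by unfold B; rw [B0_of_le h, zero_div]

lemma B_of_ge {x : ℝ} (h : 1 ≤ x) : B x = 0 := by unfold B; rw [B0_of_ge h, zero_div]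

lemma hasCompactSupport_B : HasCompactSupport B :=
  HasCompactSupport.intro (isCompact_Icc (a := (0:ℝ)) (b := 1)) fun x hx => by
    rw [mem_Icc, not_and_or, not_le, not_le] at hx
    rcases hx with h | h
    · exact B_of_le h.le
    · exact B_of_ge h.le

/-- primitive of the bump -/
def W (x : ℝ) : ℝ := ∫ r in (0:ℝ)..x, B r

lemma hasDerivAt_W (x : ℝ) : HasDerivAt W (B x) x :=
  intervalIntegral.integral_hasDerivAt_right (continuous_B.intervalIntegrable _ _)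
    (continuous_B.stronglyMeasurableAtFilter _ _) continuous_B.continuousAt

lemma contDiff_W {n : ℕ∞} : ContDiff ℝ n W := by
  have h : ContDiff ℝ ((⊤ : ℕ∞) : WithTop ℕ∞) W := by
    rw [contDiff_infty_iff_deriv]
    refine ⟨fun x => (hasDerivAt_W x).differentiableAt, ?_⟩
    have : deriv W = B := by ext x; exact (hasDerivAt_W x).deriv
    rw [this]
    exact contDiff_B
  exact h.of_le (by exact_mod_cast le_top)

lemma W_of_le {x : ℝ} (h : x ≤ 0) : W x = 0 := by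
  unfold W
  rw [intervalIntegral.integral_symm]
  have : ∫ r in x..0, B r = ∫ r in x..0, (0:ℝ) := by
    apply intervalIntegral.integral_congr
    intro r hr
    rw [uIcc_of_le h] at hr
    exact B_of_le hr.2
  rw [this]
  simp

lemma W_one : W 1 = 1 := by
  unfold W B
  rw [intervalIntegral.integral_div]
  exact div_self kap_pos.ne'

lemma W_of_ge {x : ℝ} (h : 1 ≤ x) : W x = 1 := by
  have h1 : W x = W 1 + ∫ r in (1:ℝ)..x, B r := by
    unfold W
    rw [intervalIntegral.integral_add_adjacent_intervals (continuous_B.intervalIntegrable _ _)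
      (continuous_B.intervalIntegrable _ _)]
  have : ∫ r in (1:ℝ)..x, B r = ∫ r in (1:ℝ)..x, (0:ℝ) := by
    apply intervalIntegral.integral_congr
    intro r hr
    rw [uIcc_of_le h] at hr
    exact B_of_ge hr.1
  rw [h1, this, W_one]
  simp

lemma W_mono : Monotone W :=
  monotone_of_hasDerivAt_nonneg (f' := B) hasDerivAt_W fun x => B_nonneg x

lemma W_nonneg (x : ℝ) : 0 ≤ W x := by
  rcases le_total x 0 with h | h
  · rw [W_of_le h]
  · calc (0:ℝ) = W 0 := (W_of_le le_rfl).symm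
      _ ≤ W x := W_mono h

lemma W_le_one (x : ℝ) : W x ≤ 1 := by
  rcases le_total x 1 with h | h
  · rw [← W_one]; exact W_mono h
  · rw [W_of_ge h]

/-! ### Lengths -/

def Lam (n : ℕ) : ℝ := (1 / 2) ^ n * (1 + 1 / ((n:ℝ) + 1))
def ell (n : ℕ) : ℝ := (1 / 2) ^ n * (1 / (((n:ℝ) + 1) * ((n:ℝ) + 2)))
def bet (n : ℕ) : ℝ := Lam (n + 1) + ell n

lemma ell_pos (n : ℕ) : 0 < ell n := by unfold ell; positivity
lemma Lam_pos (n : ℕ) : 0 < Lam n := by unfold Lam; positivity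
lemma bet_pos (n : ℕ) : 0 < bet n := add_pos (Lam_pos _) (ell_pos _)

lemma Lam_eq (n : ℕ) : Lam n = bet n + Lam (n + 1) := by
  unfold bet Lam ell
  push_cast
  rw [pow_succ]
  field_simp
  ring

lemma Lam_zero : Lam 0 = 2 := by unfold Lam; norm_num

lemma tendsto_Lam : Tendsto Lam atTop (𝓝 0) := by
  have h1 : Tendsto (fun n : ℕ => (1 / 2 : ℝ) ^ n) atTop (𝓝 0) :=
    tendsto_pow_atTop_nhds_zero_of_lt_one (by norm_num) (by norm_num)
  have h2 : Tendsto (fun n : ℕ => 1 + 1 / ((n:ℝ) + 1)) atTop (𝓝 (1 + 0)) :=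
    tendsto_one_div_add_atTop_nhds_zero_nat.const_add 1
  have := h1.mul h2
  rw [zero_mul] at this
  exact this

lemma ell_le_one (n : ℕ) : ell n ≤ 1 := by
  unfold ell
  have h1 : (1 / 2 : ℝ) ^ n ≤ 1 := pow_le_one₀ (by norm_num) (by norm_num)
  have h2 : (1 / (((n:ℝ) + 1) * ((n:ℝ) + 2))) ≤ 1 := by
    rw [div_le_one (by positivity)]
    nlinarith [n.cast_nonneg (α := ℝ)]
  calc _ ≤ (1:ℝ) * 1 := mul_le_mul h1 h2 (by positivity) (by norm_num)
    _ = 1 := one_mul 1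

lemma sum_bet (j n : ℕ) : ∑ i ∈ Finset.range n, bet (i + j) = Lam j - Lam (n + j) := by
  induction n with
  | zero => simp
  | succ n ih =>
    rw [Finset.sum_range_succ, ih]
    have := Lam_eq (n + j)
    have e : n + 1 + j = n + j + 1 := by ring
    rw [e]
    linarith

lemma hasSum_bet (j : ℕ) : HasSum (fun i => bet (i + j)) (Lam j) := by
  rw [hasSum_iff_tendsto_nat_of_nonneg (fun i => (bet_pos _).le)]
  have h : Tendsto (fun n => Lam j - Lam (n + j)) atTop (𝓝 (Lam j - 0)) :=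
    ((tendsto_Lam.comp (tendsto_add_atTop_nat j))).const_sub (Lam j)
  rw [sub_zero] at h
  refine h.congr fun n => (sum_bet j n).symm

/-- the heights -/
def hh (m n : ℕ) : ℝ := (1 / (((n:ℝ) + 1) * ((n:ℝ) + 2))) * ell n ^ m

/-- the masses -/
def cc (m n : ℕ) : ℝ := hh m n * ell n

lemma hh_pos (m n : ℕ) : 0 < hh m n := by
  have := ell_pos n
  unfold hh; positivity

lemma cc_pos (m n : ℕ) : 0 < cc m n := mul_pos (hh_pos m n) (ell_pos n)

def Fk (m : ℕ) : ℕ → ℕ → ℝ → ℝ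
  | 0, j, x => hh m j * B ((ell j)⁻¹ * (x - Lam (j + 1)))
  | k + 1, j, x => Fk m k (j + 1) x + Fk m k (j + 1) (x - bet j)

def Pk (m : ℕ) : ℕ → ℕ → ℝ → ℝ
  | 0, j, x => cc m j * W ((ell j)⁻¹ * (x - Lam (j + 1)))
  | k + 1, j, x => Pk m k (j + 1) x + Pk m k (j + 1) (x - bet j)

lemma hasDerivAt_Pk (m : ℕ) (k : ℕ) : ∀ (j : ℕ) (x : ℝ),
    HasDerivAt (Pk m k j) (Fk m k j x) x := by
  induction k with
  | zero =>
    intro j x
    have h1 : HasDerivAt (fun x : ℝ => (ell j)⁻¹ * (x - Lam (j + 1))) (ell j)⁻¹ x := by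
      simpa using ((hasDerivAt_id x).sub_const (Lam (j + 1))).const_mul (ell j)⁻¹
    have h2 := ((hasDerivAt_W _).comp x h1).const_mul (cc m j)
    have h3 : cc m j * (B ((ell j)⁻¹ * (x - Lam (j + 1))) * (ell j)⁻¹) = Fk m 0 j x := by
      have := (ell_pos j).ne'
      unfold Fk cc
      field_simp
    rw [h3] at h2
    exact h2
  | succ k ih =>
    intro j x
    have h1 := ih (j + 1) x
    have h2 := (ih (j + 1) (x - bet j)).comp x ((hasDerivAt_id x).sub_const (bet j))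
    rw [mul_one] at h2
    exact h1.add h2

lemma Fk_nonneg (m k : ℕ) : ∀ (j : ℕ) (x : ℝ), 0 ≤ Fk m k j x := by
  induction k with
  | zero => intro j x; exact mul_nonneg (hh_pos _ _).le (B_nonneg _)
  | succ k ih => intro j x; exact add_nonneg (ih _ _) (ih _ _)

lemma Fk_of_le (m k : ℕ) : ∀ (j : ℕ) {x : ℝ}, x ≤ 0 → Fk m k j x = 0 := by
  induction k with
  | zero =>
    intro j x hx
    unfold Fk
    rw [B_of_le, mul_zero]
    have h1 := Lam_pos (j + 1)
    have h2 := inv_pos.2 (ell_pos j)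
    nlinarith
  | succ k ih =>
    intro j x hx
    unfold Fk
    rw [ih _ hx, ih _ (by linarith [bet_pos j]), add_zero]

lemma Fk_of_ge (m k : ℕ) : ∀ (j : ℕ) {x : ℝ}, Lam j ≤ x → Fk m k j x = 0 := by
  induction k with
  | zero =>
    intro j x hx
    unfold Fk
    rw [B_of_ge, mul_zero]
    have h1 := Lam_pos (j + 1)
    have h2 := ell_pos j
    have h3 := Lam_eq j
    unfold bet at h3
    rw [inv_mul_eq_div, le_div_iff₀ h2]
    linarith
  | succ k ih =>
    intro j x hx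
    unfold Fk
    have h3 := Lam_eq j
    rw [ih _ (by linarith [bet_pos j]), ih _ (by linarith), add_zero]

lemma Pk_of_le (m k : ℕ) : ∀ (j : ℕ) {x : ℝ}, x ≤ 0 → Pk m k j x = 0 := by
  induction k with
  | zero =>
    intro j x hx
    unfold Pk
    rw [W_of_le, mul_zero]
    have h1 := Lam_pos (j + 1)
    have h2 := inv_pos.2 (ell_pos j)
    nlinarith
  | succ k ih =>
    intro j x hx
    unfold Pk
    rw [ih _ hx, ih _ (by linarith [bet_pos j]), add_zero]

lemma Pk_of_ge (m k : ℕ) : ∀ (j : ℕ) {x : ℝ}, Lam j ≤ x → Pk m k j x = 2 ^ k * cc m (j + k) := by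
  induction k with
  | zero =>
    intro j x hx
    unfold Pk
    rw [W_of_ge]
    · simp
    have h1 := Lam_pos (j + 1)
    have h2 := ell_pos j
    have h3 := Lam_eq j
    unfold bet at h3
    rw [inv_mul_eq_div, le_div_iff₀ h2]
    linarith
  | succ k ih =>
    intro j x hx
    unfold Pk
    have h3 := Lam_eq j
    rw [ih _ (by linarith [bet_pos j]), ih _ (by linarith)]
    have e : j + 1 + k = j + (k + 1) := by ring
    rw [e, pow_succ]
    ring

lemma Pk_mono (m k j : ℕ) : Monotone (Pk m k j) :=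
  monotone_of_hasDerivAt_nonneg (f' := Fk m k j) (hasDerivAt_Pk m k j) fun x => Fk_nonneg m k j x

lemma Pk_nonneg (m k j : ℕ) (x : ℝ) : 0 ≤ Pk m k j x := by
  rcases le_total x 0 with h | h
  · rw [Pk_of_le m k j h]
  · calc (0:ℝ) = Pk m k j 0 := (Pk_of_le m k j le_rfl).symm
      _ ≤ Pk m k j x := Pk_mono m k j h

lemma Pk_le (m k j : ℕ) (x : ℝ) : Pk m k j x ≤ 2 ^ k * cc m (j + k) := by
  rcases le_total (Lam j) x with h | h
  · rw [Pk_of_ge m k j h]
  · calc Pk m k j x ≤ Pk m k j (Lam j) := Pk_mono m k j h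
      _ = _ := Pk_of_ge m k j le_rfl

/-! ### Points of the Cantor set -/

def xs (a : ℕ → ℝ) (j : ℕ) : ℝ := ∑' i, a (i + j) * bet (i + j)

lemma summable_xs {a : ℕ → ℝ} (ha : ∀ n, a n = 0 ∨ a n = 1) (j : ℕ) :
    Summable fun i => a (i + j) * bet (i + j) := by
  refine Summable.of_nonneg_of_le (fun i => ?_) (fun i => ?_) (hasSum_bet j).summable
  · rcases ha (i + j) with h | h <;> rw [h] <;> simp [(bet_pos _).le]
  · rcases ha (i + j) with h | h <;> rw [h] <;> simp [(bet_pos _).le]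

lemma xs_nonneg {a : ℕ → ℝ} (ha : ∀ n, a n = 0 ∨ a n = 1) (j : ℕ) : 0 ≤ xs a j :=
  tsum_nonneg fun i => by
    rcases ha (i + j) with h | h <;> rw [h] <;> simp [(bet_pos _).le]

lemma xs_le {a : ℕ → ℝ} (ha : ∀ n, a n = 0 ∨ a n = 1) (j : ℕ) : xs a j ≤ Lam j := by
  rw [← (hasSum_bet j).tsum_eq]
  refine (summable_xs ha j).tsum_le_tsum (fun i => ?_) (hasSum_bet j).summable
  rcases ha (i + j) with h | h <;> rw [h] <;> simp [(bet_pos _).le]

lemma xs_succ {a : ℕ → ℝ} (ha : ∀ n, a n = 0 ∨ a n = 1) (j : ℕ) :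
    xs a j = a j * bet j + xs a (j + 1) := by
  unfold xs
  rw [(summable_xs ha j).tsum_eq_zero_add]
  congr 1
  · simp
  · apply tsum_congr
    intro i
    have e : i + 1 + j = i + (j + 1) := by ring
    rw [e]

lemma Fk_xs (m k : ℕ) : ∀ (j : ℕ) {a : ℕ → ℝ} (_ : ∀ n, a n = 0 ∨ a n = 1),
    Fk m k j (xs a j) = 0 := by
  induction k with
  | zero =>
    intro j a ha
    have h1 := xs_succ ha j
    have h2 := xs_le ha (j + 1)
    have h3 := xs_nonneg ha (j + 1)
    have h4 := ell_pos j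
    unfold Fk
    rcases ha j with h | h
    · rw [h, zero_mul, zero_add] at h1
      rw [h1, B_of_le, mul_zero]
      have h5 := inv_pos.2 h4
      nlinarith
    · rw [h, one_mul] at h1
      rw [h1, B_of_ge, mul_zero]
      rw [inv_mul_eq_div, le_div_iff₀ h4]
      unfold bet
      linarith
  | succ k ih =>
    intro j a ha
    have h1 := xs_succ ha j
    have h2 := xs_le ha (j + 1)
    have h3 := xs_nonneg ha (j + 1)
    have h4 := ell_pos j
    unfold Fk
    rcases ha j with h | h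
    · rw [h, zero_mul, zero_add] at h1
      rw [h1, ih _ ha, zero_add]
      apply Fk_of_le
      unfold bet; linarith
    · rw [h, one_mul] at h1
      have h5 : xs a j - bet j = xs a (j + 1) := by linarith
      rw [h5, ih _ ha, add_zero]
      apply Fk_of_ge
      unfold bet at h1; linarith

lemma Pk_xs_zero (m : ℕ) (j : ℕ) {a : ℕ → ℝ} (ha : ∀ n, a n = 0 ∨ a n = 1) :
    Pk m 0 j (xs a j) = a j * cc m j := by
  have h1 := xs_succ ha j
  have h2 := xs_le ha (j + 1)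
  have h3 := xs_nonneg ha (j + 1)
  have h4 := ell_pos j
  unfold Pk
  rcases ha j with h | h
  · rw [h, zero_mul, zero_add] at h1
    rw [h1, W_of_le, mul_zero, h, zero_mul]
    have h5 := inv_pos.2 h4
    nlinarith
  · rw [h, one_mul] at h1
    rw [h1, W_of_ge, mul_one, h, one_mul]
    rw [inv_mul_eq_div, le_div_iff₀ h4]
    unfold bet
    linarith

lemma Pk_xs_succ (m k : ℕ) (j : ℕ) {a : ℕ → ℝ} (ha : ∀ n, a n = 0 ∨ a n = 1) :
    Pk m (k + 1) j (xs a j) = a j * (2 ^ k * cc m (j + 1 + k)) + Pk m k (j + 1) (xs a (j + 1)) := by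
  have h1 := xs_succ ha j
  have h2 := xs_le ha (j + 1)
  have h3 := xs_nonneg ha (j + 1)
  have h4 := ell_pos j
  rw [Pk]
  rcases ha j with h | h
  · rw [h, zero_mul, zero_add] at h1
    rw [h1, h, zero_mul, zero_add, Pk_of_le m k (j + 1) (x := xs a (j + 1) - bet j), add_zero]
    unfold bet; linarith
  · rw [h, one_mul] at h1
    have h5 : xs a j - bet j = xs a (j + 1) := by linarith
    rw [h5, h, one_mul, Pk_of_ge m k (j + 1) (x := xs a j)]
    unfold bet at h1; linarith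

/-! ### Sums -/

def ww (m n : ℕ) : ℝ := (1 / (((n:ℝ) + 1) * ((n:ℝ) + 2))) ^ (m + 2)

lemma ww_pos (m n : ℕ) : 0 < ww m n := by unfold ww; positivity

lemma cc_eq (m n : ℕ) : cc m n = ((1 / 2 : ℝ) ^ n) ^ (m + 1) * ww m n := by
  unfold cc hh ell ww
  rw [mul_pow]
  ring

lemma ww_succ_le (m n : ℕ) : ww m (n + 1) ≤ ww m n := by
  unfold ww
  apply pow_le_pow_left₀ (by positivity)
  apply one_div_le_one_div_of_le (by positivity)
  push_cast
  nlinarith [n.cast_nonneg (α := ℝ)]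

lemma ww_anti (m : ℕ) : Antitone (ww m) := antitone_nat_of_succ_le (ww_succ_le m)

lemma term_le {m : ℕ} (hm : 1 ≤ m) (n k : ℕ) :
    2 ^ k * cc m (n + k) ≤ (((1 / 2 : ℝ) ^ n) ^ (m + 1) * ww m n) * (1 / 2) ^ k := by
  rw [cc_eq]
  have h1 : ww m (n + k) ≤ ww m n := ww_anti m (Nat.le_add_right n k)
  have h2 : (2:ℝ) ^ k * ((1 / 2 : ℝ) ^ (n + k)) ^ (m + 1) =
      ((1 / 2 : ℝ) ^ n) ^ (m + 1) * ((1 / 2 : ℝ) ^ k) ^ m := by
    rw [pow_add (1 / 2 : ℝ) n k, mul_pow, pow_succ ((1 / 2 : ℝ) ^ k) m]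
    have : (2:ℝ) ^ k * (1 / 2) ^ k = 1 := by rw [← mul_pow]; norm_num
    calc _ = ((1 / 2 : ℝ) ^ n) ^ (m + 1) * ((1 / 2 : ℝ) ^ k) ^ m * ((2:ℝ) ^ k * (1 / 2) ^ k) := by ring
      _ = _ := by rw [this, mul_one]
  have h3 : ((1 / 2 : ℝ) ^ k) ^ m ≤ (1 / 2) ^ k := by
    have h4 : (1 / 2 : ℝ) ^ k ≤ 1 := pow_le_one₀ (by norm_num) (by norm_num)
    calc ((1 / 2 : ℝ) ^ k) ^ m ≤ ((1 / 2 : ℝ) ^ k) ^ 1 :=
          pow_le_pow_of_le_one (by positivity) h4 hm
      _ = _ := pow_one _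
  calc 2 ^ k * (((1 / 2 : ℝ) ^ (n + k)) ^ (m + 1) * ww m (n + k))
      = ((1 / 2 : ℝ) ^ n) ^ (m + 1) * ((1 / 2 : ℝ) ^ k) ^ m * ww m (n + k) := by
        rw [← mul_assoc, h2]
    _ ≤ ((1 / 2 : ℝ) ^ n) ^ (m + 1) * (1 / 2) ^ k * ww m n := by
        have := (ww_pos m (n + k)).le
        gcongr
    _ = _ := by ring

lemma summable_term {m : ℕ} (hm : 1 ≤ m) (n : ℕ) : Summable fun k => 2 ^ k * cc m (n + k) := by
  refine Summable.of_nonneg_of_le (fun k => ?_) (fun k => term_le hm n k)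
    ((summable_geometric_of_lt_one (by norm_num) (by norm_num)).mul_left _)
  have := cc_pos m (n + k)
  positivity

def II (m n : ℕ) : ℝ := ∑' k, 2 ^ k * cc m (n + k)

lemma II_nonneg (m n : ℕ) : 0 ≤ II m n := tsum_nonneg fun k => by
  have := cc_pos m (n + k)
  positivity

lemma II_le {m : ℕ} (hm : 1 ≤ m) (n : ℕ) : II m n ≤ 2 * (((1 / 2 : ℝ) ^ n) ^ (m + 1) * ww m n) := by
  have h1 := (summable_term hm n).tsum_le_tsum (fun k => term_le hm n k)
    ((summable_geometric_of_lt_one (by norm_num) (by norm_num)).mul_left _)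
  rw [tsum_mul_left, tsum_geometric_of_lt_one (by norm_num) (by norm_num)] at h1
  unfold II
  norm_num at h1 ⊢
  linarith

lemma II_succ {m : ℕ} (hm : 1 ≤ m) (n : ℕ) : II m n = cc m n + 2 * II m (n + 1) := by
  unfold II
  rw [(summable_term hm n).tsum_eq_zero_add, ← tsum_mul_left]
  congr 1
  · simp
  · apply tsum_congr
    intro k
    have e : n + (k + 1) = n + 1 + k := by ring
    rw [e, pow_succ]
    ring

lemma two_II_le {m : ℕ} (hm : 1 ≤ m) (n : ℕ) :
    2 * II m (n + 1) ≤ ((1 / 2 : ℝ) ^ n) ^ (m + 1) * ww m (n + 1) := by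
  have h1 := II_le hm (n + 1)
  have h2 : ((1 / 2 : ℝ) ^ (n + 1)) ^ (m + 1) = ((1 / 2 : ℝ) ^ n) ^ (m + 1) * (1 / 2) ^ (m + 1) := by
    rw [pow_succ (1 / 2 : ℝ) n, mul_pow]
  have h3 : (1 / 2 : ℝ) ^ (m + 1) ≤ 1 / 4 := by
    calc (1 / 2 : ℝ) ^ (m + 1) ≤ (1 / 2) ^ 2 :=
          pow_le_pow_of_le_one (by norm_num) (by norm_num) (by omega)
      _ = 1 / 4 := by norm_num
  rw [h2] at h1
  have h4 := ww_pos m (n + 1)
  have h5 : (0:ℝ) < ((1 / 2 : ℝ) ^ n) ^ (m + 1) := by positivity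
  have h6 : ((1 / 2 : ℝ) ^ n) ^ (m + 1) * (1 / 2) ^ (m + 1) * ww m (n + 1) ≤
      ((1 / 2 : ℝ) ^ n) ^ (m + 1) * (1 / 4) * ww m (n + 1) := by gcongr
  linarith

def bb (m n : ℕ) : ℝ := cc m n + II m (n + 1)

lemma bb_pos (m n : ℕ) : 0 < bb m n := add_pos_of_pos_of_nonneg (cc_pos m n) (II_nonneg _ _)

lemma bb_eq {m : ℕ} (hm : 1 ≤ m) (n : ℕ) : bb m n = II m n - II m (n + 1) := by
  unfold bb; rw [II_succ hm n]; ring

lemma tendsto_II {m : ℕ} (hm : 1 ≤ m) : Tendsto (II m) atTop (𝓝 0) := by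
  have h1 : Tendsto (fun n : ℕ => 2 * ((1 / 2 : ℝ) ^ n)) atTop (𝓝 (2 * 0)) :=
    (tendsto_pow_atTop_nhds_zero_of_lt_one (by norm_num) (by norm_num)).const_mul 2
  rw [mul_zero] at h1
  refine squeeze_zero (fun n => II_nonneg m n) (fun n => ?_) h1
  refine (II_le hm n).trans ?_
  have h4 : (1 / 2 : ℝ) ^ n ≤ 1 := pow_le_one₀ (by norm_num) (by norm_num)
  have h5 : ((1 / 2 : ℝ) ^ n) ^ (m + 1) ≤ (1 / 2) ^ n := by
    calc ((1 / 2 : ℝ) ^ n) ^ (m + 1) ≤ ((1 / 2 : ℝ) ^ n) ^ 1 :=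
          pow_le_pow_of_le_one (by positivity) h4 (by omega)
      _ = _ := pow_one _
  have h6 : ww m n ≤ 1 := by
    unfold ww
    apply pow_le_one₀ (by positivity)
    rw [div_le_one (by positivity)]
    nlinarith [n.cast_nonneg (α := ℝ)]
  have h7 := ww_pos m n
  calc 2 * (((1 / 2 : ℝ) ^ n) ^ (m + 1) * ww m n) ≤ 2 * ((1 / 2) ^ n * 1) := by gcongr
    _ = _ := by ring

lemma hasSum_bb {m : ℕ} (hm : 1 ≤ m) (j : ℕ) : HasSum (fun i => bb m (i + j)) (II m j) := by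
  rw [hasSum_iff_tendsto_nat_of_nonneg (fun i => (bb_pos m _).le)]
  have h0 : ∀ n, ∑ i ∈ Finset.range n, bb m (i + j) = II m j - II m (n + j) := by
    intro n
    induction n with
    | zero => simp
    | succ n ih =>
      rw [Finset.sum_range_succ, ih, bb_eq hm]
      have e : n + 1 + j = n + j + 1 := by ring
      rw [e]
      ring
  have h : Tendsto (fun n => II m j - II m (n + j)) atTop (𝓝 (II m j - 0)) :=
    (((tendsto_II hm).comp (tendsto_add_atTop_nat j))).const_sub (II m j)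
  rw [sub_zero] at h
  exact h.congr fun n => (h0 n).symm

lemma II_zero_le {m : ℕ} (hm : 1 ≤ m) : II m 0 ≤ 1 := by
  refine (II_le hm 0).trans ?_
  have h6 : ww m 0 ≤ 1 / 2 := by
    unfold ww
    norm_num
    calc (1 / 2 : ℝ) ^ (m + 2) ≤ (1 / 2) ^ 1 :=
          pow_le_pow_of_le_one (by norm_num) (by norm_num) (by omega)
      _ = 1 / 2 := by norm_num
  rw [pow_zero, one_pow, one_mul]
  linarith

/-! ### The primitive of the field -/

def uu (m j : ℕ) (x : ℝ) : ℝ := ∑' k, Pk m k j x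

lemma summable_Pk {m : ℕ} (hm : 1 ≤ m) (j : ℕ) (x : ℝ) : Summable fun k => Pk m k j x :=
  Summable.of_nonneg_of_le (fun k => Pk_nonneg m k j x) (fun k => Pk_le m k j x)
    (summable_term hm j)

lemma uu_nonneg (m j : ℕ) (x : ℝ) : 0 ≤ uu m j x := tsum_nonneg fun k => Pk_nonneg m k j x

lemma uu_le {m : ℕ} (hm : 1 ≤ m) (j : ℕ) (x : ℝ) : uu m j x ≤ II m j :=
  (summable_Pk hm j x).tsum_le_tsum (fun k => Pk_le m k j x) (summable_term hm j)

lemma uu_of_le (m j : ℕ) {x : ℝ} (h : x ≤ 0) : uu m j x = 0 := by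
  unfold uu
  simp_rw [fun k => Pk_of_le m k j h]
  exact tsum_zero

lemma uu_of_ge (m j : ℕ) {x : ℝ} (h : Lam j ≤ x) : uu m j x = II m j := by
  unfold uu II
  exact tsum_congr fun k => Pk_of_ge m k j h

lemma uu_xs {m : ℕ} (hm : 1 ≤ m) (j : ℕ) {a : ℕ → ℝ} (ha : ∀ n, a n = 0 ∨ a n = 1) :
    uu m j (xs a j) = a j * bb m j + uu m (j + 1) (xs a (j + 1)) := by
  unfold uu
  rw [(summable_Pk hm j _).tsum_eq_zero_add, Pk_xs_zero m j ha]
  have h1 : ∑' k, Pk m (k + 1) j (xs a j) =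
      a j * II m (j + 1) + ∑' k, Pk m k (j + 1) (xs a (j + 1)) := by
    unfold II
    rw [← tsum_mul_left, ← ((summable_term hm (j + 1)).mul_left (a j)).tsum_add
      (summable_Pk hm (j + 1) _)]
    exact tsum_congr fun k => Pk_xs_succ m k j ha
  rw [h1]
  unfold bb
  ring

lemma uu_xs_zero {m : ℕ} (hm : 1 ≤ m) {a : ℕ → ℝ} (ha : ∀ n, a n = 0 ∨ a n = 1) :
    HasSum (fun n => a n * bb m n) (uu m 0 (xs a 0)) := by
  have hnn : ∀ n, 0 ≤ a n * bb m n := fun n => by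
    rcases ha n with h | h <;> rw [h] <;> simp [(bb_pos m _).le]
  rw [hasSum_iff_tendsto_nat_of_nonneg hnn]
  have h0 : ∀ n, ∑ i ∈ Finset.range n, a i * bb m i = uu m 0 (xs a 0) - uu m n (xs a n) := by
    intro n
    induction n with
    | zero => simp
    | succ n ih =>
      rw [Finset.sum_range_succ, ih, uu_xs hm n ha]
      ring
  have h1 : Tendsto (fun n => uu m n (xs a n)) atTop (𝓝 0) :=
    squeeze_zero (fun n => uu_nonneg m n _) (fun n => uu_le hm n _) (tendsto_II hm)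
  have h2 := h1.const_sub (uu m 0 (xs a 0))
  rw [sub_zero] at h2
  exact h2.congr fun n => (h0 n).symm

/-! ### Smoothness -/

lemma exists_bound_B (i : ℕ) : ∃ C : ℝ, 0 ≤ C ∧ ∀ x, ‖iteratedDeriv i B x‖ ≤ C := by
  have h1 : HasCompactSupport (iteratedDeriv i B) := by
    have := hasCompactSupport_B.iteratedFDeriv (𝕜 := ℝ) i
    rw [iteratedDeriv_eq_equiv_comp]
    exact this.comp_left (by simp)
  have h2 : Continuous (iteratedDeriv i B) :=
    (contDiff_B (n := i)).continuous_iteratedDeriv i le_rfl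
  obtain ⟨C, hC⟩ := h1.exists_bound_of_continuous h2
  exact ⟨C, (norm_nonneg _).trans (hC 0), hC⟩

def CB (i : ℕ) : ℝ := (exists_bound_B i).choose

lemma CB_nonneg (i : ℕ) : 0 ≤ CB i := (exists_bound_B i).choose_spec.1

lemma le_CB (i : ℕ) (x : ℝ) : ‖iteratedDeriv i B x‖ ≤ CB i := (exists_bound_B i).choose_spec.2 x

lemma contDiff_Fk (m k : ℕ) : ∀ (j : ℕ) {n : ℕ∞}, ContDiff ℝ n (Fk m k j) := by
  induction k with
  | zero =>
    intro j n
    exact contDiff_const.mul (contDiff_B.comp (contDiff_const.mul (contDiff_id.sub contDiff_const)))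
  | succ k ih =>
    intro j n
    exact (ih (j + 1)).add ((ih (j + 1)).comp (contDiff_id.sub contDiff_const))

lemma iteratedDeriv_Fk_lt (m k j i : ℕ) {x : ℝ} (hx : x < 0) :
    iteratedDeriv i (Fk m k j) x = 0 := by
  have h1 : Fk m k j =ᶠ[𝓝 x] fun _ => (0:ℝ) := by
    filter_upwards [gt_mem_nhds hx] with y hy
    exact Fk_of_le m k j (le_of_lt hy)
  rw [h1.iteratedDeriv_eq i, iteratedDeriv_const]
  split_ifs <;> rfl

lemma iteratedDeriv_Fk_gt (m k j i : ℕ) {x : ℝ} (hx : Lam j < x) :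
    iteratedDeriv i (Fk m k j) x = 0 := by
  have h1 : Fk m k j =ᶠ[𝓝 x] fun _ => (0:ℝ) := by
    filter_upwards [lt_mem_nhds hx] with y hy
    exact Fk_of_ge m k j (le_of_lt hy)
  rw [h1.iteratedDeriv_eq i, iteratedDeriv_const]
  split_ifs <;> rfl

lemma iteratedDeriv_Fk_le (m i k : ℕ) : ∀ (j : ℕ) (x : ℝ),
    ‖iteratedDeriv i (Fk m k j) x‖ ≤ CB i * (hh m (j + k) * (ell (j + k))⁻¹ ^ i) := by
  induction k with
  | zero =>
    intro j x
    have h1 : iteratedDeriv i (Fk m 0 j) x =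
        hh m j * ((ell j)⁻¹ ^ i * iteratedDeriv i B ((ell j)⁻¹ * (x - Lam (j + 1)))) := by
      have h2 : Fk m 0 j = fun x => hh m j *
          (fun y => B ((ell j)⁻¹ * y)) (x - Lam (j + 1)) := rfl
      rw [h2, iteratedDeriv_const_mul_field]
      congr 1
      rw [iteratedDeriv_comp_sub_const i (fun y => B ((ell j)⁻¹ * y))]
      rw [iteratedDeriv_comp_const_mul (contDiff_B (n := i))]
    rw [h1, norm_mul, norm_mul, Real.norm_of_nonneg (hh_pos m j).le,
      Real.norm_of_nonneg (by have := ell_pos j; positivity)]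
    have h2 := le_CB i ((ell j)⁻¹ * (x - Lam (j + 1)))
    have h3 := hh_pos m j
    have h4 := ell_pos j
    calc hh m j * ((ell j)⁻¹ ^ i * ‖iteratedDeriv i B ((ell j)⁻¹ * (x - Lam (j + 1)))‖)
        ≤ hh m j * ((ell j)⁻¹ ^ i * CB i) := by gcongr
      _ = _ := by rw [add_zero]; ring
  | succ k ih =>
    intro j x
    have h1 : iteratedDeriv i (Fk m (k + 1) j) x =
        iteratedDeriv i (Fk m k (j + 1)) x + iteratedDeriv i (Fk m k (j + 1)) (x - bet j) := by
      have h2 : Fk m (k + 1) j = fun x => Fk m k (j + 1) x + Fk m k (j + 1) (x - bet j) := rfl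
      rw [h2]
      have h3 := iteratedDeriv_fun_add (n := i) (x := x) (f := Fk m k (j + 1))
        (g := fun x => Fk m k (j + 1) (x - bet j))
        ((contDiff_Fk m k (j + 1) (n := i)).contDiffAt)
        (((contDiff_Fk m k (j + 1) (n := i)).comp
          (contDiff_id.sub contDiff_const)).contDiffAt)
      rw [h3, iteratedDeriv_comp_sub_const]
    have e : j + (k + 1) = j + 1 + k := by ring
    rw [h1, e]
    rcases le_or_gt x (Lam (j + 1)) with h | h
    · rw [iteratedDeriv_Fk_lt m k (j + 1) i (x := x - bet j), add_zero]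
      · exact ih (j + 1) x
      · unfold bet; linarith [ell_pos j]
    · rw [iteratedDeriv_Fk_gt m k (j + 1) i h, zero_add]
      exact ih (j + 1) _

def dd (k : ℕ) : ℝ := 1 / (((k:ℝ) + 1) * ((k:ℝ) + 2))

lemma summable_dd : Summable dd := by
  have h1 : Summable fun k : ℕ => 1 / ((k + 1 : ℕ):ℝ) ^ 2 :=
    (summable_nat_add_iff (f := fun k : ℕ => 1 / (k:ℝ) ^ 2) 1).2
      (Real.summable_one_div_nat_pow.2 (by norm_num))
  refine Summable.of_nonneg_of_le (fun k => by unfold dd; positivity) (fun k => ?_) h1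
  unfold dd
  apply one_div_le_one_div_of_le (by positivity)
  push_cast
  nlinarith [k.cast_nonneg (α := ℝ)]

lemma hh_bound {m i : ℕ} (hi : i ≤ m) (k : ℕ) : hh m k * (ell k)⁻¹ ^ i ≤ dd k := by
  unfold hh dd
  have h1 := ell_pos k
  have h2 : ell k ^ m * (ell k)⁻¹ ^ i = ell k ^ (m - i) := by
    rw [inv_pow, ← div_eq_mul_inv, pow_sub₀ _ h1.ne' hi, div_eq_mul_inv]
  rw [mul_assoc, h2]
  have h3 : ell k ^ (m - i) ≤ 1 := pow_le_one₀ h1.le (ell_le_one k)
  have h4 : (0:ℝ) < 1 / (((k:ℝ) + 1) * ((k:ℝ) + 2)) := by positivity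
  nlinarith

lemma iteratedDeriv_Fk_le' {m i : ℕ} (hi : i ≤ m) (k : ℕ) (x : ℝ) :
    ‖iteratedDeriv i (Fk m k 0) x‖ ≤ CB i * dd k := by
  refine (iteratedDeriv_Fk_le m i k 0 x).trans ?_
  rw [zero_add]
  exact mul_le_mul_of_nonneg_left (hh_bound hi k) (CB_nonneg i)

def Fs (m : ℕ) (x : ℝ) : ℝ := ∑' k, Fk m k 0 x

lemma contDiff_Fs (m : ℕ) : ContDiff ℝ m (Fs m) := by
  have : ContDiff ℝ ((m : ℕ∞) : WithTop ℕ∞) (Fs m) := by
    refine contDiff_tsum (v := fun i k => CB i * dd k) (fun k => contDiff_Fk m k 0)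
      (fun i _ => summable_dd.mul_left _) (fun i k x hi => ?_)
    rw [norm_iteratedFDeriv_eq_norm_iteratedDeriv]
    exact iteratedDeriv_Fk_le' (by exact_mod_cast hi) k x
  exact this

lemma norm_Fk_le (m k : ℕ) (x : ℝ) : ‖Fk m k 0 x‖ ≤ CB 0 * dd k := by
  have := iteratedDeriv_Fk_le' (Nat.zero_le m) k x
  rwa [iteratedDeriv_zero] at this

lemma summable_Fk (m : ℕ) (x : ℝ) : Summable fun k => Fk m k 0 x :=
  Summable.of_norm_bounded (summable_dd.mul_left _) fun k => norm_Fk_le m k x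

lemma hasDerivAt_uu {m : ℕ} (hm : 1 ≤ m) (x : ℝ) : HasDerivAt (uu m 0) (Fs m x) x :=
  hasDerivAt_tsum (u := fun k => CB 0 * dd k) (summable_dd.mul_left _)
    (fun k y => hasDerivAt_Pk m k 0 y) (fun k y => norm_Fk_le m k y) (summable_Pk hm 0 0) x

lemma Fs_nonneg (m : ℕ) (x : ℝ) : 0 ≤ Fs m x := tsum_nonneg fun k => Fk_nonneg m k 0 x

lemma Fs_of_le (m : ℕ) {x : ℝ} (h : x ≤ 0) : Fs m x = 0 := by
  unfold Fs
  simp_rw [fun k => Fk_of_le m k 0 h]
  exact tsum_zero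

lemma Fs_of_ge (m : ℕ) {x : ℝ} (h : 2 ≤ x) : Fs m x = 0 := by
  unfold Fs
  have h' : Lam 0 ≤ x := by rwa [Lam_zero]
  simp_rw [fun k => Fk_of_ge m k 0 h']
  exact tsum_zero

lemma Fs_xs (m : ℕ) {a : ℕ → ℝ} (ha : ∀ n, a n = 0 ∨ a n = 1) : Fs m (xs a 0) = 0 := by
  unfold Fs
  simp_rw [fun k => Fk_xs m k 0 ha]
  exact tsum_zero

lemma hasCompactSupport_Fs (m : ℕ) : HasCompactSupport (Fs m) :=
  HasCompactSupport.intro (isCompact_Icc (a := (0:ℝ)) (b := 2)) fun x hx => by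
    rw [mem_Icc, not_and_or, not_le, not_le] at hx
    rcases hx with h | h
    · exact Fs_of_le m h.le
    · exact Fs_of_ge m h.le

lemma exists_lipschitz_Fs {m : ℕ} (hm : 1 ≤ m) : ∃ K, LipschitzWith K (Fs m) := by
  have h : ContDiff ℝ 1 (Fs m) := (contDiff_Fs m).of_le (by exact_mod_cast hm)
  exact h.lipschitzWith_of_hasCompactSupport (hasCompactSupport_Fs m) one_ne_zero

lemma exists_bound_Fs (m : ℕ) : ∃ C, ∀ x, ‖Fs m x‖ ≤ C :=
  (hasCompactSupport_Fs m).exists_bound_of_continuous (contDiff_Fs m).continuous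

end

end Pool.Agent.H664.CantorField
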