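import Mathlib

open Topology Filter Set MeasureTheory

namespace Pool.Agent.H664.CascadeH

noncomputable section

/-! ### A lower bound for the dimension of a product of a thick Cantor set and an interval -/

lemma one_add_le_dimH {ψ : ℝ → ℝ} (hψ : Measurable ψ) {s C : ℝ} (hs : 0 < s) (hC : 0 < C)
    (hψ' : ∀ t ∈ Ico (0:ℝ) 1, ∀ t' ∈ Ico (0:ℝ) 1, |t - t'| ≤ C * |ψ t - ψ t'| ^ s)
    {a b : ℝ} (hab : a < b) {E : Set (ℝ × ℝ)}
    (hE : ∀ t ∈ Ico (0:ℝ) 1, ∀ y ∈ Icc a b, (ψ t, y) ∈ E) :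
    ENNReal.ofReal (1 + s) ≤ dimH E := by
  set Ψ : ℝ × ℝ → ℝ × ℝ := fun p => (ψ p.1, p.2) with hΨ
  have hΨm : Measurable Ψ := (hψ.comp measurable_fst).prodMk measurable_snd
  set ν : Measure (ℝ × ℝ) := volume.restrict (Ico (0:ℝ) 1 ×ˢ Icc a b) with hν
  set μ : Measure (ℝ × ℝ) := ν.map Ψ with hμ
  have key : ∀ A : Set (ℝ × ℝ), μ A ≤ ENNReal.ofReal C * Metric.ediam A ^ (1 + s) := by
    intro A
    set D := Metric.ediam A with hD
    have hD' : Metric.ediam (closure A) = D := Metric.ediam_closure A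
    set P : Set ℝ := {t | t ∈ Ico (0:ℝ) 1 ∧ ∃ y, (ψ t, y) ∈ closure A} with hP
    set Q : Set ℝ := Prod.snd '' (closure A) with hQ
    have h1 : μ A ≤ volume (P ×ˢ Q) := by
      calc μ A ≤ μ (closure A) := measure_mono subset_closure
        _ = ν (Ψ ⁻¹' closure A) := Measure.map_apply hΨm isClosed_closure.measurableSet
        _ = volume (Ψ ⁻¹' closure A ∩ (Ico (0:ℝ) 1 ×ˢ Icc a b)) :=
            Measure.restrict_apply (hΨm isClosed_closure.measurableSet)
        _ ≤ volume (P ×ˢ Q) := by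
            apply measure_mono
            rintro ⟨t, y⟩ ⟨h1, h2⟩
            exact ⟨⟨h2.1, y, h1⟩, ⟨_, h1, rfl⟩⟩
    have h2 : volume Q ≤ D := by
      refine (Real.volume_le_diam Q).trans ?_
      rw [← hD']
      refine Metric.ediam_le ?_
      rintro _ ⟨p, hp, rfl⟩ _ ⟨q, hq, rfl⟩
      calc edist p.2 q.2 ≤ edist p q := by
            rw [Prod.edist_eq]; exact le_max_right _ _
        _ ≤ _ := Metric.edist_le_ediam_of_mem hp hq
    have h3 : volume P ≤ ENNReal.ofReal C * D ^ s := by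
      refine (Real.volume_le_diam P).trans ?_
      refine Metric.ediam_le ?_
      rintro t ⟨ht, y, hy⟩ t' ⟨ht', y', hy'⟩
      have h4 : edist (ψ t) (ψ t') ≤ D := by
        rw [← hD']
        calc edist (ψ t) (ψ t') ≤ edist (ψ t, y) (ψ t', y') := by
              rw [Prod.edist_eq]; exact le_max_left _ _
          _ ≤ _ := Metric.edist_le_ediam_of_mem hy hy'
      calc edist t t' = ENNReal.ofReal |t - t'| := by
            rw [edist_dist, Real.dist_eq]
        _ ≤ ENNReal.ofReal (C * |ψ t - ψ t'| ^ s) := ENNReal.ofReal_le_ofReal (hψ' t ht t' ht')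
        _ = ENNReal.ofReal C * (edist (ψ t) (ψ t')) ^ s := by
            rw [ENNReal.ofReal_mul hC.le, edist_dist, Real.dist_eq,
              ENNReal.ofReal_rpow_of_nonneg (abs_nonneg _) hs.le]
        _ ≤ _ := by gcongr
    calc μ A ≤ volume (P ×ˢ Q) := h1
      _ = volume P * volume Q := by rw [Measure.volume_eq_prod, Measure.prod_prod]
      _ ≤ (ENNReal.ofReal C * D ^ s) * D := by gcongr
      _ = ENNReal.ofReal C * D ^ (1 + s) := by
          rw [ENNReal.rpow_add_of_nonneg _ _ zero_le_one hs.le, ENNReal.rpow_one]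
          ring
  have hC0 : ENNReal.ofReal C ≠ 0 := by simpa using hC
  have hCt : ENNReal.ofReal C ≠ ⊤ := ENNReal.ofReal_ne_top
  have hle : (ENNReal.ofReal C)⁻¹ • μ ≤ μH[1 + s] := by
    refine Measure.le_hausdorffMeasure (1 + s) _ 1 one_pos fun A _ => ?_
    rw [Measure.smul_apply, smul_eq_mul]
    calc (ENNReal.ofReal C)⁻¹ * μ A
        ≤ (ENNReal.ofReal C)⁻¹ * (ENNReal.ofReal C * Metric.ediam A ^ (1 + s)) := by
          gcongr; exact key A
      _ = Metric.ediam A ^ (1 + s) := by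
          rw [← mul_assoc, ENNReal.inv_mul_cancel hC0 hCt, one_mul]
  have hμE : 0 < μ E := by
    have h1 : ν (Ψ ⁻¹' E) ≤ μ E := Measure.le_map_apply hΨm.aemeasurable E
    refine lt_of_lt_of_le ?_ h1
    have h2 : (Ico (0:ℝ) 1 ×ˢ Icc a b) ⊆ Ψ ⁻¹' E := by
      rintro ⟨t, y⟩ ⟨ht, hy⟩
      exact hE t ht y hy
    refine lt_of_lt_of_le ?_ (measure_mono h2)
    rw [hν, Measure.restrict_apply_self, Measure.volume_eq_prod, Measure.prod_prod,
      Real.volume_Ico, Real.volume_Icc]
    simp [hab]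
  have hH : μH[1 + s] E ≠ 0 := by
    have h1 := Measure.le_iff'.1 hle E
    rw [Measure.smul_apply, smul_eq_mul] at h1
    have h2 : 0 < (ENNReal.ofReal C)⁻¹ * μ E :=
      ENNReal.mul_pos (ENNReal.inv_ne_zero.2 hCt) hμE.ne'
    exact (lt_of_lt_of_le h2 h1).ne'
  have hcoe : ((Real.toNNReal (1 + s) : NNReal) : ℝ) = 1 + s := Real.coe_toNNReal _ (by linarith)
  have := le_dimH_of_hausdorffMeasure_ne_zero (s := E) (d := Real.toNNReal (1 + s))
    (by rw [hcoe]; exact hH)
  exact this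

/-! ### Digit expansions -/

/-- the `n`-th base `N` digit of `t ∈ [0,1)` -/
def digit (N : ℕ) (n : ℕ) (t : ℝ) : ℤ := ⌊(N:ℝ) ^ (n + 1) * t⌋ % (N : ℤ)

lemma digit_nonneg {N : ℕ} (hN : 0 < N) (n : ℕ) (t : ℝ) : 0 ≤ digit N n t :=
  Int.emod_nonneg _ (by exact_mod_cast hN.ne')

lemma digit_lt {N : ℕ} (hN : 0 < N) (n : ℕ) (t : ℝ) : digit N n t < N :=
  Int.emod_lt_of_pos _ (by exact_mod_cast hN)

lemma measurable_digit (N n : ℕ) : Measurable (fun t : ℝ => ((digit N n t : ℤ) : ℝ)) := by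
  unfold digit
  have h1 : Measurable (fun t : ℝ => ⌊(N:ℝ) ^ (n + 1) * t⌋) :=
    Int.measurable_floor.comp (measurable_const.mul measurable_id)
  have h2 : Measurable (fun k : ℤ => (((k % (N : ℤ)) : ℤ) : ℝ)) := measurable_from_top
  exact h2.comp h1

/-- first differing digit -/
lemma first_digit {N : ℕ} (hN : 2 ≤ N) {t t' : ℝ} (ht : t ∈ Ico (0:ℝ) 1) (ht' : t' ∈ Ico (0:ℝ) 1)
    (hlt : t < t') : ∃ n : ℕ, t' - t ≤ ((N:ℝ) ^ n)⁻¹ ∧ (∀ j < n, digit N j t = digit N j t') ∧
      digit N n t < digit N n t' := by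
  have hN0 : (0:ℝ) < N := by positivity
  have hN1 : (1:ℝ) < N := by exact_mod_cast (by omega : 1 < N)
  -- some floor differs
  have hex : ∃ n : ℕ, ⌊(N:ℝ) ^ (n + 1) * t⌋ ≠ ⌊(N:ℝ) ^ (n + 1) * t'⌋ := by
    obtain ⟨n, hn⟩ := pow_unbounded_of_one_lt (1 / (t' - t)) hN1
    refine ⟨n, fun h => ?_⟩
    have h1 := Int.abs_sub_lt_one_of_floor_eq_floor h
    rw [← mul_sub, abs_mul, abs_sub_comm, abs_of_pos (show 0 < t' - t by linarith),
      abs_of_pos (by positivity)] at h1
    rw [div_lt_iff₀ (by linarith)] at hn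
    have h2 : (N:ℝ) ^ n ≤ (N:ℝ) ^ (n + 1) := pow_le_pow_right₀ hN1.le (Nat.le_succ n)
    nlinarith
  classical
  set n := Nat.find hex with hn
  have hspec := Nat.find_spec hex
  have hmin : ∀ j < n, ⌊(N:ℝ) ^ (j + 1) * t⌋ = ⌊(N:ℝ) ^ (j + 1) * t'⌋ := by
    intro j hj
    by_contra h
    exact Nat.find_min hex hj h
  -- floors at level n agree
  have hfl : ⌊(N:ℝ) ^ n * t⌋ = ⌊(N:ℝ) ^ n * t'⌋ := by
    rcases Nat.eq_zero_or_pos n with h0 | h0
    · rw [h0, pow_zero, one_mul, one_mul, Int.floor_eq_zero_iff.2 ht, Int.floor_eq_zero_iff.2 ht']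
    · have := hmin (n - 1) (by omega)
      rwa [Nat.sub_add_cancel h0] at this
  refine ⟨n, ?_, ?_, ?_⟩
  · have h1 := Int.abs_sub_lt_one_of_floor_eq_floor hfl
    rw [← mul_sub, abs_mul, abs_sub_comm, abs_of_pos (show 0 < t' - t by linarith),
      abs_of_pos (by positivity)] at h1
    rw [← one_div, le_div_iff₀ (by positivity)]
    linarith
  · intro j hj
    unfold digit
    rw [hmin j hj]
  · have hle : ⌊(N:ℝ) ^ (n + 1) * t⌋ ≤ ⌊(N:ℝ) ^ (n + 1) * t'⌋ := by
      apply Int.floor_le_floor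
      gcongr
    have hlt2 : ⌊(N:ℝ) ^ (n + 1) * t⌋ < ⌊(N:ℝ) ^ (n + 1) * t'⌋ := lt_of_le_of_ne hle hspec
    have hdiv : ∀ x : ℝ, ⌊(N:ℝ) ^ (n + 1) * x⌋ / (N:ℤ) = ⌊(N:ℝ) ^ n * x⌋ := by
      intro x
      have h1 := Int.floor_div_natCast ((N:ℝ) ^ (n + 1) * x) N
      rw [← h1]
      congr 1
      rw [pow_succ]
      field_simp
    have e1 := Int.emod_add_mul_ediv ⌊(N:ℝ) ^ (n + 1) * t⌋ (N:ℤ)
    have e2 := Int.emod_add_mul_ediv ⌊(N:ℝ) ^ (n + 1) * t'⌋ (N:ℤ)
    rw [hdiv] at e1 e2
    unfold digit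
    rw [hfl] at e1
    linarith

/-- the expansion `∑ digit_n(t) B_n` -/
def expan (N : ℕ) (B : ℕ → ℝ) (t : ℝ) : ℝ := ∑' n, (digit N n t : ℝ) * B n

lemma summable_expan {N : ℕ} (hN : 2 ≤ N) {B : ℕ → ℝ} (hB0 : ∀ n, 0 < B n) (hB : Summable B)
    (t : ℝ) : Summable (fun n => (digit N n t : ℝ) * B n) := by
  refine Summable.of_norm_bounded (hB.mul_left (N:ℝ)) fun n => ?_
  have h1 := digit_nonneg (N := N) (by omega) n t
  have h2 := digit_lt (N := N) (by omega) n t
  have h1' : (0:ℝ) ≤ digit N n t := by exact_mod_cast h1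
  have h2' : (digit N n t : ℝ) ≤ N := by exact_mod_cast h2.le
  rw [Real.norm_of_nonneg (mul_nonneg h1' (hB0 n).le)]
  exact mul_le_mul_of_nonneg_right h2' (hB0 n).le

lemma measurable_expan {N : ℕ} (hN : 2 ≤ N) {B : ℕ → ℝ} (hB0 : ∀ n, 0 < B n) (hB : Summable B) :
    Measurable (expan N B) := by
  refine measurable_of_tendsto_metrizable
    (f := fun k t => ∑ n ∈ Finset.range k, (digit N n t : ℝ) * B n) (fun k => ?_) ?_
  · exact Finset.measurable_sum _ fun n _ => (measurable_digit N n).mul_const _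
  · rw [tendsto_pi_nhds]
    intro t
    exact (summable_expan hN hB0 hB t).hasSum.tendsto_sum_nat

lemma expan_lower {N : ℕ} (hN : 2 ≤ N) {B : ℕ → ℝ} (hB0 : ∀ n, 0 < B n) (hB : Summable B)
    {n : ℕ} {t t' : ℝ} (heq : ∀ j < n, digit N j t = digit N j t')
    (hlt : digit N n t < digit N n t') :
    B n - (N - 1) * ∑' j, B (j + (n + 1)) ≤ expan N B t' - expan N B t := by
  have hS := summable_expan hN hB0 hB t
  have hS' := summable_expan hN hB0 hB t'
  have hBn : Summable (fun j => B (j + (n + 1))) := (summable_nat_add_iff (n + 1)).2 hB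
  have h1 : expan N B t' - expan N B t =
      ∑' j, ((digit N j t' : ℝ) * B j - (digit N j t : ℝ) * B j) := by
    rw [hS'.tsum_sub hS]; rfl
  have hSd := hS'.sub hS
  rw [h1, ← hSd.sum_add_tsum_nat_add (n + 1), Finset.sum_range_succ]
  have h2 : ∑ j ∈ Finset.range n, ((digit N j t' : ℝ) * B j - (digit N j t : ℝ) * B j) = 0 := by
    apply Finset.sum_eq_zero
    intro j hj
    rw [heq j (Finset.mem_range.1 hj), sub_self]
  have h3 : B n ≤ (digit N n t' : ℝ) * B n - (digit N n t : ℝ) * B n := by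
    have : (digit N n t : ℝ) + 1 ≤ digit N n t' := by exact_mod_cast hlt
    nlinarith [hB0 n]
  have h4 : -((N - 1) * ∑' j, B (j + (n + 1))) ≤
      ∑' j, ((digit N (j + (n + 1)) t' : ℝ) * B (j + (n + 1)) -
        (digit N (j + (n + 1)) t : ℝ) * B (j + (n + 1))) := by
    rw [← tsum_mul_left, ← tsum_neg]
    refine Summable.tsum_le_tsum (fun j => ?_) (hBn.mul_left _).neg
      ((summable_nat_add_iff (f := fun j => (digit N j t' : ℝ) * B j -
        (digit N j t : ℝ) * B j) (n + 1)).2 hSd)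
    have e1 := digit_nonneg (N := N) (by omega) (j + (n + 1)) t'
    have e2 := digit_lt (N := N) (by omega) (j + (n + 1)) t
    have e1' : (0:ℝ) ≤ digit N (j + (n + 1)) t' := by exact_mod_cast e1
    have e2' : (digit N (j + (n + 1)) t : ℝ) ≤ N - 1 := by
      have : digit N (j + (n + 1)) t ≤ N - 1 := by omega
      exact_mod_cast this
    nlinarith [hB0 (j + (n + 1))]
  rw [h2]
  linarith

/-- dimension bound from expansions -/
lemma dimH_of_expan {N : ℕ} (hN : 2 ≤ N) {B κ : ℕ → ℝ} (hB0 : ∀ n, 0 < B n) (hB : Summable B)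
    (hκ0 : ∀ n, 0 < κ n) (hκ : ∀ n, κ n ≤ B n - (N - 1) * ∑' j, B (j + (n + 1)))
    {s C : ℝ} (hs : 0 < s) (hC : 0 < C) (hsc : ∀ n : ℕ, ((N:ℝ) ^ n)⁻¹ ≤ C * (κ n) ^ s)
    (c0 : ℝ) {a b : ℝ} (hab : a < b) {E : Set (ℝ × ℝ)}
    (hE : ∀ t ∈ Ico (0:ℝ) 1, ∀ y ∈ Icc a b, (c0 + expan N B t, y) ∈ E) :
    ENNReal.ofReal (1 + s) ≤ dimH E := by
  have hlow : ∀ t ∈ Ico (0:ℝ) 1, ∀ t' ∈ Ico (0:ℝ) 1, t < t' →
      |t - t'| ≤ C * |(c0 + expan N B t) - (c0 + expan N B t')| ^ s := by
    intro t ht t' ht' hlt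
    obtain ⟨n, h1, h2, h3⟩ := first_digit hN ht ht' hlt
    have h4 := (hκ n).trans (expan_lower hN hB0 hB h2 h3)
    have h5 : κ n ≤ |(c0 + expan N B t) - (c0 + expan N B t')| := by
      rw [abs_sub_comm]
      refine le_trans ?_ (le_abs_self _)
      linarith
    calc |t - t'| = t' - t := by rw [abs_sub_comm, abs_of_pos (by linarith)]
      _ ≤ ((N:ℝ) ^ n)⁻¹ := h1
      _ ≤ C * (κ n) ^ s := hsc n
      _ ≤ _ := by
        gcongr
        exact (hκ0 n).le
  refine one_add_le_dimH (ψ := fun t => c0 + expan N B t)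
    (measurable_const.add (measurable_expan hN hB0 hB)) hs hC ?_ hab hE
  intro t ht t' ht'
  rcases lt_trichotomy t t' with h | h | h
  · exact hlow t ht t' ht' h
  · subst h
    simp only [sub_self, abs_zero]
    rw [Real.zero_rpow hs.ne']; simp
  · rw [abs_sub_comm, abs_sub_comm (c0 + expan N B t)]
    exact hlow t' ht' t ht h

/-! ### Smooth building blocks -/

/-- smooth sign: `1` for `x ≥ 1`, `-1` for `x ≤ -1` -/
def T (x : ℝ) : ℝ := 2 * Real.smoothTransition ((x + 1) / 2) - 1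

lemma contDiff_T : ContDiff ℝ ((⊤ : ℕ∞) : WithTop ℕ∞) T := by
  unfold T
  exact (contDiff_const.mul (Real.smoothTransition.contDiff.comp
    ((contDiff_id.add contDiff_const).div_const 2))).sub contDiff_const

lemma T_of_one_le {x : ℝ} (h : 1 ≤ x) : T x = 1 := by
  unfold T
  rw [Real.smoothTransition.one_of_one_le (by linarith)]; norm_num

lemma T_of_le_neg {x : ℝ} (h : x ≤ -1) : T x = -1 := by
  unfold T
  rw [Real.smoothTransition.zero_of_nonpos (by linarith)]; norm_num

/-- plateau function: `1` on `[-r, r]`, `0` outside `[-(r+1), r+1]` -/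
def plateau (r x : ℝ) : ℝ :=
  Real.smoothTransition (r + 1 - x) * Real.smoothTransition (r + 1 + x)

lemma contDiff_plateau (r : ℝ) : ContDiff ℝ ((⊤ : ℕ∞) : WithTop ℕ∞) (plateau r) :=
  (Real.smoothTransition.contDiff.comp (contDiff_const.sub contDiff_id)).mul
    (Real.smoothTransition.contDiff.comp (contDiff_const.add contDiff_id))

lemma plateau_one {r x : ℝ} (h : |x| ≤ r) : plateau r x = 1 := by
  unfold plateau
  have := abs_le.1 h
  rw [Real.smoothTransition.one_of_one_le (by linarith),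
    Real.smoothTransition.one_of_one_le (by linarith), one_mul]

lemma plateau_zero {r x : ℝ} (h : r + 1 ≤ |x|) : plateau r x = 0 := by
  unfold plateau
  rcases le_abs'.1 h with h | h
  · rw [Real.smoothTransition.zero_of_nonpos (x := r + 1 + x) (by linarith), mul_zero]
  · rw [Real.smoothTransition.zero_of_nonpos (x := r + 1 - x) (by linarith), zero_mul]

lemma plateau_nonneg (r x : ℝ) : 0 ≤ plateau r x :=
  mul_nonneg (Real.smoothTransition.nonneg _) (Real.smoothTransition.nonneg _)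

lemma plateau_le_one (r x : ℝ) : plateau r x ≤ 1 :=
  mul_le_one₀ (Real.smoothTransition.le_one _) (Real.smoothTransition.nonneg _)
    (Real.smoothTransition.le_one _)

lemma plateau_neg (r x : ℝ) : plateau r (-x) = plateau r x := by
  unfold plateau
  rw [sub_neg_eq_add, ← sub_eq_add_neg, mul_comm]

/-- gluing of functions supported in `[-21, 21]` along the points `50 k` -/
def glue (F : ℤ → ℝ → ℝ) (x : ℝ) : ℝ := F (round (x / 50)) (x - 50 * round (x / 50))

lemma glue_eq {F : ℤ → ℝ → ℝ} (hF : ∀ k z, 21 ≤ |z| → F k z = 0) {k : ℤ} {x : ℝ}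
    (h : |x - 50 * k| < 29) : glue F x = F k (x - 50 * k) := by
  unfold glue
  by_cases hk : round (x / 50) = k
  · rw [hk]
  · have h1 : |x / 50 - round (x / 50)| ≤ 1 / 2 := abs_sub_round _
    have h2 : |x - 50 * round (x / 50)| ≤ 25 := by
      have : x - 50 * round (x / 50) = 50 * (x / 50 - round (x / 50)) := by ring
      rw [this, abs_mul, abs_of_pos (by norm_num : (0:ℝ) < 50)]
      linarith
    have h3 : (1:ℝ) ≤ |(round (x / 50) : ℝ) - k| := by
      have : (1:ℤ) ≤ |round (x / 50) - k| := Int.one_le_abs (sub_ne_zero.2 hk)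
      exact_mod_cast this
    have h4 : (50:ℝ) ≤ |50 * (round (x / 50) : ℝ) - 50 * k| := by
      rw [← mul_sub, abs_mul, abs_of_pos (by norm_num : (0:ℝ) < 50)]
      linarith
    have h5 : |50 * (round (x / 50) : ℝ) - 50 * k| ≤ |x - 50 * round (x / 50)| + |x - 50 * k| := by
      have : 50 * (round (x / 50) : ℝ) - 50 * k = -(x - 50 * round (x / 50)) + (x - 50 * k) := by
        ring
      rw [this]
      refine (abs_add_le _ _).trans ?_
      rw [abs_neg]
    rw [hF _ _ (by linarith), hF _ _ (by linarith)]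

lemma contDiff_glue {F : ℤ → ℝ → ℝ} (hF : ∀ k z, 21 ≤ |z| → F k z = 0) {n : WithTop ℕ∞}
    (hs : ∀ k, ContDiff ℝ n (F k)) : ContDiff ℝ n (glue F) := by
  rw [contDiff_iff_contDiffAt]
  intro x
  set k := round (x / 50) with hk
  have h1 : |x / 50 - k| ≤ 1 / 2 := abs_sub_round _
  have h2 : |x - 50 * k| ≤ 25 := by
    have : x - 50 * k = 50 * (x / 50 - k) := by ring
    rw [this, abs_mul, abs_of_pos (by norm_num : (0:ℝ) < 50)]
    linarith
  have h3 : glue F =ᶠ[𝓝 x] fun z => F k (z - 50 * k) := by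
    have hopen : IsOpen {z : ℝ | |z - 50 * k| < 29} := by
      apply isOpen_lt <;> fun_prop
    filter_upwards [hopen.mem_nhds (show |x - 50 * k| < 29 by linarith)] with z hz
    exact glue_eq hF hz
  refine ContDiffAt.congr_of_eventuallyEq ?_ h3
  exact ((hs k).comp (contDiff_id.sub contDiff_const)).contDiffAt

lemma exists_close (x : ℝ) : |x - 50 * (round (x / 50) : ℤ)| ≤ 25 := by
  have h1 : |x / 50 - round (x / 50)| ≤ 1 / 2 := abs_sub_round _
  have : x - 50 * (round (x / 50) : ℤ) = 50 * (x / 50 - round (x / 50)) := by ring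
  rw [this, abs_mul, abs_of_pos (by norm_num : (0:ℝ) < 50)]
  linarith

lemma hasDerivAt_glue {F F' : ℤ → ℝ → ℝ} (hF : ∀ k z, 21 ≤ |z| → F k z = 0)
    (hF' : ∀ k z, 21 ≤ |z| → F' k z = 0)
    (hd : ∀ k z, HasDerivAt (F k) (F' k z) z) (x : ℝ) : HasDerivAt (glue F) (glue F' x) x := by
  set k := round (x / 50) with hk
  have h2 : |x - 50 * k| ≤ 25 := exists_close x
  have h3 : glue F =ᶠ[𝓝 x] fun z => F k (z - 50 * k) := by
    have hopen : IsOpen {z : ℝ | |z - 50 * k| < 29} := by
      apply isOpen_lt <;> fun_prop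
    filter_upwards [hopen.mem_nhds (show |x - 50 * k| < 29 by linarith)] with z hz
    exact glue_eq hF hz
  refine HasDerivAt.congr_of_eventuallyEq ?_ h3
  rw [glue_eq hF' (show |x - 50 * k| < 29 by linarith)]
  exact (hd k (x - 50 * k)).comp_sub_const x (50 * k)

lemma contDiff_plateau' (r : ℝ) : Continuous (plateau r) := (contDiff_plateau r).continuous

lemma int_plateau_one : ∫ x in (0:ℝ)..25, plateau 1 x ≤ 2 := by
  have h1 : ∫ x in (0:ℝ)..25, plateau 1 x =
      (∫ x in (0:ℝ)..2, plateau 1 x) + ∫ x in (2:ℝ)..25, plateau 1 x :=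
    (intervalIntegral.integral_add_adjacent_intervals
      ((contDiff_plateau' 1).intervalIntegrable _ _)
      ((contDiff_plateau' 1).intervalIntegrable _ _)).symm
  have h2 : ∫ x in (2:ℝ)..25, plateau 1 x = 0 := by
    rw [intervalIntegral.integral_congr (g := fun _ => (0:ℝ))]
    · simp
    · intro x hx
      rw [uIcc_of_le (by norm_num)] at hx
      apply plateau_zero
      rw [abs_of_nonneg (by linarith [hx.1])]
      linarith [hx.1]
  have h3 : ∫ x in (0:ℝ)..2, plateau 1 x ≤ ∫ _x in (0:ℝ)..2, (1:ℝ) :=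
    intervalIntegral.integral_mono_on (by norm_num)
      ((contDiff_plateau' 1).intervalIntegrable _ _) (by simp) (fun x _ => plateau_le_one 1 x)
  simp at h3
  linarith

lemma int_plateau_twenty : 20 ≤ ∫ x in (0:ℝ)..25, plateau 20 x := by
  have h1 : ∫ x in (0:ℝ)..25, plateau 20 x =
      (∫ x in (0:ℝ)..20, plateau 20 x) + ∫ x in (20:ℝ)..25, plateau 20 x :=
    (intervalIntegral.integral_add_adjacent_intervals
      ((contDiff_plateau' 20).intervalIntegrable _ _)
      ((contDiff_plateau' 20).intervalIntegrable _ _)).symm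
  have h2 : ∫ x in (0:ℝ)..20, plateau 20 x = 20 := by
    rw [intervalIntegral.integral_congr (g := fun _ => (1:ℝ))]
    · simp
    · intro x hx
      rw [uIcc_of_le (by norm_num)] at hx
      apply plateau_one
      rw [abs_of_nonneg hx.1]
      exact hx.2
  have h3 : 0 ≤ ∫ x in (20:ℝ)..25, plateau 20 x :=
    intervalIntegral.integral_nonneg (by norm_num) (fun x _ => plateau_nonneg 20 x)
  linarith

/-- balancing constant -/
def kap : ℝ := (∫ x in (0:ℝ)..25, plateau 1 x) / (∫ x in (0:ℝ)..25, plateau 20 x)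

lemma kap_nonneg : 0 ≤ kap := by
  unfold kap
  apply div_nonneg
  · exact intervalIntegral.integral_nonneg (by norm_num) (fun x _ => plateau_nonneg 1 x)
  · linarith [int_plateau_twenty]

lemma kap_le : kap ≤ 1 / 10 := by
  unfold kap
  have h1 := int_plateau_one
  have h2 := int_plateau_twenty
  rw [div_le_iff₀ (by linarith)]
  linarith

/-- smooth even function, `1` on `[-1,1]`, `0` off `[-21,21]`, at least `-1/9`, with zero mean -/
def bet (x : ℝ) : ℝ := (plateau 1 x - kap * plateau 20 x) / (1 - kap)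

lemma contDiff_bet : ContDiff ℝ ((⊤ : ℕ∞) : WithTop ℕ∞) bet :=
  ((contDiff_plateau 1).sub (contDiff_const.mul (contDiff_plateau 20))).div_const _

lemma one_sub_kap : 0 < 1 - kap := by linarith [kap_le]

lemma bet_one {x : ℝ} (h : |x| ≤ 1) : bet x = 1 := by
  unfold bet
  rw [plateau_one h, plateau_one (by linarith), mul_one, div_self one_sub_kap.ne']

lemma bet_zero {x : ℝ} (h : 21 ≤ |x|) : bet x = 0 := by
  unfold bet
  rw [plateau_zero (by linarith), plateau_zero (by linarith)]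
  simp

lemma bet_ge (x : ℝ) : -(1 / 9) ≤ bet x := by
  unfold bet
  rw [le_div_iff₀ one_sub_kap]
  have h1 := plateau_nonneg 1 x
  have h2 := plateau_nonneg 20 x
  have h3 := plateau_le_one 20 x
  have h4 := kap_nonneg
  have h5 := kap_le
  nlinarith

lemma bet_neg (x : ℝ) : bet (-x) = bet x := by
  unfold bet; rw [plateau_neg, plateau_neg]

/-- primitive of `bet` -/
def Z (x : ℝ) : ℝ := ∫ t in (0:ℝ)..x, bet t

lemma hasDerivAt_Z (x : ℝ) : HasDerivAt Z (bet x) x :=
  (contDiff_bet.continuous).integral_hasStrictDerivAt 0 x |>.hasDerivAt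

lemma contDiff_Z : ContDiff ℝ ((⊤ : ℕ∞) : WithTop ℕ∞) Z := by
  rw [contDiff_infty_iff_deriv]
  refine ⟨fun x => (hasDerivAt_Z x).differentiableAt, ?_⟩
  have : deriv Z = bet := by ext x; exact (hasDerivAt_Z x).deriv
  rw [this]
  exact contDiff_bet

lemma Z_eq {x : ℝ} (h : |x| ≤ 1) : Z x = x := by
  unfold Z
  rw [intervalIntegral.integral_congr (g := fun _ => (1:ℝ))]
  · simp
  · intro t ht
    apply bet_one
    have := abs_le.1 h
    rcases le_total 0 x with h0 | h0
    · rw [uIcc_of_le h0] at ht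
      rw [abs_le]; constructor <;> linarith [ht.1, ht.2]
    · rw [uIcc_of_ge h0] at ht
      rw [abs_le]; constructor <;> linarith [ht.1, ht.2]

lemma int_bet : ∫ x in (0:ℝ)..25, bet x = 0 := by
  unfold bet
  rw [intervalIntegral.integral_div, intervalIntegral.integral_sub
    ((contDiff_plateau' 1).intervalIntegrable _ _)
    (((contDiff_plateau' 20).intervalIntegrable _ _).const_mul _),
    intervalIntegral.integral_const_mul]
  have h2 := int_plateau_twenty
  have : kap * ∫ x in (0:ℝ)..25, plateau 20 x = ∫ x in (0:ℝ)..25, plateau 1 x := by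
    unfold kap
    exact div_mul_cancel₀ _ (by linarith)
  rw [this, sub_self, zero_div]

lemma Z_neg (x : ℝ) : Z (-x) = - Z x := by
  unfold Z
  have h1 : ∫ t in (0:ℝ)..x, bet t = ∫ t in (0:ℝ)..x, bet (-t) := by simp only [bet_neg]
  rw [h1, intervalIntegral.integral_comp_neg, neg_zero, intervalIntegral.integral_symm]

lemma Z_zero {x : ℝ} (h : 21 ≤ |x|) : Z x = 0 := by
  have key : ∀ y : ℝ, 21 ≤ y → Z y = 0 := by
    intro y hy
    have h1 : (∫ t in (0:ℝ)..25, bet t) + ∫ t in (25:ℝ)..y, bet t = Z y :=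
      intervalIntegral.integral_add_adjacent_intervals
        (contDiff_bet.continuous.intervalIntegrable _ _)
        (contDiff_bet.continuous.intervalIntegrable _ _)
    have h2 : ∫ t in (25:ℝ)..y, bet t = 0 := by
      rw [intervalIntegral.integral_congr (g := fun _ => (0:ℝ))]
      · simp
      · intro t ht
        apply bet_zero
        rcases le_total 25 y with h0 | h0
        · rw [uIcc_of_le h0] at ht
          rw [abs_of_nonneg (by linarith [ht.1])]; linarith [ht.1]
        · rw [uIcc_of_ge h0] at ht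
          rw [abs_of_nonneg (by linarith [ht.1])]; linarith [ht.1]
    rw [int_bet, h2, add_zero] at h1
    exact h1.symm
  rcases le_abs'.1 h with h | h
  · have := key (-x) (by linarith)
    rw [Z_neg] at this
    linarith
  · exact key x h

/-! ### The area-preserving diffeomorphism -/

/-- parameters -/
def ep (k : ℤ) : ℝ := 1 / (|(k:ℝ)| + 1)

lemma ep_pos (k : ℤ) : 0 < ep k := by unfold ep; positivity

lemma ep_le_one (k : ℤ) : ep k ≤ 1 := by
  unfold ep
  rw [div_le_one (by positivity)]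
  linarith [abs_nonneg (k:ℝ)]

def A (x : ℝ) : ℝ := x + glue (fun k z => (1 + ep k) * Z z) x

def A' (x : ℝ) : ℝ := 1 + glue (fun k z => (1 + ep k) * bet z) x

lemma suppZ : ∀ (k : ℤ) (z : ℝ), 21 ≤ |z| → (1 + ep k) * Z z = 0 := by
  intro k z h; rw [Z_zero h, mul_zero]

lemma suppb : ∀ (k : ℤ) (z : ℝ), 21 ≤ |z| → (1 + ep k) * bet z = 0 := by
  intro k z h; rw [bet_zero h, mul_zero]

lemma hasDerivAt_A (x : ℝ) : HasDerivAt A (A' x) x := by
  unfold A A'
  exact (hasDerivAt_id x).add (hasDerivAt_glue suppZ suppb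
    (fun k z => (hasDerivAt_Z z).const_mul _) x)

lemma contDiff_A : ContDiff ℝ ((⊤ : ℕ∞) : WithTop ℕ∞) A :=
  contDiff_id.add (contDiff_glue suppZ fun _ => contDiff_const.mul contDiff_Z)

lemma contDiff_A' : ContDiff ℝ ((⊤ : ℕ∞) : WithTop ℕ∞) A' :=
  contDiff_const.add (contDiff_glue suppb fun _ => contDiff_const.mul contDiff_bet)

lemma A'_pos (x : ℝ) : 0 < A' x := by
  unfold A' glue
  have h1 := bet_ge (x - 50 * round (x / 50))
  have h2 := ep_pos (round (x / 50))
  have h3 := ep_le_one (round (x / 50))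
  nlinarith

lemma A_near {k : ℤ} {z : ℝ} (h : |z| ≤ 1) : A (50 * k + z) = 50 * k + (2 + ep k) * z := by
  unfold A
  rw [glue_eq suppZ (k := k) (by rw [add_sub_cancel_left]; linarith), add_sub_cancel_left, Z_eq h]
  ring

lemma A'_near {k : ℤ} {z : ℝ} (h : |z| ≤ 1) : A' (50 * k + z) = 2 + ep k := by
  unfold A'
  rw [glue_eq suppb (k := k) (by rw [add_sub_cancel_left]; linarith), add_sub_cancel_left,
    bet_one h]
  ring

lemma strictMono_A : StrictMono A :=
  strictMono_of_deriv_pos fun x => by rw [(hasDerivAt_A x).deriv]; exact A'_pos x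

lemma A_int (k : ℤ) : A (50 * k) = 50 * k := by
  have := A_near (k := k) (z := 0) (by simp)
  simpa using this

lemma surjective_A : Function.Surjective A := by
  intro b
  refine mem_range_of_exists_le_of_exists_ge contDiff_A.continuous
    ⟨50 * ((-⌈|b|⌉ : ℤ) : ℝ), ?_⟩ ⟨50 * ((⌈|b|⌉ : ℤ) : ℝ), ?_⟩
  · rw [A_int]
    push_cast
    have h1 := Int.le_ceil |b|
    have h2 := neg_abs_le b
    have h3 := abs_nonneg b
    linarith
  · rw [A_int]
    have h1 := Int.le_ceil |b|
    have h2 := le_abs_self b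
    have h3 := abs_nonneg b
    linarith

def AH : ℝ ≃ₜ ℝ := (StrictMono.orderIsoOfSurjective A strictMono_A surjective_A).toHomeomorph

lemma AH_apply (x : ℝ) : AH x = A x := rfl

lemma contDiff_AH_symm : ContDiff ℝ ((⊤ : ℕ∞) : WithTop ℕ∞) AH.symm :=
  AH.contDiff_symm_deriv (f' := A') (fun x => (A'_pos x).ne') (fun x => hasDerivAt_A x) contDiff_A

/-- heights: the boxes are `|y| ≤ Rk` and the vertical displacement is `Dk = Rk + 1` -/
def Rk (k : ℤ) : ℝ := 2 / ep k
def Dk (k : ℤ) : ℝ := Rk k + 1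

/-- half-gap between the two strips -/
def del (k : ℤ) : ℝ := ep k / (1 + ep k)

lemma del_pos (k : ℤ) : 0 < del k := div_pos (ep_pos k) (by linarith [ep_pos k])

/-- vertical shear profile -/
def phi (x : ℝ) : ℝ := glue (fun k z => -(Dk k) * T (z / del k) * plateau 2 z) x

lemma suppP : ∀ (k : ℤ) (z : ℝ), 21 ≤ |z| → -(Dk k) * T (z / del k) * plateau 2 z = 0 := by
  intro k z h; rw [plateau_zero (by linarith), mul_zero]

lemma contDiff_phi : ContDiff ℝ ((⊤ : ℕ∞) : WithTop ℕ∞) phi :=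
  contDiff_glue suppP fun k => (contDiff_const.mul (contDiff_T.comp
    (contDiff_id.div_const (del k)))).mul (contDiff_plateau 2)

lemma phi_right {k : ℤ} {z : ℝ} (h1 : del k ≤ z) (h2 : z ≤ 2) : phi (50 * k + z) = - Dk k := by
  unfold phi
  have hd := del_pos k
  have hz : |z| ≤ 2 := by rw [abs_le]; constructor <;> linarith
  rw [glue_eq suppP (k := k) (by rw [add_sub_cancel_left]; linarith), add_sub_cancel_left,
    plateau_one hz, T_of_one_le (by rw [le_div_iff₀ hd]; linarith)]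
  ring

lemma phi_left {k : ℤ} {z : ℝ} (h1 : z ≤ -del k) (h2 : -2 ≤ z) : phi (50 * k + z) = Dk k := by
  unfold phi
  have hd := del_pos k
  have hz : |z| ≤ 2 := by rw [abs_le]; constructor <;> linarith
  rw [glue_eq suppP (k := k) (by rw [add_sub_cancel_left]; linarith), add_sub_cancel_left,
    plateau_one hz, T_of_le_neg (by rw [div_le_iff₀ hd]; linarith)]
  ring

def g1 : Equiv.Perm (ℝ × ℝ) where
  toFun p := (p.1, p.2 + phi p.1)
  invFun p := (p.1, p.2 - phi p.1)
  left_inv p := by ext <;> simp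
  right_inv p := by ext <;> simp

def g2 : Equiv.Perm (ℝ × ℝ) where
  toFun p := (p.1 + T p.2, p.2)
  invFun p := (p.1 - T p.2, p.2)
  left_inv p := by ext <;> simp
  right_inv p := by ext <;> simp

def g3 : Equiv.Perm (ℝ × ℝ) where
  toFun p := (AH p.1, p.2 / A' p.1)
  invFun p := (AH.symm p.1, p.2 * A' (AH.symm p.1))
  left_inv p := by
    ext
    · simp
    · simp only [Homeomorph.symm_apply_apply]
      exact div_mul_cancel₀ _ (A'_pos _).ne'
  right_inv p := by
    ext
    · simp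
    · simp only
      exact mul_div_cancel_right₀ _ (A'_pos _).ne'

/-- the cascade -/
def F : Equiv.Perm (ℝ × ℝ) := g1.trans (g2.trans g3)

lemma F_apply (p : ℝ × ℝ) : F p = g3 (g2 (g1 p)) := rfl

lemma contDiff_F : ContDiff ℝ ((⊤ : ℕ∞) : WithTop ℕ∞) F := by
  have h1 : ContDiff ℝ ((⊤ : ℕ∞) : WithTop ℕ∞) (g1 : ℝ × ℝ → ℝ × ℝ) :=
    contDiff_fst.prodMk (contDiff_snd.add (contDiff_phi.comp contDiff_fst))
  have h2 : ContDiff ℝ ((⊤ : ℕ∞) : WithTop ℕ∞) (g2 : ℝ × ℝ → ℝ × ℝ) :=
    (contDiff_fst.add (contDiff_T.comp contDiff_snd)).prodMk contDiff_snd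
  have h3 : ContDiff ℝ ((⊤ : ℕ∞) : WithTop ℕ∞) (g3 : ℝ × ℝ → ℝ × ℝ) :=
    (contDiff_A.comp contDiff_fst).prodMk (contDiff_snd.div (contDiff_A'.comp contDiff_fst)
      (fun x => (A'_pos _).ne'))
  exact h3.comp (h2.comp h1)

lemma contDiff_F_symm : ContDiff ℝ ((⊤ : ℕ∞) : WithTop ℕ∞) F.symm := by
  have h1 : ContDiff ℝ ((⊤ : ℕ∞) : WithTop ℕ∞) (g1.symm : ℝ × ℝ → ℝ × ℝ) :=
    contDiff_fst.prodMk (contDiff_snd.sub (contDiff_phi.comp contDiff_fst))
  have h2 : ContDiff ℝ ((⊤ : ℕ∞) : WithTop ℕ∞) (g2.symm : ℝ × ℝ → ℝ × ℝ) :=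
    (contDiff_fst.sub (contDiff_T.comp contDiff_snd)).prodMk contDiff_snd
  have h3 : ContDiff ℝ ((⊤ : ℕ∞) : WithTop ℕ∞) (g3.symm : ℝ × ℝ → ℝ × ℝ) :=
    (contDiff_AH_symm.comp contDiff_fst).prodMk (contDiff_snd.mul
      (contDiff_A'.comp (contDiff_AH_symm.comp contDiff_fst)))
  exact h1.comp (h2.comp h3)

/-- determinant of an endomorphism of the plane -/
lemma det_plane (L : (ℝ × ℝ) →L[ℝ] (ℝ × ℝ)) :
    L.det = (L (1, 0)).1 * (L (0, 1)).2 - (L (0, 1)).1 * (L (1, 0)).2 := by
  rw [ContinuousLinearMap.det, ← LinearMap.det_toMatrix (Module.Basis.finTwoProd ℝ),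
    Matrix.det_fin_two]
  simp [LinearMap.toMatrix_apply]

/-- a `C¹` bijection of the plane with unit Jacobian preserves the Lebesgue measure -/
lemma measurePreserving_of_det (g : Equiv.Perm (ℝ × ℝ)) (g' : ℝ × ℝ → (ℝ × ℝ) →L[ℝ] (ℝ × ℝ))
    (hd : ∀ p, HasFDerivAt g (g' p) p) (hdet : ∀ p, (g' p).det = 1) :
    MeasurePreserving g volume volume := by
  have hc : Continuous g := continuous_iff_continuousAt.2 fun p => (hd p).continuousAt
  refine ⟨hc.measurable, ?_⟩
  ext s hs
  rw [Measure.map_apply hc.measurable hs]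
  have h1 := lintegral_abs_det_fderiv_eq_addHaar_image volume (hc.measurable hs)
    (fun p _ => (hd p).hasFDerivWithinAt) (g.injective.injOn (s := g ⁻¹' s))
  rw [image_preimage_eq _ g.surjective] at h1
  rw [← h1]
  simp [hdet]

lemma mp_g1 : MeasurePreserving g1 volume volume := by
  refine measurePreserving_of_det g1 (fun p => (ContinuousLinearMap.fst ℝ ℝ ℝ).prod
    (ContinuousLinearMap.snd ℝ ℝ ℝ + (deriv phi p.1) • ContinuousLinearMap.fst ℝ ℝ ℝ)) ?_ ?_
  · intro p
    have h1 : HasDerivAt phi (deriv phi p.1) p.1 :=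
      (contDiff_phi.differentiable (by simp) p.1).hasDerivAt
    have h2 : HasFDerivAt (fun p : ℝ × ℝ => phi p.1)
        ((deriv phi p.1) • ContinuousLinearMap.fst ℝ ℝ ℝ) p :=
      h1.comp_hasFDerivAt p hasFDerivAt_fst
    exact hasFDerivAt_fst.prodMk (hasFDerivAt_snd.add h2)
  · intro p
    rw [det_plane]
    simp

lemma mp_g2 : MeasurePreserving g2 volume volume := by
  refine measurePreserving_of_det g2 (fun p => (ContinuousLinearMap.fst ℝ ℝ ℝ +
    (deriv T p.2) • ContinuousLinearMap.snd ℝ ℝ ℝ).prod (ContinuousLinearMap.snd ℝ ℝ ℝ)) ?_ ?_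
  · intro p
    have h1 : HasDerivAt T (deriv T p.2) p.2 :=
      (contDiff_T.differentiable (by simp) p.2).hasDerivAt
    have h2 : HasFDerivAt (fun p : ℝ × ℝ => T p.2)
        ((deriv T p.2) • ContinuousLinearMap.snd ℝ ℝ ℝ) p :=
      h1.comp_hasFDerivAt p hasFDerivAt_snd
    exact (hasFDerivAt_fst.add h2).prodMk hasFDerivAt_snd
  · intro p
    rw [det_plane]
    simp

lemma mp_g3 : MeasurePreserving g3 volume volume := by
  refine measurePreserving_of_det g3 (fun p => ((A' p.1) • ContinuousLinearMap.fst ℝ ℝ ℝ).prod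
    ((p.2 * (-(deriv A' p.1) / (A' p.1) ^ 2)) • ContinuousLinearMap.fst ℝ ℝ ℝ +
      (A' p.1)⁻¹ • ContinuousLinearMap.snd ℝ ℝ ℝ)) ?_ ?_
  · intro p
    have h1 : HasFDerivAt (fun p : ℝ × ℝ => A p.1) ((A' p.1) • ContinuousLinearMap.fst ℝ ℝ ℝ) p :=
      (hasDerivAt_A p.1).comp_hasFDerivAt p hasFDerivAt_fst
    have h2 : HasDerivAt A' (deriv A' p.1) p.1 :=
      (contDiff_A'.differentiable (by simp) p.1).hasDerivAt
    have h3 : HasDerivAt (fun x => (A' x)⁻¹) (-(deriv A' p.1) / (A' p.1) ^ 2) p.1 :=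
      h2.inv (A'_pos _).ne'
    have h4 : HasFDerivAt (fun p : ℝ × ℝ => (A' p.1)⁻¹)
        ((-(deriv A' p.1) / (A' p.1) ^ 2) • ContinuousLinearMap.fst ℝ ℝ ℝ) p :=
      h3.comp_hasFDerivAt p hasFDerivAt_fst
    have h5 := (hasFDerivAt_snd (𝕜 := ℝ) (p := p)).mul h4
    refine (h1.prodMk h5).congr_fderiv ?_ |>.congr_of_eventuallyEq ?_
    · ext <;> simp
    · exact Eventually.of_forall fun q => by
        simp only [g3, Equiv.coe_fn_mk, AH_apply, div_eq_mul_inv, Pi.mul_apply]
  · intro p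
    rw [det_plane]
    have := (A'_pos p.1).ne'
    simp [this]

lemma mp_F : MeasurePreserving F volume volume := mp_g3.comp (mp_g2.comp mp_g1)

/-! ### Dynamics near the point `(50 k, 0)` -/

/-- contraction ratio -/
def lam (k : ℤ) : ℝ := 1 / (2 + ep k)

lemma lam_pos (k : ℤ) : 0 < lam k := by
  have := ep_pos k; unfold lam; positivity

lemma lam_lt (k : ℤ) : lam k < 1 / 2 := by
  have := ep_pos k
  unfold lam
  exact one_div_lt_one_div_of_lt (by norm_num) (by linarith)

/-- one step of the cascade in the strip with sign `s` -/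
lemma step {k : ℤ} {s X y : ℝ} (hX : |X| ≤ 1 / (1 - lam k))
    (h : (s = 1 ∧ y - Dk k ≤ -1) ∨ (s = -1 ∧ 1 ≤ y + Dk k)) :
    F (50 * k + (s + lam k * X), y) = (50 * k + X, lam k * (y - s * Dk k)) := by
  have he := ep_pos k
  have he1 := ep_le_one k
  have hl := lam_pos k
  have hl2 := lam_lt k
  have hlamdef : lam k * (2 + ep k) = 1 := by unfold lam; field_simp
  have hw : lam k * (1 / (1 - lam k)) = 1 / (1 + ep k) := by
    have : 1 - lam k ≠ 0 := by linarith
    have h2 : 1 - lam k = lam k * (1 + ep k) := by nlinarith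
    rw [h2]
    field_simp
  have hlX : |lam k * X| ≤ 1 / (1 + ep k) := by
    rw [abs_mul, abs_of_pos hl, ← hw]
    exact mul_le_mul_of_nonneg_left hX hl.le
  have hw1 : 1 / (1 + ep k) < 1 := by
    rw [div_lt_one (by linarith)]; linarith
  have hdel : del k = 1 - 1 / (1 + ep k) := by
    unfold del; field_simp; ring
  have hlX' := abs_le.1 hlX
  have hlX1 : |lam k * X| ≤ 1 := by linarith
  rw [F_apply]
  rcases h with ⟨rfl, h⟩ | ⟨rfl, h⟩
  · have e1 : g1 (50 * k + (1 + lam k * X), y) = (50 * k + (1 + lam k * X), y - Dk k) := by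
      show ((50 * k + (1 + lam k * X) : ℝ), y + phi (50 * k + (1 + lam k * X))) = _
      rw [phi_right (by linarith) (by linarith), ← sub_eq_add_neg]
    have e2 : g2 (50 * k + (1 + lam k * X), y - Dk k) = (50 * k + lam k * X, y - Dk k) := by
      show ((50 * k + (1 + lam k * X) + T (y - Dk k) : ℝ), y - Dk k) = _
      rw [T_of_le_neg h]
      ext
      · simp only; ring
      · rfl
    rw [e1, e2]
    show (A (50 * k + lam k * X), (y - Dk k) / A' (50 * k + lam k * X)) = _
    rw [A_near hlX1, A'_near hlX1]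
    ext
    · simp only
      have : (2 + ep k) * (lam k * X) = (lam k * (2 + ep k)) * X := by ring
      rw [this, hlamdef, one_mul]
    · simp only
      unfold lam
      ring
  · have e1 : g1 (50 * k + (-1 + lam k * X), y) = (50 * k + (-1 + lam k * X), y + Dk k) := by
      show ((50 * k + (-1 + lam k * X) : ℝ), y + phi (50 * k + (-1 + lam k * X))) = _
      rw [phi_left (by linarith) (by linarith)]
    have e2 : g2 (50 * k + (-1 + lam k * X), y + Dk k) = (50 * k + lam k * X, y + Dk k) := by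
      show ((50 * k + (-1 + lam k * X) + T (y + Dk k) : ℝ), y + Dk k) = _
      rw [T_of_one_le h]
      ext
      · simp only; ring
      · rfl
    rw [e1, e2]
    show (A (50 * k + lam k * X), (y + Dk k) / A' (50 * k + lam k * X)) = _
    rw [A_near hlX1, A'_near hlX1]
    ext
    · simp only
      have : (2 + ep k) * (lam k * X) = (lam k * (2 + ep k)) * X := by ring
      rw [this, hlamdef, one_mul]
    · simp only
      unfold lam
      ring

/-- trapped points of a cascade: bounded forward orbit, unbounded backward orbit -/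
def trapped (g : Equiv.Perm (ℝ × ℝ)) : Set (ℝ × ℝ) :=
  {x | Bornology.IsBounded {y | ∃ n : ℤ, 0 ≤ n ∧ y = (g ^ n) x} ∧
    ¬ Bornology.IsBounded {y | ∃ n : ℤ, n ≤ 0 ∧ y = (g ^ n) x}}

/-- the horizontal coordinate of the point with digits of `t` shifted `n` times -/
def Xn (k : ℤ) (t : ℝ) (n : ℕ) : ℝ := ∑' j : ℕ, (2 * (digit 2 (n + j) t : ℝ) - 1) * lam k ^ j

lemma digit_two (n : ℕ) (t : ℝ) : digit 2 n t = 0 ∨ digit 2 n t = 1 := by
  have h1 := digit_nonneg (N := 2) (by norm_num) n t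
  have h2 := digit_lt (N := 2) (by norm_num) n t
  push_cast at h2
  omega

lemma sgn_digit (n : ℕ) (t : ℝ) : (2 * (digit 2 n t : ℝ) - 1) = -1 ∨
    (2 * (digit 2 n t : ℝ) - 1) = 1 := by
  rcases digit_two n t with h | h
  · left; rw [h]; norm_num
  · right; rw [h]; norm_num

lemma abs_sgn_digit (n : ℕ) (t : ℝ) : |2 * (digit 2 n t : ℝ) - 1| = 1 := by
  rcases sgn_digit n t with h | h <;> rw [h] <;> norm_num

lemma summable_lam (k : ℤ) : Summable (fun j : ℕ => lam k ^ j) :=
  summable_geometric_of_lt_one (lam_pos k).le (by linarith [lam_lt k])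

lemma summable_Xn (k : ℤ) (t : ℝ) (n : ℕ) :
    Summable (fun j : ℕ => (2 * (digit 2 (n + j) t : ℝ) - 1) * lam k ^ j) := by
  refine Summable.of_norm_bounded (summable_lam k) fun j => ?_
  rw [norm_mul, Real.norm_eq_abs, abs_sgn_digit, one_mul, norm_pow,
    Real.norm_of_nonneg (lam_pos k).le]

lemma abs_Xn_le (k : ℤ) (t : ℝ) (n : ℕ) : |Xn k t n| ≤ 1 / (1 - lam k) := by
  unfold Xn
  rw [← Real.norm_eq_abs, one_div, ← tsum_geometric_of_lt_one (lam_pos k).le
    (by linarith [lam_lt k])]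
  refine tsum_of_norm_bounded (summable_lam k).hasSum fun j => ?_
  rw [norm_mul, Real.norm_eq_abs, abs_sgn_digit, one_mul, norm_pow,
    Real.norm_of_nonneg (lam_pos k).le]

lemma Xn_succ (k : ℤ) (t : ℝ) (n : ℕ) :
    Xn k t n = (2 * (digit 2 n t : ℝ) - 1) + lam k * Xn k t (n + 1) := by
  unfold Xn
  rw [(summable_Xn k t n).tsum_eq_zero_add, ← tsum_mul_left]
  simp only [add_zero, pow_zero, mul_one]
  congr 1
  apply tsum_congr
  intro j
  have : n + (j + 1) = n + 1 + j := by omega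
  rw [this, pow_succ]
  ring

lemma Rk_ge (k : ℤ) : 2 ≤ Rk k := by
  unfold Rk
  rw [le_div_iff₀ (ep_pos k)]
  linarith [ep_le_one k]

/-- forward orbits stay in the box -/
lemma forward_orbit (k : ℤ) (t : ℝ) {y : ℝ} (hy : |y| ≤ Rk k) (n : ℕ) :
    ∃ y' : ℝ, |y'| ≤ Rk k ∧ (F ^ n) (50 * k + Xn k t 0, y) = (50 * k + Xn k t n, y') := by
  induction n with
  | zero => exact ⟨y, hy, rfl⟩
  | succ n ih =>
    obtain ⟨y', hy', h⟩ := ih
    have hR := Rk_ge k
    have hl := lam_pos k
    have hy'' := abs_le.1 hy'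
    set s : ℝ := 2 * (digit 2 n t : ℝ) - 1 with hs
    have hcase : (s = 1 ∧ y' - Dk k ≤ -1) ∨ (s = -1 ∧ 1 ≤ y' + Dk k) := by
      rcases sgn_digit n t with h1 | h1
      · right
        exact ⟨h1, by unfold Dk; linarith⟩
      · left
        exact ⟨h1, by unfold Dk; linarith⟩
    have hstep := step (abs_Xn_le k t (n + 1)) hcase
    rw [hs, ← Xn_succ] at hstep
    refine ⟨_, ?_, by rw [pow_succ', Equiv.Perm.mul_apply, h, hstep]⟩
    -- the new height
    have h2 : |y' - s * Dk k| ≤ Rk k + Dk k := by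
      have hD : 0 < Dk k := by unfold Dk; linarith
      calc |y' - s * Dk k| ≤ |y'| + |s * Dk k| := abs_sub _ _
        _ ≤ Rk k + Dk k := by
          rw [abs_mul, hs, abs_sgn_digit, one_mul, abs_of_pos hD]
          linarith
    rw [abs_mul, abs_of_pos hl]
    have h3 : lam k * (Rk k + Dk k) ≤ Rk k := by
      have he := ep_pos k
      have h4 : Rk k * ep k = 2 := by unfold Rk; field_simp
      unfold lam Dk
      rw [div_mul_eq_mul_div, div_le_iff₀ (by linarith)]
      nlinarith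
    calc lam k * |y' - s * Dk k| ≤ lam k * (Rk k + Dk k) := by gcongr
      _ ≤ Rk k := h3

/-- repelling height for the inverse -/
def ystar (k : ℤ) : ℝ := Dk k / (1 + ep k)

lemma ystar_lt (k : ℤ) : ystar k < Rk k := by
  have he := ep_pos k
  have h4 : Rk k * ep k = 2 := by unfold Rk; field_simp
  unfold ystar Dk
  rw [div_lt_iff₀ (by linarith)]
  nlinarith

lemma one_le_ystar (k : ℤ) : 1 ≤ ystar k := by
  have he := ep_pos k
  have h4 : Rk k * ep k = 2 := by unfold Rk; field_simp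
  have h5 := Rk_ge k
  have h6 := ep_le_one k
  unfold ystar Dk
  rw [le_div_iff₀ (by linarith)]
  linarith

/-- backward orbits climb to infinity -/
lemma backward_orbit (k : ℤ) {x y : ℝ} (hx : |x| ≤ 1 / (1 - lam k)) (hy : ystar k ≤ y) (n : ℕ) :
    ∃ x' : ℝ, |x'| ≤ 1 / (1 - lam k) ∧ (F ^ (-(n : ℤ))) (50 * k + x, y) =
      (50 * k + x', ystar k + (2 + ep k) ^ n * (y - ystar k)) := by
  have he := ep_pos k
  have hl := lam_pos k
  have hl2 := lam_lt k
  have hlamdef : lam k * (2 + ep k) = 1 := by unfold lam; field_simp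
  induction n with
  | zero => exact ⟨x, hx, by simp⟩
  | succ n ih =>
    obtain ⟨x', hx', h⟩ := ih
    set Y : ℝ := ystar k + (2 + ep k) ^ n * (y - ystar k) with hY
    have hY1 : ystar k ≤ Y := by
      have : 0 ≤ (2 + ep k) ^ n * (y - ystar k) := mul_nonneg (by positivity) (by linarith)
      linarith
    have h1s := one_le_ystar k
    have hstep := step (k := k) (s := -1) (X := x') (y := (2 + ep k) * Y - Dk k) hx' (Or.inr ⟨rfl, by
      nlinarith⟩)
    have h2 : lam k * ((2 + ep k) * Y - Dk k - -1 * Dk k) = Y := by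
      have : lam k * ((2 + ep k) * Y - Dk k - -1 * Dk k) = (lam k * (2 + ep k)) * Y := by ring
      rw [this, hlamdef, one_mul]
    rw [h2] at hstep
    refine ⟨-1 + lam k * x', ?_, ?_⟩
    · have h3 : |(-1 : ℝ) + lam k * x'| ≤ 1 + lam k * (1 / (1 - lam k)) := by
        calc |(-1 : ℝ) + lam k * x'| ≤ |(-1 : ℝ)| + |lam k * x'| := abs_add_le _ _
          _ ≤ 1 + lam k * (1 / (1 - lam k)) := by
            rw [abs_mul, abs_of_pos hl]
            norm_num
            exact mul_le_mul_of_nonneg_left (by simpa using hx') hl.le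
      have h4 : 1 + lam k * (1 / (1 - lam k)) = 1 / (1 - lam k) := by
        have : 1 - lam k ≠ 0 := by linarith
        field_simp
        ring
      rw [h4] at h3
      exact h3
    · have h5 : (-((n + 1 : ℕ) : ℤ)) = (-1 : ℤ) + (-(n : ℤ)) := by push_cast; ring
      rw [h5, zpow_add, Equiv.Perm.mul_apply, h, zpow_neg_one, Equiv.Perm.inv_eq_iff_eq]
      have h6 : ystar k + (2 + ep k) ^ (n + 1) * (y - ystar k) = (2 + ep k) * Y - Dk k := by
        have h7 : ystar k * (1 + ep k) = Dk k := by unfold ystar; field_simp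
        rw [hY, pow_succ]
        nlinarith
      rw [h6, hstep]

lemma trapped_mem (k : ℤ) (t : ℝ) {y : ℝ} (hy : ystar k < y) (hy2 : y ≤ Rk k) :
    (50 * k + Xn k t 0, y) ∈ trapped F := by
  have h1s := one_le_ystar k
  have hyabs : |y| ≤ Rk k := by rw [abs_of_pos (by linarith)]; exact hy2
  constructor
  · -- forward orbit bounded
    refine (Metric.isBounded_closedBall (x := ((50 * k : ℝ), (0:ℝ)))
      (r := max (1 / (1 - lam k)) (Rk k))).subset ?_
    rintro p ⟨n, hn, rfl⟩
    obtain ⟨m, rfl⟩ := Int.eq_ofNat_of_zero_le hn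
    obtain ⟨y', hy', h⟩ := forward_orbit k t hyabs m
    rw [zpow_natCast, h, Metric.mem_closedBall, Prod.dist_eq, Real.dist_eq,
      Real.dist_eq]
    simp only [add_sub_cancel_left, sub_zero]
    exact max_le_max (abs_Xn_le k t m) hy'
  · intro hb
    obtain ⟨C, hC⟩ := hb.exists_norm_le
    have hgrow : Tendsto (fun n : ℕ => ystar k + (2 + ep k) ^ n * (y - ystar k)) atTop atTop := by
      have he := ep_pos k
      have h1 : Tendsto (fun n : ℕ => (2 + ep k) ^ n) atTop atTop :=
        tendsto_pow_atTop_atTop_of_one_lt (by linarith)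
      exact tendsto_atTop_add_const_left _ _ (h1.atTop_mul_const (by linarith))
    obtain ⟨n, hn⟩ := (hgrow.eventually_gt_atTop C).exists
    obtain ⟨x', hx', h⟩ := backward_orbit k (abs_Xn_le k t 0) hy.le n
    have h2 := hC _ ⟨-(n:ℤ), by omega, rfl⟩
    rw [h] at h2
    have h3 : ystar k + (2 + ep k) ^ n * (y - ystar k) ≤
        ‖((50 * k + x' : ℝ), ystar k + (2 + ep k) ^ n * (y - ystar k))‖ := by
      rw [Prod.norm_def]
      refine le_trans (le_abs_self _) ?_
      rw [← Real.norm_eq_abs]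
      exact le_max_right _ _
    linarith

lemma Xn_zero_eq (k : ℤ) (t : ℝ) :
    Xn k t 0 = -(1 / (1 - lam k)) + expan 2 (fun n => 2 * lam k ^ n) t := by
  have hs1 := summable_expan (N := 2) (B := fun n => 2 * lam k ^ n) (by norm_num)
    (fun n => by have := lam_pos k; positivity) ((summable_lam k).mul_left 2) t
  have hgeo : ∑' j : ℕ, lam k ^ j = 1 / (1 - lam k) := by
    rw [tsum_geometric_of_lt_one (lam_pos k).le (by linarith [lam_lt k]), one_div]
  rw [← hgeo, expan, neg_add_eq_sub, ← hs1.tsum_sub (summable_lam k)]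
  unfold Xn
  apply tsum_congr
  intro j
  rw [zero_add]
  ring

lemma dim_lower (k : ℤ) :
    ENNReal.ofReal (1 + Real.log 2 / Real.log (2 + ep k)) ≤ dimH (trapped F) := by
  have he := ep_pos k
  have hl := lam_pos k
  have hl2 := lam_lt k
  have hd := del_pos k
  have hlog2 : 0 < Real.log 2 := Real.log_pos (by norm_num)
  have hlog : 0 < Real.log (2 + ep k) := Real.log_pos (by linarith)
  set s : ℝ := Real.log 2 / Real.log (2 + ep k) with hs
  have hs0 : 0 < s := div_pos hlog2 hlog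
  have hlam_s : (lam k) ^ s = 1 / 2 := by
    rw [Real.rpow_def_of_pos hl]
    have : Real.log (lam k) = - Real.log (2 + ep k) := by
      unfold lam; rw [one_div, Real.log_inv]
    rw [this, hs]
    have : -Real.log (2 + ep k) * (Real.log 2 / Real.log (2 + ep k)) = - Real.log 2 := by
      field_simp
    rw [this, Real.exp_neg, Real.exp_log (by norm_num)]
    norm_num
  have hab : (ystar k + Rk k) / 2 < Rk k := by linarith [ystar_lt k]
  have h2d : 0 < 2 * del k := by linarith
  refine dimH_of_expan (N := 2) (B := fun n => 2 * lam k ^ n)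
    (κ := fun n => (2 * del k) * lam k ^ n) (s := s) (C := ((2 * del k) ^ s)⁻¹) (by norm_num)
    (fun n => by positivity) ((summable_lam k).mul_left 2) (fun n => by positivity) ?_ hs0
    (by positivity) ?_ (50 * k + -(1 / (1 - lam k))) hab ?_
  · intro n
    have h1 : ∑' j : ℕ, 2 * lam k ^ (j + (n + 1)) = 2 * lam k ^ (n + 1) * (1 / (1 - lam k)) := by
      have : (fun j : ℕ => 2 * lam k ^ (j + (n + 1))) = fun j : ℕ => (2 * lam k ^ (n + 1)) * lam k ^ j := by
        ext j; rw [pow_add]; ring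
      rw [this, tsum_mul_left, tsum_geometric_of_lt_one hl.le (by linarith), one_div]
    have h2 : lam k * (1 / (1 - lam k)) = 1 - del k := by
      have h3 : 1 - lam k = lam k * (1 + ep k) := by
        have hlamdef : lam k * (2 + ep k) = 1 := by unfold lam; field_simp
        nlinarith
      rw [h3]
      unfold del
      field_simp
      ring
    apply le_of_eq
    simp only [h1]
    have h3 : 2 * lam k ^ (n + 1) * (1 / (1 - lam k)) = 2 * lam k ^ n * (lam k * (1 / (1 - lam k))) := by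
      rw [pow_succ]; ring
    rw [h3, h2]
    push_cast
    ring
  · intro n
    apply le_of_eq
    rw [Real.mul_rpow h2d.le (by positivity), ← mul_assoc, inv_mul_cancel₀ (by positivity), one_mul,
      ← Real.rpow_natCast (lam k) n, ← Real.rpow_mul hl.le, mul_comm (n:ℝ) s, Real.rpow_mul hl.le,
      hlam_s, Real.rpow_natCast]
    push_cast
    rw [one_div, inv_pow]
  · intro t _ y hy
    rw [add_assoc, ← Xn_zero_eq]
    exact trapped_mem k t (by linarith [hy.1, ystar_lt k]) hy.2

lemma dim_eq_two : dimH (trapped F) = 2 := by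
  apply le_antisymm
  · calc dimH (trapped F) ≤ dimH (univ : Set (ℝ × ℝ)) := dimH_mono (subset_univ _)
      _ = 2 := by rw [Real.dimH_univ_eq_finrank]; simp
  · have hlim : Tendsto (fun n : ℕ => ENNReal.ofReal (1 + Real.log 2 / Real.log (2 + ep n)))
        atTop (𝓝 2) := by
      have h1 : Tendsto (fun n : ℕ => ep (n : ℤ)) atTop (𝓝 0) := by
        have : (fun n : ℕ => ep (n : ℤ)) = fun n : ℕ => 1 / ((n:ℝ) + 1) := by
          ext n; unfold ep; simp
        rw [this]
        exact tendsto_one_div_add_atTop_nhds_zero_nat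
      have h2 : Tendsto (fun n : ℕ => 1 + Real.log 2 / Real.log (2 + ep n)) atTop
          (𝓝 (1 + Real.log 2 / Real.log (2 + 0))) := by
        have hlog2 : Real.log (2 + 0) ≠ 0 := by
          rw [add_zero]; exact (Real.log_pos (by norm_num)).ne'
        exact ((tendsto_const_nhds.div ((h1.const_add 2).log (by norm_num)) hlog2)).const_add 1
      have h3 : (1 + Real.log 2 / Real.log (2 + 0) : ℝ) = 2 := by
        rw [add_zero, div_self (Real.log_pos (by norm_num)).ne']; norm_num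
      rw [h3] at h2
      have h4 := (ENNReal.continuous_ofReal.tendsto 2).comp h2
      simpa [Function.comp_def] using h4
    exact le_of_tendsto' hlim fun n => dim_lower n

/-- A `C^m` Lebesgue-measure-preserving cascade on the plane, given by its generator `g = g^1`:
a `C^m` diffeomorphism preserving the Lebesgue measure. -/
def IsCascade (m : ℕ) (g : Equiv.Perm (ℝ × ℝ)) : Prop :=
  ContDiff ℝ m g ∧ ContDiff ℝ m g.symm ∧ MeasurePreserving g volume volume

/-- The supremum of the Hausdorff dimensions of the trapped sets of `C^m` cascades. -/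
def dCasc (m : ℕ) : ENNReal := ⨆ (g : Equiv.Perm (ℝ × ℝ)) (_ : IsCascade m g), dimH (trapped g)

lemma isCascade_F (m : ℕ) : IsCascade m F :=
  ⟨contDiff_F.of_le (by exact_mod_cast le_top), contDiff_F_symm.of_le (by exact_mod_cast le_top),
    mp_F⟩

/-- For every `m ≥ 1` one has `d_casc(m) = 2`, and the supremum is attained (by one cascade
of class `C^m` for every `m`). -/
theorem cascade_final : (∀ m : ℕ, 1 ≤ m → dCasc m = 2) ∧
    ∃ g : Equiv.Perm (ℝ × ℝ), (∀ m : ℕ, IsCascade m g) ∧ dimH (trapped g) = 2 := by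
  refine ⟨fun m _ => le_antisymm ?_ ?_, F, isCascade_F, dim_eq_two⟩
  · refine iSup₂_le fun g _ => ?_
    calc dimH (trapped g) ≤ dimH (univ : Set (ℝ × ℝ)) := dimH_mono (subset_univ _)
      _ = 2 := by rw [Real.dimH_univ_eq_finrank]; simp
  · rw [← dim_eq_two]
    exact le_iSup₂ (f := fun (g : Equiv.Perm (ℝ × ℝ)) (_ : IsCascade m g) => dimH (trapped g))
      F (isCascade_F m)

end

end Pool.Agent.H664.CascadeH
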