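import Mathlib

set_option autoImplicit false
set_option linter.unusedSectionVars false
set_option linter.unusedVariables false

namespace Pool.Agent.H664.Csf

open Set Metric

variable {E : Type*} [NormedAddCommGroup E] [InnerProductSpace ℝ E]

/-- Strongly convex set with constant `R` (an intersection of balls of radius `R`, written without
balls). -/
def SC (R : ℝ) (K : Set E) : Prop :=
  ∀ x ∈ K, ∀ y ∈ K, ∀ t : ℝ, 0 ≤ t → t ≤ 1 → ∀ z : E,
    2 * R * ‖z - ((1 - t) • x + t • y)‖ ≤ t * (1 - t) * ‖x - y‖ ^ 2 → z ∈ K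

theorem SC.inter {R : ℝ} {K L : Set E} (hK : SC R K) (hL : SC R L) : SC R (K ∩ L) := by
  intro x hx y hy t ht0 ht1 z hz
  exact ⟨hK x hx.1 y hy.1 t ht0 ht1 z hz, hL x hx.2 y hy.2 t ht0 ht1 z hz⟩

theorem SC.sInter {R : ℝ} {F : Set (Set E)} (hF : ∀ K ∈ F, SC R K) : SC R (⋂₀ F) := by
  intro x hx y hy t ht0 ht1 z hz
  rw [mem_sInter]
  intro K hK
  exact hF K hK x (mem_sInter.1 hx K hK) y (mem_sInter.1 hy K hK) t ht0 ht1 z hz

theorem SC.mono {R R' : ℝ} (h : R ≤ R') {K : Set E} (hK : SC R K) : SC R' K := by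
  intro x hx y hy t ht0 ht1 z hz
  refine hK x hx y hy t ht0 ht1 z (le_trans ?_ hz)
  gcongr

theorem SC.empty (R : ℝ) : SC R (∅ : Set E) := by
  intro x hx
  exact absurd hx (notMem_empty x)

theorem SC.univ (R : ℝ) : SC R (Set.univ : Set E) := by
  intro x _ y _ t _ _ z _
  exact mem_univ z

theorem SC.singleton {R : ℝ} (hR : 0 < R) (p : E) : SC R ({p} : Set E) := by
  intro x hx y hy t ht0 ht1 z hz
  rw [mem_singleton_iff] at hx hy
  rw [hx, hy, sub_self, norm_zero] at hz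
  have h1 : (1 - t) • p + t • p = p := by
    rw [← add_smul]; simp
  rw [h1] at hz
  have h2 : ‖z - p‖ ≤ 0 := by
    by_contra hcon
    push Not at hcon
    have : 0 < 2 * R * ‖z - p‖ := by positivity
    nlinarith
  have h3 := norm_le_zero_iff.1 h2
  rw [sub_eq_zero] at h3
  exact h3

theorem SC.convex {R : ℝ} {K : Set E} (hK : SC R K) : Convex ℝ K := by
  intro x hx y hy a b ha hb hab
  have ha' : a = 1 - b := by linarith
  subst ha'
  refine hK x hx y hy b hb (by linarith) _ ?_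
  rw [sub_self, norm_zero, mul_zero]
  positivity

theorem combo_sq (x y c : E) (t : ℝ) :
    ‖(1 - t) • x + t • y - c‖ ^ 2
      = (1 - t) * ‖x - c‖ ^ 2 + t * ‖y - c‖ ^ 2 - t * (1 - t) * ‖x - y‖ ^ 2 := by
  have h1 : (1 - t) • x + t • y - c = (1 - t) • (x - c) + t • (y - c) := by
    rw [smul_sub, smul_sub, sub_smul, sub_smul]
    simp only [one_smul]
    abel
  have h2 : x - y = (x - c) - (y - c) := by abel
  rw [h1, h2]
  generalize x - c = a
  generalize y - c = b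
  rw [@norm_add_sq_real, @norm_sub_sq_real, norm_smul, norm_smul, inner_smul_left, inner_smul_right]
  simp only [mul_pow, Real.norm_eq_abs, sq_abs, conj_trivial]
  ring

theorem SC.closedBall {R r : ℝ} (hR : 0 < R) (hr : r ≤ R) (c : E) :
    SC R (Metric.closedBall c r) := by
  intro x hx y hy t ht0 ht1 z hz
  rw [mem_closedBall, dist_eq_norm] at hx hy ⊢
  have hr0 : 0 ≤ r := le_trans (norm_nonneg _) hx
  set m := (1 - t) • x + t • y with hm
  have hsq := combo_sq x y c t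
  rw [← hm] at hsq
  have hx2 : ‖x - c‖ ^ 2 ≤ r ^ 2 := by gcongr
  have hy2 : ‖y - c‖ ^ 2 ≤ r ^ 2 := by gcongr
  have ha : ‖m - c‖ ^ 2 ≤ r ^ 2 - t * (1 - t) * ‖x - y‖ ^ 2 := by
    rw [hsq]
    nlinarith
  have hT : 0 ≤ t * (1 - t) * ‖x - y‖ ^ 2 := by
    have : 0 ≤ 1 - t := by linarith
    positivity
  have ha1 : ‖m - c‖ ≤ r := abs_le_of_sq_le_sq' (by linarith) hr0 |>.2
  have hzc : ‖z - c‖ ≤ ‖z - m‖ + ‖m - c‖ := by
    have : z - c = (z - m) + (m - c) := by abel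
    rw [this]; exact norm_add_le _ _
  have h3 : 2 * R * ‖z - m‖ ≤ 2 * R * (r - ‖m - c‖) := by
    nlinarith [norm_nonneg (m - c)]
  have h4 : ‖z - m‖ ≤ r - ‖m - c‖ := le_of_mul_le_mul_left h3 (by positivity)
  linarith

/-- closed `s`-neighbourhood -/
def thick (s : ℝ) (K : Set E) : Set E := {z | ∃ k ∈ K, ‖z - k‖ ≤ s}

theorem mem_thick {s : ℝ} {K : Set E} {z : E} : z ∈ thick s K ↔ ∃ k ∈ K, ‖z - k‖ ≤ s := Iff.rfl

theorem subset_thick {s : ℝ} (hs : 0 ≤ s) (K : Set E) : K ⊆ thick s K := by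
  intro z hz
  exact ⟨z, hz, by simpa using hs⟩

theorem thick_mono {s s' : ℝ} (h : s ≤ s') {K L : Set E} (hKL : K ⊆ L) :
    thick s K ⊆ thick s' L := by
  rintro z ⟨k, hk, hz⟩
  exact ⟨k, hKL hk, hz.trans h⟩

theorem thick_thick {s s' : ℝ} {K L : Set E} (h : K ⊆ thick s' L) :
    thick s K ⊆ thick (s + s') L := by
  rintro z ⟨k, hk, hz⟩
  obtain ⟨l, hl, hkl⟩ := h hk
  refine ⟨l, hl, ?_⟩
  have : z - l = (z - k) + (k - l) := by abel
  rw [this]
  exact (norm_add_le _ _).trans (add_le_add hz hkl)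

theorem thick_zero (K : Set E) : thick 0 K = K := by
  ext z
  constructor
  · rintro ⟨k, hk, hz⟩
    have := norm_le_zero_iff.1 hz
    rw [sub_eq_zero] at this
    rwa [this]
  · intro hz
    exact ⟨z, hz, by simp⟩

theorem isClosed_thick {s : ℝ} (hs : 0 ≤ s) {K : Set E} (hK : IsCompact K) :
    IsClosed (thick s K) := by
  have : thick s K = cthickening s K := by
    rw [hK.cthickening_eq_biUnion_closedBall hs]
    ext z
    simp [thick, mem_closedBall, dist_eq_norm]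
  rw [this]
  exact isClosed_cthickening

theorem split_vec (v : E) {s κ : ℝ} (hs : 0 ≤ s) (hκ : 0 ≤ κ) (hv : ‖v‖ ≤ s + κ) :
    ∃ a b : E, v = a + b ∧ ‖a‖ ≤ κ ∧ ‖b‖ ≤ s := by
  by_cases h : ‖v‖ ≤ s
  · exact ⟨0, v, by simp, by simpa using hκ, h⟩
  · push Not at h
    have hv0 : 0 < ‖v‖ := lt_of_le_of_lt hs h
    refine ⟨(1 - s / ‖v‖) • v, (s / ‖v‖) • v, ?_, ?_, ?_⟩
    · rw [← add_smul]; simp
    · rw [norm_smul, Real.norm_eq_abs, abs_of_nonneg]
      · rw [sub_mul, one_mul, div_mul_cancel₀ _ hv0.ne']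
        linarith
      · rw [sub_nonneg, div_le_one hv0]
        exact h.le
    · rw [norm_smul, Real.norm_eq_abs, abs_of_nonneg (by positivity), div_mul_cancel₀ _ hv0.ne']

theorem SC.thick {ρ s : ℝ} (hρ : 0 < ρ) (hs : 0 ≤ s) {K : Set E} (hK : SC ρ K) :
    SC (ρ + s) (thick s K) := by
  rcases hs.eq_or_lt with hs0 | hs0
  · rw [← hs0, thick_zero, add_zero]
    exact hK
  rintro x ⟨x', hx', hxx⟩ y ⟨y', hy', hyy⟩ t ht0 ht1 z hz
  have ht1' : 0 ≤ 1 - t := by linarith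
  -- offsets
  set a := x - x' with ha
  set b := y - y' with hb
  set m := (1 - t) • x' + t • y' with hm
  set e0 := (1 - t) • a + t • b with he0
  have hxy : (1 - t) • x + t • y = m + e0 := by
    rw [hm, he0, ha, hb, smul_sub, smul_sub]
    abel
  rw [hxy] at hz
  set w := z - (m + e0) with hw
  have he : ‖e0‖ ^ 2 ≤ s ^ 2 - t * (1 - t) * ‖a - b‖ ^ 2 := by
    have h := combo_sq a b 0 t
    simp only [sub_zero] at h
    rw [← he0] at h
    have h1 : ‖a‖ ^ 2 ≤ s ^ 2 := by gcongr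
    have h2 : ‖b‖ ^ 2 ≤ s ^ 2 := by gcongr
    rw [h]
    nlinarith
  have hQ : 0 ≤ t * (1 - t) := by positivity
  have he1 : ‖e0‖ ≤ s := by
    refine abs_le_of_sq_le_sq' ?_ hs |>.2
    have : 0 ≤ t * (1 - t) * ‖a - b‖ ^ 2 := by positivity
    linarith
  have he2 : t * (1 - t) * ‖a - b‖ ^ 2 ≤ 2 * s * (s - ‖e0‖) := by
    nlinarith [norm_nonneg e0]
  -- bound on w
  set X := ‖x' - y'‖ with hX
  set Y := ‖a - b‖ with hY
  have hXY : ‖x - y‖ ≤ X + Y := by
    have : x - y = (x' - y') + (a - b) := by rw [ha, hb]; abel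
    rw [this]
    exact norm_add_le _ _
  have hX0 : 0 ≤ X := norm_nonneg _
  have hY0 : 0 ≤ Y := norm_nonneg _
  have hxy2 : ‖x - y‖ ^ 2 ≤ (X + Y) ^ 2 := by gcongr
  have hw1 : 2 * (ρ + s) * ‖w‖ ≤ t * (1 - t) * (X + Y) ^ 2 :=
    hz.trans (by gcongr)
  have hkey : (X + Y) ^ 2 ≤ (ρ + s) * (X ^ 2 / ρ + Y ^ 2 / s) := by
    have : (ρ + s) * (X ^ 2 / ρ + Y ^ 2 / s) - (X + Y) ^ 2
        = (s * X - ρ * Y) ^ 2 / (ρ * s) := by
      field_simp
      ring
    have h2 : 0 ≤ (s * X - ρ * Y) ^ 2 / (ρ * s) := by positivity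
    linarith
  have hw2 : 2 * ‖w‖ ≤ t * (1 - t) * (X ^ 2 / ρ + Y ^ 2 / s) := by
    have h1 : (ρ + s) * (2 * ‖w‖) ≤ (ρ + s) * (t * (1 - t) * (X ^ 2 / ρ + Y ^ 2 / s)) := by
      calc (ρ + s) * (2 * ‖w‖) = 2 * (ρ + s) * ‖w‖ := by ring
        _ ≤ t * (1 - t) * (X + Y) ^ 2 := hw1
        _ ≤ t * (1 - t) * ((ρ + s) * (X ^ 2 / ρ + Y ^ 2 / s)) := by gcongr
        _ = _ := by ring
    exact le_of_mul_le_mul_left h1 (by positivity)
  have he3 : t * (1 - t) * (Y ^ 2 / s) ≤ 2 * (s - ‖e0‖) := by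
    rw [← mul_div_assoc, div_le_iff₀ hs0]
    nlinarith
  have hsum : ‖e0 + w‖ ≤ s + t * (1 - t) * X ^ 2 / (2 * ρ) := by
    have h1 := norm_add_le e0 w
    have h2 : t * (1 - t) * X ^ 2 / (2 * ρ) = t * (1 - t) * (X ^ 2 / ρ) / 2 := by
      field_simp
    rw [h2]
    nlinarith
  obtain ⟨c, d, hcd, hc, hd⟩ := split_vec (e0 + w) hs (by positivity) hsum
  refine ⟨m + c, ?_, ?_⟩
  · refine hK x' hx' y' hy' t ht0 ht1 _ ?_
    rw [← hm, add_sub_cancel_left]
    have : 2 * ρ * (t * (1 - t) * X ^ 2 / (2 * ρ)) = t * (1 - t) * X ^ 2 := by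
      field_simp
    calc 2 * ρ * ‖c‖ ≤ 2 * ρ * (t * (1 - t) * X ^ 2 / (2 * ρ)) := by gcongr
      _ = _ := this
  · have : z - (m + c) = d := by
      have h1 : z = m + (e0 + w) := by rw [hw]; abel
      rw [h1, hcd]
      abel
    rw [this]
    exact hd

/-- supporting ball inequality -/
theorem SC.support {ρ : ℝ} (hρ : 0 < ρ) {K : Set E} (hK : SC ρ K) {z w : E} (hz : z ∈ K)
    (hw : w ≠ z) (hproj : ∀ x ∈ K, inner ℝ (w - z) (x - z) ≤ 0) {y : E} (hy : y ∈ K) :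
    2 * ρ * inner ℝ (w - z) (y - z) ≤ - (‖w - z‖ * ‖y - z‖ ^ 2) := by
  set n := ‖w - z‖ with hn
  have hn0 : 0 < n := norm_pos_iff.2 (sub_ne_zero.2 hw)
  have key : ∀ t : ℝ, 0 < t → t < 1 →
      2 * ρ * inner ℝ (w - z) (y - z) + (1 - t) * (n * ‖y - z‖ ^ 2) ≤ 0 := by
    intro t ht0 ht1
    have ht1' : 0 < 1 - t := by linarith
    set κ := t * (1 - t) * ‖z - y‖ ^ 2 / (2 * ρ) with hκ
    have hmem : (1 - t) • z + t • y + (κ / n) • (w - z) ∈ K := by
      refine hK z hz y hy t ht0.le ht1.le _ ?_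
      rw [add_sub_cancel_left, norm_smul, Real.norm_eq_abs, abs_of_nonneg (by positivity), ← hn,
        div_mul_cancel₀ _ hn0.ne', hκ]
      have : 2 * ρ * (t * (1 - t) * ‖z - y‖ ^ 2 / (2 * ρ)) = t * (1 - t) * ‖z - y‖ ^ 2 := by
        field_simp
      exact this.le
    have h1 := hproj _ hmem
    have h2 : (1 - t) • z + t • y + (κ / n) • (w - z) - z = t • (y - z) + (κ / n) • (w - z) := by
      rw [sub_smul, one_smul, smul_sub t]
      abel
    rw [h2, inner_add_right, inner_smul_right, inner_smul_right, real_inner_self_eq_norm_sq,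
      ← hn] at h1
    have h3 : κ / n * n ^ 2 = κ * n := by field_simp
    rw [h3, hκ, norm_sub_rev z y] at h1
    have h4 : t * inner ℝ (w - z) (y - z) + t * (1 - t) * ‖y - z‖ ^ 2 / (2 * ρ) * n
        = t / (2 * ρ) * (2 * ρ * inner ℝ (w - z) (y - z) + (1 - t) * (n * ‖y - z‖ ^ 2)) := by
      field_simp
    rw [h4] at h1
    by_contra hcon
    push Not at hcon
    have : 0 < t / (2 * ρ) * (2 * ρ * inner ℝ (w - z) (y - z) + (1 - t) * (n * ‖y - z‖ ^ 2)) := by
      positivity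
    linarith
  -- let t → 0
  set B := n * ‖y - z‖ ^ 2 with hB
  have hB0 : 0 ≤ B := by positivity
  by_contra hcon
  push Not at hcon
  set A := 2 * ρ * inner ℝ (w - z) (y - z) with hA
  have hAB : 0 < A + B := by linarith
  have hB1 : 0 < B + 1 := by linarith
  -- choose t
  have ht : ∃ t : ℝ, 0 < t ∧ t < 1 ∧ t * B < A + B := by
    refine ⟨min (1 / 2) ((A + B) / (2 * (B + 1))), ?_, ?_, ?_⟩
    · apply lt_min (by norm_num); positivity
    · exact lt_of_le_of_lt (min_le_left _ _) (by norm_num)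
    · have h1 : min (1 / 2) ((A + B) / (2 * (B + 1))) * B ≤ (A + B) / (2 * (B + 1)) * B := by
        gcongr; exact min_le_right _ _
      have h2 : (A + B) / (2 * (B + 1)) * B < A + B := by
        rw [div_mul_eq_mul_div, div_lt_iff₀ (by positivity)]
        nlinarith
      linarith
  obtain ⟨t, ht0, ht1, ht2⟩ := ht
  have := key t ht0 ht1
  nlinarith

/-- the `R`-hull -/
def hull (R : ℝ) (X : Set E) : Set E := ⋂₀ {K | IsClosed K ∧ SC R K ∧ X ⊆ K}

theorem isClosed_hull (R : ℝ) (X : Set E) : IsClosed (hull R X) :=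
  isClosed_sInter fun _ h => h.1

theorem SC_hull (R : ℝ) (X : Set E) : SC R (hull R X) :=
  SC.sInter fun _ h => h.2.1

theorem subset_hull (R : ℝ) (X : Set E) : X ⊆ hull R X :=
  subset_sInter fun _ h => h.2.2

theorem hull_subset {R : ℝ} {X K : Set E} (h1 : IsClosed K) (h2 : SC R K) (h3 : X ⊆ K) :
    hull R X ⊆ K := sInter_subset_of_mem ⟨h1, h2, h3⟩

/-- Localisation of the hull. -/
theorem hull_local {ρ R g δ : ℝ} (hρ : 0 < ρ) (hρR : ρ < R) (hg : 0 ≤ g) (hgδ : 2 * g < δ)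
    (hsmall : 2 * ρ * R * g ≤ (R - ρ) * (δ - 2 * g) ^ 2)
    {C P Y : Set E} (hCc : IsCompact C) (hCn : C.Nonempty) (hC : SC ρ C)
    (hPC : P ⊆ thick g C) (hY : Y ⊆ P) (hCPc : IsClosed (C ∪ P)) (hCP : SC R (C ∪ P)) :
    hull R (C ∪ Y) \ C ⊆ thick δ Y := by
  rintro w ⟨hwM, hwC⟩
  have hR : 0 < R := hρ.trans hρR
  by_contra hcon
  have hfar : ∀ y ∈ Y, δ < ‖w - y‖ := by
    intro y hy
    by_contra h
    push Not at h
    exact hcon ⟨y, hy, h⟩
  have hwP : w ∈ P := by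
    have := hull_subset hCPc hCP (union_subset_union_right C hY) hwM
    rcases this with h | h
    · exact absurd h hwC
    · exact h
  -- the nearest point
  obtain ⟨z, hz, hzmin⟩ := exists_norm_eq_iInf_of_complete_convex hCn hCc.isComplete hC.convex w
  have hproj : ∀ x ∈ C, inner ℝ (w - z) (x - z) ≤ 0 :=
    (norm_eq_iInf_iff_real_inner_le_zero hC.convex hz).1 hzmin
  have hwz : w ≠ z := fun h => hwC (h ▸ hz)
  have hn0 : 0 < ‖w - z‖ := norm_pos_iff.2 (sub_ne_zero.2 hwz)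
  have hwzg : ‖w - z‖ ≤ g := by
    obtain ⟨k, hk, hkw⟩ := hPC hwP
    rw [hzmin]
    refine le_trans (ciInf_le ?_ (⟨k, hk⟩ : C)) hkw
    exact ⟨0, by rintro _ ⟨x, rfl⟩; exact norm_nonneg _⟩
  -- the centre
  set ν := (1 / ‖w - z‖) • (w - z) with hν
  have hνn : ‖ν‖ = 1 := by
    rw [hν, norm_smul, Real.norm_eq_abs, abs_of_pos (by positivity)]
    field_simp
  set c := z - R • ν with hc
  have hinner : ∀ y ∈ C, 2 * ρ * inner ℝ ν (y - z) ≤ -‖y - z‖ ^ 2 := by
    intro y hy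
    have h1 := hC.support hρ hz hwz hproj hy
    rw [hν, inner_smul_left]
    simp only [conj_trivial]
    have h2 : 2 * ρ * (1 / ‖w - z‖ * inner ℝ (w - z) (y - z))
        = (2 * ρ * inner ℝ (w - z) (y - z)) / ‖w - z‖ := by field_simp
    rw [h2, div_le_iff₀ hn0]
    linarith
  have hdist : ∀ y : E, ‖y - c‖ ^ 2 = ‖y - z‖ ^ 2 + 2 * R * inner ℝ ν (y - z) + R ^ 2 := by
    intro y
    have : y - c = (y - z) + R • ν := by rw [hc]; abel
    rw [this, @norm_add_sq_real, inner_smul_right, norm_smul, hνn, Real.norm_eq_abs,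
      real_inner_comm]
    simp only [mul_pow, sq_abs]
    ring
  have hCball : ∀ y ∈ C, ‖y - c‖ ^ 2 ≤ R ^ 2 - (R - ρ) / ρ * ‖y - z‖ ^ 2 := by
    intro y hy
    rw [hdist y]
    have h1 := hinner y hy
    have h2 : 2 * R * inner ℝ ν (y - z) = R / ρ * (2 * ρ * inner ℝ ν (y - z)) := by
      field_simp
    have h3 : R / ρ * (2 * ρ * inner ℝ ν (y - z)) ≤ R / ρ * (-‖y - z‖ ^ 2) := by
      gcongr
    have h4 : (R - ρ) / ρ * ‖y - z‖ ^ 2 = R / ρ * ‖y - z‖ ^ 2 - ‖y - z‖ ^ 2 := by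
      field_simp
    rw [h2, h4]
    linarith
  have hCR : ∀ y ∈ C, ‖y - c‖ ≤ R := by
    intro y hy
    refine abs_le_of_sq_le_sq' ?_ hR.le |>.2
    have h1 := hCball y hy
    have h2 : 0 ≤ (R - ρ) / ρ * ‖y - z‖ ^ 2 := by
      have : 0 < R - ρ := by linarith
      positivity
    linarith
  have hsub : C ∪ Y ⊆ closedBall c R := by
    rintro y (hy | hy)
    · rw [mem_closedBall, dist_eq_norm]
      exact hCR y hy
    · rw [mem_closedBall, dist_eq_norm]
      obtain ⟨y', hy', hyy'⟩ := hPC (hY hy)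
      have hfy := hfar y hy
      -- distance of y' from z
      have hd : δ - 2 * g ≤ ‖y' - z‖ := by
        have h1 : w - y = (w - z) - (y' - z) - (y - y') := by abel
        have h2 : ‖w - y‖ ≤ ‖w - z‖ + ‖y' - z‖ + ‖y - y'‖ := by
          rw [h1]
          exact (norm_sub_le _ _).trans (add_le_add (norm_sub_le _ _) le_rfl)
        linarith
      have h0 : 0 < δ - 2 * g := by linarith
      have h1 := hCball y' hy'
      have h2 : (δ - 2 * g) ^ 2 ≤ ‖y' - z‖ ^ 2 := by gcongr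
      have hRρ : 0 < R - ρ := by linarith
      have h3 : ‖y' - c‖ ^ 2 ≤ R ^ 2 - 2 * R * g := by
        have h4 : 2 * R * g ≤ (R - ρ) / ρ * ‖y' - z‖ ^ 2 := by
          calc 2 * R * g = (2 * ρ * R * g) / ρ := by field_simp
            _ ≤ ((R - ρ) * (δ - 2 * g) ^ 2) / ρ := by gcongr
            _ = (R - ρ) / ρ * (δ - 2 * g) ^ 2 := by ring
            _ ≤ _ := by gcongr
        linarith
      have h5 := hCR y' hy'
      have h6 : ‖y' - c‖ ≤ R - g := by
        nlinarith [norm_nonneg (y' - c)]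
      have h7 : ‖y - c‖ ≤ ‖y - y'‖ + ‖y' - c‖ := by
        have : y - c = (y - y') + (y' - c) := by abel
        rw [this]; exact norm_add_le _ _
      linarith
  have hwc := hull_subset isClosed_closedBall (SC.closedBall hR le_rfl c) hsub hwM
  rw [mem_closedBall, dist_eq_norm] at hwc
  have h1 := hdist w
  have h2 : inner ℝ ν (w - z) = ‖w - z‖ := by
    rw [hν, inner_smul_left, real_inner_self_eq_norm_sq]
    simp only [conj_trivial]
    field_simp
  rw [h2] at h1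
  have h3 : ‖w - c‖ ^ 2 ≤ R ^ 2 := by gcongr
  nlinarith

end Pool.Agent.H664.Csf
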