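import Pool.Agent.H664.CsfLimit

set_option autoImplicit false
set_option linter.unusedSectionVars false
set_option linter.unusedVariables false

namespace Pool.Agent.H664.Csf

open Set Metric

section gen
variable {E : Type*} [NormedAddCommGroup E] [InnerProductSpace ℝ E]

theorem Iu_self (W : ℕ → Set E) (i : ℕ) : Iu W i i = W i := by
  ext z
  constructor
  · rintro ⟨k, h1, h2, hz⟩
    have : k = i := le_antisymm h2 h1
    rwa [this] at hz
  · intro hz; exact ⟨i, le_rfl, le_rfl, hz⟩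

theorem SC.exists_ball {ρ : ℝ} (hρ : 0 < ρ) {K : Set E} (hK : SC ρ K) (hnt : K.Nontrivial) :
    ∃ c r, 0 < r ∧ Metric.closedBall c r ⊆ K := by
  obtain ⟨x, hx, y, hy, hxy⟩ := hnt
  have hn : 0 < ‖x - y‖ := norm_pos_iff.2 (sub_ne_zero.2 hxy)
  refine ⟨(1 - (1 / 2 : ℝ)) • x + (1 / 2 : ℝ) • y, ‖x - y‖ ^ 2 / (8 * ρ), by positivity, ?_⟩
  intro z hz
  rw [Metric.mem_closedBall, dist_eq_norm] at hz
  refine hK x hx y hy (1 / 2) (by norm_num) (by norm_num) z ?_
  calc 2 * ρ * ‖z - ((1 - (1 / 2 : ℝ)) • x + (1 / 2 : ℝ) • y)‖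
      ≤ 2 * ρ * (‖x - y‖ ^ 2 / (8 * ρ)) := by gcongr
    _ = 1 / 2 * (1 - 1 / 2) * ‖x - y‖ ^ 2 := by field_simp; norm_num

structure Lev (E : Type*) [NormedAddCommGroup E] [InnerProductSpace ℝ E] where
  N : ℕ
  W : ℕ → Set E
  ρ : ℝ
  h : Level N W ρ

end gen

abbrev Pl := EuclideanSpace ℝ (Fin 2)

noncomputable def dir (n : ℕ) : Pl := EuclideanSpace.single (if n % 2 = 0 then 0 else 1) (1 : ℝ)

theorem norm_dir (n : ℕ) : ‖dir n‖ = 1 := by
  simp [dir]

theorem inner_dir (n : ℕ) (v : Pl) : inner ℝ (dir n) v = v (if n % 2 = 0 then 0 else 1) := by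
  simp [dir, EuclideanSpace.inner_single_left]

theorem norm_le_of_dir {n : ℕ} {v : Pl} {a b : ℝ} (h1 : |inner ℝ (dir n) v| ≤ a)
    (h2 : |inner ℝ (dir (n + 1)) v| ≤ b) : ‖v‖ ≤ a + b := by
  rw [inner_dir] at h1 h2
  have key : ∀ c d : ℝ, |v 0| ≤ c → |v 1| ≤ d → ‖v‖ ≤ c + d := by
    intro c d hc hd
    have h0 : 0 ≤ c := (abs_nonneg _).trans hc
    have h0' : 0 ≤ d := (abs_nonneg _).trans hd
    rw [EuclideanSpace.norm_eq, Fin.sum_univ_two]
    apply Real.sqrt_le_iff.2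
    refine ⟨by positivity, ?_⟩
    rw [Real.norm_eq_abs, Real.norm_eq_abs]
    nlinarith [abs_nonneg (v 0), abs_nonneg (v 1), mul_nonneg h0 h0']
  rcases Nat.mod_two_eq_zero_or_one n with h | h
  · have h' : ¬ (n + 1) % 2 = 0 := by omega
    rw [if_pos h] at h1
    rw [if_neg h'] at h2
    exact key a b h1 h2
  · have h' : (n + 1) % 2 = 0 := by omega
    rw [if_neg (by omega)] at h1
    rw [if_pos h'] at h2
    rw [add_comm]
    exact key b a h2 h1

noncomputable def lev0 : Lev Pl where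
  N := 1
  W := fun _ => closedBall 0 1
  ρ := 1
  h := by
    refine ⟨one_pos, one_pos, ?_, ?_⟩
    · intro i _
      refine ⟨isCompact_closedBall _ _, ?_⟩
      refine ⟨0, by simp, dir 0, by simp [norm_dir], ?_⟩
      intro h
      have := norm_dir 0
      rw [← h] at this
      simp at this
    · intro i j hij hj
      have h1 : j = i := by omega
      subst h1
      rw [Iu_self]
      exact SC.closedBall one_pos le_rfl _

theorem lev_step (n : ℕ) (l : Lev Pl) : ∃ (l' : Lev Pl) (q : ℕ), 2 ≤ q ∧ l'.N = l.N * q ∧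
    (∀ i, i < l.N → l.W i = {z | ∃ j, j < q ∧ z ∈ l'.W (i * q + j)}) ∧
    ∀ k, k < l'.N → ∀ y ∈ l'.W k, ∀ z ∈ l'.W k, |inner ℝ (dir n) (y - z)| ≤ 1 / ((n : ℝ) + 1) := by
  obtain ⟨q, W', ρ', h1, h2, h3, h4⟩ := level_refine (norm_dir n)
    (ε := 1 / ((n : ℝ) + 1)) (by positivity) l.h
  exact ⟨⟨l.N * q, W', ρ', h2⟩, q, h1, rfl, h3, h4⟩

theorem exists_curve : ∃ f : ℝ → Pl, ContinuousOn f (Icc 0 1) ∧
    ∀ a b : ℝ, 0 ≤ a → a < b → b ≤ 1 → Convex ℝ (f '' Icc a b) ∧
      ∃ c r, 0 < r ∧ closedBall c r ⊆ f '' Icc a b := by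
  choose nxt qq h1 h2 h3 h4 using lev_step
  let seq : ℕ → Lev Pl := fun n => Nat.rec lev0 (fun n l => nxt n l) n
  have hseq : ∀ n, seq (n + 1) = nxt n (seq n) := fun n => rfl
  have hT : Tower (fun n => (seq n).N) (fun n => qq n (seq n)) (fun n => (seq n).W) := by
    refine ⟨?_, ?_, ?_, ?_, ?_, ?_, ?_⟩
    · intro n; exact (seq n).h.npos
    · intro n; exact h1 n (seq n)
    · intro n; exact h2 n (seq n)
    · intro n i hi; exact h3 n (seq n) i hi
    · intro n i j hij hj; exact ((seq n).h.good i j hij hj).convex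
    · intro n i hi
      have := (seq n).h.comp i hi
      exact ⟨this.1, this.2.nonempty⟩
    · intro ε hε
      obtain ⟨n, hn⟩ := exists_nat_gt (2 / ε)
      refine ⟨n + 2, ?_⟩
      intro k hk y hy z hz
      rw [dist_eq_norm]
      have hw2 := h4 (n + 1) (seq (n + 1)) k hk y hy z hz
      -- the containing window at level n + 1
      set q := qq (n + 1) (seq (n + 1)) with hq
      have hq2 : 2 ≤ q := h1 (n + 1) (seq (n + 1))
      have hN : (seq (n + 2)).N = (seq (n + 1)).N * q := h2 (n + 1) (seq (n + 1))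
      have hkq : k / q < (seq (n + 1)).N := by
        apply Nat.div_lt_of_lt_mul
        have : k < (seq (n + 2)).N := hk
        rw [hN] at this
        rwa [mul_comm]
      have hmod : k % q < q := Nat.mod_lt _ (by omega)
      have hdm : k / q * q + k % q = k := Nat.div_add_mod' k q
      have hsub : ∀ x ∈ (seq (n + 2)).W k, x ∈ (seq (n + 1)).W (k / q) := by
        intro x hx
        rw [h3 (n + 1) (seq (n + 1)) _ hkq]
        exact ⟨k % q, hmod, by rw [hdm]; exact hx⟩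
      have hw1 := h4 n (seq n) (k / q) hkq y (hsub y hy) z (hsub z hz)
      have h5 := norm_le_of_dir hw1 hw2
      have h6 : 1 / ((n : ℝ) + 1) + 1 / (((n + 1 : ℕ) : ℝ) + 1) ≤ ε := by
        have hn' : 2 < n * ε := by rwa [div_lt_iff₀ hε] at hn
        have e1 : 1 / ((n : ℝ) + 1) ≤ ε / 2 := by
          rw [div_le_div_iff₀ (by positivity) (by norm_num)]
          nlinarith
        have e2 : 1 / (((n + 1 : ℕ) : ℝ) + 1) ≤ ε / 2 := by
          rw [div_le_div_iff₀ (by positivity) (by norm_num)]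
          push_cast
          nlinarith
        linarith
      exact h5.trans h6
  obtain ⟨f, hf1, hf2⟩ := tower_limit hT
  refine ⟨f, hf1, ?_⟩
  intro a b ha hab hb
  obtain ⟨h5, n, i, hi, h6⟩ := hf2 a b ha hab hb
  refine ⟨h5, ?_⟩
  have hsc := (seq n).h.good i i le_rfl hi
  rw [Iu_self] at hsc
  obtain ⟨c, r, hr, hcr⟩ := hsc.exists_ball (seq n).h.pos ((seq n).h.comp i hi).2
  exact ⟨c, r, hr, hcr.trans h6⟩

end Pool.Agent.H664.Csf
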