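import Pool.Agent.H664.CsfPass

set_option autoImplicit false
set_option linter.unusedSectionVars false
set_option linter.unusedVariables false

namespace Pool.Agent.H664.Csf

open Set Metric

variable {E : Type*} [NormedAddCommGroup E] [InnerProductSpace ℝ E]

def GStep (ρ g : ℝ) (W : Set E) (As : List (Set E)) (P Q : Set E) : Prop :=
  Adm ρ W As P ∧ Adm ρ W As Q ∧ P ⊆ Q ∧ Q ⊆ thick g P

theorem stage_of_path {ρ R g δ η : ℝ} (hgap : GapOK ρ R g δ) {W : Set E} {As : List (Set E)}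
    (hAs : As.Pairwise (· ⊆ ·)) (hAc : ∀ A ∈ As, IsCompact A)
    {D : Bool → ℕ → Set E} {m : ℕ} {small : Set E → Prop} (hD : Cuts R η W D m small)
    (hη : (As.length + 1) * δ ≤ η) {P0 P : Set E}
    (hpath : Relation.ReflTransGen (GStep ρ g W As) P0 P)
    (h0 : ∀ τ, Stage R W As D small τ P0) : ∀ τ, Stage R W As D small τ P := by
  induction hpath with
  | refl => exact h0
  | tail _ hstep ih =>
    intro τ
    obtain ⟨s1, s2, s3, s4⟩ := hstep
    have := stage_step hgap hAs hAc hD hη s1 s2 s3 s4 (ih (!τ))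
    rwa [Bool.not_not] at this

theorem stage_base {ρ R : ℝ} (hρR : ρ ≤ R) (hR : 0 < R) {W : Set E} {As : List (Set E)}
    {D : Bool → ℕ → Set E} {small : Set E → Prop} {p : E} (hpW : p ∈ W)
    (hpA : ∀ A ∈ As, p ∈ A) (hAsc : ∀ A ∈ As, SC ρ A) (hsm : small {p}) (τ : Bool) :
    Stage R W As D small τ {p} := by
  refine ⟨[{p}], by simp, ?_, ?_, ?_, ?_⟩
  · intro x hx
    rw [List.mem_singleton] at hx
    subst hx
    exact ⟨isCompact_singleton, by simpa using hpW, hsm⟩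
  · intro S hS
    have h := U_infix hS
    rw [U_singleton] at h
    rcases subset_singleton_iff_eq.1 h with h | h
    · rw [h]; exact SC.empty R
    · rw [h]; exact SC.singleton hR p
  · intro S hS A hA
    have h := U_infix hS.isInfix
    rw [U_singleton] at h
    have : A ∪ U S = A := by
      rw [union_eq_left]
      exact h.trans (by simpa using hpA A hA)
    rw [this]
    exact (hAsc A hA).mono hρR
  · intro S hS
    have h := U_infix hS.isInfix
    rw [U_singleton] at h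
    rcases subset_singleton_iff_eq.1 h with h | h
    · exact Or.inl h
    · exact Or.inr (Or.inl h)

theorem gap_one {ρ0 g h s Dm : ℝ} (hρ0 : 0 < ρ0) (hg : 0 < g) (hs : 0 ≤ s) (hDm : 0 < Dm)
    (hh0 : 0 < h) (hh1 : h ≤ g ^ 3 / (8 * ρ0 * Dm)) (hh2 : h ≤ g ^ 2 / (2 * Dm))
    {W A A' : Set E} (hW : Convex ℝ W) (hA : SC ρ0 A) (hA' : Convex ℝ A') {p : E} (hpW : p ∈ W)
    (hpA : p ∈ A) (hpA' : p ∈ A') (hdm : ∀ w ∈ W, ‖w - p‖ ≤ Dm) :
    W ∩ A' ∩ thick (s + h) A ⊆ thick g (W ∩ A' ∩ thick s A) := by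
  rintro z ⟨⟨hzW, hzA'⟩, a, ha, hza⟩
  by_cases hzp : ‖z - p‖ ≤ g
  · exact ⟨p, ⟨⟨hpW, hpA'⟩, subset_thick hs A hpA⟩, hzp⟩
  push Not at hzp
  have hzp0 : 0 < ‖z - p‖ := hg.trans hzp
  have hzD : ‖z - p‖ ≤ Dm := hdm z hzW
  set l := g / ‖z - p‖ with hl
  have hl0 : 0 < l := by positivity
  have hl1 : l < 1 := by rw [hl, div_lt_one hzp0]; exact hzp
  have hlD : g / Dm ≤ l := by rw [hl]; gcongr
  have h1l : 0 < 1 - l := by linarith
  set z' := (1 - l) • z + l • p with hz'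
  have hz'W : z' ∈ W := hW hzW hpW h1l.le hl0.le (by ring)
  have hz'A : z' ∈ A' := hA' hzA' hpA' h1l.le hl0.le (by ring)
  have hdist : ‖z - z'‖ ≤ g := by
    have : z - z' = l • (z - p) := by
      rw [hz', sub_smul, one_smul, smul_sub]; abel
    rw [this, norm_smul, Real.norm_eq_abs, abs_of_pos hl0, hl, div_mul_cancel₀ _ hzp0.ne']
  refine ⟨z', ⟨⟨hz'W, hz'A⟩, ?_⟩, hdist⟩
  set al := (1 - l) • a + l • p with hal
  have hza' : z' - al = (1 - l) • (z - a) := by
    rw [hz', hal, smul_sub]; abel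
  have hn : ‖z' - al‖ ≤ (1 - l) * (s + h) := by
    rw [hza', norm_smul, Real.norm_eq_abs, abs_of_pos h1l]
    gcongr
  set κ := l * (1 - l) * ‖a - p‖ ^ 2 / (2 * ρ0) with hκ
  have hκ0 : 0 ≤ κ := by positivity
  have hcond : (1 - l) * (s + h) ≤ s + κ := by
    by_cases hap : g / 2 ≤ ‖a - p‖
    · have h1 : (1 - l) * h ≤ κ := by
        have h2 : h ≤ g / Dm * (g / 2) ^ 2 / (2 * ρ0) := by
          refine hh1.trans (le_of_eq ?_)
          field_simp
          ring
        have h3 : g / Dm * (g / 2) ^ 2 / (2 * ρ0) ≤ l * ‖a - p‖ ^ 2 / (2 * ρ0) := by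
          gcongr
        calc (1 - l) * h ≤ (1 - l) * (l * ‖a - p‖ ^ 2 / (2 * ρ0)) := by
              gcongr; exact h2.trans h3
          _ = κ := by rw [hκ]; ring
      nlinarith
    · push Not at hap
      have h1 : ‖z - p‖ ≤ ‖z - a‖ + ‖a - p‖ := by
        have : z - p = (z - a) + (a - p) := by abel
        rw [this]; exact norm_add_le _ _
      have h2 : g / 2 ≤ s + h := by linarith
      have h3 : h ≤ l * (s + h) := by
        calc h ≤ g ^ 2 / (2 * Dm) := hh2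
          _ = g / Dm * (g / 2) := by field_simp
          _ ≤ l * (s + h) := by gcongr
      nlinarith
  obtain ⟨c, d, hcd, hc, hd⟩ := split_vec (z' - al) hs hκ0 (hn.trans hcond)
  refine ⟨al + c, ?_, ?_⟩
  · refine hA a ha p hpA l hl0.le hl1.le _ ?_
    rw [← hal, add_sub_cancel_left]
    have : 2 * ρ0 * κ = l * (1 - l) * ‖a - p‖ ^ 2 := by
      rw [hκ]; field_simp
    rw [← this]
    gcongr
  · have : z' - (al + c) = d := by
      have : z' - (al + c) = (z' - al) - c := by abel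
      rw [this, hcd]; abel
    rw [this]; exact hd

theorem grow_one {ρ0 ρ g Dm : ℝ} (hρ0 : 0 < ρ0) (hg : 0 < g) (hDm : 0 < Dm)
    (hρ : ρ0 + Dm + 1 ≤ ρ) {W : Set E} {As : List (Set E)} (hWc : IsCompact W) (hW : SC ρ0 W)
    {p : E} (hpW : p ∈ W) (hdm : ∀ w ∈ W, ‖w - p‖ ≤ Dm)
    (hAs : ∀ A ∈ As, SC ρ0 A ∧ SC ρ0 (A ∪ W)) {A A' : Set E} (hAc : IsCompact A) (hA : SC ρ0 A)
    (hpA : p ∈ A) (hAA' : A ⊆ A') (hA'c : IsClosed A') (hA' : SC ρ0 A')
    (hdich : ∀ B ∈ As, A' ⊆ B ∨ B ⊆ A) :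
    Relation.ReflTransGen (GStep ρ g W As) (W ∩ A) (W ∩ A') := by
  set Q : ℝ → Set E := fun s => W ∩ A' ∩ thick s A with hQ
  have hadm : ∀ s, 0 ≤ s → s ≤ Dm + 1 → Adm ρ W As (Q s) := by
    intro s hs0 hs1
    have hth : SC ρ (thick s A) := (hA.thick hρ0 hs0).mono (by linarith)
    refine ⟨(hWc.inter_right hA'c).inter_right (isClosed_thick hs0 hAc),
      ⟨p, ⟨hpW, hAA' hpA⟩, subset_thick hs0 A hpA⟩, fun z hz => hz.1.1, ?_, ?_⟩
    · exact ((hW.mono (by linarith)).inter (hA'.mono (by linarith))).inter hth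
    · intro B hB
      rcases hdich B hB with h | h
      · have : B ∪ Q s = B := by
          rw [union_eq_left]
          exact fun z hz => h hz.1.2
        rw [this]
        exact (hAs B hB).1.mono (by linarith)
      · have : B ∪ Q s = (B ∪ W) ∩ A' ∩ thick s A := by
          apply Subset.antisymm
          · rintro z (hz | hz)
            · exact ⟨⟨Or.inl hz, hAA' (h hz)⟩, subset_thick hs0 A (h hz)⟩
            · exact ⟨⟨Or.inr hz.1.1, hz.1.2⟩, hz.2⟩
          · rintro z ⟨⟨hz1 | hz1, hz2⟩, hz3⟩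
            · exact Or.inl hz1
            · exact Or.inr ⟨⟨hz1, hz2⟩, hz3⟩
        rw [this]
        exact (((hAs B hB).2.mono (by linarith)).inter (hA'.mono (by linarith))).inter hth
  -- the step
  obtain ⟨h, hh0, hh1, hh2, hh3⟩ : ∃ h : ℝ, 0 < h ∧ h ≤ g ^ 3 / (8 * ρ0 * Dm) ∧
      h ≤ g ^ 2 / (2 * Dm) ∧ h ≤ 1 := by
    refine ⟨min (min (g ^ 3 / (8 * ρ0 * Dm)) (g ^ 2 / (2 * Dm))) 1, ?_, ?_, ?_, ?_⟩
    · apply lt_min
      · apply lt_min <;> positivity
      · norm_num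
    · exact (min_le_left _ _).trans (min_le_left _ _)
    · exact (min_le_left _ _).trans (min_le_right _ _)
    · exact min_le_right _ _
  set N := ⌈Dm / h⌉₊ with hN
  have hN1 : Dm ≤ N * h := by
    have := Nat.le_ceil (Dm / h)
    rw [div_le_iff₀ hh0] at this
    exact this
  have hN2 : N * h ≤ Dm + 1 := by
    have := (Nat.ceil_lt_add_one (a := Dm / h) (by positivity)).le
    calc (N : ℝ) * h ≤ (Dm / h + 1) * h := by gcongr
      _ = Dm + h := by field_simp
      _ ≤ Dm + 1 := by linarith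
  have hmono : ∀ s s', s ≤ s' → Q s ⊆ Q s' := by
    intro s s' hss z hz
    exact ⟨hz.1, thick_mono hss Subset.rfl hz.2⟩
  have hpath : ∀ k : ℕ, k ≤ N → Relation.ReflTransGen (GStep ρ g W As) (Q 0) (Q (k * h)) := by
    intro k
    induction k with
    | zero => intro _; simp only [Nat.cast_zero, zero_mul]; exact Relation.ReflTransGen.refl
    | succ k ih =>
      intro hk
      have hkN : ((k + 1 : ℕ) : ℝ) * h ≤ N * h := by
        have : ((k + 1 : ℕ) : ℝ) ≤ N := by exact_mod_cast hk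
        gcongr
      have hk1 : ((k + 1 : ℕ) : ℝ) * h = k * h + h := by push_cast; ring
      have hk0 : 0 ≤ (k : ℝ) * h := by positivity
      refine (ih (by omega)).tail ⟨hadm _ hk0 (by linarith), hadm _ (by positivity) (by linarith),
        hmono _ _ (by linarith), ?_⟩
      rw [hk1]
      exact gap_one hρ0 hg hk0 hDm hh0 hh1 hh2 hW.convex hA hA'.convex hpW hpA (hAA' hpA) hdm
  have h0 : Q 0 = W ∩ A := by
    rw [hQ]
    simp only [thick_zero]
    ext z
    constructor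
    · rintro ⟨hz1, hz2⟩; exact ⟨hz1.1, hz2⟩
    · rintro ⟨hz1, hz2⟩; exact ⟨⟨hz1, hAA' hz2⟩, hz2⟩
  have h1 : Q (N * h) = W ∩ A' := by
    rw [hQ]
    simp only [inter_eq_left]
    rintro z ⟨hz1, _⟩
    exact ⟨p, hpA, (hdm z hz1).trans hN1⟩
  have := hpath N le_rfl
  rwa [h0, h1] at this

theorem grow_all {ρ0 ρ g Dm : ℝ} (hρ0 : 0 < ρ0) (hg : 0 < g) (hDm : 0 < Dm)
    (hρ : ρ0 + Dm + 1 ≤ ρ) {W : Set E} {As : List (Set E)} (hWc : IsCompact W) (hW : SC ρ0 W)
    {p : E} (hpW : p ∈ W) (hdm : ∀ w ∈ W, ‖w - p‖ ≤ Dm)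
    (hAs : ∀ A ∈ As, IsCompact A ∧ SC ρ0 A ∧ SC ρ0 (A ∪ W) ∧ p ∈ A) :
    ∀ (L : List (Set E)) (B : Set E), IsCompact B → SC ρ0 B → p ∈ B →
      (∀ A ∈ As, A ⊆ B ∨ A ∈ L) → L.Pairwise (· ⊆ ·) → (∀ A ∈ L, B ⊆ A ∧ A ∈ As) →
      Relation.ReflTransGen (GStep ρ g W As) (W ∩ B) W := by
  intro L
  induction L with
  | nil =>
    intro B hBc hB hpB h1 _ _
    have := grow_one hρ0 hg hDm hρ hWc hW hpW hdm (fun A hA => ⟨(hAs A hA).2.1, (hAs A hA).2.2.1⟩)
      hBc hB hpB (subset_univ B) isClosed_univ (SC.univ ρ0)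
      (fun A hA => Or.inr ((h1 A hA).resolve_right (by simp)))
    rwa [inter_univ] at this
  | cons A' L' ih =>
    intro B hBc hB hpB h1 h2 h3
    rw [List.pairwise_cons] at h2
    obtain ⟨hBA', hA'As⟩ := h3 A' List.mem_cons_self
    obtain ⟨a1, a2, a3, a4⟩ := hAs A' hA'As
    have step1 := grow_one hρ0 hg hDm hρ hWc hW hpW hdm
      (fun A hA => ⟨(hAs A hA).2.1, (hAs A hA).2.2.1⟩)
      hBc hB hpB hBA' a1.isClosed a2 (fun A hA => by
        rcases h1 A hA with h | h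
        · exact Or.inr h
        · rw [List.mem_cons] at h
          rcases h with h | h
          · left; rw [h]
          · exact Or.inl (h2.1 A h))
    refine step1.trans (ih A' a1 a2 a4 ?_ h2.2 ?_)
    · intro A hA
      rcases h1 A hA with h | h
      · exact Or.inl (h.trans hBA')
      · rw [List.mem_cons] at h
        rcases h with h | h
        · left; rw [h]
        · exact Or.inr h
    · intro A hA
      exact ⟨h2.1 A hA, (h3 A (List.mem_cons_of_mem _ hA)).2⟩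

/-- One-sided refinement. -/
theorem one_sided {ρ0 Dm R η : ℝ} (hρ0 : 0 < ρ0) (hDm : 0 < Dm) (hR : ρ0 + Dm + 1 < R)
    (hη : 0 < η) {W : Set E} {As : List (Set E)} (hWc : IsCompact W) (hW : SC ρ0 W)
    {p : E} (hpW : p ∈ W) (hdm : ∀ w ∈ W, ‖w - p‖ ≤ Dm)
    (hAs : ∀ A ∈ As, IsCompact A ∧ SC ρ0 A ∧ SC ρ0 (A ∪ W) ∧ p ∈ A)
    (hpair : As.Pairwise (· ⊆ ·)) {D : Bool → ℕ → Set E} {m : ℕ} {small : Set E → Prop}
    (hD : Cuts R η W D m small) (hsm : small {p}) (τ : Bool) :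
    Stage R W As D small τ W := by
  set ρ := ρ0 + Dm + 1 with hρ
  have hρ1 : 0 < ρ := by positivity
  have hR0 : 0 < R := hρ1.trans hR
  set δ := η / (As.length + 1) with hδ
  have hδ0 : 0 < δ := by positivity
  have hηδ : (As.length + 1) * δ ≤ η := by
    rw [hδ]
    have : (0 : ℝ) < As.length + 1 := by positivity
    rw [mul_div_cancel₀ _ this.ne']
  obtain ⟨g, hg0, hgap⟩ := exists_gap hρ1 hR hδ0
  have hpath := grow_all hρ0 hg0 hDm (le_refl (ρ0 + Dm + 1)) hWc hW hpW hdm hAs As {p}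
    isCompact_singleton (SC.singleton hρ0 p) rfl (fun A hA => Or.inr hA) hpair
    (fun A hA => ⟨by simpa using (hAs A hA).2.2.2, hA⟩)
  have hWp : W ∩ {p} = {p} := by
    rw [inter_eq_right]; simpa using hpW
  rw [hWp] at hpath
  exact stage_of_path hgap hpair (fun A hA => (hAs A hA).1) hD hηδ hpath
    (fun τ => stage_base (ρ := ρ0) (by linarith) hR0 hpW (fun A hA => (hAs A hA).2.2.2)
      (fun A hA => (hAs A hA).2.1) hsm τ) τ

end Pool.Agent.H664.Csf
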