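import Pool.Agent.H664.CsfTwo

set_option autoImplicit false
set_option linter.unusedSectionVars false
set_option linter.unusedVariables false

namespace Pool.Agent.H664.Csf

open Set Metric

variable {E : Type*} [NormedAddCommGroup E] [InnerProductSpace ℝ E]

theorem refine_all {u : E} (hu : ‖u‖ = 1) {ε : ℝ} (hε : 0 < ε) :
    ∀ (rest A : List (Set E)) (ρ0 : ℝ), 0 < ρ0 → (∀ S, S <:+: A ++ rest → SC ρ0 (U S)) →
      (∀ x ∈ A ++ rest, IsCompact x ∧ x.Nontrivial) →
      ∃ R, 0 < R ∧ ∃ LL : List (List (Set E)), LL.map U = rest ∧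
        (∀ V ∈ LL, 2 ≤ V.length ∧ ∀ x ∈ V, IsCompact x ∧ x.Nontrivial ∧
          ∀ y ∈ x, ∀ z ∈ x, |inner ℝ u (y - z)| ≤ ε) ∧
        ∀ S, S <:+: A ++ LL.flatten → SC R (U S) := by
  intro rest
  induction rest with
  | nil =>
    intro A ρ0 hρ0 h1 _
    refine ⟨ρ0, hρ0, [], rfl, by simp, by simpa using h1⟩
  | cons W rest ih =>
    intro A ρ0 hρ0 h1 h2
    obtain ⟨R1, hR1, V, v1, v2, v3, v4⟩ := refine_one (A := A) (B := rest) (W := W) hρ0
      (by simpa using h1) (by simpa using h2) hu hε
    have hR1' : 0 < R1 := lt_of_lt_of_le hρ0 hR1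
    obtain ⟨R2, hR2, LL, w1, w2, w3⟩ := ih (A ++ V) R1 hR1' (by
      intro S hS
      rw [List.append_assoc] at hS
      exact v4 S hS) (by
      intro x hx
      rw [List.append_assoc, List.mem_append, List.mem_append] at hx
      rcases hx with hx | hx | hx
      · exact h2 x (by simp [hx])
      · exact ⟨(v2 x hx).1, (v2 x hx).2.1⟩
      · exact h2 x (by simp [hx]))
    refine ⟨R2, hR2, V :: LL, ?_, ?_, ?_⟩
    · rw [List.map_cons, v1, w1]
    · intro V' hV'
      rw [List.mem_cons] at hV'
      rcases hV' with h | h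
      · rw [h]; exact ⟨v3, v2⟩
      · exact w2 V' h
    · intro S hS
      rw [List.flatten_cons, ← List.append_assoc] at hS
      exact w3 S hS

/-! ### padding -/

theorem U_of_forall_eq {S : List (Set E)} {w : Set E} (h : ∀ x ∈ S, x = w) :
    U S = ∅ ∨ U S = w := by
  by_cases hS : S = []
  · left; rw [hS, U_nil]
  · right
    obtain ⟨x, hx⟩ := List.exists_mem_of_ne_nil S hS
    apply Subset.antisymm
    · rintro z ⟨y, hy, hz⟩
      rw [h y hy] at hz; exact hz
    · intro z hz
      exact ⟨x, hx, by rw [h x hx]; exact hz⟩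

theorem good_replicate {R : ℝ} {A B : List (Set E)} {w : Set E} (k : ℕ)
    (h : ∀ S, S <:+: A ++ ([w] ++ B) → SC R (U S)) :
    ∀ S, S <:+: A ++ (List.replicate (k + 1) w ++ B) → SC R (U S) := by
  have hrep : ∀ S, S <:+: List.replicate (k + 1) w → U S = ∅ ∨ U S = w := by
    intro S hS
    exact U_of_forall_eq fun x hx => List.eq_of_mem_replicate (hS.subset hx)
  have hUrep : U (List.replicate (k + 1) w) = w := by
    ext z
    constructor
    · rintro ⟨x, hx, hz⟩
      rw [List.eq_of_mem_replicate hx] at hz; exact hz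
    · intro hz
      exact ⟨w, by simp, hz⟩
  have hw : SC R w := by
    have := h [w] ⟨A, B, by simp⟩
    rwa [U_singleton] at this
  have hB : ∀ S, S <:+: B → SC R (U S) := by
    rintro S ⟨a, b, hab⟩
    exact h S ⟨A ++ ([w] ++ a), b, by rw [← hab]; simp⟩
  have hA : ∀ S, S <:+: A → SC R (U S) := by
    rintro S ⟨a, b, hab⟩
    exact h S ⟨a, b ++ ([w] ++ B), by rw [← hab]; simp⟩
  have hwB : ∀ S, S <+: B → SC R (w ∪ U S) := by
    rintro S ⟨b, hb⟩
    have := h ([w] ++ S) ⟨A, b, by rw [← hb]; simp⟩
    rwa [U_append, U_singleton] at this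
  have hAw : ∀ S, S <:+ A → SC R (U S ∪ w) := by
    rintro S ⟨a, ha⟩
    have := h (S ++ [w]) ⟨a, B, by rw [← ha]; simp⟩
    rwa [U_append, U_singleton] at this
  have hAwB : ∀ S T, S <:+ A → T <+: B → SC R (U S ∪ (w ∪ U T)) := by
    rintro S T ⟨a, ha⟩ ⟨b, hb⟩
    have := h (S ++ ([w] ++ T)) ⟨a, b, by rw [← ha, ← hb]; simp⟩
    rwa [U_append, U_append, U_singleton] at this
  intro S hS
  rcases infix_append_cases hS with h1 | h1 | ⟨S1, S2, h1, h2, h3⟩
  · exact hA S h1
  · rcases infix_append_cases h1 with h4 | h4 | ⟨S3, S4, h4, h5, h6⟩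
    · rcases hrep S h4 with h5 | h5
      · rw [h5]; exact SC.empty R
      · rw [h5]; exact hw
    · exact hB S h4
    · rw [h4, U_append]
      rcases hrep S3 h5.isInfix with h7 | h7
      · rw [h7, empty_union]; exact hB S4 h6.isInfix
      · rw [h7]; exact hwB S4 h6
  · rw [h1, U_append]
    rcases prefix_append_cases h3 with h4 | ⟨T, h4, h5⟩
    · rcases hrep S2 h4.isInfix with h5 | h5
      · rw [h5, union_empty]; exact hA S1 h2.isInfix
      · rw [h5]; exact hAw S1 h2
    · rw [h4, U_append, hUrep]
      exact hAwB S1 T h2 h5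

/-- pad a list to length `q` by repeating its last element -/
noncomputable def pad (q : ℕ) (V : List (Set E)) : List (Set E) :=
  V ++ List.replicate (q - V.length) (V.getLastD ∅)

theorem length_pad {q : ℕ} {V : List (Set E)} (h : V.length ≤ q) : (pad q V).length = q := by
  rw [pad, List.length_append, List.length_replicate]
  omega

theorem mem_pad {q : ℕ} {V : List (Set E)} (hV : V ≠ []) {x : Set E} (hx : x ∈ pad q V) : x ∈ V := by
  rw [pad, List.mem_append] at hx
  rcases hx with hx | hx
  · exact hx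
  · rw [List.eq_of_mem_replicate hx]
    rw [List.getLastD_eq_getLast?, List.getLast?_eq_getLast_of_ne_nil hV]
    exact List.getLast_mem hV

theorem U_pad {q : ℕ} {V : List (Set E)} (hV : V ≠ []) : U (pad q V) = U V := by
  apply Subset.antisymm
  · exact U_mono_of_subset fun x hx => mem_pad hV hx
  · exact U_mono_of_subset fun x hx => by rw [pad, List.mem_append]; exact Or.inl hx

theorem good_pad_one {R : ℝ} {q : ℕ} {A B V : List (Set E)} (hV : V ≠ [])
    (h : ∀ S, S <:+: A ++ (V ++ B) → SC R (U S)) :
    ∀ S, S <:+: A ++ (pad q V ++ B) → SC R (U S) := by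
  obtain ⟨V0, w, hVw⟩ : ∃ V0 w, V = V0 ++ [w] := by
    rcases List.eq_nil_or_concat V with h0 | ⟨V0, w, h1⟩
    · exact absurd h0 hV
    · exact ⟨V0, w, by rw [h1, List.concat_eq_append]⟩
  have h1 : ∀ S, S <:+: (A ++ V0) ++ ([w] ++ B) → SC R (U S) := by
    intro S hS
    apply h
    rw [hVw]
    simpa using hS
  have h2 := good_replicate (q - V.length) h1
  intro S hS
  apply h2
  have h3 : pad q V = V0 ++ List.replicate (q - V.length + 1) w := by
    have : V.getLastD ∅ = w := by rw [hVw]; simp [List.getLastD_eq_getLast?]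
    rw [pad, this]
    conv_lhs => rw [hVw]
    rw [List.append_assoc, List.replicate_succ]
    simp [hVw]
  rw [h3] at hS
  simpa using hS

theorem good_pad {R : ℝ} {q : ℕ} : ∀ (LL : List (List (Set E))) (A : List (Set E)),
    (∀ V ∈ LL, V ≠ []) → (∀ S, S <:+: A ++ LL.flatten → SC R (U S)) →
    ∀ S, S <:+: A ++ (LL.map (pad q)).flatten → SC R (U S) := by
  intro LL
  induction LL with
  | nil => intro A _ h; simpa using h
  | cons V LL ih =>
    intro A hne h
    have h1 : ∀ S, S <:+: A ++ (pad q V ++ LL.flatten) → SC R (U S) :=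
      good_pad_one (hne V List.mem_cons_self) (by simpa using h)
    intro S hS
    refine ih (A ++ pad q V) (fun V' hV' => hne V' (List.mem_cons_of_mem _ hV')) ?_ S ?_
    · intro T hT
      apply h1
      rwa [List.append_assoc] at hT
    · rw [List.append_assoc]
      simpa using hS

theorem getD_flatten {q : ℕ} : ∀ (LL : List (List (Set E))) (i j : ℕ), (∀ V ∈ LL, V.length = q) →
    i < LL.length → j < q →
    (LL.flatten).getD (i * q + j) ∅ = (LL.getD i []).getD j ∅ := by
  intro LL
  induction LL with
  | nil => intro i j _ hi _; simp at hi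
  | cons V LL ih =>
    intro i j hlen hi hj
    have hV : V.length = q := hlen V List.mem_cons_self
    rw [List.flatten_cons]
    cases i with
    | zero =>
      rw [zero_mul, zero_add, List.getD_append _ _ _ _ (by omega)]
      simp
    | succ i =>
      rw [List.getD_append_right _ _ _ _ (by rw [hV]; nlinarith)]
      have : (i + 1) * q + j - V.length = i * q + j := by
        rw [hV, add_mul, one_mul]; omega
      rw [this, ih i j (fun V' hV' => hlen V' (List.mem_cons_of_mem _ hV'))
        (by simpa using hi) hj]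
      simp

/-! ### levels as functions -/

/-- union of an interval of windows -/
def Iu (W : ℕ → Set E) (i j : ℕ) : Set E := {z | ∃ k, i ≤ k ∧ k ≤ j ∧ z ∈ W k}

structure Level (N : ℕ) (W : ℕ → Set E) (ρ : ℝ) : Prop where
  pos : 0 < ρ
  npos : 0 < N
  comp : ∀ i, i < N → IsCompact (W i) ∧ (W i).Nontrivial
  good : ∀ i j, i ≤ j → j < N → SC ρ (Iu W i j)

theorem suffix_range_map {W : ℕ → Set E} (n : ℕ) {T : List (Set E)}
    (h : T <:+ (List.range n).map W) : T = [] ∨ ∃ i, i < n ∧ U T = Iu W i (n - 1) := by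
  induction n generalizing T with
  | zero => left; simpa using h
  | succ n ih =>
    rw [List.range_succ, List.map_append, List.map_singleton, List.suffix_concat_iff] at h
    rcases h with h | ⟨t, h1, h2⟩
    · exact Or.inl h
    · right
      rcases ih h2 with h3 | ⟨i, hi, h3⟩
      · refine ⟨n, Nat.lt_succ_self n, ?_⟩
        rw [h1, h3, List.nil_append, U_singleton]
        ext z
        simp only [Iu, mem_ofPred_eq, Nat.add_sub_cancel]
        constructor
        · intro hz; exact ⟨n, le_rfl, le_rfl, hz⟩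
        · rintro ⟨k, hk1, hk2, hz⟩
          have : k = n := le_antisymm hk2 hk1
          rwa [this] at hz
      · refine ⟨i, by omega, ?_⟩
        rw [h1, U_append, U_singleton, h3]
        ext z
        simp only [Iu, mem_ofPred_eq, Nat.add_sub_cancel, mem_union]
        constructor
        · rintro (⟨k, hk1, hk2, hz⟩ | hz)
          · exact ⟨k, hk1, by omega, hz⟩
          · exact ⟨n, by omega, le_rfl, hz⟩
        · rintro ⟨k, hk1, hk2, hz⟩
          rcases hk2.eq_or_lt with hk | hk
          · right; rwa [hk] at hz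
          · left; exact ⟨k, hk1, by omega, hz⟩

theorem infix_range_map {W : ℕ → Set E} (n : ℕ) {T : List (Set E)}
    (h : T <:+: (List.range n).map W) :
    T = [] ∨ ∃ i j, i ≤ j ∧ j < n ∧ U T = Iu W i j := by
  induction n generalizing T with
  | zero => left; simpa using h
  | succ n ih =>
    rw [List.range_succ, List.map_append, List.map_singleton, List.infix_concat_iff] at h
    rcases h with h | h
    · have h' : T <:+ (List.range (n + 1)).map W := by
        rw [List.range_succ, List.map_append, List.map_singleton]; exact h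
      rcases suffix_range_map (n + 1) h' with h1 | ⟨i, hi, h1⟩
      · exact Or.inl h1
      · exact Or.inr ⟨i, n, by omega, by omega, h1⟩
    · rcases ih h with h1 | ⟨i, j, hij, hj, h1⟩
      · exact Or.inl h1
      · exact Or.inr ⟨i, j, hij, by omega, h1⟩

theorem Iu_getD {L : List (Set E)} {i j : ℕ} (hij : i ≤ j) (hj : j < L.length) :
    Iu (fun k => L.getD k ∅) i j = U ((L.drop i).take (j + 1 - i)) := by
  ext z
  simp only [Iu, mem_ofPred_eq, mem_U]
  constructor
  · rintro ⟨k, hk1, hk2, hz⟩
    refine ⟨L.getD k ∅, ?_, hz⟩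
    have hkL : k < L.length := by omega
    rw [List.getD_eq_getElem L ∅ hkL, List.mem_iff_getElem]
    refine ⟨k - i, by rw [List.length_take, List.length_drop]; omega, ?_⟩
    rw [List.getElem_take, List.getElem_drop]
    congr 1
    omega
  · rintro ⟨x, hx, hz⟩
    rw [List.mem_iff_getElem] at hx
    obtain ⟨n, hn, hx⟩ := hx
    rw [List.getElem_take, List.getElem_drop] at hx
    rw [List.length_take, List.length_drop] at hn
    refine ⟨i + n, by omega, by omega, ?_⟩
    rw [List.getD_eq_getElem L ∅ (by omega), hx]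
    exact hz

theorem level_refine {u : E} (hu : ‖u‖ = 1) {ε : ℝ} (hε : 0 < ε) {N : ℕ} {W : ℕ → Set E} {ρ : ℝ}
    (h : Level N W ρ) : ∃ (q : ℕ) (W' : ℕ → Set E) (ρ' : ℝ), 2 ≤ q ∧ Level (N * q) W' ρ' ∧
      (∀ i, i < N → W i = {z | ∃ j, j < q ∧ z ∈ W' (i * q + j)}) ∧
      ∀ k, k < N * q → ∀ y ∈ W' k, ∀ z ∈ W' k, |inner ℝ u (y - z)| ≤ ε := by
  set L := (List.range N).map W with hL
  have hgood : ∀ S, S <:+: [] ++ L → SC ρ (U S) := by
    intro S hS
    rw [List.nil_append] at hS
    rcases infix_range_map N hS with h1 | ⟨i, j, hij, hj, h1⟩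
    · rw [h1, U_nil]; exact SC.empty ρ
    · rw [h1]; exact h.good i j hij hj
  have hcomp : ∀ x ∈ [] ++ L, IsCompact x ∧ x.Nontrivial := by
    intro x hx
    rw [List.nil_append, hL, List.mem_map] at hx
    obtain ⟨i, hi, rfl⟩ := hx
    exact h.comp i (List.mem_range.1 hi)
  obtain ⟨R, hR, LL, w1, w2, w3⟩ := refine_all hu hε L [] ρ h.pos hgood hcomp
  have hlen : LL.length = N := by
    have := congrArg List.length w1
    rw [List.length_map, hL, List.length_map, List.length_range] at this
    exact this
  -- common length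
  set q := (LL.map List.length).sum with hq
  have hqle : ∀ V ∈ LL, V.length ≤ q := by
    intro V hV
    exact List.le_sum_of_mem (List.mem_map_of_mem hV)
  have hNpos := h.npos
  have hq2 : 2 ≤ q := by
    obtain ⟨V, hV⟩ : ∃ V, V ∈ LL := List.exists_mem_of_ne_nil LL (by
      intro h0; rw [h0] at hlen; simp at hlen; omega)
    exact (w2 V hV).1.trans (hqle V hV)
  have hne : ∀ V ∈ LL, V ≠ [] := by
    intro V hV h0
    have := (w2 V hV).1
    rw [h0] at this
    simp at this
  set PL := LL.map (pad q) with hPL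
  have hPlen : PL.length = N := by rw [hPL, List.length_map, hlen]
  have hPq : ∀ V ∈ PL, V.length = q := by
    intro V hV
    rw [hPL, List.mem_map] at hV
    obtain ⟨V', hV', rfl⟩ := hV
    exact length_pad (hqle V' hV')
  have hPgood := good_pad (q := q) LL [] hne w3
  have hFlen : PL.flatten.length = N * q := by
    rw [List.length_flatten]
    have : PL.map List.length = List.replicate N q := by
      rw [List.eq_replicate_iff]
      refine ⟨by rw [List.length_map, hPlen], ?_⟩
      intro b hb
      rw [List.mem_map] at hb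
      obtain ⟨V, hV, rfl⟩ := hb
      exact hPq V hV
    rw [this]; simp
  have hFmem : ∀ x ∈ PL.flatten, IsCompact x ∧ x.Nontrivial ∧
      ∀ y ∈ x, ∀ z ∈ x, |inner ℝ u (y - z)| ≤ ε := by
    intro x hx
    rw [List.mem_flatten] at hx
    obtain ⟨V, hV, hxV⟩ := hx
    rw [hPL, List.mem_map] at hV
    obtain ⟨V', hV', rfl⟩ := hV
    exact (w2 V' hV').2 x (mem_pad (hne V' hV') hxV)
  refine ⟨q, fun k => PL.flatten.getD k ∅, R, hq2, ⟨hR, by positivity, ?_, ?_⟩, ?_, ?_⟩
  · intro i hi
    rw [← hFlen] at hi
    simp only [List.getD_eq_getElem _ _ hi]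
    have := hFmem _ (List.getElem_mem hi)
    exact ⟨this.1, this.2.1⟩
  · intro i j hij hj
    rw [← hFlen] at hj
    rw [Iu_getD hij hj]
    apply hPgood
    rw [List.nil_append]
    exact ((List.take_prefix _ _).isInfix).trans (List.drop_suffix _ _).isInfix
  · intro i hi
    have hiLL : i < LL.length := by omega
    have h1 : W i = U (LL[i]) := by
      have h2 : (LL.map U)[i]'(by rw [List.length_map]; exact hiLL) = L[i]'(by
          rw [hL, List.length_map, List.length_range]; exact hi) := by
        simp only [w1]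
      rw [List.getElem_map] at h2
      rw [h2]
      simp [hL]
    have h3 : U (LL[i]) = U (pad q LL[i]) := (U_pad (hne _ (List.getElem_mem hiLL))).symm
    rw [h1, h3]
    have hPi : PL.getD i [] = pad q LL[i] := by
      rw [List.getD_eq_getElem _ _ (by rw [hPlen]; exact hi)]
      simp [hPL]
    ext z
    simp only [mem_U, mem_ofPred_eq]
    have hpl : (pad q LL[i]).length = q := length_pad (hqle _ (List.getElem_mem hiLL))
    constructor
    · rintro ⟨x, hx, hz⟩
      rw [List.mem_iff_getElem] at hx
      obtain ⟨j, hj, hx⟩ := hx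
      refine ⟨j, by omega, ?_⟩
      rw [getD_flatten PL i j hPq (by omega) (by omega), hPi, List.getD_eq_getElem _ _ hj, hx]
      exact hz
    · rintro ⟨j, hj, hz⟩
      rw [getD_flatten PL i j hPq (by omega) hj, hPi,
        List.getD_eq_getElem _ _ (by omega)] at hz
      exact ⟨_, List.getElem_mem _, hz⟩
  · intro k hk
    rw [← hFlen] at hk
    simp only [List.getD_eq_getElem _ _ hk]
    exact (hFmem _ (List.getElem_mem hk)).2.2

end Pool.Agent.H664.Csf
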