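import Pool.Agent.H664.CsfLevel

set_option autoImplicit false
set_option linter.unusedSectionVars false
set_option linter.unusedVariables false

namespace Pool.Agent.H664.Csf

open Set Metric

variable {E : Type*} [NormedAddCommGroup E] [InnerProductSpace ℝ E]

/-- An infinite refining sequence of levels. -/
structure Tower (N q : ℕ → ℕ) (W : ℕ → ℕ → Set E) : Prop where
  npos : ∀ n, 0 < N n
  hq : ∀ n, 2 ≤ q n
  hN : ∀ n, N (n + 1) = N n * q n
  hW : ∀ n i, i < N n → W n i = {z | ∃ j, j < q n ∧ z ∈ W (n + 1) (i * q n + j)}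
  hconv : ∀ n i j, i ≤ j → j < N n → Convex ℝ (Iu (W n) i j)
  hcomp : ∀ n i, i < N n → IsCompact (W n i) ∧ (W n i).Nonempty
  hdiam : ∀ ε : ℝ, 0 < ε → ∃ n, ∀ i, i < N n → ∀ x ∈ W n i, ∀ y ∈ W n i, dist x y ≤ ε

/-- the `n`-th approximation to the graph -/
def Fib (N : ℕ → ℕ) (W : ℕ → ℕ → Set E) (n : ℕ) (t : ℝ) : Set E :=
  {z | ∃ i : ℕ, i < N n ∧ (i : ℝ) ≤ N n * t ∧ N n * t ≤ i + 1 ∧ z ∈ W n i}

section tower
variable {N q : ℕ → ℕ} {W : ℕ → ℕ → Set E} (T : Tower N q W)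
include T

theorem Fib_anti (n : ℕ) (t : ℝ) : Fib N W (n + 1) t ⊆ Fib N W n t := by
  rintro z ⟨k, hk, h1, h2, hz⟩
  have hq := T.hq n
  have hN := T.hN n
  have hk' : k < N n * q n := by rw [← hN]; exact hk
  have hi : k / q n < N n := Nat.div_lt_of_lt_mul (by rwa [mul_comm] at hk')
  have hmod : k % q n < q n := Nat.mod_lt _ (by omega)
  have hdm : k / q n * q n + k % q n = k := Nat.div_add_mod' k (q n)
  have hq0 : (0 : ℝ) < q n := by
    have : 0 < q n := by omega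
    exact_mod_cast this
  have hkr : (k : ℝ) = (k / q n : ℕ) * (q n : ℝ) + (k % q n : ℕ) := by
    exact_mod_cast hdm.symm
  have hmodr : ((k % q n : ℕ) : ℝ) + 1 ≤ q n := by exact_mod_cast hmod
  have hmod0 : (0 : ℝ) ≤ (k % q n : ℕ) := Nat.cast_nonneg _
  have hNr : (N (n + 1) : ℝ) = N n * q n := by rw [hN]; push_cast; ring
  rw [hNr] at h1 h2
  refine ⟨k / q n, hi, ?_, ?_, ?_⟩
  · have : ((k / q n : ℕ) : ℝ) * q n ≤ (N n * t) * q n := by nlinarith
    exact le_of_mul_le_mul_right this hq0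
  · have : (N n * t) * q n ≤ (((k / q n : ℕ) : ℝ) + 1) * q n := by nlinarith
    exact le_of_mul_le_mul_right this hq0
  · rw [T.hW n _ hi]
    exact ⟨k % q n, hmod, by rwa [hdm]⟩

theorem Fib_nonempty (n : ℕ) {t : ℝ} (h0 : 0 ≤ t) (h1 : t ≤ 1) : (Fib N W n t).Nonempty := by
  have hNp : (0 : ℝ) < N n := by exact_mod_cast T.npos n
  have hNt : 0 ≤ N n * t := by positivity
  by_cases h : t < 1
  · set i := ⌊(N n : ℝ) * t⌋₊ with hi
    have h2 : (i : ℝ) ≤ N n * t := Nat.floor_le hNt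
    have h3 : N n * t < i + 1 := Nat.lt_floor_add_one _
    have h4 : i < N n := by
      have : (i : ℝ) < N n := by nlinarith
      exact_mod_cast this
    obtain ⟨z, hz⟩ := (T.hcomp n i h4).2
    exact ⟨z, i, h4, h2, h3.le, hz⟩
  · have ht : t = 1 := le_antisymm h1 (not_lt.1 h)
    have h4 : N n - 1 < N n := by have := T.npos n; omega
    obtain ⟨z, hz⟩ := (T.hcomp n _ h4).2
    have hc : ((N n - 1 : ℕ) : ℝ) = N n - 1 := by
      rw [Nat.cast_sub (by have := T.npos n; omega)]; simp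
    refine ⟨z, N n - 1, h4, ?_, ?_, hz⟩
    · rw [hc, ht]; linarith
    · rw [hc, ht]; linarith

theorem Fib_isCompact (n : ℕ) (t : ℝ) : IsCompact (Fib N W n t) := by
  have : Fib N W n t = ⋃ i ∈ {i : ℕ | i < N n ∧ (i : ℝ) ≤ N n * t ∧ N n * t ≤ i + 1}, W n i := by
    ext z
    simp only [Fib, mem_ofPred_eq, mem_iUnion, exists_prop]
    constructor
    · rintro ⟨i, h1, h2, h3, h4⟩; exact ⟨i, ⟨h1, h2, h3⟩, h4⟩
    · rintro ⟨i, ⟨h1, h2, h3⟩, h4⟩; exact ⟨i, h1, h2, h3, h4⟩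
  rw [this]
  refine Set.Finite.isCompact_biUnion ?_ ?_
  · exact (Set.finite_lt_nat (N n)).subset fun i hi => hi.1
  · intro i hi
    exact (T.hcomp n i hi.1).1

theorem adjacent (n i : ℕ) (hi : i + 1 < N n) : (W n i ∩ W n (i + 1)).Nonempty := by
  have hc := T.hconv n i (i + 1) (by omega) hi
  have hsub : Iu (W n) i (i + 1) ⊆ W n i ∪ W n (i + 1) := by
    rintro z ⟨k, hk1, hk2, hz⟩
    rcases (by omega : k = i ∨ k = i + 1) with h | h
    · left; rwa [h] at hz
    · right; rwa [h] at hz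
  have h1 := T.hcomp n i (by omega)
  have h2 := T.hcomp n (i + 1) hi
  obtain ⟨z, _, hz⟩ := (isPreconnected_closed_iff.1 hc.isPreconnected) (W n i) (W n (i + 1))
    h1.1.isClosed h2.1.isClosed hsub
    (by
      obtain ⟨z, hz⟩ := h1.2
      exact ⟨z, ⟨i, le_rfl, by omega, hz⟩, hz⟩)
    (by
      obtain ⟨z, hz⟩ := h2.2
      exact ⟨z, ⟨i + 1, by omega, le_rfl, hz⟩, hz⟩)
  exact ⟨z, hz⟩

theorem near {n : ℕ} {ε : ℝ} (hε : 0 < ε)
    (hd : ∀ i, i < N n → ∀ x ∈ W n i, ∀ y ∈ W n i, dist x y ≤ ε)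
    {i j : ℕ} (hi : i < N n) (hj : j < N n) (hij : i ≤ j + 1) (hji : j ≤ i + 1)
    {x y : E} (hx : x ∈ W n i) (hy : y ∈ W n j) : dist x y ≤ 2 * ε := by
  rcases (by omega : i = j ∨ j = i + 1 ∨ i = j + 1) with h | h | h
  · subst h
    have := hd i hi x hx y hy
    linarith
  · subst h
    obtain ⟨p, hp1, hp2⟩ := adjacent T n i hj
    have h1 := hd i hi x hx p hp1
    have h2 := hd (i + 1) hj p hp2 y hy
    linarith [dist_triangle x p y]
  · subst h
    obtain ⟨p, hp1, hp2⟩ := adjacent T n j hi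
    have h1 := hd (j + 1) hi x hx p hp2
    have h2 := hd j hj p hp1 y hy
    linarith [dist_triangle x p y]

theorem exists_pt (t : ℝ) : ∃ z, (0 ≤ t → t ≤ 1 → ∀ n, z ∈ Fib N W n t) := by
  by_cases h : 0 ≤ t ∧ t ≤ 1
  · have := IsCompact.nonempty_iInter_of_sequence_nonempty_isCompact_isClosed
      (fun n => Fib N W n t) (fun n => Fib_anti T n t) (fun n => Fib_nonempty T n h.1 h.2)
      (Fib_isCompact T 0 t) (fun n => (Fib_isCompact T n t).isClosed)
    obtain ⟨z, hz⟩ := this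
    rw [mem_iInter] at hz
    exact ⟨z, fun _ _ => hz⟩
  · obtain ⟨z, _⟩ := (T.hcomp 0 0 (T.npos 0)).2
    exact ⟨z, fun h1 h2 => absurd ⟨h1, h2⟩ h⟩

theorem Fib_close {ε : ℝ} (hε : 0 < ε) : ∃ n, ∀ s t : ℝ, |s - t| < 1 / N n →
    ∀ x ∈ Fib N W n s, ∀ y ∈ Fib N W n t, dist x y ≤ ε := by
  obtain ⟨n, hn⟩ := T.hdiam (ε / 2) (by positivity)
  refine ⟨n, ?_⟩
  rintro s t hst x ⟨i, hi, hi1, hi2, hx⟩ y ⟨j, hj, hj1, hj2, hy⟩
  have hNp : (0 : ℝ) < N n := by exact_mod_cast T.npos n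
  have h1 : |(N n : ℝ) * s - N n * t| < 1 := by
    rw [← mul_sub, abs_mul, abs_of_pos hNp]
    calc (N n : ℝ) * |s - t| < N n * (1 / N n) := by gcongr
      _ = 1 := by field_simp
  have h2 := abs_lt.1 h1
  have hij : i ≤ j + 1 := by
    have : (i : ℝ) < j + 1 + 1 := by linarith [h2.1, h2.2]
    have h3 : i < j + 1 + 1 := by exact_mod_cast this
    omega
  have hji : j ≤ i + 1 := by
    have : (j : ℝ) < i + 1 + 1 := by linarith [h2.1, h2.2]
    have h3 : j < i + 1 + 1 := by exact_mod_cast this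
    omega
  have := near T (by positivity) hn hi hj hij hji hx hy
  linarith

theorem Fib_unique {t : ℝ} {x y : E} (hx : ∀ n, x ∈ Fib N W n t) (hy : ∀ n, y ∈ Fib N W n t) :
    x = y := by
  apply eq_of_forall_dist_le
  intro ε hε
  obtain ⟨n, hn⟩ := Fib_close T hε
  have hNp : (0 : ℝ) < N n := by exact_mod_cast T.npos n
  exact hn t t (by simp; exact T.npos n) x (hx n) y (hy n)

theorem isClosed_times (n : ℕ) (z : E) : IsClosed {t : ℝ | z ∈ Fib N W n t} := by
  have : {t : ℝ | z ∈ Fib N W n t} = ⋃ i ∈ {i : ℕ | i < N n ∧ z ∈ W n i},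
      {t : ℝ | (i : ℝ) ≤ N n * t ∧ N n * t ≤ i + 1} := by
    ext t
    simp only [Fib, mem_ofPred_eq, mem_iUnion, exists_prop]
    constructor
    · rintro ⟨i, h1, h2, h3, h4⟩; exact ⟨i, ⟨h1, h4⟩, h2, h3⟩
    · rintro ⟨i, ⟨h1, h4⟩, h2, h3⟩; exact ⟨i, h1, h2, h3, h4⟩
  rw [this]
  refine Set.Finite.isClosed_biUnion ?_ ?_
  · exact (Set.finite_lt_nat (N n)).subset fun i hi => hi.1
  · intro i _
    have hc : Continuous fun t : ℝ => (N n : ℝ) * t := continuous_const.mul continuous_id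
    exact (isClosed_le continuous_const hc).inter (isClosed_le hc continuous_const)

/-- a point lying in the `n`-th fibre over some time of `[a,b]` for every `n` -/
theorem exists_time {a b : ℝ} {z : E} (h : ∀ n, ∃ t, a ≤ t ∧ t ≤ b ∧ z ∈ Fib N W n t) :
    ∃ t, a ≤ t ∧ t ≤ b ∧ ∀ n, z ∈ Fib N W n t := by
  have := IsCompact.nonempty_iInter_of_sequence_nonempty_isCompact_isClosed
    (fun n => Icc a b ∩ {t : ℝ | z ∈ Fib N W n t})
    (fun n => inter_subset_inter_right _ fun t ht => Fib_anti T n t ht)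
    (fun n => by
      obtain ⟨t, h1, h2, h3⟩ := h n
      exact ⟨t, ⟨h1, h2⟩, h3⟩)
    (isCompact_Icc.inter_right (isClosed_times T 0 z))
    (fun n => isClosed_Icc.inter (isClosed_times T n z))
  obtain ⟨t, ht⟩ := this
  rw [mem_iInter] at ht
  exact ⟨t, (ht 0).1.1, (ht 0).1.2, fun n => (ht n).2⟩

theorem N_large (n : ℕ) : 2 ^ n ≤ N n := by
  induction n with
  | zero => have := T.npos 0; rw [pow_zero]; omega
  | succ n ih =>
    rw [T.hN n, pow_succ]
    exact Nat.mul_le_mul ih (T.hq n)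

theorem sub_window {n i : ℕ} (hi : i < N n) {z : E} (hz : z ∈ W n i) (m : ℕ) :
    ∃ k, k < N (n + m) ∧ z ∈ W (n + m) k ∧ (i : ℝ) / N n ≤ k / N (n + m) ∧
      ((k : ℝ) + 1) / N (n + m) ≤ (i + 1) / N n := by
  induction m with
  | zero => exact ⟨i, hi, hz, le_rfl, le_rfl⟩
  | succ m ih =>
    obtain ⟨k, hk, hzk, h1, h2⟩ := ih
    rw [T.hW (n + m) k hk] at hzk
    obtain ⟨j, hj, hzj⟩ := hzk
    have hN := T.hN (n + m)
    have hq := T.hq (n + m)
    have hNp : (0 : ℝ) < N (n + m) := by exact_mod_cast T.npos (n + m)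
    have hq0 : (0 : ℝ) < q (n + m) := by
      have : 0 < q (n + m) := by omega
      exact_mod_cast this
    have hNr : (N (n + m + 1) : ℝ) = N (n + m) * q (n + m) := by rw [hN]; push_cast; ring
    have hjr : (j : ℝ) + 1 ≤ q (n + m) := by exact_mod_cast hj
    have hj0 : (0 : ℝ) ≤ j := Nat.cast_nonneg _
    refine ⟨k * q (n + m) + j, ?_, hzj, ?_, ?_⟩
    · show k * q (n + m) + j < N (n + m + 1)
      rw [hN]
      nlinarith
    · refine h1.trans ?_
      show (k : ℝ) / N (n + m) ≤ ((k * q (n + m) + j : ℕ) : ℝ) / N (n + m + 1)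
      rw [hNr, div_le_div_iff₀ hNp (by positivity)]
      push_cast
      nlinarith [mul_nonneg hj0 hNp.le]
    · refine le_trans ?_ h2
      show (((k * q (n + m) + j : ℕ) : ℝ) + 1) / N (n + m + 1) ≤ ((k : ℝ) + 1) / N (n + m)
      rw [hNr, div_le_div_iff₀ (by positivity) hNp]
      push_cast
      nlinarith [mul_le_mul_of_nonneg_right hjr hNp.le]

/-- The limit curve. -/
theorem tower_limit : ∃ f : ℝ → E, ContinuousOn f (Icc 0 1) ∧
    ∀ a b : ℝ, 0 ≤ a → a < b → b ≤ 1 → Convex ℝ (f '' Icc a b) ∧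
      ∃ n i, i < N n ∧ W n i ⊆ f '' Icc a b := by
  choose f hf using exists_pt T
  refine ⟨f, ?_, ?_⟩
  · rw [Metric.continuousOn_iff]
    rintro s ⟨hs0, hs1⟩ ε hε
    obtain ⟨n, hn⟩ := Fib_close T (ε := ε / 2) (by positivity)
    have hNp : (0 : ℝ) < N n := by exact_mod_cast T.npos n
    refine ⟨1 / N n, by positivity, ?_⟩
    rintro t ⟨ht0, ht1⟩ hts
    rw [Real.dist_eq] at hts
    have := hn t s hts (f t) (hf t ht0 ht1 n) (f s) (hf s hs0 hs1 n)
    linarith
  · intro a b ha hab hb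
    have hmem : ∀ s t : ℝ, 0 ≤ s → s < t → t ≤ 1 → ∀ c d : ℝ, 0 ≤ c → 0 ≤ d → c + d = 1 →
        ∃ τ, s ≤ τ ∧ τ ≤ t ∧ f τ = c • f s + d • f t := by
      intro s t hs hst ht c d hc hd hcd
      have key : ∀ n, ∃ τ, s ≤ τ ∧ τ ≤ t ∧ c • f s + d • f t ∈ Fib N W n τ := by
        intro n
        have hNp : (0 : ℝ) < N n := by exact_mod_cast T.npos n
        obtain ⟨i, hi, hi1, hi2, hx⟩ := hf s hs (by linarith) n
        obtain ⟨j, hj, hj1, hj2, hy⟩ := hf t (by linarith) ht n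
        have hij : i ≤ j := by
          by_contra hcon
          have h1 : (j : ℝ) + 1 ≤ i := by exact_mod_cast (by omega : j + 1 ≤ i)
          have h2 : (N n : ℝ) * s < N n * t := by gcongr
          linarith
        have hc' := T.hconv n i j hij hj ⟨i, le_rfl, hij, hx⟩ ⟨j, hij, le_rfl, hy⟩ hc hd hcd
        obtain ⟨k, hk1, hk2, hz⟩ := hc'
        rcases hk1.eq_or_lt with h1 | h1
        · exact ⟨s, le_rfl, hst.le, k, by omega, by rw [← h1]; exact hi1,
            by rw [← h1]; exact hi2, hz⟩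
        rcases hk2.eq_or_lt with h2 | h2
        · exact ⟨t, hst.le, le_rfl, k, by omega, by rw [h2]; exact hj1, by rw [h2]; exact hj2, hz⟩
        have h3 : (i : ℝ) + 1 ≤ k := by exact_mod_cast h1
        have h4 : (k : ℝ) + 1 ≤ j := by exact_mod_cast h2
        have h5 : (N n : ℝ) * (k / N n) = k := by field_simp
        refine ⟨k / N n, ?_, ?_, k, by omega, by rw [h5], by rw [h5]; linarith, hz⟩
        · rw [le_div_iff₀ hNp]; linarith
        · rw [div_le_iff₀ hNp]; linarith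
      obtain ⟨τ, h1, h2, h3⟩ := exists_time T key
      exact ⟨τ, h1, h2, Fib_unique T (hf τ (by linarith) (by linarith)) h3⟩
    constructor
    · rintro x ⟨s, ⟨hs1, hs2⟩, rfl⟩ y ⟨t, ⟨ht1, ht2⟩, rfl⟩ c d hc hd hcd
      rcases lt_trichotomy s t with h | h | h
      · obtain ⟨τ, h1, h2, h3⟩ := hmem s t (by linarith) h (by linarith) c d hc hd hcd
        exact ⟨τ, ⟨by linarith, by linarith⟩, h3⟩
      · rw [← h, ← add_smul, hcd, one_smul]
        exact ⟨s, ⟨hs1, hs2⟩, rfl⟩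
      · obtain ⟨τ, h1, h2, h3⟩ := hmem t s (by linarith) h (by linarith) d c hd hc
          (by rw [add_comm]; exact hcd)
        exact ⟨τ, ⟨by linarith, by linarith⟩, by rw [h3, add_comm]⟩
    · -- a window inside
      have hba : 0 < b - a := by linarith
      obtain ⟨n, hn⟩ := exists_nat_gt (2 / (b - a))
      have hNn : (n : ℝ) ≤ N n := by
        have h1 := N_large T n
        have h2 : n < 2 ^ n := Nat.lt_two_pow_self
        exact_mod_cast (by omega : n ≤ N n)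
      have hNp : (0 : ℝ) < N n := by exact_mod_cast T.npos n
      have hN2 : 2 / (b - a) < N n := lt_of_lt_of_le hn hNn
      have hN3 : 2 < N n * (b - a) := by rwa [div_lt_iff₀ hba] at hN2
      set i := ⌈(N n : ℝ) * a⌉₊ with hi
      have hNa : 0 ≤ (N n : ℝ) * a := by positivity
      have h1 : (N n : ℝ) * a ≤ i := Nat.le_ceil _
      have h2 : (i : ℝ) < N n * a + 1 := Nat.ceil_lt_add_one hNa
      have h3 : (i : ℝ) + 1 ≤ N n * b := by nlinarith
      have h4 : (N n : ℝ) * b ≤ N n := by nlinarith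
      have hiN : i < N n := by
        have : (i : ℝ) + 1 ≤ N n := h3.trans h4
        exact_mod_cast this
      refine ⟨n, i, hiN, ?_⟩
      intro z hz
      have key : ∀ m, ∃ τ, a ≤ τ ∧ τ ≤ b ∧ z ∈ Fib N W m τ := by
        have hbig : ∀ m, ∃ τ, a ≤ τ ∧ τ ≤ b ∧ z ∈ Fib N W (n + m) τ := by
          intro m
          obtain ⟨k, hk, hzk, h5, h6⟩ := sub_window T hiN hz m
          have hNm : (0 : ℝ) < N (n + m) := by exact_mod_cast T.npos (n + m)
          have h7 : (N (n + m) : ℝ) * (k / N (n + m)) = k := by field_simp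
          refine ⟨k / N (n + m), ?_, ?_, k, hk, by rw [h7], by rw [h7]; linarith, hzk⟩
          · refine le_trans ?_ h5
            rw [le_div_iff₀ hNp]; linarith
          · have h8 : (k : ℝ) / N (n + m) ≤ ((k : ℝ) + 1) / N (n + m) := by gcongr; linarith
            refine h8.trans (h6.trans ?_)
            rw [div_le_iff₀ hNp]; linarith
        intro m
        obtain ⟨τ, h5, h6, h7⟩ := hbig m
        refine ⟨τ, h5, h6, ?_⟩
        have hanti : ∀ j k, Fib N W (k + j) τ ⊆ Fib N W k τ := by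
          intro j k
          induction j with
          | zero => exact Subset.rfl
          | succ j ih => exact (Fib_anti T (k + j) τ).trans ih
        rw [add_comm] at h7
        exact hanti n m h7
      obtain ⟨τ, h5, h6, h7⟩ := exists_time T key
      exact ⟨τ, ⟨h5, h6⟩, Fib_unique T (hf τ (by linarith) (by linarith)) h7⟩

end tower

end Pool.Agent.H664.Csf
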