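import Pool.Agent.H664.CsfBasic

set_option autoImplicit false
set_option linter.unusedSectionVars false
set_option linter.unusedVariables false

namespace Pool.Agent.H664.Csf

open Set Metric

section lists
variable {α : Type*}

theorem prefix_append_cases {S A B : List α} (h : S <+: A ++ B) :
    S <+: A ∨ ∃ T, S = A ++ T ∧ T <+: B := by
  obtain ⟨r, hr⟩ := h
  rcases List.append_eq_append_iff.1 hr with ⟨as, h1, h2⟩ | ⟨bs, h1, h2⟩
  · exact Or.inl ⟨as, h1.symm⟩
  · exact Or.inr ⟨bs, h1, ⟨r, h2.symm⟩⟩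

theorem suffix_append_cases {S A B : List α} (h : S <:+ A ++ B) :
    S <:+ B ∨ ∃ T, S = T ++ B ∧ T <:+ A := by
  obtain ⟨r, hr⟩ := h
  rcases List.append_eq_append_iff.1 hr with ⟨as, h1, h2⟩ | ⟨bs, h1, h2⟩
  · exact Or.inr ⟨as, h2, ⟨r, h1.symm⟩⟩
  · exact Or.inl ⟨bs, h2.symm⟩

theorem infix_append_cases {S A B : List α} (h : S <:+: A ++ B) :
    S <:+: A ∨ S <:+: B ∨ ∃ S1 S2, S = S1 ++ S2 ∧ S1 <:+ A ∧ S2 <+: B := by
  obtain ⟨l, r, hr⟩ := h
  rcases List.append_eq_append_iff.1 hr with ⟨as, h1, h2⟩ | ⟨bs, h1, h2⟩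
  · -- A = (l ++ S) ++ as
    exact Or.inl ⟨l, as, h1.symm⟩
  · -- l ++ S = A ++ bs, B = bs ++ r
    rcases List.append_eq_append_iff.1 h1 with ⟨cs, h3, h4⟩ | ⟨ds, h3, h4⟩
    · -- A = l ++ cs, S = cs ++ bs
      exact Or.inr (Or.inr ⟨cs, bs, h4, ⟨l, h3.symm⟩, ⟨r, h2.symm⟩⟩)
    · -- l = A ++ ds, bs = ds ++ S
      refine Or.inr (Or.inl ⟨ds, r, ?_⟩)
      rw [h2, h4]

end lists

variable {E : Type*}

/-- union of the members of a list -/
def U (L : List (Set E)) : Set E := {z | ∃ x ∈ L, z ∈ x}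

theorem mem_U {L : List (Set E)} {z : E} : z ∈ U L ↔ ∃ x ∈ L, z ∈ x := Iff.rfl

@[simp] theorem U_nil : U ([] : List (Set E)) = ∅ := by
  ext z; simp [U]

@[simp] theorem U_cons (a : Set E) (L : List (Set E)) : U (a :: L) = a ∪ U L := by
  ext z; simp [U]

@[simp] theorem U_append (A B : List (Set E)) : U (A ++ B) = U A ∪ U B := by
  ext z
  simp only [U, List.mem_append, mem_union, mem_setOf_eq]
  constructor
  · rintro ⟨x, h | h, hz⟩
    · exact Or.inl ⟨x, h, hz⟩
    · exact Or.inr ⟨x, h, hz⟩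
  · rintro (⟨x, h, hz⟩ | ⟨x, h, hz⟩)
    · exact ⟨x, Or.inl h, hz⟩
    · exact ⟨x, Or.inr h, hz⟩

theorem U_singleton (a : Set E) : U [a] = a := by simp

@[simp] theorem U_reverse (A : List (Set E)) : U A.reverse = U A := by
  ext z; simp [U]

theorem U_mono_of_subset {A B : List (Set E)} (h : ∀ x ∈ A, x ∈ B) : U A ⊆ U B := by
  rintro z ⟨x, hx, hz⟩
  exact ⟨x, h x hx, hz⟩

theorem U_infix {A B : List (Set E)} (h : A <:+: B) : U A ⊆ U B :=
  U_mono_of_subset fun x hx => h.subset hx

/-- unions of nonempty suffixes, smallest first -/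
def sufU : List (Set E) → List (Set E)
  | [] => []
  | (a :: l) => sufU l ++ [U (a :: l)]

theorem mem_sufU {L : List (Set E)} {A : Set E} :
    A ∈ sufU L ↔ ∃ S, S <:+ L ∧ S ≠ [] ∧ A = U S := by
  induction L with
  | nil => simp [sufU]
  | cons a l ih =>
    simp only [sufU, List.mem_append, ih, List.mem_singleton, List.suffix_cons_iff]
    constructor
    · rintro (⟨S, h1, h2, h3⟩ | h)
      · exact ⟨S, Or.inr h1, h2, h3⟩
      · exact ⟨a :: l, Or.inl rfl, by simp, h⟩
    · rintro ⟨S, h1 | h1, h2, h3⟩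
      · exact Or.inr (by rw [h3, h1])
      · exact Or.inl ⟨S, h1, h2, h3⟩

theorem pairwise_sufU (L : List (Set E)) : (sufU L).Pairwise (· ⊆ ·) := by
  induction L with
  | nil => simp [sufU]
  | cons a l ih =>
    rw [sufU, List.pairwise_append]
    refine ⟨ih, by simp, ?_⟩
    intro A hA B hB
    rw [List.mem_singleton] at hB
    rw [mem_sufU] at hA
    obtain ⟨S, h1, _, h3⟩ := hA
    rw [h3, hB]
    exact U_mono_of_subset fun x hx => List.mem_cons_of_mem _ (h1.subset hx)

/-- list of windows `R r ∩ S r`, `r < n`. -/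
def winList (R S : ℕ → Set E) (n : ℕ) : List (Set E) :=
  (List.range n).map fun r => R r ∩ S r

theorem winList_succ (R S : ℕ → Set E) (n : ℕ) :
    winList R S (n + 1) = winList R S n ++ [R n ∩ S n] := by
  simp [winList, List.range_succ]

theorem mem_winList {R S : ℕ → Set E} {n : ℕ} {x : Set E} :
    x ∈ winList R S n ↔ ∃ r, r < n ∧ x = R r ∩ S r := by
  simp only [winList, List.mem_map, List.mem_range]
  constructor
  · rintro ⟨r, hr, h⟩; exact ⟨r, hr, h.symm⟩
  · rintro ⟨r, hr, h⟩; exact ⟨r, hr, h.symm⟩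

section win
variable {P : Set E} {R S : ℕ → Set E} (hR : ∀ i j, i ≤ j → R i ⊆ R j)
  (hS : ∀ i j, i ≤ j → S j ⊆ S i) (hRS : ∀ r, P ⊆ R r ∪ S (r + 1)) (hRP : ∀ r, R r ⊆ P)
include hR hS hRS hRP

theorem win_union_step {n j : ℕ} (hj : j ≤ n) :
    (R n ∩ S j) ∪ (R (n + 1) ∩ S (n + 1)) = R (n + 1) ∩ S j := by
  apply Subset.antisymm
  · rintro z (⟨h1, h2⟩ | ⟨h1, h2⟩)
    · exact ⟨hR _ _ (Nat.le_succ n) h1, h2⟩
    · exact ⟨h1, hS _ _ (by omega) h2⟩
  · rintro z ⟨h1, h2⟩
    rcases hRS n (hRP _ h1) with h | h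
    · exact Or.inl ⟨h, h2⟩
    · exact Or.inr ⟨h1, h⟩

theorem win_suffix (n : ℕ) {T : List (Set E)} (h : T <:+ winList R S n) :
    T = [] ∨ ∃ j, j < n ∧ U T = R (n - 1) ∩ S j := by
  induction n generalizing T with
  | zero =>
    left
    simpa [winList] using h
  | succ n ih =>
    rw [winList_succ, List.suffix_concat_iff] at h
    rcases h with h | ⟨t, h1, h2⟩
    · exact Or.inl h
    · right
      rcases ih h2 with h3 | ⟨j, hj, h3⟩
      · refine ⟨n, Nat.lt_succ_self n, ?_⟩
        rw [h1, h3]; simp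
      · refine ⟨j, by omega, ?_⟩
        obtain ⟨m, rfl⟩ : ∃ m, n = m + 1 := ⟨n - 1, by omega⟩
        rw [h1, U_append, h3, U_singleton]
        simpa using win_union_step hR hS hRS hRP (n := m) (j := j) (by omega)

theorem win_infix (n : ℕ) {T : List (Set E)} (h : T <:+: winList R S n) :
    T = [] ∨ ∃ i j, U T = R i ∩ S j := by
  induction n generalizing T with
  | zero =>
    left
    simpa [winList] using h
  | succ n ih =>
    rw [winList_succ, List.infix_concat_iff] at h
    rcases h with h | h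
    · rw [← winList_succ] at h
      rcases win_suffix hR hS hRS hRP (n + 1) h with h | ⟨j, _, h⟩
      · exact Or.inl h
      · exact Or.inr ⟨_, j, h⟩
    · exact ih h

theorem win_prefix (n : ℕ) {T : List (Set E)} (h : T <+: winList R S n) :
    T = [] ∨ ∃ i, i < n ∧ U T = R i ∩ S 0 := by
  induction n generalizing T with
  | zero =>
    left
    simpa [winList] using h
  | succ n ih =>
    rw [winList_succ, List.prefix_concat_iff] at h
    rcases h with h | h
    · right
      refine ⟨n, Nat.lt_succ_self n, ?_⟩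
      rw [← winList_succ] at h
      rw [h]
      clear ih h
      induction n with
      | zero => simp [winList]
      | succ n ih =>
        rw [winList_succ, U_append, ih, U_singleton]
        exact win_union_step hR hS hRS hRP (Nat.zero_le n)
    · rcases ih h with h | ⟨i, hi, h⟩
      · exact Or.inl h
      · exact Or.inr ⟨i, by omega, h⟩

theorem win_all (n : ℕ) : U (winList R S (n + 1)) = R n ∩ S 0 := by
  induction n with
  | zero => simp [winList]
  | succ n ih =>
    rw [winList_succ, U_append, ih, U_singleton]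
    exact win_union_step hR hS hRS hRP (Nat.zero_le n)

end win

/-- windows that are not points -/
theorem U_filter_eq {L : List (Set E)} (p : Set E → Bool) (F : Set E)
    (hF : ∀ x ∈ L, p x = false → x ⊆ F) : U L ⊆ U (L.filter p) ∪ F := by
  rintro z ⟨x, hx, hz⟩
  by_cases h : p x = true
  · exact Or.inl ⟨x, List.mem_filter.2 ⟨hx, h⟩, hz⟩
  · exact Or.inr (hF x hx (by simpa using h) hz)

end Pool.Agent.H664.Csf
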