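import Pool.Agent.H664.CsfList

set_option autoImplicit false
set_option linter.unusedSectionVars false
set_option linter.unusedVariables false

namespace Pool.Agent.H664.Csf

open Set Metric

variable {E : Type*} [NormedAddCommGroup E] [InnerProductSpace ℝ E]

/-- the numerical condition on the gap `g` -/
def GapOK (ρ R g δ : ℝ) : Prop :=
  0 < ρ ∧ ρ < R ∧ 0 ≤ g ∧ 2 * g < δ ∧ 2 * ρ * R * g ≤ (R - ρ) * (δ - 2 * g) ^ 2

theorem exists_gap {ρ R δ : ℝ} (hρ : 0 < ρ) (hR : ρ < R) (hδ : 0 < δ) :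
    ∃ g, 0 < g ∧ GapOK ρ R g δ := by
  have hRρ : 0 < R - ρ := by linarith
  have hR0 : 0 < R := by linarith
  refine ⟨min (δ / 4) ((R - ρ) * δ ^ 2 / (8 * ρ * R)), ?_, hρ, hR, ?_, ?_, ?_⟩
  · apply lt_min <;> positivity
  · apply le_min <;> positivity
  · have := min_le_left (δ / 4) ((R - ρ) * δ ^ 2 / (8 * ρ * R))
    linarith
  · set g := min (δ / 4) ((R - ρ) * δ ^ 2 / (8 * ρ * R)) with hg
    have h1 : g ≤ δ / 4 := min_le_left _ _
    have h2 : g ≤ (R - ρ) * δ ^ 2 / (8 * ρ * R) := min_le_right _ _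
    have h3 : 2 * ρ * R * g ≤ (R - ρ) * δ ^ 2 / 4 := by
      calc 2 * ρ * R * g ≤ 2 * ρ * R * ((R - ρ) * δ ^ 2 / (8 * ρ * R)) := by gcongr
        _ = (R - ρ) * δ ^ 2 / 4 := by field_simp; ring
    have h4 : (δ / 2) ^ 2 ≤ (δ - 2 * g) ^ 2 := by
      apply pow_le_pow_left₀ (by positivity)
      linarith
    nlinarith

theorem chain_closure {ρ R g δ : ℝ} (hgap : GapOK ρ R g δ) {P X : Set E} (hX : X ⊆ P)
    (L : List (Set E)) (hL : L.Pairwise (· ⊆ ·))
    (hC : ∀ C ∈ L, IsCompact C ∧ C.Nonempty ∧ SC ρ C ∧ P ⊆ thick g C ∧ IsClosed (C ∪ P) ∧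
      SC R (C ∪ P)) :
    ∃ Y, X ⊆ Y ∧ Y ⊆ P ∧ Y ⊆ thick (L.length * δ) X ∧
      ∀ C ∈ L, IsClosed (C ∪ Y) ∧ SC R (C ∪ Y) := by
  obtain ⟨hρ, hρR, hg, hgδ, hsmall⟩ := hgap
  have hδ : 0 < δ := by linarith
  induction L with
  | nil =>
    refine ⟨X, Subset.rfl, hX, ?_, by simp⟩
    simp only [List.length_nil, Nat.cast_zero, zero_mul]
    exact subset_thick le_rfl X
  | cons C L' ih =>
    rw [List.pairwise_cons] at hL
    obtain ⟨Y', h1, h2, h3, h4⟩ := ih hL.2 fun C' hC' => hC C' (List.mem_cons_of_mem _ hC')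
    obtain ⟨c1, c2, c3, c4, c5, c6⟩ := hC C (List.mem_cons_self)
    set M := hull R (C ∪ Y') with hM
    have hMsub : C ∪ Y' ⊆ M := subset_hull _ _
    have hMP : M ⊆ C ∪ P := hull_subset c5 c6 (union_subset_union_right C h2)
    have hCM : C ∪ (Y' ∪ (M \ C)) = M := by
      apply Subset.antisymm
      · rintro z (hz | hz | hz)
        · exact hMsub (Or.inl hz)
        · exact hMsub (Or.inr hz)
        · exact hz.1
      · intro z hz
        by_cases h : z ∈ C
        · exact Or.inl h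
        · exact Or.inr (Or.inr ⟨hz, h⟩)
    refine ⟨Y' ∪ (M \ C), h1.trans subset_union_left, ?_, ?_, ?_⟩
    · rintro z (hz | hz)
      · exact h2 hz
      · rcases hMP hz.1 with h | h
        · exact absurd h hz.2
        · exact h
    · have hlen : ((C :: L').length : ℝ) * δ = δ + L'.length * δ := by
        rw [List.length_cons]; push_cast; ring
      rw [hlen]
      rintro z (hz | hz)
      · exact thick_mono (by linarith) Subset.rfl (h3 hz)
      · have := hull_local hρ hρR hg hgδ hsmall c1 c2 c3 c4 h2 c5 c6 hz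
        exact thick_thick h3 this
    · intro C' hC'
      rw [List.mem_cons] at hC'
      rcases hC' with h | h
      · rw [h, hCM]
        exact ⟨isClosed_hull _ _, SC_hull _ _⟩
      · have hCC : C ⊆ C' := hL.1 C' h
        obtain ⟨h5, h6⟩ := h4 C' h
        have hMC : M ⊆ C' ∪ Y' := hull_subset h5 h6 (union_subset_union_left Y' hCC)
        have heq : C' ∪ (Y' ∪ (M \ C)) = C' ∪ Y' := by
          apply Subset.antisymm
          · rintro z (hz | hz | hz)
            · exact Or.inl hz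
            · exact Or.inr hz
            · exact hMC hz.1
          · rintro z (hz | hz)
            · exact Or.inl hz
            · exact Or.inr (Or.inl hz)
        rw [heq]
        exact ⟨h5, h6⟩

theorem pass_set {ρ R g δ : ℝ} (hgap : GapOK ρ R g δ) {C0 P X D : Set E} (As : List (Set E))
    (hAs : As.Pairwise (· ⊆ ·)) (hC0P : C0 ⊆ P) (hC0c : IsCompact C0) (hC0n : C0.Nonempty)
    (hC0 : SC ρ C0) (hPC : P ⊆ thick g C0) (hPcl : IsClosed P) (hP : SC R P)
    (hA : ∀ A ∈ As, IsCompact A ∧ SC ρ (A ∪ C0) ∧ SC R (A ∪ P)) (hX : X ⊆ P)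
    (hDc : IsClosed D) (hD : SC R D) (hXD : thick ((As.length + 1) * δ) X ∩ P ⊆ D) :
    ∃ R', IsClosed R' ∧ SC R R' ∧ X ⊆ R' ∧ R' ⊆ P ∧ R' ⊆ D ∧ SC R (C0 ∪ R') ∧
      ∀ A ∈ As, SC R (A ∪ (C0 ∪ R')) := by
  have hδ : 0 < δ := by
    have := hgap.2.2.2.1
    have := hgap.2.2.1
    linarith
  have hmapeq : ∀ A : Set E, (A ∪ C0) ∪ P = A ∪ P := by
    intro A
    rw [union_assoc, union_eq_self_of_subset_left hC0P]
  obtain ⟨Y, y1, y2, y3, y4⟩ := chain_closure hgap hX (C0 :: As.map fun A => A ∪ C0)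
    (by
      rw [List.pairwise_cons]
      refine ⟨?_, ?_⟩
      · intro C hC
        rw [List.mem_map] at hC
        obtain ⟨A, _, rfl⟩ := hC
        exact subset_union_right
      · rw [List.pairwise_map]
        exact hAs.imp fun h => union_subset_union_left C0 h)
    (by
      intro C hC
      rw [List.mem_cons, List.mem_map] at hC
      rcases hC with rfl | ⟨A, hA', rfl⟩
      · refine ⟨hC0c, hC0n, hC0, hPC, ?_, ?_⟩
        · rw [union_eq_self_of_subset_left hC0P]; exact hPcl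
        · rw [union_eq_self_of_subset_left hC0P]; exact hP
      · obtain ⟨a1, a2, a3⟩ := hA A hA'
        refine ⟨a1.union hC0c, hC0n.mono subset_union_right, a2,
          hPC.trans (thick_mono le_rfl subset_union_right), ?_, ?_⟩
        · rw [hmapeq]; exact a1.isClosed.union hPcl
        · rw [hmapeq]; exact a3)
  have hYD : Y ⊆ D := by
    intro z hz
    refine hXD ⟨?_, y2 hz⟩
    have h := y3 hz
    simp only [List.length_cons, List.length_map] at h
    push_cast at h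
    exact h
  have hcl := y4 C0 List.mem_cons_self
  have hun : C0 ∪ ((C0 ∪ Y) ∩ D) = C0 ∪ Y := by
    apply Subset.antisymm
    · rintro z (hz | hz)
      · exact Or.inl hz
      · exact hz.1
    · rintro z (hz | hz)
      · exact Or.inl hz
      · exact Or.inr ⟨Or.inr hz, hYD hz⟩
  refine ⟨(C0 ∪ Y) ∩ D, hcl.1.inter hDc, hcl.2.inter hD, ?_, ?_, inter_subset_right, ?_, ?_⟩
  · intro z hz
    exact ⟨Or.inr (y1 hz), hYD (y1 hz)⟩
  · rintro z ⟨hz | hz, _⟩
    · exact hC0P hz
    · exact y2 hz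
  · rw [hun]; exact hcl.2
  · intro A hA'
    rw [hun]
    have h := (y4 (A ∪ C0) (List.mem_cons_of_mem _ (List.mem_map.2 ⟨A, hA', rfl⟩))).2
    rwa [union_assoc] at h

/-- admissible sets for growing inside `W` with past chain `As` -/
def Adm (ρ : ℝ) (W : Set E) (As : List (Set E)) (P : Set E) : Prop :=
  IsCompact P ∧ P.Nonempty ∧ P ⊆ W ∧ SC ρ P ∧ ∀ A ∈ As, SC ρ (A ∪ P)

/-- cutting families of sets -/
structure Cuts (R η : ℝ) (W : Set E) (D : Bool → ℕ → Set E) (m : ℕ) (small : Set E → Prop) :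
    Prop where
  closed : ∀ τ q, IsClosed (D τ q)
  sc : ∀ τ q, SC R (D τ q)
  mono : ∀ τ i j, i ≤ j → D τ i ⊆ D τ j
  thick : ∀ τ q, thick η (D τ q) ⊆ D τ (q + 1)
  cover : ∀ τ q, q ≤ m → W ⊆ D τ q ∪ D (!τ) (m - q)
  top : ∀ τ, W ⊆ D τ m
  small : ∀ τ r x, r ≤ m → x ⊆ W → x ⊆ D τ (r + 1) → x ⊆ D (!τ) (m + 1 - r) → small x

def Stage (R : ℝ) (W : Set E) (As : List (Set E)) (D : Bool → ℕ → Set E) (small : Set E → Prop)
    (τ : Bool) (P : Set E) : Prop :=
  ∃ V : List (Set E), U V = P ∧ (∀ x ∈ V, IsCompact x ∧ x ⊆ W ∧ small x) ∧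
    (∀ S, S <:+: V → SC R (U S)) ∧ (∀ S, S <+: V → ∀ A ∈ As, SC R (A ∪ U S)) ∧
    (∀ S, S <:+ V → U S = ∅ ∨ U S = P ∨ ∃ q, U S = P ∩ D τ q)

theorem stage_step {ρ R g δ η : ℝ} (hgap : GapOK ρ R g δ) {W : Set E} {As : List (Set E)}
    (hAs : As.Pairwise (· ⊆ ·)) (hAc : ∀ A ∈ As, IsCompact A)
    {D : Bool → ℕ → Set E} {m : ℕ} {small : Set E → Prop} (hD : Cuts R η W D m small)
    (hη : (As.length + 1) * δ ≤ η)
    {τ : Bool} {C0 P : Set E} (hC0 : Adm ρ W As C0) (hP : Adm ρ W As P) (hC0P : C0 ⊆ P)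
    (hPC : P ⊆ thick g C0) (hst : Stage R W As D small τ C0) : Stage R W As D small (!τ) P := by
  obtain ⟨V, v1, v2, v3, v4, v5⟩ := hst
  obtain ⟨a1, a2, a3, a4, a5⟩ := hC0
  obtain ⟨b1, b2, b3, b4, b5⟩ := hP
  have hρR : ρ ≤ R := hgap.2.1.le
  have hδ : 0 < δ := by
    have := hgap.2.2.2.1
    have := hgap.2.2.1
    linarith
  -- prefix sets
  have hex : ∀ r : ℕ, ∃ R', IsClosed R' ∧ SC R R' ∧ P ∩ D τ r ⊆ R' ∧ R' ⊆ P ∧ R' ⊆ D τ (r + 1) ∧
      SC R (C0 ∪ R') ∧ ∀ A ∈ As, SC R (A ∪ (C0 ∪ R')) := by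
    intro r
    refine pass_set hgap As hAs hC0P a1 a2 a4 hPC b1.isClosed (b4.mono hρR) ?_ inter_subset_left
      (hD.closed τ (r + 1)) (hD.sc τ (r + 1)) ?_
    · intro A hA
      exact ⟨hAc A hA, a5 A hA, (b5 A hA).mono hρR⟩
    · refine inter_subset_left.trans (Subset.trans ?_ (hD.thick τ r))
      exact thick_mono hη inter_subset_right
  choose Rf r1 r2 r3 r4 r5 r6 r7 using hex
  set Sf : ℕ → Set E := fun r => D (!τ) (m + 1 - r) with hSf
  have hR : ∀ i j, i ≤ j → Rf i ⊆ Rf j := by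
    intro i j hij
    rcases hij.eq_or_lt with h | h
    · rw [h]
    · intro z hz
      exact r3 j ⟨r4 i hz, hD.mono τ _ _ h (r5 i hz)⟩
  have hS : ∀ i j, i ≤ j → Sf j ⊆ Sf i := by
    intro i j hij
    exact hD.mono _ _ _ (by omega)
  have hRS : ∀ r, P ⊆ Rf r ∪ Sf (r + 1) := by
    intro r z hz
    by_cases hr : r ≤ m
    · rcases hD.cover τ r hr (b3 hz) with h | h
      · exact Or.inl (r3 r ⟨hz, h⟩)
      · right
        have : m + 1 - (r + 1) = m - r := by omega
        rw [hSf]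
        simpa [this] using h
    · left
      exact r3 r ⟨hz, hD.mono τ m r (by omega) (hD.top τ (b3 hz))⟩
  have hRm : Rf m = P := Subset.antisymm (r4 m) fun z hz => r3 m ⟨hz, hD.top τ (b3 hz)⟩
  have hS0 : P ⊆ Sf 0 := fun z hz => hD.mono _ m (m + 1 - 0) (by omega) (hD.top _ (b3 hz))
  have hRS0 : ∀ i, Rf i ∩ Sf 0 = Rf i := fun i =>
    inter_eq_left.2 ((r4 i).trans hS0)
  set L := winList Rf Sf (m + 1) with hL
  have hUL : U L = P := by
    rw [hL, win_all hR hS hRS r4, hRS0, hRm]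
  have hpre : ∀ T, T <+: L → T = [] ∨ ∃ i, i < m + 1 ∧ U T = Rf i := by
    intro T hT
    rcases win_prefix hR hS hRS r4 (m + 1) hT with h | ⟨i, hi, h⟩
    · exact Or.inl h
    · exact Or.inr ⟨i, hi, by rw [h, hRS0]⟩
  have hinf : ∀ T, T <:+: L → SC R (U T) := by
    intro T hT
    rcases win_infix hR hS hRS r4 (m + 1) hT with h | ⟨i, j, h⟩
    · rw [h, U_nil]; exact SC.empty R
    · rw [h]; exact (r2 i).inter (hD.sc _ _)
  refine ⟨V ++ L, ?_, ?_, ?_, ?_, ?_⟩
  · rw [U_append, v1, hUL, union_eq_self_of_subset_left hC0P]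
  · intro x hx
    rw [List.mem_append] at hx
    rcases hx with hx | hx
    · exact v2 x hx
    · rw [hL, mem_winList] at hx
      obtain ⟨r, hr, rfl⟩ := hx
      have hxW : Rf r ∩ Sf r ⊆ W := inter_subset_left.trans ((r4 r).trans b3)
      refine ⟨?_, hxW, ?_⟩
      · exact (b1.of_isClosed_subset (r1 r) (r4 r)).inter_right (hD.closed _ _)
      · exact hD.small τ r _ (by omega) hxW (inter_subset_left.trans (r5 r)) inter_subset_right
  · intro S hSV
    rcases infix_append_cases hSV with h | h | ⟨S1, S2, h, h1, h2⟩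
    · exact v3 S h
    · exact hinf S h
    · rcases hpre S2 h2 with h3 | ⟨j, hj, h3⟩
      · rw [h, h3, List.append_nil]
        exact v3 S1 h1.isInfix
      · rw [h, U_append, h3]
        rcases v5 S1 h1 with h4 | h4 | ⟨q, h4⟩
        · rw [h4, empty_union]; exact r2 j
        · rw [h4]; exact r6 j
        · rw [h4]
          by_cases hq : q ≤ j
          · have : C0 ∩ D τ q ∪ Rf j = Rf j := by
              rw [union_eq_right]
              rintro z ⟨hz1, hz2⟩
              exact r3 j ⟨hC0P hz1, hD.mono τ _ _ hq hz2⟩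
            rw [this]; exact r2 j
          · have : C0 ∩ D τ q ∪ Rf j = (C0 ∪ Rf j) ∩ D τ q := by
              apply Subset.antisymm
              · rintro z (⟨hz1, hz2⟩ | hz)
                · exact ⟨Or.inl hz1, hz2⟩
                · exact ⟨Or.inr hz, hD.mono τ _ _ (by omega) (r5 j hz)⟩
              · rintro z ⟨hz1 | hz1, hz2⟩
                · exact Or.inl ⟨hz1, hz2⟩
                · exact Or.inr hz1
            rw [this]
            exact (r6 j).inter (hD.sc _ _)
  · intro S hSV A hA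
    rcases prefix_append_cases hSV with h | ⟨T, h, h1⟩
    · exact v4 S h A hA
    · rw [h, U_append, v1]
      rcases hpre T h1 with h3 | ⟨i, hi, h3⟩
      · rw [h3, U_nil, union_empty]
        exact (a5 A hA).mono hρR
      · rw [h3]
        exact r7 i A hA
  · intro S hSV
    rcases suffix_append_cases hSV with h | ⟨T, h, h1⟩
    · rcases win_suffix hR hS hRS r4 (m + 1) h with h2 | ⟨j, hj, h2⟩
      · left; rw [h2, U_nil]
      · right; right
        refine ⟨m + 1 - j, ?_⟩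
        rw [h2]
        simp only [Nat.add_sub_cancel]
        rw [hRm]
    · right; left
      rw [h, U_append, hUL]
      have : U T ⊆ P := by
        have h2 := U_infix h1.isInfix
        rw [v1] at h2
        exact h2.trans hC0P
      exact union_eq_self_of_subset_left this

end Pool.Agent.H664.Csf
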