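import Pool.Agent.H664.CsfGrow

set_option autoImplicit false
set_option linter.unusedSectionVars false
set_option linter.unusedVariables false

namespace Pool.Agent.H664.Csf

open Set Metric

variable {E : Type*} [NormedAddCommGroup E] [InnerProductSpace ℝ E]

theorem isCompact_U {L : List (Set E)} (h : ∀ x ∈ L, IsCompact x) : IsCompact (U L) := by
  induction L with
  | nil => rw [U_nil]; exact isCompact_empty
  | cons a l ih =>
    rw [U_cons]
    exact (h a List.mem_cons_self).union (ih fun x hx => h x (List.mem_cons_of_mem _ hx))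

theorem norm_sum_bound {v u : E} (hu : ‖u‖ = 1) {T Dm : ℝ} (hT : 0 < T) (hv : ‖v‖ ≤ Dm) :
    ‖v + T • u‖ + ‖v - T • u‖ ≤ 2 * T + Dm ^ 2 / T := by
  have h1 : ‖v + T • u‖ ^ 2 + ‖v - T • u‖ ^ 2 = 2 * (‖v‖ ^ 2 + T ^ 2) := by
    rw [@norm_add_sq_real, @norm_sub_sq_real, norm_smul, hu, Real.norm_eq_abs]
    simp only [mul_pow, sq_abs]
    ring
  have h2 : (‖v + T • u‖ + ‖v - T • u‖) ^ 2 ≤ (2 * T + Dm ^ 2 / T) ^ 2 := by
    have h3 : (‖v + T • u‖ + ‖v - T • u‖) ^ 2 ≤ 2 * (‖v + T • u‖ ^ 2 + ‖v - T • u‖ ^ 2) := by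
      nlinarith [sq_nonneg (‖v + T • u‖ - ‖v - T • u‖)]
    have h4 : (2 * T + Dm ^ 2 / T) ^ 2 = 4 * (Dm ^ 2 + T ^ 2) + (Dm ^ 2 / T) ^ 2 := by
      field_simp
      ring
    have h5 : ‖v‖ ^ 2 ≤ Dm ^ 2 := by gcongr
    have h6 : 0 ≤ (Dm ^ 2 / T) ^ 2 := by positivity
    rw [h4]
    linarith
  exact abs_le_of_sq_le_sq' h2 (by positivity) |>.2

theorem exists_cuts (p : E) {u : E} (hu : ‖u‖ = 1) {Dm ε : ℝ} (hDm : 0 < Dm) (hε : 0 < ε) :
    ∃ R0 η : ℝ, ∃ m : ℕ, ∃ D : Bool → ℕ → Set E, 0 < η ∧ ∀ R, R0 ≤ R → 0 < R → ∀ W : Set E,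
      (∀ w ∈ W, ‖w - p‖ ≤ Dm) →
      Cuts R η W D m (fun x => ∀ y ∈ x, ∀ z ∈ x, |inner ℝ u (y - z)| ≤ ε) := by
  set T := 2 * Dm ^ 2 / ε with hT
  have hT0 : 0 < T := by positivity
  set η := ε / 6 with hη
  have hη0 : 0 < η := by positivity
  have hDT : Dm ^ 2 / T = ε / 2 := by
    rw [hT]; field_simp
  set m := ⌈(2 * Dm + ε / 2) / η⌉₊ with hm
  have hm1 : 2 * Dm + ε / 2 ≤ m * η := by
    have := Nat.le_ceil ((2 * Dm + ε / 2) / η)
    rw [div_le_iff₀ hη0] at this
    exact this
  have hm2 : m * η ≤ 2 * Dm + ε / 2 + η := by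
    have := (Nat.ceil_lt_add_one (a := (2 * Dm + ε / 2) / η) (by positivity)).le
    calc (m : ℝ) * η ≤ ((2 * Dm + ε / 2) / η + 1) * η := by gcongr
      _ = _ := by field_simp
  set sg : Bool → ℝ := fun τ => if τ then -T else T with hsg
  set D : Bool → ℕ → Set E := fun τ q =>
    if q ≤ m then closedBall (p + sg τ • u) (T - Dm + q * η) else univ with hD
  have hDle : ∀ τ q, q ≤ m → D τ q = closedBall (p + sg τ • u) (T - Dm + q * η) := by
    intro τ q hq; simp only [hD, if_pos hq]
  have hDgt : ∀ τ q, ¬ q ≤ m → D τ q = univ := by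
    intro τ q hq; simp only [hD, if_neg hq]
  refine ⟨T - Dm + m * η, η, m, D, hη0, ?_⟩
  intro R hR0 hR W hW
  -- height bound
  have hheight : ∀ τ q, q ≤ m + 1 → ∀ y ∈ W, y ∈ D τ q →
      (if τ then (1 : ℝ) else -1) * inner ℝ u (y - p) ≤ - Dm + q * η := by
    intro τ q hq y hyW hy
    by_cases hqm : q ≤ m
    · rw [hDle τ q hqm, mem_closedBall, dist_eq_norm] at hy
      have h1 : |inner ℝ u (y - (p + sg τ • u))| ≤ T - Dm + q * η := by
        refine (abs_real_inner_le_norm _ _).trans ?_
        rw [hu, one_mul]; exact hy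
      have h2 : inner ℝ u (y - (p + sg τ • u)) = inner ℝ u (y - p) - sg τ := by
        rw [← sub_sub, inner_sub_right, inner_smul_right, real_inner_self_eq_norm_sq, hu]
        ring
      rw [h2] at h1
      have h3 := abs_le.1 h1
      cases τ
      · simp only [hsg, Bool.false_eq_true, if_false] at h3 ⊢
        linarith [h3.1, h3.2]
      · simp only [hsg, if_true] at h3 ⊢
        linarith [h3.1, h3.2]
    · have hq' : q = m + 1 := by omega
      have h1 : |inner ℝ u (y - p)| ≤ Dm := by
        refine (abs_real_inner_le_norm _ _).trans ?_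
        rw [hu, one_mul]; exact hW y hyW
      have h2 := abs_le.1 h1
      have h3 : (q : ℝ) * η = m * η + η := by rw [hq']; push_cast; ring
      rw [h3]
      cases τ
      · simp only [Bool.false_eq_true, if_false]; linarith [h2.1, h2.2]
      · simp only [if_true]; linarith [h2.1, h2.2]
  refine ⟨?_, ?_, ?_, ?_, ?_, ?_, ?_⟩
  · intro τ q
    by_cases hq : q ≤ m
    · rw [hDle τ q hq]; exact isClosed_closedBall
    · rw [hDgt τ q hq]; exact isClosed_univ
  · intro τ q
    by_cases hq : q ≤ m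
    · rw [hDle τ q hq]
      refine SC.closedBall hR (le_trans ?_ hR0) _
      have : (q : ℝ) ≤ m := by exact_mod_cast hq
      nlinarith
    · rw [hDgt τ q hq]; exact SC.univ R
  · intro τ i j hij
    by_cases hj : j ≤ m
    · rw [hDle τ j hj, hDle τ i (hij.trans hj)]
      apply closedBall_subset_closedBall
      have : (i : ℝ) ≤ j := by exact_mod_cast hij
      nlinarith
    · rw [hDgt τ j hj]; exact subset_univ _
  · intro τ q
    by_cases hq : q + 1 ≤ m
    · rw [hDle τ _ hq, hDle τ q (by omega)]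
      rintro z ⟨k, hk, hz⟩
      rw [mem_closedBall, dist_eq_norm] at hk ⊢
      have h1 : z - (p + sg τ • u) = (z - k) + (k - (p + sg τ • u)) := by abel
      rw [h1]
      refine (norm_add_le _ _).trans ?_
      push_cast
      linarith
    · rw [hDgt τ _ hq]; exact subset_univ _
  · intro τ q hq w hw
    have hv := hW w hw
    have hb := norm_sum_bound (v := w - p) hu hT0 hv
    rw [hDT] at hb
    have hmq : ((m - q : ℕ) : ℝ) = m - q := by
      rw [Nat.cast_sub hq]
    rw [mem_union, hDle τ q hq, hDle (!τ) (m - q) (by omega), mem_closedBall, mem_closedBall,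
      dist_eq_norm, dist_eq_norm, hmq]
    by_contra hcon
    push Not at hcon
    obtain ⟨h1, h2⟩ := hcon
    have e1 : w - p + T • u = w - (p + (-T) • u) := by rw [neg_smul]; abel
    have e2 : w - p - T • u = w - (p + T • u) := by abel
    rw [e1, e2] at hb
    cases τ
    · simp only [hsg, Bool.false_eq_true, if_false, Bool.not_false, if_true] at h1 h2
      nlinarith
    · simp only [hsg, Bool.false_eq_true, if_false, Bool.not_true, if_true] at h1 h2
      nlinarith
  · intro τ w hw
    rw [hDle τ m le_rfl, mem_closedBall, dist_eq_norm]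
    have hv := hW w hw
    have h1 : w - (p + sg τ • u) = (w - p) - sg τ • u := by abel
    have h2 : ‖sg τ • u‖ = T := by
      rw [norm_smul, hu, mul_one, Real.norm_eq_abs]
      cases τ
      · simp only [hsg, Bool.false_eq_true, if_false]; exact abs_of_pos hT0
      · simp only [hsg, if_true, abs_neg]; exact abs_of_pos hT0
    rw [h1]
    refine (norm_sub_le _ _).trans ?_
    rw [h2]
    linarith
  · intro τ r x hr hxW hx1 hx2 y hy z hz
    have h1 := hheight τ (r + 1) (by omega) y (hxW hy) (hx1 hy)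
    have h2 := hheight τ (r + 1) (by omega) z (hxW hz) (hx1 hz)
    have h3 := hheight (!τ) (m + 1 - r) (by omega) y (hxW hy) (hx2 hy)
    have h4 := hheight (!τ) (m + 1 - r) (by omega) z (hxW hz) (hx2 hz)
    have hmr : ((m + 1 - r : ℕ) : ℝ) = m + 1 - r := by
      rw [Nat.cast_sub (by omega)]; push_cast; ring
    rw [hmr] at h3 h4
    have h5 : inner ℝ u (y - z) = inner ℝ u (y - p) - inner ℝ u (z - p) := by
      rw [← inner_sub_right]; congr 1; abel
    rw [h5, abs_le]
    push_cast at h1 h2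
    cases τ
    · simp only [Bool.false_eq_true, if_false, Bool.not_false, if_true] at h1 h2 h3 h4
      constructor <;> nlinarith
    · simp only [Bool.false_eq_true, if_false, Bool.not_true, if_true] at h1 h2 h3 h4
      constructor <;> nlinarith


/-! ### removing degenerate windows -/

theorem U_subset_filter {L : List (Set E)} {p : Set E → Bool}
    (hp : ∀ x ∈ L, p x = false → ¬ x.Nontrivial) (hc : ∀ x ∈ L, IsClosed x)
    (hconv : Convex ℝ (U L)) (hnt : (U L).Nontrivial) : U L ⊆ U (L.filter p) := by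
  -- the exceptional finite set
  set F : Set E := {z | ∃ x ∈ L, p x = false ∧ z ∈ x} with hF
  have hFfin : F.Finite := by
    have : F = ⋃ x ∈ (L.filter (fun x => !p x)), x := by
      ext z
      simp only [hF, mem_iUnion, List.mem_filter, Bool.not_eq_true', exists_prop]
      constructor
      · rintro ⟨x, h1, h2, h3⟩; exact ⟨x, ⟨h1, h2⟩, h3⟩
      · rintro ⟨x, ⟨h1, h2⟩, h3⟩; exact ⟨x, h1, h2, h3⟩
    rw [this]
    have hfs : {x | x ∈ L.filter (fun x => !p x)}.Finite := List.finite_toSet _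
    refine hfs.biUnion ?_
    intro x hx
    simp only [mem_ofPred_eq, List.mem_filter, Bool.not_eq_true'] at hx
    exact (not_nontrivial_iff.1 (hp x hx.1 hx.2)).finite
  have hcl : IsClosed (U (L.filter p)) := by
    have : U (L.filter p) = ⋃ x ∈ L.filter p, x := by
      ext z; simp [U]
    rw [this]
    have hfs : {x | x ∈ L.filter p}.Finite := List.finite_toSet _
    exact hfs.isClosed_biUnion fun x hx => hc x (List.mem_of_mem_filter hx)
  intro z hz
  have hacc := hconv.isPreconnected.preperfect_of_nontrivial hnt z hz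
  rw [accPt_iff_frequently] at hacc
  have hev : ∀ᶠ y in nhds z, y ∉ F \ {z} := by
    have : IsClosed (F \ {z}) := (hFfin.subset sdiff_subset).isClosed
    exact this.isOpen_compl.mem_nhds (fun h => h.2 rfl)
  have hfr : ∃ᶠ y in nhds z, y ∈ U (L.filter p) := by
    refine (hacc.and_eventually hev).mono ?_
    rintro y ⟨⟨h1, x, hx, hyx⟩, h2⟩
    by_cases hpx : p x = true
    · exact ⟨x, List.mem_filter.2 ⟨hx, hpx⟩, hyx⟩
    · exact absurd ⟨⟨x, hx, by simpa using hpx, hyx⟩, h1⟩ h2
  exact hcl.mem_of_frequently_of_tendsto hfr Filter.tendsto_id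

theorem U_filter_nt {L : List (Set E)} {p : Set E → Bool}
    (hp : ∀ x ∈ L, p x = false → ¬ x.Nontrivial) (hc : ∀ x ∈ L, IsClosed x)
    (hconv : Convex ℝ (U L)) (hnt : (U L).Nontrivial) : U (L.filter p) = U L :=
  Subset.antisymm (U_mono_of_subset fun x hx => List.mem_of_mem_filter hx)
    (U_subset_filter hp hc hconv hnt)

theorem filter_good {R : ℝ} {L : List (Set E)} {p : Set E → Bool}
    (hp : ∀ x ∈ L, p x = false → ¬ x.Nontrivial) (hp' : ∀ x ∈ L, p x = true → x.Nontrivial)
    (hc : ∀ x ∈ L, IsClosed x) (hgood : ∀ S, S <:+: L → SC R (U S)) :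
    ∀ S, S <:+: L.filter p → SC R (U S) := by
  rintro S ⟨a, b, hab⟩
  obtain ⟨l1, l2, h1, h2, h3⟩ := List.filter_eq_append_iff.1 hab.symm
  obtain ⟨l3, l4, h4, h5, h6⟩ := List.filter_eq_append_iff.1 h2
  have hinf : l4 <:+: L := ⟨l3, l2, by rw [h1, h4]⟩
  by_cases hS : S = []
  · rw [hS, U_nil]; exact SC.empty R
  · obtain ⟨x, hx⟩ := List.exists_mem_of_ne_nil S hS
    rw [← h6] at hx
    have hx4 := List.mem_of_mem_filter hx
    have hpx := (List.mem_filter.1 hx).2
    have hnt : (U l4).Nontrivial :=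
      (hp' x (hinf.subset hx4) hpx).mono fun z hz => ⟨x, hx4, hz⟩
    rw [← h6, U_filter_nt (fun x hx => hp x (hinf.subset hx)) (fun x hx => hc x (hinf.subset hx))
      (hgood l4 hinf).convex hnt]
    exact hgood l4 hinf

/-! ### refining one window -/

theorem exists_common_point {R : ℝ} (A : List (Set E)) {W : Set E} (hW : IsClosed W)
    (hWn : W.Nonempty) (hA : ∀ x ∈ A, IsClosed x ∧ x.Nonempty)
    (h : ∀ S, S <:+ A → SC R (U S ∪ W)) : ∃ p ∈ W, ∀ S, S <:+ A → S ≠ [] → p ∈ U S := by
  rcases List.eq_nil_or_concat A with hA0 | ⟨A', a, hA'⟩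
  · obtain ⟨p, hp⟩ := hWn
    refine ⟨p, hp, fun S hS hne => ?_⟩
    rw [hA0] at hS
    exact absurd (List.suffix_nil.1 hS) hne
  · have ha : a ∈ A := by rw [hA']; simp
    have h1 := (h [a] (by rw [hA']; exact ⟨A', by simp⟩)).convex
    rw [U_singleton] at h1
    have h2 := (isPreconnected_closed_iff.1 h1.isPreconnected) a W (hA a ha).1 hW Subset.rfl
      (by
        obtain ⟨z, hz⟩ := (hA a ha).2
        exact ⟨z, Or.inl hz, hz⟩)
      (by
        obtain ⟨z, hz⟩ := hWn
        exact ⟨z, Or.inr hz, hz⟩)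
    obtain ⟨p, _, hpa, hpW⟩ := h2
    refine ⟨p, hpW, fun S hS hne => ?_⟩
    rw [hA', List.concat_eq_append, List.suffix_concat_iff] at hS
    rcases hS with h | ⟨t, ht, _⟩
    · exact absurd h hne
    · rw [ht, U_append]
      exact Or.inr (by rw [U_singleton]; exact hpa)

theorem refine_one {A B : List (Set E)} {W : Set E} {ρ0 : ℝ} (hρ0 : 0 < ρ0)
    (hgood : ∀ S, S <:+: A ++ ([W] ++ B) → SC ρ0 (U S))
    (hcomp : ∀ x ∈ A ++ ([W] ++ B), IsCompact x ∧ x.Nontrivial)
    {u : E} (hu : ‖u‖ = 1) {ε : ℝ} (hε : 0 < ε) :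
    ∃ R, ρ0 ≤ R ∧ ∃ V : List (Set E), U V = W ∧
      (∀ x ∈ V, IsCompact x ∧ x.Nontrivial ∧ ∀ y ∈ x, ∀ z ∈ x, |inner ℝ u (y - z)| ≤ ε) ∧
      2 ≤ V.length ∧ ∀ S, S <:+: A ++ (V ++ B) → SC R (U S) := by
  classical
  -- basic facts on W
  have hWmem : W ∈ A ++ ([W] ++ B) := by simp
  obtain ⟨hWc, hWnt⟩ := hcomp W hWmem
  have hW : SC ρ0 W := by
    have := hgood [W] ⟨A, B, by simp⟩
    rwa [U_singleton] at this
  obtain ⟨w0, hw0⟩ := hWnt.nonempty
  -- diameter bound
  obtain ⟨Dm, hDm, hdm⟩ : ∃ Dm : ℝ, 0 < Dm ∧ ∀ w ∈ W, ∀ p ∈ W, ‖w - p‖ ≤ Dm := by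
    obtain ⟨C, hC⟩ := hWc.isBounded.exists_norm_le
    refine ⟨2 * |C| + 1, by positivity, fun w hw p hp => ?_⟩
    refine (norm_sub_le _ _).trans ?_
    have h1 := (hC w hw).trans (le_abs_self C)
    have h2 := (hC p hp).trans (le_abs_self C)
    linarith
  -- infix facts
  have hAW : ∀ S, S <:+ A → SC ρ0 (U S ∪ W) := by
    intro S hS
    obtain ⟨t, ht⟩ := hS
    have := hgood (S ++ [W]) ⟨t, B, by rw [← ht]; simp⟩
    rwa [U_append, U_singleton] at this
  have hWB : ∀ S, S <+: B → SC ρ0 (W ∪ U S) := by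
    intro S hS
    obtain ⟨t, ht⟩ := hS
    have := hgood ([W] ++ S) ⟨A, t, by rw [← ht]; simp⟩
    rwa [U_append, U_singleton] at this
  have hAmem : ∀ x ∈ A, IsCompact x ∧ x.Nontrivial := fun x hx => hcomp x (by simp [hx])
  have hBmem : ∀ x ∈ B, IsCompact x ∧ x.Nontrivial := fun x hx => hcomp x (by simp [hx])
  have hAinf : ∀ S, S <:+: A → SC ρ0 (U S) := by
    rintro S ⟨a, b, hab⟩
    exact hgood S ⟨a, b ++ ([W] ++ B), by rw [← hab]; simp⟩
  have hBinf : ∀ S, S <:+: B → SC ρ0 (U S) := by
    rintro S ⟨a, b, hab⟩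
    exact hgood S ⟨A ++ ([W] ++ a), b, by rw [← hab]; simp⟩
  -- common points
  obtain ⟨p, hpW, hpA⟩ := exists_common_point A hWc.isClosed ⟨w0, hw0⟩
    (fun x hx => ⟨(hAmem x hx).1.isClosed, (hAmem x hx).2.nonempty⟩) hAW
  obtain ⟨q, hqW, hqB⟩ := exists_common_point B.reverse hWc.isClosed ⟨w0, hw0⟩
    (fun x hx => ⟨(hBmem x (by simpa using hx)).1.isClosed, (hBmem x (by simpa using hx)).2.nonempty⟩)
    (fun S hS => by
      have h1 : S.reverse <+: B := by
        rw [← List.reverse_suffix, List.reverse_reverse]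
        exact hS
      have h2 := hWB _ h1
      rw [U_reverse] at h2
      rwa [union_comm])
  -- cuts
  obtain ⟨R0, η, m, D, hη, hcuts⟩ := exists_cuts w0 hu hDm hε
  set R := max R0 (ρ0 + Dm + 2) with hR
  have hR1 : ρ0 + Dm + 1 < R := lt_of_lt_of_le (by linarith) (le_max_right _ _)
  have hRρ : ρ0 ≤ R := by linarith
  have hRpos : 0 < R := by linarith
  have hD := hcuts R (le_max_left _ _) hRpos W (fun w hw => hdm w hw w0 hw0)
  have hsing : ∀ p : E, (∀ y ∈ ({p} : Set E), ∀ z ∈ ({p} : Set E), |inner ℝ u (y - z)| ≤ ε) := by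
    intro p y hy z hz
    rw [mem_singleton_iff] at hy hz
    rw [hy, hz, sub_self, inner_zero_right, abs_zero]
    exact hε.le
  -- the two stages
  obtain ⟨V1, a1, a2, a3, a4, a5⟩ := one_sided (As := sufU A) hρ0 hDm hR1 hη hWc hW hpW
    (fun w hw => hdm w hw p hpW)
    (by
      intro A' hA'
      rw [mem_sufU] at hA'
      obtain ⟨S, hS1, hS2, rfl⟩ := hA'
      exact ⟨isCompact_U fun x hx => (hAmem x (hS1.subset hx)).1, hAinf S hS1.isInfix,
        hAW S hS1, hpA S hS1 hS2⟩)
    (pairwise_sufU A) hD (hsing p) true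
  obtain ⟨V2, b1, b2, b3, b4, b5⟩ := one_sided (As := sufU B.reverse) hρ0 hDm hR1 hη hWc hW hqW
    (fun w hw => hdm w hw q hqW)
    (by
      intro A' hA'
      rw [mem_sufU] at hA'
      obtain ⟨S, hS1, hS2, rfl⟩ := hA'
      have h1 : S.reverse <+: B := by
        rw [← List.reverse_suffix, List.reverse_reverse]; exact hS1
      refine ⟨isCompact_U fun x hx => (hBmem x (by simpa using hS1.subset hx)).1, ?_, ?_,
        hqB S hS1 hS2⟩
      · have := hBinf _ h1.isInfix
        rwa [U_reverse] at this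
      · have := hWB _ h1
        rw [U_reverse] at this
        rwa [union_comm])
    (pairwise_sufU _) hD (hsing q) true
  -- suffix unions lie in W
  have hsub1 : ∀ S, S <:+: V1 → U S ⊆ W := fun S hS => (U_infix hS).trans a1.subset
  have hsub2 : ∀ S, S <:+: V2 → U S ⊆ W := fun S hS => (U_infix hS).trans b1.subset
  have hcross : ∀ S T, S <:+ V1 → T <:+ V2 → SC R (U S ∪ U T) := by
    intro S T hS hT
    have hSs := hsub1 S hS.isInfix
    have hTs := hsub2 T hT.isInfix
    have hWR : SC R W := hW.mono hRρ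
    rcases a5 S hS with h1 | h1 | ⟨i, h1⟩
    · rw [h1, empty_union]; exact b3 T hT.isInfix
    · rw [h1, union_eq_self_of_subset_right hTs]; exact hWR
    · rcases b5 T hT with h2 | h2 | ⟨j, h2⟩
      · rw [h2, union_empty]; exact a3 S hS.isInfix
      · rw [h2, union_eq_self_of_subset_left hSs]; exact hWR
      · rw [h1, h2]
        rcases le_total i j with hij | hij
        · rw [union_eq_self_of_subset_left (inter_subset_inter_right W (hD.mono true i j hij))]
          exact hWR.inter (hD.sc _ _)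
        · rw [union_eq_self_of_subset_right (inter_subset_inter_right W (hD.mono true j i hij))]
          exact hWR.inter (hD.sc _ _)
  set V0 := V1 ++ V2.reverse with hV0
  have hUV0 : U V0 = W := by rw [hV0, U_append, U_reverse, a1, b1, union_self]
  have hV0mem : ∀ x ∈ V0, IsCompact x ∧ ∀ y ∈ x, ∀ z ∈ x, |inner ℝ u (y - z)| ≤ ε := by
    intro x hx
    rw [hV0, List.mem_append, List.mem_reverse] at hx
    rcases hx with hx | hx
    · exact ⟨(a2 x hx).1, (a2 x hx).2.2⟩
    · exact ⟨(b2 x hx).1, (b2 x hx).2.2⟩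
  -- infixes of V0
  have hV0inf : ∀ S, S <:+: V0 → SC R (U S) := by
    intro S hS
    rcases infix_append_cases hS with h | h | ⟨S1, S2, h, h1, h2⟩
    · exact a3 S h
    · rw [← List.reverse_infix, List.reverse_reverse] at h
      have := b3 _ h
      rwa [U_reverse] at this
    · rw [h, U_append]
      rw [← List.reverse_suffix, List.reverse_reverse] at h2
      have := hcross S1 _ h1 h2
      rwa [U_reverse] at this
  have hAV0 : ∀ S, S <:+: A ++ V0 → SC R (U S) := by
    intro S hS
    rcases infix_append_cases hS with h | h | ⟨S1, S2, h, h1, h2⟩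
    · exact (hAinf S h).mono hRρ
    · exact hV0inf S h
    · by_cases hS1 : S1 = []
      · rw [h, hS1, List.nil_append]; exact hV0inf S2 h2.isInfix
      have hmem : U S1 ∈ sufU A := mem_sufU.2 ⟨S1, h1, hS1, rfl⟩
      rw [h, U_append]
      rcases prefix_append_cases h2 with h3 | ⟨T, h3, h4⟩
      · exact a4 S2 h3 _ hmem
      · have : U S2 = W := by
          rw [h3, U_append, a1]
          have h5 := hsub2 T.reverse (by
            rw [← List.reverse_suffix, List.reverse_reverse] at h4
            exact h4.isInfix)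
          rw [U_reverse] at h5
          exact union_eq_self_of_subset_right h5
        rw [this]
        exact (hAW S1 h1).mono hRρ
  have hfull : ∀ S, S <:+: A ++ (V0 ++ B) → SC R (U S) := by
    intro S hS
    rw [← List.append_assoc] at hS
    rcases infix_append_cases hS with h | h | ⟨S1, S2, h, h1, h2⟩
    · exact hAV0 S h
    · exact (hBinf S h).mono hRρ
    · by_cases hS2 : S2 = []
      · rw [h, hS2, List.append_nil]; exact hAV0 S1 h1.isInfix
      have hS2r : S2.reverse <:+ B.reverse := by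
        rw [List.reverse_suffix]; exact h2
      have hmem : U S2 ∈ sufU B.reverse :=
        mem_sufU.2 ⟨S2.reverse, hS2r, by simpa using hS2, (U_reverse _).symm⟩
      rw [h, U_append]
      rcases suffix_append_cases h1 with h3 | ⟨T, h3, h4⟩
      · -- S1 suffix of V0
        rcases suffix_append_cases h3 with h5 | ⟨T, h5, h6⟩
        · have h7 : S1.reverse <+: V2 := by
            rw [← List.reverse_suffix, List.reverse_reverse]; exact h5
          have := b4 _ h7 _ hmem
          rwa [U_reverse, union_comm] at this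
        · have : U S1 = W := by
            rw [h5, U_append, U_reverse, b1]
            exact union_eq_self_of_subset_left (hsub1 T h6.isInfix)
          rw [this]
          exact (hWB S2 h2).mono hRρ
      · -- S1 = T ++ V0
        obtain ⟨t, ht⟩ := h4
        obtain ⟨r, hr⟩ := h2
        have h5 := hgood (T ++ ([W] ++ S2)) ⟨t, r, by rw [← ht, ← hr]; simp⟩
        rw [U_append, U_append, U_singleton] at h5
        rw [h3, U_append, hUV0, union_assoc]
        exact h5.mono hRρ
  -- filter
  set pr : Set E → Bool := fun x => decide (x.Nontrivial) with hpr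
  have hpr1 : ∀ x : Set E, pr x = false → ¬ x.Nontrivial := by
    intro x hx; simpa [hpr] using hx
  have hpr2 : ∀ x : Set E, pr x = true → x.Nontrivial := by
    intro x hx; simpa [hpr] using hx
  have hfA : A.filter pr = A := List.filter_eq_self.2 fun x hx => by
    simpa [hpr] using (hAmem x hx).2
  have hfB : B.filter pr = B := List.filter_eq_self.2 fun x hx => by
    simpa [hpr] using (hBmem x hx).2
  have hWconv : Convex ℝ W := hW.convex
  have hfl : ∀ L : List (Set E), (∀ x ∈ L, IsCompact x) → U L = W → U (L.filter pr) = W := by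
    intro L hL hUL
    have := U_filter_nt (L := L) (p := pr) (fun x _ => hpr1 x) (fun x hx => (hL x hx).isClosed)
      (by rw [hUL]; exact hWconv) (by rw [hUL]; exact hWnt)
    rw [this, hUL]
  have hne : ∀ L : List (Set E), (∀ x ∈ L, IsCompact x) → U L = W →
      1 ≤ (L.filter pr).length := by
    intro L hL hUL
    have h1 := hfl L hL hUL
    by_contra hcon
    have h2 : L.filter pr = [] := List.length_eq_zero_iff.1 (by omega)
    rw [h2, U_nil] at h1
    rw [← h1] at hw0
    exact hw0
  refine ⟨R, hRρ, V0.filter pr, hfl V0 (fun x hx => (hV0mem x hx).1) hUV0, ?_, ?_, ?_⟩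
  · intro x hx
    have hx' := List.mem_filter.1 hx
    exact ⟨(hV0mem x hx'.1).1, hpr2 x hx'.2, (hV0mem x hx'.1).2⟩
  · rw [hV0, List.filter_append, List.length_append]
    have h1 := hne V1 (fun x hx => (a2 x hx).1) a1
    have h2 := hne V2.reverse (fun x hx => (b2 x (by simpa using hx)).1) (by rw [U_reverse, b1])
    omega
  · have h1 : A ++ (V0.filter pr ++ B) = (A ++ (V0 ++ B)).filter pr := by
      simp only [List.filter_append, hfA, hfB]
    rw [h1]
    refine filter_good (fun x _ => hpr1 x) (fun x _ => hpr2 x) ?_ hfull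
    intro x hx
    rw [List.mem_append, List.mem_append] at hx
    rcases hx with hx | hx | hx
    · exact (hAmem x hx).1.isClosed
    · exact (hV0mem x hx).1.isClosed
    · exact (hBmem x hx).1.isClosed

end Pool.Agent.H664.Csf
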