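import Mathlib

open Topology Filter Set MeasureTheory

namespace Pool.Agent.H664.DimLower

noncomputable section

/-! ### A lower bound for the dimension of a product of a thick Cantor set and an interval -/

lemma one_add_le_dimH {ψ : ℝ → ℝ} (hψ : Measurable ψ) {s C : ℝ} (hs : 0 < s) (hC : 0 < C)
    (hψ' : ∀ t ∈ Ico (0:ℝ) 1, ∀ t' ∈ Ico (0:ℝ) 1, |t - t'| ≤ C * |ψ t - ψ t'| ^ s)
    {a b : ℝ} (hab : a < b) {E : Set (ℝ × ℝ)}
    (hE : ∀ t ∈ Ico (0:ℝ) 1, ∀ y ∈ Icc a b, (ψ t, y) ∈ E) :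
    ENNReal.ofReal (1 + s) ≤ dimH E := by
  set Ψ : ℝ × ℝ → ℝ × ℝ := fun p => (ψ p.1, p.2) with hΨ
  have hΨm : Measurable Ψ := (hψ.comp measurable_fst).prodMk measurable_snd
  set ν : Measure (ℝ × ℝ) := volume.restrict (Ico (0:ℝ) 1 ×ˢ Icc a b) with hν
  set μ : Measure (ℝ × ℝ) := ν.map Ψ with hμ
  have key : ∀ A : Set (ℝ × ℝ), μ A ≤ ENNReal.ofReal C * Metric.ediam A ^ (1 + s) := by
    intro A
    set D := Metric.ediam A with hD
    have hD' : Metric.ediam (closure A) = D := Metric.ediam_closure A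
    set P : Set ℝ := {t | t ∈ Ico (0:ℝ) 1 ∧ ∃ y, (ψ t, y) ∈ closure A} with hP
    set Q : Set ℝ := Prod.snd '' (closure A) with hQ
    have h1 : μ A ≤ volume (P ×ˢ Q) := by
      calc μ A ≤ μ (closure A) := measure_mono subset_closure
        _ = ν (Ψ ⁻¹' closure A) := Measure.map_apply hΨm isClosed_closure.measurableSet
        _ = volume (Ψ ⁻¹' closure A ∩ (Ico (0:ℝ) 1 ×ˢ Icc a b)) :=
            Measure.restrict_apply (hΨm isClosed_closure.measurableSet)
        _ ≤ volume (P ×ˢ Q) := by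
            apply measure_mono
            rintro ⟨t, y⟩ ⟨h1, h2⟩
            exact ⟨⟨h2.1, y, h1⟩, ⟨_, h1, rfl⟩⟩
    have h2 : volume Q ≤ D := by
      refine (Real.volume_le_diam Q).trans ?_
      rw [← hD']
      refine Metric.ediam_le ?_
      rintro _ ⟨p, hp, rfl⟩ _ ⟨q, hq, rfl⟩
      calc edist p.2 q.2 ≤ edist p q := by
            rw [Prod.edist_eq]; exact le_max_right _ _
        _ ≤ _ := Metric.edist_le_ediam_of_mem hp hq
    have h3 : volume P ≤ ENNReal.ofReal C * D ^ s := by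
      refine (Real.volume_le_diam P).trans ?_
      refine Metric.ediam_le ?_
      rintro t ⟨ht, y, hy⟩ t' ⟨ht', y', hy'⟩
      have h4 : edist (ψ t) (ψ t') ≤ D := by
        rw [← hD']
        calc edist (ψ t) (ψ t') ≤ edist (ψ t, y) (ψ t', y') := by
              rw [Prod.edist_eq]; exact le_max_left _ _
          _ ≤ _ := Metric.edist_le_ediam_of_mem hy hy'
      calc edist t t' = ENNReal.ofReal |t - t'| := by
            rw [edist_dist, Real.dist_eq]
        _ ≤ ENNReal.ofReal (C * |ψ t - ψ t'| ^ s) := ENNReal.ofReal_le_ofReal (hψ' t ht t' ht')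
        _ = ENNReal.ofReal C * (edist (ψ t) (ψ t')) ^ s := by
            rw [ENNReal.ofReal_mul hC.le, edist_dist, Real.dist_eq,
              ENNReal.ofReal_rpow_of_nonneg (abs_nonneg _) hs.le]
        _ ≤ _ := by gcongr
    calc μ A ≤ volume (P ×ˢ Q) := h1
      _ = volume P * volume Q := by rw [Measure.volume_eq_prod, Measure.prod_prod]
      _ ≤ (ENNReal.ofReal C * D ^ s) * D := by gcongr
      _ = ENNReal.ofReal C * D ^ (1 + s) := by
          rw [ENNReal.rpow_add_of_nonneg _ _ zero_le_one hs.le, ENNReal.rpow_one]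
          ring
  have hC0 : ENNReal.ofReal C ≠ 0 := by simpa using hC
  have hCt : ENNReal.ofReal C ≠ ⊤ := ENNReal.ofReal_ne_top
  have hle : (ENNReal.ofReal C)⁻¹ • μ ≤ μH[1 + s] := by
    refine Measure.le_hausdorffMeasure (1 + s) _ 1 one_pos fun A _ => ?_
    rw [Measure.smul_apply, smul_eq_mul]
    calc (ENNReal.ofReal C)⁻¹ * μ A
        ≤ (ENNReal.ofReal C)⁻¹ * (ENNReal.ofReal C * Metric.ediam A ^ (1 + s)) := by
          gcongr; exact key A
      _ = Metric.ediam A ^ (1 + s) := by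
          rw [← mul_assoc, ENNReal.inv_mul_cancel hC0 hCt, one_mul]
  have hμE : 0 < μ E := by
    have h1 : ν (Ψ ⁻¹' E) ≤ μ E := Measure.le_map_apply hΨm.aemeasurable E
    refine lt_of_lt_of_le ?_ h1
    have h2 : (Ico (0:ℝ) 1 ×ˢ Icc a b) ⊆ Ψ ⁻¹' E := by
      rintro ⟨t, y⟩ ⟨ht, hy⟩
      exact hE t ht y hy
    refine lt_of_lt_of_le ?_ (measure_mono h2)
    rw [hν, Measure.restrict_apply_self, Measure.volume_eq_prod, Measure.prod_prod,
      Real.volume_Ico, Real.volume_Icc]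
    simp [hab]
  have hH : μH[1 + s] E ≠ 0 := by
    have h1 := Measure.le_iff'.1 hle E
    rw [Measure.smul_apply, smul_eq_mul] at h1
    have h2 : 0 < (ENNReal.ofReal C)⁻¹ * μ E :=
      ENNReal.mul_pos (ENNReal.inv_ne_zero.2 hCt) hμE.ne'
    exact (lt_of_lt_of_le h2 h1).ne'
  have hcoe : ((Real.toNNReal (1 + s) : NNReal) : ℝ) = 1 + s := Real.coe_toNNReal _ (by linarith)
  have := le_dimH_of_hausdorffMeasure_ne_zero (s := E) (d := Real.toNNReal (1 + s))
    (by rw [hcoe]; exact hH)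
  exact this

/-! ### Digit expansions -/

/-- the `n`-th base `N` digit of `t ∈ [0,1)` -/
def digit (N : ℕ) (n : ℕ) (t : ℝ) : ℤ := ⌊(N:ℝ) ^ (n + 1) * t⌋ % (N : ℤ)

lemma digit_nonneg {N : ℕ} (hN : 0 < N) (n : ℕ) (t : ℝ) : 0 ≤ digit N n t :=
  Int.emod_nonneg _ (by exact_mod_cast hN.ne')

lemma digit_lt {N : ℕ} (hN : 0 < N) (n : ℕ) (t : ℝ) : digit N n t < N :=
  Int.emod_lt_of_pos _ (by exact_mod_cast hN)

lemma measurable_digit (N n : ℕ) : Measurable (fun t : ℝ => ((digit N n t : ℤ) : ℝ)) := by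
  unfold digit
  have h1 : Measurable (fun t : ℝ => ⌊(N:ℝ) ^ (n + 1) * t⌋) :=
    Int.measurable_floor.comp (measurable_const.mul measurable_id)
  have h2 : Measurable (fun k : ℤ => (((k % (N : ℤ)) : ℤ) : ℝ)) := measurable_from_top
  exact h2.comp h1

/-- first differing digit -/
lemma first_digit {N : ℕ} (hN : 2 ≤ N) {t t' : ℝ} (ht : t ∈ Ico (0:ℝ) 1) (ht' : t' ∈ Ico (0:ℝ) 1)
    (hlt : t < t') : ∃ n : ℕ, t' - t ≤ ((N:ℝ) ^ n)⁻¹ ∧ (∀ j < n, digit N j t = digit N j t') ∧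
      digit N n t < digit N n t' := by
  have hN0 : (0:ℝ) < N := by positivity
  have hN1 : (1:ℝ) < N := by exact_mod_cast (by omega : 1 < N)
  -- some floor differs
  have hex : ∃ n : ℕ, ⌊(N:ℝ) ^ (n + 1) * t⌋ ≠ ⌊(N:ℝ) ^ (n + 1) * t'⌋ := by
    obtain ⟨n, hn⟩ := pow_unbounded_of_one_lt (1 / (t' - t)) hN1
    refine ⟨n, fun h => ?_⟩
    have h1 := Int.abs_sub_lt_one_of_floor_eq_floor h
    rw [← mul_sub, abs_mul, abs_sub_comm, abs_of_pos (show 0 < t' - t by linarith),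
      abs_of_pos (by positivity)] at h1
    rw [div_lt_iff₀ (by linarith)] at hn
    have h2 : (N:ℝ) ^ n ≤ (N:ℝ) ^ (n + 1) := pow_le_pow_right₀ hN1.le (Nat.le_succ n)
    nlinarith
  classical
  set n := Nat.find hex with hn
  have hspec := Nat.find_spec hex
  have hmin : ∀ j < n, ⌊(N:ℝ) ^ (j + 1) * t⌋ = ⌊(N:ℝ) ^ (j + 1) * t'⌋ := by
    intro j hj
    by_contra h
    exact Nat.find_min hex hj h
  -- floors at level n agree
  have hfl : ⌊(N:ℝ) ^ n * t⌋ = ⌊(N:ℝ) ^ n * t'⌋ := by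
    rcases Nat.eq_zero_or_pos n with h0 | h0
    · rw [h0, pow_zero, one_mul, one_mul, Int.floor_eq_zero_iff.2 ht, Int.floor_eq_zero_iff.2 ht']
    · have := hmin (n - 1) (by omega)
      rwa [Nat.sub_add_cancel h0] at this
  refine ⟨n, ?_, ?_, ?_⟩
  · have h1 := Int.abs_sub_lt_one_of_floor_eq_floor hfl
    rw [← mul_sub, abs_mul, abs_sub_comm, abs_of_pos (show 0 < t' - t by linarith),
      abs_of_pos (by positivity)] at h1
    rw [← one_div, le_div_iff₀ (by positivity)]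
    linarith
  · intro j hj
    unfold digit
    rw [hmin j hj]
  · have hle : ⌊(N:ℝ) ^ (n + 1) * t⌋ ≤ ⌊(N:ℝ) ^ (n + 1) * t'⌋ := by
      apply Int.floor_le_floor
      gcongr
    have hlt2 : ⌊(N:ℝ) ^ (n + 1) * t⌋ < ⌊(N:ℝ) ^ (n + 1) * t'⌋ := lt_of_le_of_ne hle hspec
    have hdiv : ∀ x : ℝ, ⌊(N:ℝ) ^ (n + 1) * x⌋ / (N:ℤ) = ⌊(N:ℝ) ^ n * x⌋ := by
      intro x
      have h1 := Int.floor_div_natCast ((N:ℝ) ^ (n + 1) * x) N
      rw [← h1]
      congr 1
      rw [pow_succ]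
      field_simp
    have e1 := Int.emod_add_mul_ediv ⌊(N:ℝ) ^ (n + 1) * t⌋ (N:ℤ)
    have e2 := Int.emod_add_mul_ediv ⌊(N:ℝ) ^ (n + 1) * t'⌋ (N:ℤ)
    rw [hdiv] at e1 e2
    unfold digit
    rw [hfl] at e1
    linarith

/-- the expansion `∑ digit_n(t) B_n` -/
def expan (N : ℕ) (B : ℕ → ℝ) (t : ℝ) : ℝ := ∑' n, (digit N n t : ℝ) * B n

lemma summable_expan {N : ℕ} (hN : 2 ≤ N) {B : ℕ → ℝ} (hB0 : ∀ n, 0 < B n) (hB : Summable B)
    (t : ℝ) : Summable (fun n => (digit N n t : ℝ) * B n) := by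
  refine Summable.of_norm_bounded (hB.mul_left (N:ℝ)) fun n => ?_
  have h1 := digit_nonneg (N := N) (by omega) n t
  have h2 := digit_lt (N := N) (by omega) n t
  have h1' : (0:ℝ) ≤ digit N n t := by exact_mod_cast h1
  have h2' : (digit N n t : ℝ) ≤ N := by exact_mod_cast h2.le
  rw [Real.norm_of_nonneg (mul_nonneg h1' (hB0 n).le)]
  exact mul_le_mul_of_nonneg_right h2' (hB0 n).le

lemma measurable_expan {N : ℕ} (hN : 2 ≤ N) {B : ℕ → ℝ} (hB0 : ∀ n, 0 < B n) (hB : Summable B) :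
    Measurable (expan N B) := by
  refine measurable_of_tendsto_metrizable
    (f := fun k t => ∑ n ∈ Finset.range k, (digit N n t : ℝ) * B n) (fun k => ?_) ?_
  · exact Finset.measurable_sum _ fun n _ => (measurable_digit N n).mul_const _
  · rw [tendsto_pi_nhds]
    intro t
    exact (summable_expan hN hB0 hB t).hasSum.tendsto_sum_nat

lemma expan_lower {N : ℕ} (hN : 2 ≤ N) {B : ℕ → ℝ} (hB0 : ∀ n, 0 < B n) (hB : Summable B)
    {n : ℕ} {t t' : ℝ} (heq : ∀ j < n, digit N j t = digit N j t')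
    (hlt : digit N n t < digit N n t') :
    B n - (N - 1) * ∑' j, B (j + (n + 1)) ≤ expan N B t' - expan N B t := by
  have hS := summable_expan hN hB0 hB t
  have hS' := summable_expan hN hB0 hB t'
  have hBn : Summable (fun j => B (j + (n + 1))) := (summable_nat_add_iff (n + 1)).2 hB
  have h1 : expan N B t' - expan N B t =
      ∑' j, ((digit N j t' : ℝ) * B j - (digit N j t : ℝ) * B j) := by
    rw [hS'.tsum_sub hS]; rfl
  have hSd := hS'.sub hS
  rw [h1, ← hSd.sum_add_tsum_nat_add (n + 1), Finset.sum_range_succ]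
  have h2 : ∑ j ∈ Finset.range n, ((digit N j t' : ℝ) * B j - (digit N j t : ℝ) * B j) = 0 := by
    apply Finset.sum_eq_zero
    intro j hj
    rw [heq j (Finset.mem_range.1 hj), sub_self]
  have h3 : B n ≤ (digit N n t' : ℝ) * B n - (digit N n t : ℝ) * B n := by
    have : (digit N n t : ℝ) + 1 ≤ digit N n t' := by exact_mod_cast hlt
    nlinarith [hB0 n]
  have h4 : -((N - 1) * ∑' j, B (j + (n + 1))) ≤
      ∑' j, ((digit N (j + (n + 1)) t' : ℝ) * B (j + (n + 1)) -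
        (digit N (j + (n + 1)) t : ℝ) * B (j + (n + 1))) := by
    rw [← tsum_mul_left, ← tsum_neg]
    refine Summable.tsum_le_tsum (fun j => ?_) (hBn.mul_left _).neg
      ((summable_nat_add_iff (f := fun j => (digit N j t' : ℝ) * B j -
        (digit N j t : ℝ) * B j) (n + 1)).2 hSd)
    have e1 := digit_nonneg (N := N) (by omega) (j + (n + 1)) t'
    have e2 := digit_lt (N := N) (by omega) (j + (n + 1)) t
    have e1' : (0:ℝ) ≤ digit N (j + (n + 1)) t' := by exact_mod_cast e1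
    have e2' : (digit N (j + (n + 1)) t : ℝ) ≤ N - 1 := by
      have : digit N (j + (n + 1)) t ≤ N - 1 := by omega
      exact_mod_cast this
    nlinarith [hB0 (j + (n + 1))]
  rw [h2]
  linarith

/-- dimension bound from expansions -/
lemma dimH_of_expan {N : ℕ} (hN : 2 ≤ N) {B κ : ℕ → ℝ} (hB0 : ∀ n, 0 < B n) (hB : Summable B)
    (hκ0 : ∀ n, 0 < κ n) (hκ : ∀ n, κ n ≤ B n - (N - 1) * ∑' j, B (j + (n + 1)))
    {s C : ℝ} (hs : 0 < s) (hC : 0 < C) (hsc : ∀ n : ℕ, ((N:ℝ) ^ n)⁻¹ ≤ C * (κ n) ^ s)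
    (c0 : ℝ) {a b : ℝ} (hab : a < b) {E : Set (ℝ × ℝ)}
    (hE : ∀ t ∈ Ico (0:ℝ) 1, ∀ y ∈ Icc a b, (c0 + expan N B t, y) ∈ E) :
    ENNReal.ofReal (1 + s) ≤ dimH E := by
  have hlow : ∀ t ∈ Ico (0:ℝ) 1, ∀ t' ∈ Ico (0:ℝ) 1, t < t' →
      |t - t'| ≤ C * |(c0 + expan N B t) - (c0 + expan N B t')| ^ s := by
    intro t ht t' ht' hlt
    obtain ⟨n, h1, h2, h3⟩ := first_digit hN ht ht' hlt
    have h4 := (hκ n).trans (expan_lower hN hB0 hB h2 h3)
    have h5 : κ n ≤ |(c0 + expan N B t) - (c0 + expan N B t')| := by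
      rw [abs_sub_comm]
      refine le_trans ?_ (le_abs_self _)
      linarith
    calc |t - t'| = t' - t := by rw [abs_sub_comm, abs_of_pos (by linarith)]
      _ ≤ ((N:ℝ) ^ n)⁻¹ := h1
      _ ≤ C * (κ n) ^ s := hsc n
      _ ≤ _ := by
        gcongr
        exact (hκ0 n).le
  refine one_add_le_dimH (ψ := fun t => c0 + expan N B t)
    (measurable_const.add (measurable_expan hN hB0 hB)) hs hC ?_ hab hE
  intro t ht t' ht'
  rcases lt_trichotomy t t' with h | h | h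
  · exact hlow t ht t' ht' h
  · subst h
    simp only [sub_self, abs_zero]
    rw [Real.zero_rpow hs.ne']; simp
  · rw [abs_sub_comm, abs_sub_comm (c0 + expan N B t)]
    exact hlow t' ht' t ht h


end

end Pool.Agent.H664.DimLower
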