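import Mathlib

open Topology Filter Set MeasureTheory

namespace Pool.Agent.H664.DimProd

noncomputable section

lemma cover_exists {d : ℝ} (hd : 0 < d) {K : Set ℝ} (hK : μH[d] K = 0) {r : ℝ} (hr : 0 < r) :
    ∃ t : ℕ → Set ℝ, K ⊆ ⋃ n, t n ∧ (∀ n, Metric.ediam (t n) ≤ ENNReal.ofReal r) ∧
      ∑' n, Metric.ediam (t n) ^ d < 1 := by
  rw [Measure.hausdorffMeasure_apply] at hK
  have h1 := (ENNReal.iSup_eq_zero.1 hK) (ENNReal.ofReal r)
  have h2 := (ENNReal.iSup_eq_zero.1 h1) (by simpa using hr)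
  have h3 : (⨅ (t : ℕ → Set ℝ) (_ : K ⊆ ⋃ n, t n) (_ : ∀ n, Metric.ediam (t n) ≤ ENNReal.ofReal r),
          ∑' n, ⨆ _ : (t n).Nonempty, Metric.ediam (t n) ^ d) < 1 := by
    rw [h2]; exact one_pos
  obtain ⟨t, h4⟩ := iInf_lt_iff.1 h3
  obtain ⟨ht1, h5⟩ := iInf_lt_iff.1 h4
  obtain ⟨ht2, h6⟩ := iInf_lt_iff.1 h5
  refine ⟨t, ht1, ht2, ?_⟩
  have h7 : ∀ n, (⨆ _ : (t n).Nonempty, Metric.ediam (t n) ^ d) = Metric.ediam (t n) ^ d := by
    intro n
    rcases (t n).eq_empty_or_nonempty with h | h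
    · rw [h]
      simp [hd]
    · exact ciSup_pos h
  simpa only [h7] using h6

lemma hausdorff_prod_le {d : ℝ} (hd : 0 < d) {K : Set ℝ} (hK : μH[d] K = 0) :
    μH[1 + d] (Ico (0:ℝ) 1 ×ˢ K) ≤ 6 := by
  have hr : ∀ n : ℕ, (0:ℝ) < 1 / ((n:ℝ) + 1) := fun n => by positivity
  choose t ht1 ht2 ht3 using fun n : ℕ => cover_exists hd hK (hr n)
  -- the sizes
  set η : ℕ → ℕ → ℝ := fun n i => min (1 / ((n:ℝ) + 1)) (((1 / 2 : ℝ) ^ i) ^ (1 / d)) with hη
  have hη0 : ∀ n i, 0 < η n i := fun n i => lt_min (hr n) (by positivity)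
  set δ : ℕ → ℕ → ℝ := fun n i => max (Metric.ediam (t n i)).toReal (η n i) with hδ
  have hδ0 : ∀ n i, 0 < δ n i := fun n i => lt_of_lt_of_le (hη0 n i) (le_max_right _ _)
  have hne : ∀ n i, Metric.ediam (t n i) ≠ ⊤ := fun n i =>
    ne_top_of_le_ne_top ENNReal.ofReal_ne_top (ht2 n i)
  have hδr : ∀ n i, δ n i ≤ 1 / ((n:ℝ) + 1) := by
    intro n i
    apply max_le _ (min_le_left _ _)
    exact ENNReal.toReal_le_of_le_ofReal (hr n).le (ht2 n i)
  have hδ1 : ∀ n i, δ n i ≤ 1 := by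
    intro n i
    refine (hδr n i).trans ?_
    rw [div_le_one (by positivity)]
    linarith [n.cast_nonneg (α := ℝ)]
  have hdiam : ∀ n i, Metric.ediam (t n i) ≤ ENNReal.ofReal (δ n i) := by
    intro n i
    rw [← ENNReal.ofReal_toReal (hne n i)]
    exact ENNReal.ofReal_le_ofReal (le_max_left _ _)
  have hδd : ∀ n i, ENNReal.ofReal (δ n i) ^ d ≤
      Metric.ediam (t n i) ^ d + ENNReal.ofReal ((1 / 2 : ℝ) ^ i) := by
    intro n i
    rcases max_cases (Metric.ediam (t n i)).toReal (η n i) with h | h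
    · have h1 : δ n i = (Metric.ediam (t n i)).toReal := h.1
      rw [h1, ENNReal.ofReal_toReal (hne n i)]
      exact le_self_add
    · have h1 : δ n i = η n i := h.1
      rw [h1, ENNReal.ofReal_rpow_of_nonneg (hη0 n i).le hd.le]
      refine le_trans (ENNReal.ofReal_le_ofReal ?_) le_add_self
      calc (η n i) ^ d ≤ (((1 / 2 : ℝ) ^ i) ^ (1 / d)) ^ d :=
            Real.rpow_le_rpow (hη0 n i).le (min_le_right _ _) hd.le
        _ = (1 / 2 : ℝ) ^ i := by
            rw [← Real.rpow_mul (by positivity), one_div_mul_cancel hd.ne', Real.rpow_one]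
  set N : ℕ → ℕ → ℕ := fun n i => ⌈1 / δ n i⌉₊ with hN
  have hNδ : ∀ n i, (N n i : ENNReal) * ENNReal.ofReal (δ n i) ≤ 2 := by
    intro n i
    rw [← ENNReal.ofReal_natCast, ← ENNReal.ofReal_mul (Nat.cast_nonneg _)]
    have h1 : (N n i : ℝ) * δ n i ≤ 2 := by
      have h2 : (N n i : ℝ) < 1 / δ n i + 1 := Nat.ceil_lt_add_one (by have := hδ0 n i; positivity)
      have h3 : (1 / δ n i + 1) * δ n i = 1 + δ n i := by
        have := (hδ0 n i).ne'
        field_simp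
      nlinarith [hδ0 n i, hδ1 n i]
    calc ENNReal.ofReal ((N n i : ℝ) * δ n i) ≤ ENNReal.ofReal 2 := ENNReal.ofReal_le_ofReal h1
      _ = 2 := by simp
  -- the covers
  set U : ∀ n : ℕ, (Σ i : ℕ, Fin (N n i)) → Set (ℝ × ℝ) := fun n x =>
    Icc ((x.2 : ℕ) * δ n x.1) (((x.2 : ℕ) + 1) * δ n x.1) ×ˢ t n x.1 with hU
  have hUd : ∀ n x, Metric.ediam (U n x) ≤ ENNReal.ofReal (δ n x.1) := by
    intro n x
    refine Metric.ediam_le ?_
    rintro p ⟨hp1, hp2⟩ q ⟨hq1, hq2⟩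
    rw [Prod.edist_eq]
    apply max_le
    · rw [edist_dist, Real.dist_eq]
      apply ENNReal.ofReal_le_ofReal
      rw [abs_le]
      constructor <;> nlinarith [hp1.1, hp1.2, hq1.1, hq1.2]
    · exact (Metric.edist_le_ediam_of_mem hp2 hq2).trans (hdiam n x.1)
  have hlim : Tendsto (fun n : ℕ => ENNReal.ofReal (1 / ((n:ℝ) + 1))) atTop (𝓝 0) := by
    have := (ENNReal.continuous_ofReal.tendsto 0).comp
      (tendsto_one_div_add_atTop_nhds_zero_nat (𝕜 := ℝ))
    rw [ENNReal.ofReal_zero] at this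
    exact this
  have hmain := Measure.hausdorffMeasure_le_liminf_tsum (1 + d) (Ico (0:ℝ) 1 ×ˢ K)
    (l := atTop) (fun n : ℕ => ENNReal.ofReal (1 / ((n:ℝ) + 1))) hlim U
    (Eventually.of_forall fun n x => (hUd n x).trans (ENNReal.ofReal_le_ofReal (hδr n x.1)))
    (Eventually.of_forall fun n => by
      rintro ⟨x, y⟩ ⟨hx, hy⟩
      obtain ⟨i, hi⟩ := mem_iUnion.1 (ht1 n hy)
      have hδi := hδ0 n i
      have hx0 : 0 ≤ x / δ n i := div_nonneg hx.1 hδi.le
      set k : ℕ := ⌊x / δ n i⌋₊ with hk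
      have hk1 : (k:ℝ) ≤ x / δ n i := Nat.floor_le hx0
      have hk2 : x / δ n i < k + 1 := Nat.lt_floor_add_one _
      have hkN : k < N n i := by
        have h1 : (k:ℝ) < 1 / δ n i := by
          refine lt_of_le_of_lt hk1 ?_
          gcongr
          exact hx.2
        have h2 : 1 / δ n i ≤ N n i := Nat.le_ceil _
        exact_mod_cast lt_of_lt_of_le h1 h2
      refine mem_iUnion.2 ⟨⟨i, ⟨k, hkN⟩⟩, ?_, hi⟩
      constructor
      · exact (le_div_iff₀ hδi).1 hk1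
      · exact ((div_lt_iff₀ hδi).1 hk2).le)
  refine hmain.trans ?_
  have hbound : ∀ n, ∑' x, Metric.ediam (U n x) ^ (1 + d) ≤ 6 := by
    intro n
    have h1d : 0 ≤ 1 + d := by linarith
    calc ∑' x, Metric.ediam (U n x) ^ (1 + d)
        ≤ ∑' x : (Σ i : ℕ, Fin (N n i)), ENNReal.ofReal (δ n x.1) ^ (1 + d) :=
          ENNReal.tsum_le_tsum fun x => ENNReal.rpow_le_rpow (hUd n x) h1d
      _ = ∑' i, ∑' _ : Fin (N n i), ENNReal.ofReal (δ n i) ^ (1 + d) :=
          ENNReal.tsum_sigma (fun i (_ : Fin (N n i)) => ENNReal.ofReal (δ n i) ^ (1 + d))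
      _ = ∑' i, (N n i : ENNReal) * ENNReal.ofReal (δ n i) ^ (1 + d) := by
          apply tsum_congr
          intro i
          rw [tsum_fintype]
          simp
      _ ≤ ∑' i, 2 * (Metric.ediam (t n i) ^ d + ENNReal.ofReal ((1 / 2 : ℝ) ^ i)) := by
          apply ENNReal.tsum_le_tsum
          intro i
          rw [ENNReal.rpow_add_of_nonneg _ _ zero_le_one hd.le, ENNReal.rpow_one, ← mul_assoc]
          exact mul_le_mul' (hNδ n i) (hδd n i)
      _ = 2 * (∑' i, Metric.ediam (t n i) ^ d + ∑' i, ENNReal.ofReal ((1 / 2 : ℝ) ^ i)) := by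
          rw [ENNReal.tsum_mul_left, ENNReal.tsum_add]
      _ ≤ 2 * (1 + 2) := by
          gcongr
          · exact (ht3 n).le
          · rw [← ENNReal.ofReal_tsum_of_nonneg (fun i => by positivity)
              (summable_geometric_of_lt_one (by norm_num) (by norm_num)),
              tsum_geometric_of_lt_one (by norm_num) (by norm_num)]
            norm_num
      _ = 6 := by norm_num
  calc liminf (fun n => ∑' x, Metric.ediam (U n x) ^ (1 + d)) atTop
      ≤ liminf (fun _ : ℕ => (6 : ENNReal)) atTop :=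
        liminf_le_liminf (Eventually.of_forall hbound)
    _ = 6 := liminf_const _

lemma dimH_Ico_prod_le (K : Set ℝ) : dimH (Ico (0:ℝ) 1 ×ˢ K) ≤ 1 + dimH K := by
  refine le_of_forall_gt_imp_ge_of_dense fun c hc => ?_
  have h1 : dimH K < c - 1 := by
    rw [lt_tsub_iff_left]; exact hc
  obtain ⟨d, hd1, hd2⟩ := ENNReal.lt_iff_exists_nnreal_btwn.1 h1
  have hd0 : 0 < d := by
    rcases eq_or_lt_of_le (zero_le (a := d)) with h | h
    · exfalso
      rw [← h] at hd1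
      exact not_lt_bot hd1
    · exact h
  have h2 := hausdorff_prod_le (by exact_mod_cast hd0) (hausdorffMeasure_of_dimH_lt hd1)
  have h3 : μH[((1 + d : NNReal) : ℝ)] (Ico (0:ℝ) 1 ×ˢ K) ≠ ⊤ := by
    push_cast
    exact ne_top_of_le_ne_top (by norm_num) h2
  have h4 := dimH_le_of_hausdorffMeasure_ne_top h3
  refine h4.trans ?_
  have h5 : (d : ENNReal) + 1 ≤ c := by
    have := lt_tsub_iff_right.1 hd2
    exact this.le
  push_cast
  rw [add_comm]
  exact h5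

theorem dimH_univ_prod_le (K : Set ℝ) : dimH ((univ : Set ℝ) ×ˢ K) ≤ 1 + dimH K := by
  have h1 : (univ : Set ℝ) ×ˢ K ⊆ ⋃ n : ℤ, (fun p : ℝ × ℝ => (p.1 + n, p.2)) '' (Ico (0:ℝ) 1 ×ˢ K) := by
    rintro ⟨x, y⟩ ⟨_, hy⟩
    refine mem_iUnion.2 ⟨⌊x⌋, (x - ⌊x⌋, y), ⟨⟨?_, ?_⟩, hy⟩, ?_⟩
    · linarith [Int.floor_le x]
    · linarith [Int.lt_floor_add_one x]
    · simp
  refine (dimH_mono h1).trans ?_
  rw [dimH_iUnion]
  refine iSup_le fun n => ?_
  have h2 : LipschitzWith 1 (fun p : ℝ × ℝ => (p.1 + (n:ℝ), p.2)) := by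
    refine LipschitzWith.of_dist_le_mul fun p q => ?_
    rw [Prod.dist_eq, Prod.dist_eq]
    simp
  exact (h2.dimH_image_le _).trans (dimH_Ico_prod_le K)

end

end Pool.Agent.H664.DimProd
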