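import Mathlib

open Topology Filter Set MeasureTheory

namespace Pool.Agent.H664.Flow

noncomputable section

/-- pointwise application as a bounded bilinear map -/
def pAppL {G E F : Type} [NormedAddCommGroup E] [NormedSpace ℝ E] [NormedAddCommGroup F]
    [NormedSpace ℝ F] [NormedAddCommGroup G] [NormedSpace ℝ G] (B : G →L[ℝ] E →L[ℝ] F) :
    C(unitInterval, G) →ₗ[ℝ] C(unitInterval, E) →ₗ[ℝ] C(unitInterval, F) :=
  LinearMap.mk₂ ℝ (fun (A : C(unitInterval, G)) (β : C(unitInterval, E)) =>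
    (⟨fun s => B (A s) (β s), (B.continuous.comp A.continuous).clm_apply β.continuous⟩ :
      C(unitInterval, F)))
    (fun A B β => by ext s; simp) (fun c A β => by ext s; simp)
    (fun A β γ => by ext s; simp) (fun c A β => by ext s; simp)

def pApp {G E F : Type} [NormedAddCommGroup E] [NormedSpace ℝ E] [NormedAddCommGroup F]
    [NormedSpace ℝ F] [NormedAddCommGroup G] [NormedSpace ℝ G] (B : G →L[ℝ] E →L[ℝ] F) :
    C(unitInterval, G) →L[ℝ] (C(unitInterval, E) →L[ℝ] C(unitInterval, F)) :=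
  LinearMap.mkContinuous₂ (pAppL B) ‖B‖ (by
    intro A β
    refine (ContinuousMap.norm_le _ (by positivity)).2 fun s => ?_
    calc ‖B (A s) (β s)‖ ≤ ‖B‖ * ‖A s‖ * ‖β s‖ := B.le_opNorm₂ _ _
      _ ≤ ‖B‖ * ‖A‖ * ‖β‖ := by
        gcongr
        · exact A.norm_coe_le_norm s
        · exact β.norm_coe_le_norm s)

@[simp] lemma pApp_apply {G E F : Type} [NormedAddCommGroup E] [NormedSpace ℝ E]
    [NormedAddCommGroup F] [NormedSpace ℝ F] [NormedAddCommGroup G] [NormedSpace ℝ G]
    (B : G →L[ℝ] E →L[ℝ] F) (A : C(unitInterval, G))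
    (β : C(unitInterval, E)) (s : unitInterval) : pApp B A β s = B (A s) (β s) := rfl

lemma pApp_norm_le {G E F : Type} [NormedAddCommGroup E] [NormedSpace ℝ E]
    [NormedAddCommGroup F] [NormedSpace ℝ F] [NormedAddCommGroup G] [NormedSpace ℝ G]
    (B : G →L[ℝ] E →L[ℝ] F) (A : C(unitInterval, G)) {M : ℝ} (hM : 0 ≤ M)
    (h : ∀ s, ‖B (A s)‖ ≤ M) : ‖pApp B A‖ ≤ M := by
  refine ContinuousLinearMap.opNorm_le_bound _ hM fun β => ?_
  refine (ContinuousMap.norm_le _ (by positivity)).2 fun s => ?_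
  rw [pApp_apply]
  exact ((B (A s)).le_opNorm _).trans
    (mul_le_mul (h s) (β.norm_coe_le_norm s) (norm_nonneg _) hM)

lemma continuous_nem {E F : Type} [NormedAddCommGroup E] [NormedAddCommGroup F] (X : C(E, F)) :
    Continuous (fun α : C(unitInterval, E) => X.comp α) :=
  ContinuousMap.continuous_postcomp X

lemma hasFDerivAt_nem {G E F : Type} [NormedAddCommGroup E] [NormedSpace ℝ E]
    [NormedAddCommGroup F] [NormedSpace ℝ F] [NormedAddCommGroup G] [NormedSpace ℝ G]
    (B : G →L[ℝ] E →L[ℝ] F) (X : C(E, F)) (X' : C(E, G))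
    (hX : ∀ x, HasFDerivAt X (B (X' x)) x) (α : C(unitInterval, E)) :
    HasFDerivAt (fun α : C(unitInterval, E) => X.comp α) (pApp B (X'.comp α)) α := by
  rw [hasFDerivAt_iff_isLittleO_nhds_zero, Asymptotics.isLittleO_iff]
  intro ε' hε'
  set ε : ℝ := ε' / (‖B‖ + 1) with hεdef
  have hε : 0 < ε := by positivity
  have hεB : ‖B‖ * ε ≤ ε' := by
    rw [hεdef]
    have : ‖B‖ * (ε' / (‖B‖ + 1)) = (‖B‖ / (‖B‖ + 1)) * ε' := by ring
    rw [this]
    have h2 : ‖B‖ / (‖B‖ + 1) ≤ 1 := by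
      rw [div_le_one (by positivity)]; linarith
    nlinarith
  have hc := (continuous_nem X').continuousAt (x := α)
  have h1 : ∀ᶠ γ : C(unitInterval, E) in 𝓝 α, dist (X'.comp γ) (X'.comp α) < ε :=
    hc.eventually (Metric.ball_mem_nhds _ hε)
  obtain ⟨δ, hδ, h1⟩ := Metric.eventually_nhds_iff.1 h1
  filter_upwards [Metric.ball_mem_nhds (0 : C(unitInterval, E)) hδ] with β hβ
  rw [mem_ball_zero_iff] at hβ
  refine (ContinuousMap.norm_le _ (by positivity)).2 fun s => ?_
  have h2 : ∀ z ∈ segment ℝ (α s) (α s + β s), ‖B (X' z) - B (X' (α s))‖ ≤ ε' := by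
    intro z hz
    rw [segment_eq_image'] at hz
    obtain ⟨θ, hθ, rfl⟩ := hz
    have h3 : dist (α + θ • β) α < δ := by
      rw [dist_eq_norm, add_sub_cancel_left, norm_smul, Real.norm_of_nonneg hθ.1]
      calc θ * ‖β‖ ≤ 1 * ‖β‖ := by gcongr; exact hθ.2
        _ < δ := by rwa [one_mul]
    have h4 := h1 h3
    rw [dist_eq_norm] at h4
    have h5 := (ContinuousMap.norm_coe_le_norm (X'.comp (α + θ • β) - X'.comp α) s).trans h4.le
    have h6 : ‖X' (α s + θ • (α s + β s - α s)) - X' (α s)‖ ≤ ε := by simpa using h5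
    rw [← map_sub]
    exact (B.le_opNorm _).trans ((mul_le_mul_of_nonneg_left h6 (norm_nonneg _)).trans hεB)
  have h3 := (convex_segment (α s) (α s + β s)).norm_image_sub_le_of_norm_hasFDerivWithin_le'
    (f := X) (f' := fun z => B (X' z)) (φ := B (X' (α s))) (C := ε')
    (fun z _ => (hX z).hasFDerivWithinAt) h2 (left_mem_segment ℝ _ _) (right_mem_segment ℝ _ _)
  have h4 : ‖β s‖ ≤ ‖β‖ := β.norm_coe_le_norm s
  calc ‖(X.comp (α + β) - X.comp α - (pApp B (X'.comp α)) β) s‖
      = ‖X (α s + β s) - X (α s) - B (X' (α s)) (α s + β s - α s)‖ := by simp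
    _ ≤ ε' * ‖α s + β s - α s‖ := h3
    _ = ε' * ‖β s‖ := by rw [add_sub_cancel_left]
    _ ≤ ε' * ‖β‖ := by gcongr

lemma contDiff_nem_step {G E F : Type} [NormedAddCommGroup E] [NormedSpace ℝ E]
    [NormedAddCommGroup F] [NormedSpace ℝ F] [NormedAddCommGroup G] [NormedSpace ℝ G]
    (B : G →L[ℝ] E →L[ℝ] F) (X : C(E, F)) (X' : C(E, G))
    (hX : ∀ x, HasFDerivAt X (B (X' x)) x) (m : ℕ)
    (ih : ContDiff ℝ m (fun α : C(unitInterval, E) => X'.comp α)) :
    ContDiff ℝ (m + 1) (fun α : C(unitInterval, E) => X.comp α) := by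
  rw [contDiff_succ_iff_hasFDerivAt]
  exact ⟨fun α => pApp B (X'.comp α), ContDiff.comp (g := pApp B) (ContinuousLinearMap.contDiff _)
    ih, fun α => hasFDerivAt_nem B X X' hX α⟩

lemma contDiff_nem {E : Type} [NormedAddCommGroup E] [NormedSpace ℝ E] (m : ℕ) :
    ∀ {F : Type} [NormedAddCommGroup F] [NormedSpace ℝ F] (X : C(E, F)),
    ContDiff ℝ m X → ContDiff ℝ m (fun α : C(unitInterval, E) => X.comp α) := by
  induction m with
  | zero =>
    intro F _ _ X _
    rw [Nat.cast_zero, contDiff_zero]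
    exact continuous_nem X
  | succ m ih =>
    intro F _ _ X hX
    have hX1 : Differentiable ℝ X := hX.differentiable (by simp)
    have hX2 : ContDiff ℝ m (fderiv ℝ X) := by
      have h := hX
      push_cast at h
      exact (contDiff_succ_iff_fderiv.1 h).2.2
    push_cast
    exact contDiff_nem_step (G := E →L[ℝ] F) (ContinuousLinearMap.id ℝ (E →L[ℝ] F)) X
      ⟨fderiv ℝ X, hX2.continuous⟩ (fun x => (hX1 x).hasFDerivAt) m (ih _ hX2)

/-! ### Global solutions of bounded Lipschitz autonomous fields -/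

lemma exists_solution_Ioo {E : Type} [NormedAddCommGroup E] [NormedSpace ℝ E] [CompleteSpace E]
    {X : E → E} {K M : NNReal} (hK : LipschitzWith K X) (hM : ∀ x, ‖X x‖ ≤ M) (x : E) (n : ℕ) :
    ∃ γ : ℝ → E, γ 0 = x ∧ ∀ t ∈ Ioo (-((n:ℝ) + 1)) ((n:ℝ) + 1), HasDerivAt γ (X (γ t)) t := by
  have h0 : (0:ℝ) ∈ Icc (-((n:ℝ) + 1)) ((n:ℝ) + 1) := ⟨by linarith [n.cast_nonneg (α := ℝ)],
    by positivity⟩
  have hpl : IsPicardLindelof (fun _ => X) (⟨0, h0⟩ : Icc (-((n:ℝ) + 1)) ((n:ℝ) + 1)) x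
      (M * (n + 1)) 0 M K := by
    refine IsPicardLindelof.of_time_independent (fun y _ => hM y) (hK.lipschitzOnWith) ?_
    simp
  obtain ⟨γ, h1, h2⟩ := hpl.exists_eq_forall_mem_Icc_hasDerivWithinAt₀
  exact ⟨γ, h1, fun t ht => (h2 t (Ioo_subset_Icc_self ht)).hasDerivAt (Icc_mem_nhds ht.1 ht.2)⟩

lemma exists_solution {E : Type} [NormedAddCommGroup E] [NormedSpace ℝ E] [CompleteSpace E]
    {X : E → E} {K M : NNReal} (hK : LipschitzWith K X) (hM : ∀ x, ‖X x‖ ≤ M) (x : E) :
    ∃ γ : ℝ → E, γ 0 = x ∧ ∀ t, HasDerivAt γ (X (γ t)) t := by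
  choose γ h0 h1 using exists_solution_Ioo hK hM x
  have hun : ∀ n k : ℕ, n ≤ k → EqOn (γ n) (γ k) (Ioo (-((n:ℝ) + 1)) ((n:ℝ) + 1)) := by
    intro n k hnk
    have hnk' : (n:ℝ) ≤ k := by exact_mod_cast hnk
    have hn : (0:ℝ) ≤ n := n.cast_nonneg
    refine ODE_solution_unique_of_mem_Ioo (v := fun _ => X) (s := fun _ => univ) (K := K) (t₀ := 0)
      (fun t _ => hK.lipschitzOnWith) ⟨by linarith, by linarith⟩
      (fun t ht => ⟨h1 n t ht, trivial⟩) (fun t ht => ⟨h1 k t ⟨?_, ?_⟩, trivial⟩) ?_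
    · linarith [ht.1]
    · linarith [ht.2]
    · rw [h0, h0]
  refine ⟨fun t => γ ⌈|t|⌉₊ t, ?_, ?_⟩
  · simp only; rw [h0]
  · intro t
    set N : ℕ := ⌈|t|⌉₊ + 1 with hN
    have hval : ∀ s : ℝ, |s| < |t| + 1 → γ ⌈|s|⌉₊ s = γ N s := by
      intro s hs
      have h2 : ⌈|s|⌉₊ ≤ N := by
        have h3 : |s| ≤ ((⌈|t|⌉₊ + 1 : ℕ) : ℝ) := by
          push_cast
          linarith [Nat.le_ceil |t|]
        exact Nat.ceil_le.2 h3
      refine hun _ _ h2 ?_
      have h3 := Nat.le_ceil |s|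
      exact abs_lt.1 (by linarith : |s| < (⌈|s|⌉₊:ℝ) + 1)
    have h3 : HasDerivAt (γ N) (X (γ N t)) t := by
      apply h1
      have h4 := Nat.le_ceil |t|
      refine abs_lt.1 ?_
      rw [hN]; push_cast
      linarith
    have h4 : (fun s => γ ⌈|s|⌉₊ s) =ᶠ[𝓝 t] γ N := by
      have : ∀ᶠ s in 𝓝 t, |s| < |t| + 1 :=
        (continuous_abs.tendsto t).eventually (gt_mem_nhds (by linarith))
      exact this.mono hval
    change HasDerivAt _ (X (γ ⌈|t|⌉₊ t)) t
    rw [hval t (by linarith)]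
    exact h3.congr_of_eventuallyEq h4

/-! ### The Volterra operator -/

/-- extension of a curve on `[0,1]` to the real line -/
def ext {E : Type} [NormedAddCommGroup E] (β : C(unitInterval, E)) (r : ℝ) : E :=
  β (projIcc 0 1 zero_le_one r)

lemma continuous_ext {E : Type} [NormedAddCommGroup E] (β : C(unitInterval, E)) :
    Continuous (ext β) := β.continuous.comp continuous_projIcc

lemma ext_of_mem {E : Type} [NormedAddCommGroup E] (β : C(unitInterval, E)) {r : ℝ}
    (h : r ∈ Icc (0:ℝ) 1) : ext β r = β ⟨r, h⟩ := by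
  unfold ext; rw [projIcc_of_mem _ h]

lemma norm_ext_le {E : Type} [NormedAddCommGroup E] (β : C(unitInterval, E)) (r : ℝ) :
    ‖ext β r‖ ≤ ‖β‖ := β.norm_coe_le_norm _

def volt (E : Type) [NormedAddCommGroup E] [NormedSpace ℝ E] :
    C(unitInterval, E) →L[ℝ] C(unitInterval, E) :=
  LinearMap.mkContinuous
    { toFun := fun β => (⟨fun s => ∫ r in (0:ℝ)..s, ext β r,
        (intervalIntegral.continuous_primitive
          (fun a b => (continuous_ext β).intervalIntegrable a b) 0).comp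
            continuous_subtype_val⟩ : C(unitInterval, E))
      map_add' := fun β γ => by
        ext s
        simp only [ContinuousMap.coe_mk, ContinuousMap.add_apply]
        rw [← intervalIntegral.integral_add ((continuous_ext β).intervalIntegrable _ _)
          ((continuous_ext γ).intervalIntegrable _ _)]
        rfl
      map_smul' := fun c β => by
        ext s
        simp only [ContinuousMap.coe_mk, ContinuousMap.smul_apply, RingHom.id_apply]
        rw [← intervalIntegral.integral_smul]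
        rfl } 1 (by
    intro β
    refine (ContinuousMap.norm_le _ (by positivity)).2 fun s => ?_
    have h1 := intervalIntegral.norm_integral_le_of_norm_le_const (a := (0:ℝ)) (b := s)
      (f := ext β) (C := ‖β‖) (fun r _ => norm_ext_le β r)
    have h2 : |(s:ℝ) - 0| ≤ 1 := by
      rw [sub_zero, abs_of_nonneg s.2.1]; exact s.2.2
    calc _ ≤ ‖β‖ * |(s:ℝ) - 0| := h1
      _ ≤ ‖β‖ * 1 := by gcongr
      _ = 1 * ‖β‖ := by ring)

lemma volt_apply {E : Type} [NormedAddCommGroup E] [NormedSpace ℝ E] (β : C(unitInterval, E))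
    (s : unitInterval) : volt E β s = ∫ r in (0:ℝ)..s, ext β r := rfl

lemma volt_norm_le (E : Type) [NormedAddCommGroup E] [NormedSpace ℝ E] : ‖volt E‖ ≤ 1 :=
  LinearMap.mkContinuous_norm_le _ zero_le_one _

/-- constant curves -/
def cst (E : Type) [NormedAddCommGroup E] [NormedSpace ℝ E] : E →L[ℝ] C(unitInterval, E) :=
  LinearMap.mkContinuous
    { toFun := fun x => ContinuousMap.const _ x
      map_add' := fun x y => by ext s; simp
      map_smul' := fun c x => by ext s; simp } 1 (by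
    intro x
    refine (ContinuousMap.norm_le _ (by positivity)).2 fun s => ?_
    simp)

@[simp] lemma cst_apply {E : Type} [NormedAddCommGroup E] [NormedSpace ℝ E] (x : E)
    (s : unitInterval) : cst E x s = x := rfl

/-! ### Smooth dependence on initial conditions -/

/-- the integral equation operator: `Φ ((t,x),α) = α - x - t ∫ X(α)` -/
def Phi {E : Type} [NormedAddCommGroup E] [NormedSpace ℝ E] (X : C(E, E))
    (u : (ℝ × E) × C(unitInterval, E)) : C(unitInterval, E) :=
  u.2 - cst E u.1.2 - u.1.1 • volt E (X.comp u.2)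

lemma contDiff_Phi {E : Type} [NormedAddCommGroup E] [NormedSpace ℝ E] {m : ℕ} (X : C(E, E))
    (hX : ContDiff ℝ m X) : ContDiff ℝ m (Phi X) := by
  unfold Phi
  have h1 : ContDiff ℝ m (fun u : (ℝ × E) × C(unitInterval, E) => X.comp u.2) :=
    (contDiff_nem m X hX).comp contDiff_snd
  have h2 : ContDiff ℝ m (fun u : (ℝ × E) × C(unitInterval, E) => volt E (X.comp u.2)) :=
    ContDiff.comp (g := volt E) (ContinuousLinearMap.contDiff _) h1
  have h3 : ContDiff ℝ m (fun u : (ℝ × E) × C(unitInterval, E) => cst E u.1.2) :=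
    ContDiff.comp (g := cst E) (ContinuousLinearMap.contDiff _) (contDiff_snd.comp contDiff_fst)
  exact (contDiff_snd.sub h3).sub ((contDiff_fst.comp contDiff_fst).smul h2)

lemma hasFDerivAt_Phi_right {E : Type} [NormedAddCommGroup E] [NormedSpace ℝ E]
    (X : C(E, E)) (X' : C(E, E →L[ℝ] E)) (hX : ∀ x, HasFDerivAt X (X' x) x) (p : ℝ × E)
    (α : C(unitInterval, E)) :
    HasFDerivAt (fun β => Phi X (p, β)) (ContinuousLinearMap.id ℝ C(unitInterval, E) -
      p.1 • (volt E).comp (pApp (ContinuousLinearMap.id ℝ (E →L[ℝ] E)) (X'.comp α))) α := by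
  have h1 := hasFDerivAt_nem (G := E →L[ℝ] E) (ContinuousLinearMap.id ℝ (E →L[ℝ] E)) X X' hX α
  have h2 := ((volt E).hasFDerivAt (x := X.comp α)).comp α h1
  have h3 := ((hasFDerivAt_id (𝕜 := ℝ) α).sub_const (cst E p.2)).sub (h2.const_smul p.1)
  exact h3

lemma Phi_unique {E : Type} [NormedAddCommGroup E] [NormedSpace ℝ E] (X : C(E, E)) {K : NNReal}
    (hK : LipschitzWith K X) {p : ℝ × E} (hp : |p.1| * K < 1) {α β : C(unitInterval, E)}
    (hα : Phi X (p, α) = 0) (hβ : Phi X (p, β) = 0) : α = β := by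
  have h1 : α - β = p.1 • volt E (X.comp α - X.comp β) := by
    unfold Phi at hα hβ
    simp only at hα hβ
    rw [map_sub, smul_sub]
    have h2 : α = cst E p.2 + p.1 • volt E (X.comp α) := by
      rw [sub_sub, sub_eq_zero] at hα; exact hα
    have h3 : β = cst E p.2 + p.1 • volt E (X.comp β) := by
      rw [sub_sub, sub_eq_zero] at hβ; exact hβ
    conv_lhs => rw [h2, h3]
    abel
  have h2 : ‖X.comp α - X.comp β‖ ≤ K * ‖α - β‖ := by
    refine (ContinuousMap.norm_le _ (by positivity)).2 fun s => ?_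
    calc ‖(X.comp α - X.comp β) s‖ = ‖X (α s) - X (β s)‖ := rfl
      _ ≤ K * ‖α s - β s‖ := hK.norm_sub_le _ _
      _ ≤ K * ‖α - β‖ := by
        gcongr
        exact (α - β).norm_coe_le_norm s
  have h3 : ‖α - β‖ ≤ (|p.1| * K) * ‖α - β‖ := by
    calc ‖α - β‖ = ‖p.1 • volt E (X.comp α - X.comp β)‖ := by rw [← h1]
      _ = |p.1| * ‖volt E (X.comp α - X.comp β)‖ := by rw [norm_smul, Real.norm_eq_abs]
      _ ≤ |p.1| * (1 * (K * ‖α - β‖)) := by
        gcongr
        refine (ContinuousLinearMap.le_opNorm _ _).trans ?_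
        exact mul_le_mul (volt_norm_le E) h2 (norm_nonneg _) zero_le_one
      _ = (|p.1| * K) * ‖α - β‖ := by ring
  have h4 : ‖α - β‖ ≤ 0 := by
    by_contra h
    push Not at h
    nlinarith
  exact sub_eq_zero.1 (norm_le_zero_iff.1 h4)

lemma isInvertible_id_sub {G : Type} [NormedAddCommGroup G] [NormedSpace ℝ G] [CompleteSpace G]
    (T : G →L[ℝ] G) (hT : ‖T‖ < 1) : (ContinuousLinearMap.id ℝ G - T).IsInvertible := by
  refine ⟨ContinuousLinearEquiv.ofUnit (Units.oneSub T hT), ?_⟩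
  rfl

lemma Phi_invertible {E : Type} [NormedAddCommGroup E] [NormedSpace ℝ E] [CompleteSpace E]
    (X : C(E, E)) {m : ℕ} (hm : m ≠ 0) (hX : ContDiff ℝ m X) {K : NNReal}
    (hK : LipschitzWith K X) (p : ℝ × E) (hp : |p.1| * K < 1)
    (α : C(unitInterval, E)) :
    (fderiv ℝ (Phi X) (p, α) ∘L .inr ℝ (ℝ × E) C(unitInterval, E)).IsInvertible := by
  have hX1 : ContDiff ℝ 1 X := hX.of_le (by exact_mod_cast Nat.one_le_iff_ne_zero.2 hm)
  set X' : C(E, E →L[ℝ] E) := ⟨fderiv ℝ X, hX1.continuous_fderiv one_ne_zero⟩ with hX'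
  have hd : ∀ x, HasFDerivAt X (X' x) x := fun x =>
    (hX1.differentiable one_ne_zero x).hasFDerivAt
  have h1 := hasFDerivAt_Phi_right X X' hd p α
  have hm' : (m : WithTop ℕ∞) ≠ 0 := by exact_mod_cast hm
  have h2 : HasFDerivAt (Phi X) (fderiv ℝ (Phi X) (p, α)) (p, α) :=
    ((contDiff_Phi X hX).differentiable hm' (p, α)).hasFDerivAt
  have h3 : HasFDerivAt (fun β => Phi X (p, β))
      (fderiv ℝ (Phi X) (p, α) ∘L .inr ℝ (ℝ × E) C(unitInterval, E)) α := by
    exact HasFDerivAt.comp (g := Phi X) α h2 (hasFDerivAt_prodMk_right p α)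
  rw [h3.unique h1]
  refine isInvertible_id_sub _ ?_
  have h4 : ‖pApp (ContinuousLinearMap.id ℝ (E →L[ℝ] E)) (X'.comp α)‖ ≤ K := by
    refine pApp_norm_le _ _ K.2 fun s => ?_
    exact norm_fderiv_le_of_lipschitz ℝ hK
  have h5 : ‖p.1 • (volt E).comp (pApp (ContinuousLinearMap.id ℝ (E →L[ℝ] E)) (X'.comp α))‖
      ≤ |p.1| * K := by
    refine ContinuousLinearMap.opNorm_le_bound _ (by positivity) fun β => ?_
    have h6 : (p.1 • (volt E).comp (pApp (ContinuousLinearMap.id ℝ (E →L[ℝ] E)) (X'.comp α))) β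
        = p.1 • volt E (pApp (ContinuousLinearMap.id ℝ (E →L[ℝ] E)) (X'.comp α) β) := rfl
    rw [h6, norm_smul, Real.norm_eq_abs, mul_assoc]
    gcongr
    calc _ ≤ ‖volt E‖ * ‖pApp (ContinuousLinearMap.id ℝ (E →L[ℝ] E)) (X'.comp α) β‖ :=
          ContinuousLinearMap.le_opNorm _ _
      _ ≤ 1 * (K * ‖β‖) := by
        refine mul_le_mul (volt_norm_le E) ?_ (norm_nonneg _) zero_le_one
        exact (ContinuousLinearMap.le_opNorm _ _).trans (by gcongr)
      _ = K * ‖β‖ := one_mul _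
  exact lt_of_le_of_lt h5 hp

/-- `g` is a flow with velocity field `X` -/
structure IsFlowOf {E : Type} [NormedAddCommGroup E] [NormedSpace ℝ E] (X : E → E)
    (g : ℝ → E → E) : Prop where
  zero : ∀ x, g 0 x = x
  deriv : ∀ x t, HasDerivAt (fun t => g t x) (X (g t x)) t

lemma IsFlowOf.continuous {E : Type} [NormedAddCommGroup E] [NormedSpace ℝ E] {X : E → E}
    {g : ℝ → E → E} (hg : IsFlowOf X g) (x : E) : Continuous (fun t => g t x) :=
  continuous_iff_continuousAt.2 fun t => (hg.deriv x t).continuousAt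

lemma IsFlowOf.add {E : Type} [NormedAddCommGroup E] [NormedSpace ℝ E] {X : E → E} {K : NNReal}
    (hK : LipschitzWith K X) {g : ℝ → E → E} (hg : IsFlowOf X g) (t s : ℝ) (x : E) :
    g (t + s) x = g t (g s x) := by
  have h1 : (fun t => g (t + s) x) = fun t => g t (g s x) := by
    refine ODE_solution_unique_univ (v := fun _ => X) (s := fun _ => univ) (K := K) (t₀ := 0)
      (fun t => hK.lipschitzOnWith) (fun t => ⟨?_, trivial⟩)
      (fun t => ⟨hg.deriv _ t, trivial⟩) ?_
    · have := (hg.deriv x (t + s)).scomp t ((hasDerivAt_id t).add_const s)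
      simp only [one_smul] at this
      exact this
    · simp only [zero_add]
      rw [hg.zero]
  exact congrFun h1 t

/-- the orbit segment as a curve on `[0,1]` -/
def seg {E : Type} [NormedAddCommGroup E] [NormedSpace ℝ E] {X : E → E}
    {g : ℝ → E → E} (hg : IsFlowOf X g) (p : ℝ × E) : C(unitInterval, E) :=
  ⟨fun s => g (p.1 * s) p.2, (hg.continuous p.2).comp
    (continuous_const.mul continuous_subtype_val)⟩

lemma seg_apply {E : Type} [NormedAddCommGroup E] [NormedSpace ℝ E] {X : E → E}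
    {g : ℝ → E → E} (hg : IsFlowOf X g) (p : ℝ × E) (s : unitInterval) :
    seg hg p s = g (p.1 * s) p.2 := rfl

lemma Phi_seg {E : Type} [NormedAddCommGroup E] [NormedSpace ℝ E] [CompleteSpace E] {X : C(E, E)}
    {g : ℝ → E → E} (hg : IsFlowOf X g) (p : ℝ × E) : Phi X (p, seg hg p) = 0 := by
  unfold Phi
  simp only
  ext s
  simp only [ContinuousMap.sub_apply, ContinuousMap.smul_apply, ContinuousMap.zero_apply,
    cst_apply, volt_apply, seg_apply]
  have h1 : ∀ r ∈ uIcc (0:ℝ) s, HasDerivAt (fun r : ℝ => g (p.1 * r) p.2)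
      (p.1 • ext (X.comp (seg hg p)) r) r := by
    intro r hr
    rw [uIcc_of_le s.2.1] at hr
    have hr' : r ∈ Icc (0:ℝ) 1 := ⟨hr.1, hr.2.trans s.2.2⟩
    rw [ext_of_mem _ hr']
    have := (hg.deriv p.2 (p.1 * r)).scomp r ((hasDerivAt_id r).const_mul p.1)
    simp only [mul_one] at this
    exact this
  have h2 := intervalIntegral.integral_eq_sub_of_hasDerivAt h1
    (((continuous_ext _).const_smul p.1).intervalIntegrable _ _)
  rw [intervalIntegral.integral_smul] at h2
  rw [h2, mul_zero, hg.zero]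
  abel

theorem contDiffAt_seg {E : Type} [NormedAddCommGroup E] [NormedSpace ℝ E] [CompleteSpace E]
    {X : C(E, E)} {m : ℕ} (hm : m ≠ 0) (hX : ContDiff ℝ m X) {K : NNReal}
    (hK : LipschitzWith K X) {g : ℝ → E → E} (hg : IsFlowOf X g) (p : ℝ × E)
    (hp : |p.1| * K < 1) : ContDiffAt ℝ m (seg hg) p := by
  have hm' : (m : WithTop ℕ∞) ≠ 0 := by exact_mod_cast hm
  have cdf : ContDiffAt ℝ m (Phi X) (p, seg hg p) := (contDiff_Phi X hX).contDiffAt
  have hinv := Phi_invertible X hm hX hK p hp (seg hg p)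
  have h1 := cdf.contDiffAt_implicitFunction hm' hinv
  have h2 := cdf.eventually_apply_implicitFunction hm' hinv
  refine h1.congr_of_eventuallyEq ?_
  have h3 : ∀ᶠ q : ℝ × E in 𝓝 p, |q.1| * K < 1 :=
    ((continuous_abs.comp continuous_fst).mul continuous_const).tendsto p |>.eventually
      (gt_mem_nhds hp)
  filter_upwards [h2, h3] with q hq hq2
  rw [Phi_seg] at hq
  exact Phi_unique X hK hq2 (Phi_seg hg q) hq

lemma contDiffAt_flow_small {E : Type} [NormedAddCommGroup E] [NormedSpace ℝ E] [CompleteSpace E]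
    {X : C(E, E)} {m : ℕ} (hm : m ≠ 0) (hX : ContDiff ℝ m X) {K : NNReal}
    (hK : LipschitzWith K X) {g : ℝ → E → E} (hg : IsFlowOf X g) (p : ℝ × E)
    (hp : |p.1| * K < 1) : ContDiffAt ℝ m (fun p : ℝ × E => g p.1 p.2) p := by
  have h1 := contDiffAt_seg hm hX hK hg p hp
  have h2 : (fun p : ℝ × E => g p.1 p.2) =
      fun p => ContinuousMap.evalCLM ℝ (1 : unitInterval) (seg hg p) := by
    ext p
    rw [ContinuousMap.evalCLM_apply, seg_apply]
    simp
  rw [h2]
  exact ContDiffAt.comp p (g := ContinuousMap.evalCLM ℝ (1 : unitInterval))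
    (ContinuousLinearMap.contDiff _).contDiffAt h1

theorem contDiff_flow {E : Type} [NormedAddCommGroup E] [NormedSpace ℝ E] [CompleteSpace E]
    {X : C(E, E)} {m : ℕ} (hm : m ≠ 0) (hX : ContDiff ℝ m X) {K : NNReal}
    (hK : LipschitzWith K X) {g : ℝ → E → E} (hg : IsFlowOf X g) :
    ContDiff ℝ m (fun p : ℝ × E => g p.1 p.2) := by
  have key : ∀ n : ℕ, ∀ p : ℝ × E, |p.1| * K < n + 1 →
      ContDiffAt ℝ m (fun p : ℝ × E => g p.1 p.2) p := by
    intro n
    induction n with
    | zero =>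
      intro p hp
      exact contDiffAt_flow_small hm hX hK hg p (by simpa using hp)
    | succ n ih =>
      intro p hp
      set c : ℝ := (n + 1) / (n + 2) with hc
      set d : ℝ := 1 / (n + 2) with hd
      have hcd : c + d = 1 := by rw [hc, hd]; field_simp; ring
      have hc0 : 0 < c := by positivity
      have hd0 : 0 < d := by positivity
      push_cast at hp
      have h1 : |p.1 * c| * K < n + 1 := by
        rw [abs_mul, abs_of_pos hc0, hc]
        have : |p.1| * ((n + 1) / (n + 2)) * (K:ℝ) = (|p.1| * K) * (n + 1) / (n + 2) := by ring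
        rw [this, div_lt_iff₀ (by positivity)]
        nlinarith [n.cast_nonneg (α := ℝ)]
      have h2 : |p.1 * d| * K < 1 := by
        rw [abs_mul, abs_of_pos hd0, hd]
        have : |p.1| * (1 / (n + 2)) * (K:ℝ) = (|p.1| * K) / (n + 2) := by ring
        rw [this, div_lt_iff₀ (by positivity)]
        linarith
      have h3 : (fun p : ℝ × E => g p.1 p.2) = fun p : ℝ × E => g (p.1 * c) (g (p.1 * d) p.2) := by
        ext p
        rw [← hg.add hK, ← mul_add, hcd, mul_one]
      have h4 : ContDiffAt ℝ m (fun p : ℝ × E => g (p.1 * d) p.2) p :=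
        ContDiffAt.comp p (g := fun q : ℝ × E => g q.1 q.2) (f := fun p : ℝ × E => (p.1 * d, p.2))
          (contDiffAt_flow_small hm hX hK hg _ h2)
          ((contDiff_fst.mul contDiff_const).prodMk contDiff_snd).contDiffAt
      rw [h3]
      exact ContDiffAt.comp p (g := fun q : ℝ × E => g q.1 q.2)
        (f := fun p : ℝ × E => (p.1 * c, g (p.1 * d) p.2)) (ih (p.1 * c, g (p.1 * d) p.2) h1)
        ((contDiff_fst.mul contDiff_const).contDiffAt.prodMk h4)
  rw [contDiff_iff_contDiffAt]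
  intro p
  obtain ⟨n, hn⟩ := exists_nat_gt (|p.1| * K)
  exact key n p (by linarith)

/-- the variational equation at time zero -/
theorem hasDerivAt_fderiv_flow {E : Type} [NormedAddCommGroup E] [NormedSpace ℝ E]
    [CompleteSpace E] {X : C(E, E)} (hX : ContDiff ℝ 1 X) {K : NNReal}
    (hK : LipschitzWith K X) {g : ℝ → E → E} (hg : IsFlowOf X g) (x : E) (v : E) :
    HasDerivAt (fun t => fderiv ℝ (g t) x v) (fderiv ℝ X x v) 0 := by
  have hX' : ContDiff ℝ ((1:ℕ):WithTop ℕ∞) X := by simpa using hX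
  have hseg : ∀ p : ℝ × E, |p.1| * K < 1 → ContDiffAt ℝ 1 (seg hg) p := fun p hp => by
    simpa using contDiffAt_seg one_ne_zero hX' hK hg p hp
  set XD : C(E, E →L[ℝ] E) := ⟨fderiv ℝ X, hX.continuous_fderiv one_ne_zero⟩ with hXD
  have hd : ∀ x, HasFDerivAt X (XD x) x := fun x =>
    (hX.differentiable one_ne_zero x).hasFDerivAt
  -- neighbourhood
  have hev : ∀ᶠ t : ℝ in 𝓝 0, |t| * K < 1 := by
    have : Tendsto (fun t : ℝ => |t| * (K:ℝ)) (𝓝 0) (𝓝 (|(0:ℝ)| * K)) :=
      (continuous_abs.mul continuous_const).tendsto 0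
    rw [abs_zero, zero_mul] at this
    exact this.eventually (gt_mem_nhds one_pos)
  -- partial derivative of seg in x in direction v
  set w : ℝ → C(unitInterval, E) := fun t => fderiv ℝ (seg hg) (t, x) (0, v) with hw
  have hwc : ContinuousAt w 0 := by
    have h1 : ContinuousAt (fderiv ℝ (seg hg)) ((0:ℝ), x) := by
      have := (hseg (0, x) (by simp)).continuousAt_fderiv one_ne_zero
      exact this
    have h2 : ContinuousAt (fun t : ℝ => fderiv ℝ (seg hg) (t, x)) 0 :=
      ContinuousAt.comp (f := fun t : ℝ => (t, x)) h1 (by fun_prop)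
    exact h2.clm_apply continuousAt_const
  have hsc : ContinuousAt (fun t : ℝ => seg hg (t, x)) 0 :=
    ContinuousAt.comp (f := fun t : ℝ => (t, x)) (hseg (0, x) (by simp)).continuousAt (by fun_prop)
  have hseg' : ∀ t : ℝ, |t| * K < 1 → HasFDerivAt (fun y => seg hg (t, y))
      ((fderiv ℝ (seg hg) (t, x)).comp (ContinuousLinearMap.inr ℝ ℝ E)) x := by
    intro t ht
    have h1 : HasFDerivAt (seg hg) (fderiv ℝ (seg hg) (t, x)) (t, x) :=
      ((hseg (t, x) ht).differentiableAt one_ne_zero).hasFDerivAt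
    exact HasFDerivAt.comp (g := seg hg) x h1 (hasFDerivAt_prodMk_right t x)
  -- the linearised integral equation
  have hlin : ∀ t : ℝ, |t| * K < 1 → w t = cst E v + t • volt E
      (pApp (ContinuousLinearMap.id ℝ (E →L[ℝ] E)) (XD.comp (seg hg (t, x))) (w t)) := by
    intro t ht
    have h1 := hseg' t ht
    have h2 : (fun y => seg hg (t, y)) =
        fun y => cst E y + t • volt E (X.comp (seg hg (t, y))) := by
      ext1 y
      have := Phi_seg hg (t, y)
      unfold Phi at this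
      simp only at this
      rw [sub_sub, sub_eq_zero] at this
      exact this
    have h3 : HasFDerivAt (fun y => cst E y + t • volt E (X.comp (seg hg (t, y))))
        (cst E + t • (volt E).comp ((pApp (ContinuousLinearMap.id ℝ (E →L[ℝ] E))
          (XD.comp (seg hg (t, x)))).comp
          ((fderiv ℝ (seg hg) (t, x)).comp (ContinuousLinearMap.inr ℝ ℝ E)))) x := by
      have h4 := hasFDerivAt_nem (G := E →L[ℝ] E) (ContinuousLinearMap.id ℝ (E →L[ℝ] E)) X XD hd
        (seg hg (t, x))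
      have h5 := HasFDerivAt.comp (g := fun α : C(unitInterval, E) => X.comp α) x h4 h1
      have h6 := HasFDerivAt.comp (g := volt E) x ((volt E).hasFDerivAt) h5
      exact (cst E).hasFDerivAt.add (h6.const_smul t)
    rw [← h2] at h3
    have h4 := congrArg (fun T => T v) (h1.unique h3)
    simpa [hw] using h4
  -- evaluate at 1
  have hfd : ∀ t : ℝ, |t| * K < 1 → fderiv ℝ (g t) x v = v + t • (volt E
      (pApp (ContinuousLinearMap.id ℝ (E →L[ℝ] E)) (XD.comp (seg hg (t, x))) (w t)) 1) := by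
    intro t ht
    have h1 := HasFDerivAt.comp (g := ContinuousMap.evalCLM ℝ (1 : unitInterval)) x
      (ContinuousLinearMap.hasFDerivAt _) (hseg' t ht)
    have h2 : (ContinuousMap.evalCLM ℝ (1 : unitInterval)) ∘ (fun y => seg hg (t, y)) = g t := by
      ext y
      simp [seg_apply]
    rw [h2] at h1
    rw [h1.fderiv]
    have h3 := congrArg (fun α : C(unitInterval, E) => α 1) (hlin t ht)
    simpa [hw] using h3
  -- continuity of the difference quotient
  set Q : ℝ → E := fun t => volt E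
      (pApp (ContinuousLinearMap.id ℝ (E →L[ℝ] E)) (XD.comp (seg hg (t, x))) (w t)) 1 with hQ
  have hQc : ContinuousAt Q 0 := by
    have h1 : ContinuousAt (fun t : ℝ => XD.comp (seg hg (t, x))) 0 :=
      ContinuousAt.comp (f := fun t : ℝ => seg hg (t, x)) (continuous_nem XD).continuousAt hsc
    have h2 : ContinuousAt (fun t : ℝ => pApp (ContinuousLinearMap.id ℝ (E →L[ℝ] E))
        (XD.comp (seg hg (t, x)))) 0 :=
      ContinuousAt.comp (f := fun t : ℝ => XD.comp (seg hg (t, x)))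
        (pApp (ContinuousLinearMap.id ℝ (E →L[ℝ] E))).continuous.continuousAt h1
    have h3 := h2.clm_apply hwc
    have h4 : ContinuousAt (fun t : ℝ => volt E
      (pApp (ContinuousLinearMap.id ℝ (E →L[ℝ] E)) (XD.comp (seg hg (t, x))) (w t))) 0 :=
      (volt E).continuous.continuousAt.comp h3
    exact (ContinuousMap.evalCLM ℝ (1 : unitInterval)).continuous.continuousAt.comp h4
  have hQ0 : Q 0 = fderiv ℝ X x v := by
    have h1 : seg hg (0, x) = cst E x := by
      ext s
      rw [seg_apply]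
      simp [hg.zero]
    have h2 : w 0 = cst E v := by
      rw [hlin 0 (by simp), zero_smul, add_zero]
    rw [hQ]
    simp only
    rw [h1, h2, volt_apply]
    have h3 : ∀ r : ℝ, ext (pApp (ContinuousLinearMap.id ℝ (E →L[ℝ] E)) (XD.comp (cst E x))
        (cst E v)) r = fderiv ℝ X x v := fun r => rfl
    simp_rw [h3]
    simp
  have hmain : (fun t => fderiv ℝ (g t) x v) =ᶠ[𝓝 0] fun t => v + t • Q t := by
    filter_upwards [hev] with t ht
    exact hfd t ht
  refine HasDerivAt.congr_of_eventuallyEq ?_ hmain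
  rw [← hQ0]
  rw [hasDerivAt_iff_tendsto_slope]
  have h5 : ∀ t : ℝ, t ≠ 0 → slope (fun t => v + t • Q t) 0 t = Q t := by
    intro t ht
    rw [slope_def_module]
    simp [smul_smul, ht]
  have h6 : Tendsto Q (𝓝[≠] 0) (𝓝 (Q 0)) := hQc.tendsto.mono_left nhdsWithin_le_nhds
  refine h6.congr' ?_
  filter_upwards [self_mem_nhdsWithin] with t ht
  exact (h5 t ht).symm

/-! ### Area preservation -/

/-- determinant of an endomorphism of the plane -/
lemma det_plane (L : (ℝ × ℝ) →L[ℝ] (ℝ × ℝ)) :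
    L.det = (L (1, 0)).1 * (L (0, 1)).2 - (L (0, 1)).1 * (L (1, 0)).2 := by
  rw [ContinuousLinearMap.det, ← LinearMap.det_toMatrix (Module.Basis.finTwoProd ℝ),
    Matrix.det_fin_two]
  simp [LinearMap.toMatrix_apply]

theorem det_flow_eq_one {X : C(ℝ × ℝ, ℝ × ℝ)} (hX : ContDiff ℝ 1 X) {K : NNReal}
    (hK : LipschitzWith K X) {g : ℝ → ℝ × ℝ → ℝ × ℝ} (hg : IsFlowOf X g)
    (htr : ∀ p, (fderiv ℝ X p (1, 0)).1 + (fderiv ℝ X p (0, 1)).2 = 0) (t : ℝ) (p : ℝ × ℝ) :
    (fderiv ℝ (g t) p).det = 1 := by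
  have hX' : ContDiff ℝ ((1:ℕ):WithTop ℕ∞) X := by simpa using hX
  have hC := contDiff_flow one_ne_zero hX' hK hg
  have hCt : ∀ t, Differentiable ℝ (g t) := by
    intro t
    have : ContDiff ℝ ((1:ℕ):WithTop ℕ∞) (g t) :=
      hC.comp (contDiff_const.prodMk contDiff_id)
    exact this.differentiable (by simp)
  -- derivative at zero
  have hder0 : ∀ q : ℝ × ℝ, HasDerivAt (fun s => (fderiv ℝ (g s) q).det) 0 0 := by
    intro q
    have h1 := hasDerivAt_fderiv_flow hX hK hg q (1, 0)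
    have h2 := hasDerivAt_fderiv_flow hX hK hg q (0, 1)
    have e0 : g 0 = id := by ext1 y; exact hg.zero y
    have h11 : HasDerivAt (fun s => (fderiv ℝ (g s) q (1, 0)).1) (fderiv ℝ X q (1, 0)).1 0 :=
      (ContinuousLinearMap.fst ℝ ℝ ℝ).hasFDerivAt.comp_hasDerivAt 0 h1
    have h12 : HasDerivAt (fun s => (fderiv ℝ (g s) q (1, 0)).2) (fderiv ℝ X q (1, 0)).2 0 :=
      (ContinuousLinearMap.snd ℝ ℝ ℝ).hasFDerivAt.comp_hasDerivAt 0 h1
    have h21 : HasDerivAt (fun s => (fderiv ℝ (g s) q (0, 1)).1) (fderiv ℝ X q (0, 1)).1 0 :=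
      (ContinuousLinearMap.fst ℝ ℝ ℝ).hasFDerivAt.comp_hasDerivAt 0 h2
    have h22 : HasDerivAt (fun s => (fderiv ℝ (g s) q (0, 1)).2) (fderiv ℝ X q (0, 1)).2 0 :=
      (ContinuousLinearMap.snd ℝ ℝ ℝ).hasFDerivAt.comp_hasDerivAt 0 h2
    have h3 := (h11.mul h22).sub (h21.mul h12)
    have h4 : (fun s => (fderiv ℝ (g s) q).det) = fun s =>
        (fderiv ℝ (g s) q (1, 0)).1 * (fderiv ℝ (g s) q (0, 1)).2 -
        (fderiv ℝ (g s) q (0, 1)).1 * (fderiv ℝ (g s) q (1, 0)).2 := by
      ext s; exact det_plane _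
    rw [h4]
    convert! h3 using 1
    rw [e0, fderiv_id]
    simp [htr q]
  have hder : ∀ s, HasDerivAt (fun s => (fderiv ℝ (g s) p).det) 0 s := by
    intro s
    have h1 : (fun r => (fderiv ℝ (g r) p).det) =
        fun r => (fderiv ℝ (g (r - s)) (g s p)).det * (fderiv ℝ (g s) p).det := by
      ext r
      have h2 : g r = g (r - s) ∘ g s := by
        ext1 y
        rw [Function.comp_apply, ← hg.add hK, sub_add_cancel]
      conv_lhs => rw [h2]
      rw [fderiv_comp p (hCt _ _) (hCt _ _)]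
      simp only [ContinuousLinearMap.det, ContinuousLinearMap.toLinearMap_comp]
      rw [LinearMap.det_comp]
    rw [h1]
    have h3 : HasDerivAt (fun r => (fderiv ℝ (g (r - s)) (g s p)).det) 0 s := by
      have h4 := hder0 (g s p)
      rw [← sub_self s] at h4
      have h5 := HasDerivAt.comp s (h₂ := fun r => (fderiv ℝ (g r) (g s p)).det)
        (h := fun r => r - s) h4 ((hasDerivAt_id s).sub_const s)
      rw [sub_self, zero_mul] at h5
      exact h5
    have h6 := h3.mul_const ((fderiv ℝ (g s) p).det)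
    rwa [zero_mul] at h6
  have h7 : (fderiv ℝ (g t) p).det = (fderiv ℝ (g 0) p).det :=
    is_const_of_deriv_eq_zero (fun s => (hder s).differentiableAt) (fun s => (hder s).deriv) t 0
  have e0 : g 0 = id := by ext1 y; exact hg.zero y
  rw [h7, e0, fderiv_id]
  rw [det_plane]
  simp

/-- a `C¹` bijection of the plane with unit Jacobian preserves the Lebesgue measure -/
lemma measurePreserving_of_det (g : ℝ × ℝ → ℝ × ℝ) (hb : Function.Bijective g)
    (g' : ℝ × ℝ → (ℝ × ℝ) →L[ℝ] (ℝ × ℝ))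
    (hd : ∀ p, HasFDerivAt g (g' p) p) (hdet : ∀ p, (g' p).det = 1) :
    MeasurePreserving g volume volume := by
  have hc : Continuous g := continuous_iff_continuousAt.2 fun p => (hd p).continuousAt
  refine ⟨hc.measurable, ?_⟩
  ext s hs
  rw [Measure.map_apply hc.measurable hs]
  have h1 := lintegral_abs_det_fderiv_eq_addHaar_image volume (hc.measurable hs)
    (fun p _ => (hd p).hasFDerivWithinAt) (hb.injective.injOn (s := g ⁻¹' s))
  rw [image_preimage_eq _ hb.surjective] at h1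
  rw [← h1]
  simp [hdet]

end

end Pool.Agent.H664.Flow
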