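import Pool.Agent.H664.OvalJets

open Topology Filter Set Asymptotics

namespace Pool.Agent.H664.OvalJets

/-- coordinate factor -/
noncomputable def ee (s u : ℝ) : ℝ := Real.cos u + s * Real.sin u
/-- its derivative -/
noncomputable def ed (s u : ℝ) : ℝ := -Real.sin u + s * Real.cos u

lemma hasDerivAt_ee (s u : ℝ) : HasDerivAt (ee s) (ed s u) u :=
  (Real.hasDerivAt_cos u).add ((Real.hasDerivAt_sin u).const_mul s)

lemma hasDerivAt_ed (s u : ℝ) : HasDerivAt (ed s) (-ee s u) u :=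
  ((Real.hasDerivAt_sin u).neg.add ((Real.hasDerivAt_cos u).const_mul s)).congr_deriv (by
    unfold ee; ring)

lemma ee_zero (s : ℝ) : ee s 0 = 1 := by simp [ee]
lemma ed_zero (s : ℝ) : ed s 0 = s := by simp [ed]

lemma ee_pos_near (s : ℝ) : ∀ᶠ u in 𝓝 (0:ℝ), 0 < ee s u := by
  have h : ContinuousAt (ee s) 0 := (hasDerivAt_ee s 0).continuousAt
  have : (0:ℝ) < ee s 0 := by rw [ee_zero]; exact one_pos
  exact h.eventually_const_lt this

def RR (s a a1 a2 : ℝ) : ℝ := a * a2 + a1 ^ 2 + 3 * a ^ 2 - 10 * a * a1 * s + 15 * a ^ 2 * s ^ 2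

def QQ (s a a1 a2 a3 : ℝ) : ℝ := a ^ 2 * a3 + 4 * a * a1 * a2 + a1 ^ 3 + 19 * a ^ 2 * a1 -
  15 * s * a ^ 2 * a2 - 25 * s * a * a1 ^ 2 + 105 * a ^ 2 * a1 * s ^ 2 - 45 * a ^ 3 * s -
  105 * a ^ 3 * s ^ 3

theorem branch_u {ε s : ℝ} (hε : ε * ε = 1) {a a1 a2 a3 x f : ℝ → ℝ} (ha0 : ∀ u, 0 < a u)
    (ha : ∀ u, HasDerivAt a (a1 u) u) (ha1 : ∀ u, HasDerivAt a1 (a2 u) u)
    (ha2 : ∀ u, HasDerivAt a2 (a3 u) u) (ha3 : Continuous a3)
    (hx : ∀ u, HasDerivAt x (ε * ee s u / a u) u) (hx0 : x 0 = 0)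
    (hf : ∀ u, HasDerivAt f (Real.sin u / a u) u) (hf0 : f 0 = 0) :
    (fun u => f u - (a 0 * x u ^ 2 / 2 + ε * (a 0 * (a1 0 - 3 * a 0 * s)) * x u ^ 3 / 6 +
      a 0 * RR s (a 0) (a1 0) (a2 0) * x u ^ 4 / 24 +
      ε * (a 0 * QQ s (a 0) (a1 0) (a2 0) (a3 0)) * x u ^ 5 / 120)) =o[𝓝 0] fun u => u ^ 5 := by
  have hac : Continuous a := continuous_iff_continuousAt.2 fun u => (ha u).continuousAt
  have ha1c : Continuous a1 := continuous_iff_continuousAt.2 fun u => (ha1 u).continuousAt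
  have ha2c : Continuous a2 := continuous_iff_continuousAt.2 fun u => (ha2 u).continuousAt
  have hec : Continuous (ee s) := continuous_iff_continuousAt.2 fun u =>
    (hasDerivAt_ee s u).continuousAt
  have hdc : Continuous (ed s) := continuous_iff_continuousAt.2 fun u =>
    (hasDerivAt_ed s u).continuousAt
  set x' : ℝ → ℝ := fun u => ε * ee s u / a u with hx'
  set G1 : ℝ → ℝ := fun u => ε * (Real.sin u / ee s u) with hG1
  set G2 : ℝ → ℝ := fun u => a u / ee s u ^ 3 with hG2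
  set G3 : ℝ → ℝ := fun u => ε * (a u * a1 u / ee s u ^ 4 - 3 * a u ^ 2 * ed s u / ee s u ^ 5)
    with hG3
  set G4 : ℝ → ℝ := fun u => a u * (a u * a2 u + a1 u ^ 2 + 3 * a u ^ 2) / ee s u ^ 5 -
    10 * a u ^ 2 * a1 u * ed s u / ee s u ^ 6 + 15 * a u ^ 3 * ed s u ^ 2 / ee s u ^ 7 with hG4
  set N4 : ℝ → ℝ := fun u =>
    (4 * a u * a1 u * a2 u + a1 u ^ 3 + 9 * a u ^ 2 * a1 u + a u ^ 2 * a3 u) / ee s u ^ 5 -
    5 * (a u * (a u * a2 u + a1 u ^ 2 + 3 * a u ^ 2)) * ed s u / ee s u ^ 6 -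
    10 * ((2 * a u * a1 u ^ 2 + a u ^ 2 * a2 u) * ed s u / ee s u ^ 6 -
      a u ^ 2 * a1 u / ee s u ^ 5 - 6 * (a u ^ 2 * a1 u) * ed s u ^ 2 / ee s u ^ 7) +
    15 * (3 * a u ^ 2 * a1 u * ed s u ^ 2 / ee s u ^ 7 - 2 * a u ^ 3 * ed s u / ee s u ^ 6 -
      7 * a u ^ 3 * ed s u ^ 3 / ee s u ^ 8) with hN4
  set G5 : ℝ → ℝ := fun u => ε * (a u / ee s u) * N4 u with hG5
  have hε' : ε ^ 2 = 1 := by rw [sq]; exact hε
  have h0 : ∀ᶠ u in 𝓝 (0:ℝ), HasDerivAt f (x' u * G1 u) u := by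
    filter_upwards [ee_pos_near s] with u hu
    refine (hf u).congr_deriv ?_
    have := ha0 u
    rw [hx', hG1]; simp only
    field_simp
    rw [hε']; ring
  have h1 : ∀ᶠ u in 𝓝 (0:ℝ), HasDerivAt G1 (x' u * G2 u) u := by
    filter_upwards [ee_pos_near s] with u hu
    refine (((Real.hasDerivAt_sin u).div (hasDerivAt_ee s u) hu.ne').const_mul ε).congr_deriv ?_
    have := ha0 u
    rw [hx', hG2]; simp only
    have e1 : Real.cos u * ee s u - Real.sin u * ed s u = 1 := by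
      unfold ee ed; nlinarith [Real.sin_sq_add_cos_sq u]
    rw [e1]
    field_simp
  have h2 : ∀ᶠ u in 𝓝 (0:ℝ), HasDerivAt G2 (x' u * G3 u) u := by
    filter_upwards [ee_pos_near s] with u hu
    refine ((ha u).div ((hasDerivAt_ee s u).pow 3) (pow_ne_zero 3 hu.ne')).congr_deriv ?_
    have := ha0 u
    rw [hx', hG3]; simp only [Pi.pow_apply]
    push_cast
    field_simp
    rw [hε']; ring
  have h3 : ∀ᶠ u in 𝓝 (0:ℝ), HasDerivAt G3 (x' u * G4 u) u := by
    filter_upwards [ee_pos_near s] with u hu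
    refine ((((ha u).mul (ha1 u)).div ((hasDerivAt_ee s u).pow 4) (pow_ne_zero 4 hu.ne')).sub
      (((((ha u).pow 2).const_mul 3).mul (hasDerivAt_ed s u)).div ((hasDerivAt_ee s u).pow 5)
      (pow_ne_zero 5 hu.ne'))).const_mul ε |>.congr_deriv ?_
    have := ha0 u
    rw [hx', hG4]; simp only [Pi.pow_apply, Pi.mul_apply]
    push_cast
    field_simp
    ring
  have h4 : ∀ᶠ u in 𝓝 (0:ℝ), HasDerivAt G4 (x' u * G5 u) u := by
    filter_upwards [ee_pos_near s] with u hu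
    have d1 := ((ha u).mul ((((ha u).mul (ha2 u)).add ((ha1 u).pow 2)).add
      (((ha u).pow 2).const_mul 3))).div ((hasDerivAt_ee s u).pow 5) (pow_ne_zero 5 hu.ne')
    have d2 := ((((((ha u).pow 2).const_mul 10).mul (ha1 u))).mul (hasDerivAt_ed s u)).div
      ((hasDerivAt_ee s u).pow 6) (pow_ne_zero 6 hu.ne')
    have d3 := ((((ha u).pow 3).const_mul 15).mul ((hasDerivAt_ed s u).pow 2)).div
      ((hasDerivAt_ee s u).pow 7) (pow_ne_zero 7 hu.ne')
    refine ((d1.sub d2).add d3).congr_deriv ?_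
    have := ha0 u
    rw [hx', hG5, hN4]; simp only [Pi.pow_apply, Pi.mul_apply, Pi.add_apply]
    push_cast
    field_simp
    rw [hε']; ring
  have hG5c : ContinuousAt G5 0 := by
    have he : ee s 0 ≠ 0 := by rw [ee_zero]; exact one_ne_zero
    have hcn : ContinuousAt N4 0 := by
      rw [hN4]
      have c1 := hac.continuousAt (x := 0)
      have c2 := ha1c.continuousAt (x := 0)
      have c3 := ha2c.continuousAt (x := 0)
      have c4 := ha3.continuousAt (x := 0)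
      have c5 := hec.continuousAt (x := 0)
      have c6 := hdc.continuousAt (x := 0)
      fun_prop (disch := simp [ee_zero])
    exact (continuousAt_const.mul (hac.continuousAt.div hec.continuousAt he)).mul hcn
  have hxb : ∀ᶠ u in 𝓝 (0:ℝ), |x' u| ≤ |x' 0| + 1 := by
    have hc : ContinuousAt x' 0 := by
      rw [hx']
      exact (continuousAt_const.mul hec.continuousAt).div hac.continuousAt (ha0 0).ne'
    have := hc.abs.eventually_lt_const (lt_add_one |x' 0|)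
    exact this.mono fun u hu => hu.le
  have key := taylor_x hx0 (Eventually.of_forall hx) hxb h0 h1 h2 h3 h4 hG5c
  refine key.congr_left fun u => ?_
  rw [hG1, hG2, hG3, hG4, hG5, hN4]
  simp only [ee_zero, ed_zero, Real.sin_zero, hf0]
  unfold RR QQ
  ring


/-- the branch as a graph over the coordinate `x` -/
theorem branch_graph {ε s : ℝ} (hε : ε * ε = 1) {a a1 a2 a3 x f : ℝ → ℝ} (ha0 : ∀ u, 0 < a u)
    (ha : ∀ u, HasDerivAt a (a1 u) u) (ha1 : ∀ u, HasDerivAt a1 (a2 u) u)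
    (ha2 : ∀ u, HasDerivAt a2 (a3 u) u) (ha3 : Continuous a3)
    (hx : ∀ u, HasDerivAt x (ε * ee s u / a u) u) (hx0 : x 0 = 0)
    (hf : ∀ u, HasDerivAt f (Real.sin u / a u) u) (hf0 : f 0 = 0) :
    ∃ g : ℝ → ℝ, g 0 = 0 ∧ (∀ᶠ y in 𝓝 (0:ℝ), x (g y) = y) ∧
      (∀ᶠ y in 𝓝 (0:ℝ), ContinuousAt g y) ∧
      (fun y => f (g y) - (a 0 * y ^ 2 / 2 + ε * (a 0 * (a1 0 - 3 * a 0 * s)) * y ^ 3 / 6 +
      a 0 * RR s (a 0) (a1 0) (a2 0) * y ^ 4 / 24 +
      ε * (a 0 * QQ s (a 0) (a1 0) (a2 0) (a3 0)) * y ^ 5 / 120)) =o[𝓝 0] fun y => y ^ 5 := by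
  have hu := branch_u hε ha0 ha ha1 ha2 ha3 hx hx0 hf hf0
  have hac : Continuous a := continuous_iff_continuousAt.2 fun u => (ha u).continuousAt
  have hec : Continuous (ee s) := continuous_iff_continuousAt.2 fun u =>
    (hasDerivAt_ee s u).continuousAt
  have hεn : ε ≠ 0 := fun h => by rw [h] at hε; simp at hε
  have hne : ε * ee s 0 / a 0 ≠ 0 := by
    rw [ee_zero, mul_one]; exact div_ne_zero hεn (ha0 0).ne'
  have hs : HasStrictDerivAt x (ε * ee s 0 / a 0) 0 := by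
    refine hasStrictDerivAt_of_hasDerivAt_of_continuousAt (Eventually.of_forall hx) ?_
    exact (continuousAt_const.mul hec.continuousAt).div hac.continuousAt (ha0 0).ne'
  set e := (hs.hasStrictFDerivAt_equiv hne).toOpenPartialHomeomorph x with he
  have hmem : (0:ℝ) ∈ e.target := by
    have := (hs.hasStrictFDerivAt_equiv hne).image_mem_toOpenPartialHomeomorph_target
    rwa [hx0] at this
  have hsrc : (0:ℝ) ∈ e.source := (hs.hasStrictFDerivAt_equiv hne).mem_toOpenPartialHomeomorph_source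
  have hinv0 : e.symm 0 = 0 := by
    have := e.left_inv hsrc
    have h2 : e 0 = 0 := hx0
    rwa [h2] at this
  have hd : HasDerivAt e.symm (ε * ee s 0 / a 0)⁻¹ 0 := by
    have h1 : HasStrictDerivAt (hs.localInverse x _ 0 hne) (ε * ee s 0 / a 0)⁻¹ (x 0) :=
      hs.to_localInverse hne
    rw [hx0] at h1
    exact h1.hasDerivAt
  refine ⟨e.symm, hinv0, ?_, ?_, ?_⟩
  · filter_upwards [e.open_target.mem_nhds hmem] with y hy
    exact e.right_inv hy
  · filter_upwards [e.open_target.mem_nhds hmem] with y hy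
    exact e.symm.continuousAt hy
  · have ht : Tendsto e.symm (𝓝 0) (𝓝 0) := by
      have := hd.continuousAt.tendsto
      rwa [hinv0] at this
    have h1 := hu.comp_tendsto ht
    have h2 : (fun y => (e.symm y) ^ 5) =O[𝓝 0] fun y : ℝ => y ^ 5 := by
      have h3 : (fun y => e.symm y) =O[𝓝 0] fun y : ℝ => y := by
        have := hd.isBigO_sub
        simpa [hinv0] using this
      exact h3.pow 5
    refine (h1.trans_isBigO h2).congr' ?_ (EventuallyEq.refl _ _)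
    filter_upwards [e.open_target.mem_nhds hmem] with y hy
    have : x (e.symm y) = y := e.right_inv hy
    simp only [Function.comp]
    rw [this]

/-- the two relations between the curvatures at two opposite points that follow from the fact that
the two branches have the same level involution -/
theorem two_relations {s : ℝ} {a a1 a2 a3 b b1 b2 b3 xT fT xB fB : ℝ → ℝ}
    (ha0 : ∀ u, 0 < a u) (ha : ∀ u, HasDerivAt a (a1 u) u) (ha1 : ∀ u, HasDerivAt a1 (a2 u) u)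
    (ha2 : ∀ u, HasDerivAt a2 (a3 u) u) (ha3 : Continuous a3)
    (hb0 : ∀ u, 0 < b u) (hb : ∀ u, HasDerivAt b (b1 u) u) (hb1 : ∀ u, HasDerivAt b1 (b2 u) u)
    (hb2 : ∀ u, HasDerivAt b2 (b3 u) u) (hb3 : Continuous b3)
    (hxT : ∀ u, HasDerivAt xT (ee s u / a u) u) (hxT0 : xT 0 = 0)
    (hfT : ∀ u, HasDerivAt fT (Real.sin u / a u) u) (hfT0 : fT 0 = 0)
    (hxB : ∀ u, HasDerivAt xB (-(ee s u / b u)) u) (hxB0 : xB 0 = 0)
    (hfB : ∀ u, HasDerivAt fB (Real.sin u / b u) u) (hfB0 : fB 0 = 0)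
    (hC : ∃ ε > 0, ∀ u1 u2 u3 u4 : ℝ, |u1| < ε → |u2| < ε → |u3| < ε → |u4| < ε →
      fT u1 = fT u2 → xB u3 = xT u1 → xB u4 = xT u2 → fB u3 = fB u4) :
    a1 0 + b1 0 = 3 * s * (a 0 + b 0) ∧
    3 * (QQ s (a 0) (a1 0) (a2 0) (a3 0) + QQ s (b 0) (b1 0) (b2 0) (b3 0)) =
      10 * (a1 0 - 3 * a 0 * s) *
        (RR s (a 0) (a1 0) (a2 0) - RR s (b 0) (b1 0) (b2 0)) := by
  obtain ⟨gT, gT0, gTi, gTc, gTe⟩ := branch_graph (ε := 1) (s := s) (by norm_num) ha0 ha ha1 ha2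
    ha3 (x := xT) (fun u => (hxT u).congr_deriv (by ring)) hxT0 hfT hfT0
  obtain ⟨gB, gB0, gBi, gBc, gBe⟩ := branch_graph (ε := -1) (s := s) (by norm_num) hb0 hb hb1 hb2
    hb3 (x := xB) (fun u => (hxB u).congr_deriv (by ring)) hxB0 hfB hfB0
  have hTc : ∀ᶠ y in 𝓝 (0:ℝ), ContinuousAt (fun y => fT (gT y)) y := by
    filter_upwards [gTc] with y hy
    exact ContinuousAt.comp (f := gT) (g := fT) (hfT (gT y)).continuousAt hy
  have hCC : ∃ ε > 0, ∀ x y : ℝ, |x| < ε → |y| < ε → fT (gT x) = fT (gT y) →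
      fB (gB x) = fB (gB y) := by
    obtain ⟨ε, hε, h⟩ := hC
    have t1 : Tendsto gT (𝓝 0) (𝓝 0) := by
      have := gTc.self_of_nhds.tendsto
      rwa [gT0] at this
    have t2 : Tendsto gB (𝓝 0) (𝓝 0) := by
      have := gBc.self_of_nhds.tendsto
      rwa [gB0] at this
    have hball : ∀ᶠ z in 𝓝 (0:ℝ), |z| < ε := by
      have := Metric.ball_mem_nhds (0:ℝ) hε
      filter_upwards [this] with z hz
      rwa [Metric.mem_ball, dist_zero_right, Real.norm_eq_abs] at hz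
    have e1 := t1.eventually hball
    have e2 := t2.eventually hball
    obtain ⟨δ, hδ, hb⟩ := Metric.eventually_nhds_iff_ball.1 ((e1.and e2).and (gTi.and gBi))
    have hb' : ∀ y : ℝ, |y| < δ → (|gT y| < ε ∧ |gB y| < ε) ∧ xT (gT y) = y ∧ xB (gB y) = y := by
      intro y hy
      exact hb y (by rwa [Metric.mem_ball, dist_zero_right, Real.norm_eq_abs])
    refine ⟨δ, hδ, fun x y hx hy hxy => ?_⟩
    obtain ⟨⟨p1, p2⟩, p3, p4⟩ := hb' x hx
    obtain ⟨⟨q1, q2⟩, q3, q4⟩ := hb' y hy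
    exact h (gT x) (gT y) (gB x) (gB y) p1 q1 p2 q2 hxy (p4.trans p3.symm) (q4.trans q3.symm)
  obtain ⟨r3, r5⟩ := jets (ha0 0) gTe gBe hTc hCC
  have pa := ha0 0
  have pb := hb0 0
  have h3 : a1 0 + b1 0 = 3 * s * (a 0 + b 0) := by
    have : (a 0 * b 0) * (a1 0 + b1 0) = (a 0 * b 0) * (3 * s * (a 0 + b 0)) := by linarith
    exact mul_left_cancel₀ (by positivity) this
  refine ⟨h3, ?_⟩
  have : (a 0 ^ 2 * b 0) * (3 * (QQ s (a 0) (a1 0) (a2 0) (a3 0) + QQ s (b 0) (b1 0) (b2 0) (b3 0))) =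
      (a 0 ^ 2 * b 0) * (10 * (a1 0 - 3 * a 0 * s) *
        (RR s (a 0) (a1 0) (a2 0) - RR s (b 0) (b1 0) (b2 0))) := by linarith
  exact mul_left_cancel₀ (by positivity) this

end Pool.Agent.H664.OvalJets
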