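import Pool.Agent.H664.OvalConv

open Topology Filter Set
open scoped Real ContDiff

namespace Pool.Agent.H664.OvalGeom

/-- an oval with the property that chord maps which close up once close up always -/
structure Oval (K : Set (ℝ × ℝ)) (P γ : ℝ → ℝ × ℝ) : Prop where
  cpt : IsCompact K
  sc : StrictConvex ℝ K
  int : (interior K).Nonempty
  supp : Supp K P
  smooth : ContDiff ℝ ∞ γ
  reg : ∀ s, deriv γ s ≠ 0
  rng : range γ = frontier K
  comm : ∀ u v : ℝ × ℝ, u ≠ 0 → v ≠ 0 →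
    (∃ x ∈ frontier K, sg K v (sg K u (sg K v (sg K u x))) = x) →
    ∀ x ∈ frontier K, sg K v (sg K u (sg K v (sg K u x))) = x

/-- the chord joining the points with opposite normals -/
noncomputable def XX (P : ℝ → ℝ × ℝ) (φ : ℝ) : ℝ × ℝ := P φ - P (φ + π)

section

variable {K : Set (ℝ × ℝ)} {P γ : ℝ → ℝ × ℝ}

lemma Oval.frK (h : Oval K P γ) {x : ℝ × ℝ} (hx : x ∈ frontier K) : x ∈ K := by
  rw [frontier_eq' h.cpt] at hx; exact hx.1

lemma Oval.hasDerivAt_γ (h : Oval K P γ) (s : ℝ) : HasDerivAt γ (deriv γ s) s :=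
  ((h.smooth.differentiable (by simp)) s).hasDerivAt

lemma Oval.γ_mem (h : Oval K P γ) (s : ℝ) : γ s ∈ frontier K := h.rng ▸ mem_range_self s

lemma hasDerivAt_ell_const {c : ℝ → ℝ × ℝ} {c' : ℝ × ℝ} {s : ℝ} (φ : ℝ)
    (hc : HasDerivAt c c' s) : HasDerivAt (fun s => ell φ (c s)) (ell φ c') s := by
  have h1 : HasDerivAt (fun x => (c x).1) c'.1 s :=
    (ContinuousLinearMap.fst ℝ ℝ ℝ).hasFDerivAt.comp_hasDerivAt s hc
  have h2 : HasDerivAt (fun x => (c x).2) c'.2 s :=
    (ContinuousLinearMap.snd ℝ ℝ ℝ).hasFDerivAt.comp_hasDerivAt s hc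
  exact (h1.mul_const _).add (h2.mul_const _)

lemma hasDerivAt_emm_const {c : ℝ → ℝ × ℝ} {c' : ℝ × ℝ} {s : ℝ} (φ : ℝ)
    (hc : HasDerivAt c c' s) : HasDerivAt (fun s => emm φ (c s)) (emm φ c') s := by
  have h1 : HasDerivAt (fun x => (c x).1) c'.1 s :=
    (ContinuousLinearMap.fst ℝ ℝ ℝ).hasFDerivAt.comp_hasDerivAt s hc
  have h2 : HasDerivAt (fun x => (c x).2) c'.2 s :=
    (ContinuousLinearMap.snd ℝ ℝ ℝ).hasFDerivAt.comp_hasDerivAt s hc
  exact (h2.mul_const _).sub (h1.mul_const _)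

lemma Oval.tangent (h : Oval K P γ) {s φ : ℝ} (hs : γ s = P φ) : ell φ (deriv γ s) = 0 := by
  have hd := hasDerivAt_ell_const φ (h.hasDerivAt_γ s)
  have hmax : IsLocalMax (fun s => ell φ (γ s)) s := by
    refine Eventually.of_forall fun t => ?_
    simp only
    rw [hs]
    exact h.supp.le φ (h.frK (h.γ_mem t))
  exact hmax.hasDerivAt_eq_zero hd

lemma sin_eq_zero_of {v : ℝ × ℝ} (hv : v ≠ 0) {φ ψ : ℝ} (h1 : ell φ v = 0) (h2 : ell ψ v = 0) :
    Real.sin (φ - ψ) = 0 := by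
  by_contra hne
  apply hv
  rw [Real.sin_sub] at hne
  unfold ell at h1 h2
  have e1 : v.1 * (Real.sin φ * Real.cos ψ - Real.cos φ * Real.sin ψ) = 0 := by
    linear_combination Real.sin φ * h2 - Real.sin ψ * h1
  have e2 : v.2 * (Real.sin φ * Real.cos ψ - Real.cos φ * Real.sin ψ) = 0 := by
    linear_combination Real.cos ψ * h1 - Real.cos φ * h2
  ext
  · exact (mul_eq_zero.1 e1).resolve_right hne
  · exact (mul_eq_zero.1 e2).resolve_right hne

lemma Oval.eq_of_tangent (h : Oval K P γ) {s φ : ℝ} (hs : ell φ (deriv γ s) = 0) :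
    γ s = P φ ∨ γ s = P (φ + π) := by
  obtain ⟨ψ, hψ⟩ := h.supp.exists_eq h.cpt h.sc h.int (h.γ_mem s)
  have := sin_eq_zero_of (h.reg s) (h.tangent hψ) hs
  rcases h.supp.eq_or_eq this with h1 | h1
  · left; rw [hψ, h1]
  · right; rw [hψ, h1]

lemma exists_dir {v : ℝ × ℝ} (hv : v ≠ 0) : ∃ r ψ : ℝ, 0 < r ∧ v = r • tt ψ := by
  have hy : ((v.2, -v.1) : ℝ × ℝ) ≠ 0 := by
    intro h
    apply hv
    have h1 : v.2 = 0 := congrArg Prod.fst h
    have h2 : -v.1 = 0 := congrArg Prod.snd h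
    ext
    · simpa using h2
    · simpa using h1
  obtain ⟨r, ψ, hr, h1, h2⟩ := exists_polar hy
  refine ⟨r, ψ, hr, ?_⟩
  simp only at h1 h2
  ext
  · simp only [tt, Prod.smul_fst, smul_eq_mul]; linarith
  · simp only [tt, Prod.smul_snd, smul_eq_mul]; linarith

lemma Oval.ell_deriv_zero_of_fixed (h : Oval K P γ) {p : ℝ × ℝ} (hp : p ∈ frontier K) {ψ : ℝ}
    (hf : sg K (tt ψ) p = p) {s : ℝ} (hs : γ s = p) : ell ψ (deriv γ s) = 0 := by
  rcases h.supp.fixed h.cpt h.sc hp (sg_fixed (tt_ne ψ) hf) with h1 | h1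
  · exact h.tangent (hs.trans h1)
  · have := h.tangent (hs.trans h1)
    rw [ell_add_pi] at this
    linarith

/-- a boundary point is not fixed by the chord maps in two different directions -/
lemma Oval.not_both (h : Oval K P γ) {p : ℝ × ℝ} (hp : p ∈ frontier K) {φ : ℝ} {v : ℝ × ℝ}
    (hv : ell φ v ≠ 0) (hf : sg K (tt φ) p = p) (hf2 : sg K v p = p) : False := by
  have hv0 : v ≠ 0 := by
    rintro rfl
    exact hv (by simp [ell])
  obtain ⟨r, ψ, hr, hrv⟩ := exists_dir hv0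
  have hf3 : sg K (tt ψ) p = p := by
    rw [← sg_smul h.cpt h.sc (tt_ne ψ) hp hr.ne', ← hrv]; exact hf2
  obtain ⟨s, hs⟩ : p ∈ range γ := h.rng ▸ hp
  have e1 := h.ell_deriv_zero_of_fixed hp hf hs
  have e2 := h.ell_deriv_zero_of_fixed hp hf3 hs
  have e3 := sin_eq_zero_of (h.reg s) e1 e2
  apply hv
  rw [hrv, ell_smul]
  have : ell φ (tt ψ) = Real.sin (φ - ψ) := by
    rw [Real.sin_sub]; simp only [ell, tt]; ring
  rw [this, e3, mul_zero]

lemma Oval.X_pos (h : Oval K P γ) (φ : ℝ) : 0 < ell φ (XX P φ) := by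
  obtain ⟨z, hz⟩ := h.int
  have h1 := h.supp.lt φ z (interior_subset hz) (by
    rintro rfl; exact h.supp.notMem_interior φ hz)
  have h2 := h.supp.lt (φ + π) z (interior_subset hz) (by
    rintro rfl; exact h.supp.notMem_interior (φ + π) hz)
  rw [ell_add_pi, ell_add_pi] at h2
  unfold XX
  rw [ell_sub]
  linarith

/-- extremal point of a lens -/
lemma Oval.lens (h : Oval K P γ) {ψ lam : ℝ} {u M : ℝ × ℝ} (hu : u ≠ 0) (hlam : lam ≠ 0)
    (hψ : ell ψ u = 0) (hM1 : M ∈ K) (hM2 : M - lam • u ∈ K)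
    (hmax : ∀ y, y ∈ K → y - lam • u ∈ K → ell ψ y ≤ ell ψ M) :
    M ∈ frontier K ∧ M - lam • u ∈ frontier K := by
  have hM' : ell ψ (M - lam • u) = ell ψ M := by rw [ell_sub, ell_smul, hψ]; ring
  have hne : M - lam • u ≠ M := by
    intro he
    rw [sub_eq_self] at he
    rcases smul_eq_zero.1 he with h1 | h1
    · exact hlam h1
    · exact hu h1
  have hlt : ell ψ M < ell ψ (P ψ) := by
    by_contra hcon
    rw [not_lt] at hcon
    have h1 := h.supp.eq_of_le hM1 hcon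
    have h2 := h.supp.eq_of_le (φ := ψ) hM2 (by rw [hM']; exact hcon)
    exact hne (h2.trans h1.symm)
  have hconv := h.sc.convex
  rw [frontier_eq' h.cpt]
  refine ⟨⟨hM1, fun hint => ?_⟩, ⟨hM2, fun hint => ?_⟩⟩
  · obtain ⟨δ, hδ, hδ1, hm⟩ := exists_move hint (P ψ - (M - lam • u))
    have h1 : M + δ • (P ψ - (M - lam • u)) - lam • u ∈ K := by
      have := hconv hM2 (h.supp.mem ψ) (a := 1 - δ) (b := δ) (by linarith) hδ.le (by ring)
      convert this using 1
      module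
    have h2 := hmax _ hm h1
    rw [ell_add, ell_smul, ell_sub, hM'] at h2
    nlinarith
  · obtain ⟨δ, hδ, hδ1, hm⟩ := exists_move hint (P ψ - M)
    have h1 : M + δ • (P ψ - M) ∈ K := by
      have := hconv hM1 (h.supp.mem ψ) (a := 1 - δ) (b := δ) (by linarith) hδ.le (by ring)
      convert this using 1
      module
    have h2 := hmax _ h1 (by
      convert hm using 1
      module)
    rw [ell_add, ell_smul, ell_sub] at h2
    nlinarith

/-- every direction is a side direction of an inscribed parallelogram -/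
lemma Oval.exists_partner (h : Oval K P γ) (φ : ℝ) : ∃ v : ℝ × ℝ, 0 < ell φ v ∧
    ∀ x ∈ frontier K, sg K v (sg K (tt φ) (sg K v (sg K (tt φ) x))) = x := by
  set u := tt φ with hu
  have hu0 : u ≠ 0 := tt_ne φ
  have hellu : ell φ u = 0 := ell_tt φ
  obtain ⟨z, hz⟩ := h.int
  -- choose a small translation
  obtain ⟨lam, hlam, h1, h2, δ, hδ, h3, h4⟩ : ∃ lam : ℝ, 0 < lam ∧ z ∈ K ∧ z - lam • u ∈ K ∧
      ∃ δ : ℝ, 0 < δ ∧ z + δ • nn φ ∈ K ∧ z + δ • nn φ - lam • u ∈ K := by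
    obtain ⟨ε, hε, hb⟩ := Metric.isOpen_iff.1 isOpen_interior z hz
    set N := ‖u‖ + ‖nn φ‖ + 1 with hN
    have hNpos : 0 < N := by positivity
    have hsmall : ∀ s t : ℝ, |s| ≤ ε / (2 * N) → |t| ≤ ε / (2 * N) →
        z + s • nn φ - t • u ∈ K := by
      intro s t hs ht
      apply interior_subset
      apply hb
      rw [Metric.mem_ball, dist_eq_norm]
      have e : z + s • nn φ - t • u - z = s • nn φ - t • u := by abel
      rw [e]
      calc ‖s • nn φ - t • u‖ ≤ ‖s • nn φ‖ + ‖t • u‖ := norm_sub_le _ _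
        _ = |s| * ‖nn φ‖ + |t| * ‖u‖ := by rw [norm_smul, norm_smul]; rfl
        _ ≤ ε / (2 * N) * ‖nn φ‖ + ε / (2 * N) * ‖u‖ := by gcongr
        _ = ε / (2 * N) * (‖nn φ‖ + ‖u‖) := by ring
        _ ≤ ε / (2 * N) * N := by
            gcongr
            rw [hN]; linarith
        _ = ε / 2 := by field_simp
        _ < ε := by linarith
    have hpos : 0 < ε / (2 * N) := by positivity
    refine ⟨ε / (2 * N), hpos, interior_subset hz, ?_, ε / (2 * N), hpos, ?_, ?_⟩
    · have := hsmall 0 (ε / (2 * N)) (by simp; positivity) (by rw [abs_of_pos hpos])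
      simpa using this
    · have := hsmall (ε / (2 * N)) 0 (by rw [abs_of_pos hpos]) (by simp; positivity)
      simpa using this
    · exact hsmall _ _ (by rw [abs_of_pos hpos]) (by rw [abs_of_pos hpos])
  set L : Set (ℝ × ℝ) := K ∩ {y | y - lam • u ∈ K} with hL
  have hLc : IsCompact L := by
    refine h.cpt.inter_right ?_
    exact h.cpt.isClosed.preimage (by fun_prop : Continuous fun y : ℝ × ℝ => y - lam • u)
  have hLne : L.Nonempty := ⟨z, h1, h2⟩
  obtain ⟨M, hM, hmax⟩ := hLc.exists_isMaxOn hLne (continuous_ell φ).continuousOn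
  obtain ⟨N, hN, hmin⟩ := hLc.exists_isMaxOn hLne (continuous_ell (φ + π)).continuousOn
  have hMN : ell φ N < ell φ M := by
    have e1 : ell (φ + π) z ≤ ell (φ + π) N := hmin ⟨h1, h2⟩
    have e2 : ell φ (z + δ • nn φ) ≤ ell φ M := hmax ⟨h3, h4⟩
    rw [ell_add_pi, ell_add_pi] at e1
    rw [ell_add, ell_smul, ell_nn] at e2
    linarith
  obtain ⟨fM1, fM2⟩ := h.lens hu0 hlam.ne' hellu hM.1 hM.2 (fun y hy1 hy2 => hmax ⟨hy1, hy2⟩)
  obtain ⟨fN1, fN2⟩ := h.lens (ψ := φ + π) hu0 hlam.ne' (by rw [ell_add_pi, hellu, neg_zero])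
    hN.1 hN.2 (fun y hy1 hy2 => hmin ⟨hy1, hy2⟩)
  set v := M - N with hv
  have hvpos : 0 < ell φ v := by rw [hv, ell_sub]; linarith
  have hv0 : v ≠ 0 := by
    rintro h0
    rw [h0] at hvpos
    simp [ell] at hvpos
  refine ⟨v, hvpos, h.comm u v hu0 hv0 ⟨M - lam • u, fM2, ?_⟩⟩
  have s1 : sg K u (M - lam • u) = M := by
    rw [sg_eq h.cpt h.sc hu0 fM2 hlam.ne' (by rw [sub_add_cancel]; exact fM1), sub_add_cancel]
  have s2 : sg K v M = N := by
    have e : M + (-1 : ℝ) • v = N := by rw [hv]; module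
    rw [sg_eq h.cpt h.sc hv0 fM1 (t := -1) (by norm_num) (by rw [e]; exact fN1), e]
  have s3 : sg K u N = N - lam • u := by
    have e : N + (-lam) • u = N - lam • u := by module
    rw [sg_eq h.cpt h.sc hu0 fN1 (t := -lam) (neg_ne_zero.2 hlam.ne') (by rw [e]; exact fN2), e]
  have s4 : sg K v (N - lam • u) = M - lam • u := by
    have e : N - lam • u + (1 : ℝ) • v = M - lam • u := by rw [hv]; module
    rw [sg_eq h.cpt h.sc hv0 fN2 (t := 1) one_ne_zero (by rw [e]; exact fM2), e]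
  rw [s1, s2, s3, s4]

/-- the conjugate direction is that of the chord joining the points with opposite normals -/
theorem Oval.comm_main (h : Oval K P γ) (φ : ℝ) {x : ℝ × ℝ} (hx : x ∈ frontier K) :
    sg K (XX P φ) (sg K (tt φ) (sg K (XX P φ) (sg K (tt φ) x))) = x := by
  obtain ⟨v, hv, hcomm⟩ := h.exists_partner φ
  have hv0 : v ≠ 0 := by
    rintro h0
    rw [h0] at hv
    simp [ell] at hv
  have hP := h.supp.mem_frontier h.cpt φ
  have h1 := hcomm (P φ) hP
  rw [h.supp.sg_self h.cpt φ] at h1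
  set z := sg K v (P φ) with hz
  have hzf : z ∈ frontier K := sg_mem v hP
  have hfix : sg K (tt φ) z = z := by
    have h2 : sg K v (sg K v (sg K (tt φ) z)) = sg K v (P φ) := by rw [h1]
    rw [sg_invol h.cpt h.sc hv0 (sg_mem _ hzf)] at h2
    exact h2
  obtain ⟨t, ht⟩ := sg_line (K := K) v (P φ)
  have hzP : z = P (φ + π) := by
    rcases h.supp.fixed h.cpt h.sc hzf (sg_fixed (tt_ne φ) hfix) with h3 | h3
    · exfalso
      exact h.not_both hP hv.ne' (h.supp.sg_self h.cpt φ) h3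
    · exact h3
  have hXv : XX P φ = (-t) • v := by
    unfold XX
    rw [← hzP, hz, ht]; module
  have ht0 : -t ≠ 0 := by
    intro h0
    have := h.X_pos φ
    rw [hXv, h0, zero_smul] at this
    simp [ell] at this
  have e : ∀ y ∈ frontier K, sg K (XX P φ) y = sg K v y := by
    intro y hy
    rw [hXv]
    exact sg_smul h.cpt h.sc hv0 hy ht0
  rw [e _ (sg_mem _ (sg_mem _ (sg_mem _ hx))), e _ (sg_mem _ hx)]
  exact hcomm x hx

lemma Oval.X_ne (h : Oval K P γ) (φ : ℝ) : XX P φ ≠ 0 := by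
  intro h0
  have := h.X_pos φ
  rw [h0] at this
  simp [ell] at this

/-- duality of conjugate directions -/
theorem Oval.radon (h : Oval K P γ) {φ ψ R : ℝ} (hR : R ≠ 0) (hX : XX P φ = R • tt ψ) :
    ell φ (XX P ψ) = 0 := by
  set u := tt φ with hu
  set p := P ψ with hp
  have hpf : p ∈ frontier K := h.supp.mem_frontier h.cpt ψ
  have hXp : sg K (XX P φ) p = p := by
    rw [hX, sg_smul h.cpt h.sc (tt_ne ψ) hpf hR]
    exact h.supp.sg_self h.cpt ψ
  set x := sg K u p with hx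
  have hxf : x ∈ frontier K := sg_mem _ hpf
  have hux : sg K u x = p := sg_invol h.cpt h.sc (tt_ne φ) hpf
  have h1 := h.comm_main φ hxf
  rw [← hu, hux, hXp, ← hx] at h1
  have hfix : sg K (tt ψ) x = x := by
    rw [← sg_smul h.cpt h.sc (tt_ne ψ) hxf hR, ← hX]; exact h1
  rcases h.supp.fixed h.cpt h.sc hxf (sg_fixed (tt_ne ψ) hfix) with h2 | h2
  · exfalso
    exact h.not_both hpf (h.X_pos φ).ne' (h2 : sg K u p = p) hXp
  · obtain ⟨t, ht⟩ := sg_line (K := K) u p
    have : XX P ψ = (-t) • u := by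
      unfold XX
      rw [← h2, hx, ht, ← hp]; module
    rw [this, ell_smul, hu, ell_tt, mul_zero]

/-- the common level involution -/
theorem Oval.levels (h : Oval K P γ) (φ : ℝ) {a b c d : ℝ × ℝ} (ha : a ∈ frontier K)
    (hb : b ∈ frontier K) (hc : c ∈ frontier K) (hd : d ∈ frontier K)
    (hab : ell φ a = ell φ b) {r r' : ℝ} (hr : r ≠ 0) (hr' : r' ≠ 0)
    (hda : d = a + r • XX P φ) (hcb : c = b + r' • XX P φ) : ell φ d = ell φ c := by
  have hX := h.X_ne φ
  have s1 : sg K (XX P φ) a = d := by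
    rw [sg_eq h.cpt h.sc hX ha hr (by rw [← hda]; exact hd), ← hda]
  have s2 : sg K (XX P φ) b = c := by
    rw [sg_eq h.cpt h.sc hX hb hr' (by rw [← hcb]; exact hc), ← hcb]
  by_cases hne : a = b
  · rw [hne] at s1
    rw [← s1, ← s2]
  · have hba := eq_add_smul_tt φ hab
    have ht : emm φ b - emm φ a ≠ 0 := by
      intro h0
      rw [h0, zero_smul, add_zero] at hba
      exact hne hba.symm
    have s3 : sg K (tt φ) a = b := by
      rw [sg_eq h.cpt h.sc (tt_ne φ) ha ht (by rw [← hba]; exact hb), ← hba]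
    have h1 := h.comm_main φ ha
    rw [s3, s2] at h1
    have s4 : sg K (tt φ) c = d := by
      have h2 : sg K (XX P φ) (sg K (XX P φ) (sg K (tt φ) c)) = sg K (XX P φ) a := by rw [h1]
      rw [sg_invol h.cpt h.sc hX (sg_mem _ hc), s1] at h2
      exact h2
    obtain ⟨t, ht⟩ := sg_line (K := K) (tt φ) c
    rw [← s4, ht, ell_add, ell_smul, ell_tt]; ring

end

end Pool.Agent.H664.OvalGeom
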