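import Pool.Agent.H664.OvalGeom

open Topology Filter Set
open scoped Real

namespace Pool.Agent.H664.OvalGeom

lemma continuous_ell (φ : ℝ) : Continuous (ell φ) := by unfold ell; fun_prop
lemma continuous_emm (φ : ℝ) : Continuous (emm φ) := by unfold emm; fun_prop
lemma continuous_ell' : Continuous fun p : ℝ × (ℝ × ℝ) => ell p.1 p.2 := by unfold ell; fun_prop
lemma continuous_emm' : Continuous fun p : ℝ × (ℝ × ℝ) => emm p.1 p.2 := by unfold emm; fun_prop

/-- unit normal -/
noncomputable def nn (φ : ℝ) : ℝ × ℝ := (Real.cos φ, Real.sin φ)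
lemma ell_nn (φ : ℝ) : ell φ (nn φ) = 1 := by
  simp only [ell, nn]; nlinarith [Real.sin_sq_add_cos_sq φ]

lemma tt_ne (φ : ℝ) : tt φ ≠ 0 := by
  intro h
  have := emm_tt φ
  rw [h] at this
  simp [emm] at this

/-- a point is determined by its two components -/
lemma eq_of_comp (φ : ℝ) {x y : ℝ × ℝ} (h1 : ell φ x = ell φ y) (h2 : emm φ x = emm φ y) :
    x = y := by
  ext
  · rw [fst_eq φ x, fst_eq φ y, h1, h2]
  · rw [snd_eq φ x, snd_eq φ y, h1, h2]

lemma eq_add_smul_tt (φ : ℝ) {x y : ℝ × ℝ} (h : ell φ x = ell φ y) :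
    y = x + (emm φ y - emm φ x) • tt φ := by
  apply eq_of_comp φ
  · rw [ell_add, ell_smul, ell_tt, h]; ring
  · rw [emm_add, emm_smul, emm_tt]; ring

/-- moving inside the interior -/
lemma exists_move {K : Set (ℝ × ℝ)} {x : ℝ × ℝ} (hx : x ∈ interior K) (v : ℝ × ℝ) :
    ∃ δ : ℝ, 0 < δ ∧ δ < 1 ∧ x + δ • v ∈ K := by
  have hc : Continuous fun δ : ℝ => x + δ • v := by fun_prop
  have h1 : ∀ᶠ δ in 𝓝 (0:ℝ), x + δ • v ∈ interior K := by
    have : Tendsto (fun δ : ℝ => x + δ • v) (𝓝 0) (𝓝 (x + (0:ℝ) • v)) := hc.tendsto 0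
    rw [zero_smul, add_zero] at this
    exact this.eventually (isOpen_interior.mem_nhds hx)
  obtain ⟨ε, hε, hb⟩ := Metric.eventually_nhds_iff_ball.1 h1
  refine ⟨min (ε / 2) (1 / 2), by positivity, by
    exact lt_of_le_of_lt (min_le_right _ _) (by norm_num), interior_subset (hb _ ?_)⟩
  rw [Metric.mem_ball, dist_zero_right, Real.norm_eq_abs, abs_of_pos (by positivity)]
  exact lt_of_le_of_lt (min_le_left _ _) (by linarith)

/-- `P φ` is the unique point of `K` with the largest component along the normal at angle `φ` -/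
structure Supp (K : Set (ℝ × ℝ)) (P : ℝ → ℝ × ℝ) : Prop where
  mem : ∀ φ, P φ ∈ K
  lt : ∀ φ, ∀ x ∈ K, x ≠ P φ → ell φ x < ell φ (P φ)

section

variable {K : Set (ℝ × ℝ)} {P : ℝ → ℝ × ℝ}

theorem exists_supp (hKc : IsCompact K) (hKs : StrictConvex ℝ K) (hKi : (interior K).Nonempty) :
    ∃ P, Supp K P := by
  have hne : K.Nonempty := hKi.mono interior_subset
  have key : ∀ φ, ∃ p ∈ K, ∀ x ∈ K, x ≠ p → ell φ x < ell φ p := by
    intro φ
    obtain ⟨p, hp, hmax⟩ := hKc.exists_isMaxOn hne (continuous_ell φ).continuousOn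
    refine ⟨p, hp, fun x hx hxp => ?_⟩
    have hle : ell φ x ≤ ell φ p := hmax hx
    refine lt_of_le_of_ne hle fun heq => ?_
    have hmid := hKs hx hp hxp (by norm_num : (0:ℝ) < 1/2) (by norm_num : (0:ℝ) < 1/2)
      (by norm_num)
    obtain ⟨δ, hδ, _, hmem⟩ := exists_move hmid (nn φ)
    have h1 : ell φ ((1/2 : ℝ) • x + (1/2 : ℝ) • p + δ • nn φ) ≤ ell φ p := hmax hmem
    rw [ell_add, ell_add, ell_smul, ell_smul, ell_smul, ell_nn, heq] at h1
    linarith
  choose P hP using key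
  exact ⟨P, fun φ => (hP φ).1, fun φ => (hP φ).2⟩

lemma Supp.le (h : Supp K P) (φ : ℝ) {x : ℝ × ℝ} (hx : x ∈ K) : ell φ x ≤ ell φ (P φ) := by
  by_cases hxP : x = P φ
  · rw [hxP]
  · exact (h.lt φ x hx hxP).le

lemma Supp.eq_of_le (h : Supp K P) {φ : ℝ} {x : ℝ × ℝ} (hx : x ∈ K)
    (hle : ell φ (P φ) ≤ ell φ x) : x = P φ := by
  by_contra hne
  exact absurd (h.lt φ x hx hne) (not_lt.2 hle)

lemma Supp.notMem_interior (h : Supp K P) (φ : ℝ) : P φ ∉ interior K := by
  intro hmem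
  obtain ⟨δ, hδ, _, hm⟩ := exists_move hmem (nn φ)
  have := h.le φ hm
  rw [ell_add, ell_smul, ell_nn] at this
  linarith

lemma frontier_eq' (hKc : IsCompact K) : frontier K = K \ interior K :=
  hKc.isClosed.frontier_eq

lemma Supp.mem_frontier (h : Supp K P) (hKc : IsCompact K) (φ : ℝ) : P φ ∈ frontier K := by
  rw [frontier_eq' hKc]
  exact ⟨h.mem φ, h.notMem_interior φ⟩

/-- comparison of support points for equal normal functionals -/
lemma Supp.eq_of_ell (h : Supp K P) {φ ψ : ℝ} (he : ∀ x, ell φ x = ell ψ x) : P φ = P ψ := by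
  refine (h.eq_of_le (φ := ψ) (h.mem φ) ?_)
  rw [← he, ← he]
  exact h.le φ (h.mem ψ)

lemma Supp.periodic (h : Supp K P) (φ : ℝ) : P (φ + 2 * π) = P φ := by
  refine h.eq_of_ell fun x => ?_
  simp only [ell, Real.cos_add_two_pi, Real.sin_add_two_pi]

lemma Supp.periodic' (h : Supp K P) (φ : ℝ) : P (φ + π + π) = P φ := by
  rw [add_assoc, ← two_mul]; exact h.periodic φ

/-- parallel normals -/
lemma Supp.eq_or_eq (h : Supp K P) {φ ψ : ℝ} (hs : Real.sin (φ - ψ) = 0) :
    P φ = P ψ ∨ P φ = P (ψ + π) := by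
  have e1 : Real.cos φ = Real.cos (φ - ψ) * Real.cos ψ := by
    have : φ = (φ - ψ) + ψ := by ring
    rw [this, Real.cos_add]
    simp [hs]
  have e2 : Real.sin φ = Real.cos (φ - ψ) * Real.sin ψ := by
    have : φ = (φ - ψ) + ψ := by ring
    rw [this, Real.sin_add]
    simp [hs]
  have hc : Real.cos (φ - ψ) = 1 ∨ Real.cos (φ - ψ) = -1 := by
    have := Real.sin_sq_add_cos_sq (φ - ψ)
    rw [hs] at this
    have h2 : (Real.cos (φ - ψ) - 1) * (Real.cos (φ - ψ) + 1) = 0 := by linarith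
    rcases mul_eq_zero.1 h2 with h | h
    · left; linarith
    · right; linarith
  rcases hc with hc | hc
  · left
    rw [hc, one_mul] at e1 e2
    refine h.eq_of_ell fun x => ?_
    simp only [ell, e1, e2]
  · right
    rw [hc, neg_one_mul] at e1 e2
    refine h.eq_of_ell fun x => ?_
    simp only [ell, e1, e2, Real.cos_add_pi, Real.sin_add_pi]

/-- every boundary point is a support point -/
theorem Supp.exists_eq (h : Supp K P) (hKc : IsCompact K) (hKs : StrictConvex ℝ K)
    (hKi : (interior K).Nonempty) {x : ℝ × ℝ} (hx : x ∈ frontier K) : ∃ φ, x = P φ := by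
  rw [frontier_eq' hKc] at hx
  obtain ⟨f, hf⟩ := geometric_hahn_banach_open_point hKs.convex.interior isOpen_interior hx.2
  set y : ℝ × ℝ := (f (1, 0), f (0, 1)) with hy
  have hfy : ∀ v : ℝ × ℝ, f v = v.1 * y.1 + v.2 * y.2 := by
    intro v
    have : v = v.1 • ((1:ℝ), (0:ℝ)) + v.2 • ((0:ℝ), (1:ℝ)) := by ext <;> simp
    conv_lhs => rw [this]
    rw [map_add, map_smul, map_smul]
    rfl
  have hy0 : y ≠ 0 := by
    intro h0
    obtain ⟨a, ha⟩ := hKi
    have := hf a ha
    rw [hfy, hfy, h0] at this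
    simp at this
  obtain ⟨r, φ, hr, h1, h2⟩ := exists_polar hy0
  have hfe : ∀ v, f v = r * ell φ v := by
    intro v
    rw [hfy, h1, h2, ell]; ring
  refine ⟨φ, h.eq_of_le hx.1 ?_⟩
  have hcl : K ⊆ closure (interior K) := by
    rw [hKs.convex.closure_interior_eq_closure_of_nonempty_interior hKi]
    exact subset_closure
  have hle : ∀ z ∈ closure (interior K), ell φ z ≤ ell φ x := by
    intro z hz
    refine closure_minimal (s := interior K) (t := {z | ell φ z ≤ ell φ x}) ?_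
      (isClosed_le (continuous_ell φ) continuous_const) hz
    intro a ha
    have := hf a ha
    rw [hfe, hfe] at this
    exact (lt_of_mul_lt_mul_left this hr.le).le
  exact hle _ (hcl (h.mem φ))

/-- no three collinear boundary points -/
lemma no_three (hKc : IsCompact K) (hKs : StrictConvex ℝ K) {x u : ℝ × ℝ} (hu : u ≠ 0)
    {a b c : ℝ} (hab : a < b) (hbc : b < c) (ha : x + a • u ∈ K) (hb : x + b • u ∈ frontier K)
    (hc : x + c • u ∈ K) : False := by
  rw [frontier_eq' hKc] at hb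
  apply hb.2
  have hne : x + a • u ≠ x + c • u := by
    intro h
    have h1 : (c - a) • u = 0 := by
      rw [sub_smul]
      rw [add_right_inj] at h
      rw [h, sub_self]
    rcases smul_eq_zero.1 h1 with h2 | h2
    · linarith
    · exact hu h2
  have hac : 0 < c - a := by linarith
  have := hKs ha hc hne (a := (c - b) / (c - a)) (b := (b - a) / (c - a))
    (div_pos (by linarith) hac) (div_pos (by linarith) hac) (by field_simp; ring)
  convert this using 1
  have e : b = (c - b) / (c - a) * a + (b - a) / (c - a) * c := by field_simp; ring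
  have e2 : (1:ℝ) = (c - b) / (c - a) + (b - a) / (c - a) := by field_simp; ring
  calc x + b • u = (1:ℝ) • x + b • u := by rw [one_smul]
    _ = ((c - b) / (c - a) + (b - a) / (c - a)) • x +
        ((c - b) / (c - a) * a + (b - a) / (c - a) * c) • u := by rw [← e, ← e2]
    _ = _ := by module

lemma frontier_line_unique (hKc : IsCompact K) (hKs : StrictConvex ℝ K) {x u : ℝ × ℝ}
    (hu : u ≠ 0) (hx : x ∈ frontier K) {s t : ℝ} (hs : s ≠ 0) (ht : t ≠ 0)
    (hxs : x + s • u ∈ frontier K) (hxt : x + t • u ∈ frontier K) : s = t := by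
  have hfK : frontier K ⊆ K := by rw [frontier_eq' hKc]; exact sdiff_subset
  have hx0 : x + (0:ℝ) • u ∈ frontier K := by rwa [zero_smul, add_zero]
  by_contra hne
  rcases lt_or_gt_of_ne hs with h1 | h1 <;> rcases lt_or_gt_of_ne ht with h2 | h2 <;>
    rcases lt_or_gt_of_ne hne with h3 | h3
  · exact no_three hKc hKs hu h3 h2 (hfK hxs) hxt (hfK hx0)
  · exact no_three hKc hKs hu h3 h1 (hfK hxt) hxs (hfK hx0)
  · exact no_three hKc hKs hu h1 h2 (hfK hxs) hx0 (hfK hxt)
  · exact no_three hKc hKs hu h1 h2 (hfK hxs) hx0 (hfK hxt)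
  · exact no_three hKc hKs hu h2 h1 (hfK hxt) hx0 (hfK hxs)
  · exact no_three hKc hKs hu h2 h1 (hfK hxt) hx0 (hfK hxs)
  · exact no_three hKc hKs hu h1 h3 (hfK hx0) hxs (hfK hxt)
  · exact no_three hKc hKs hu h2 h3 (hfK hx0) hxt (hfK hxs)

open Classical in
/-- the other end of the chord through `x` in direction `u` -/
noncomputable def sg (K : Set (ℝ × ℝ)) (u x : ℝ × ℝ) : ℝ × ℝ :=
  if h : ∃ t : ℝ, t ≠ 0 ∧ x + t • u ∈ frontier K then x + h.choose • u else x

lemma sg_eq (hKc : IsCompact K) (hKs : StrictConvex ℝ K) {x u : ℝ × ℝ} (hu : u ≠ 0)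
    (hx : x ∈ frontier K) {t : ℝ} (ht : t ≠ 0) (hxt : x + t • u ∈ frontier K) :
    sg K u x = x + t • u := by
  have h : ∃ t : ℝ, t ≠ 0 ∧ x + t • u ∈ frontier K := ⟨t, ht, hxt⟩
  unfold sg
  rw [dif_pos h]
  rw [frontier_line_unique hKc hKs hu hx h.choose_spec.1 ht h.choose_spec.2 hxt]

lemma sg_eq_self {x u : ℝ × ℝ} (h : ∀ t : ℝ, x + t • u ∈ frontier K → t = 0) :
    sg K u x = x := by
  unfold sg
  rw [dif_neg]
  rintro ⟨t, ht, hxt⟩
  exact ht (h t hxt)

lemma sg_mem {x : ℝ × ℝ} (u : ℝ × ℝ) (hx : x ∈ frontier K) : sg K u x ∈ frontier K := by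
  unfold sg
  split_ifs with h
  · exact h.choose_spec.2
  · exact hx

lemma sg_line (u x : ℝ × ℝ) : ∃ t : ℝ, sg K u x = x + t • u := by
  unfold sg
  split_ifs with h
  · exact ⟨_, rfl⟩
  · exact ⟨0, by simp⟩

lemma sg_fixed {x u : ℝ × ℝ} (hu : u ≠ 0) (h : sg K u x = x) (t : ℝ)
    (ht : x + t • u ∈ frontier K) : t = 0 := by
  by_contra hne
  have hex : ∃ t : ℝ, t ≠ 0 ∧ x + t • u ∈ frontier K := ⟨t, hne, ht⟩
  unfold sg at h
  rw [dif_pos hex] at h
  have : hex.choose • u = 0 := by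
    have := h
    rwa [add_eq_left] at this
  rcases smul_eq_zero.1 this with h2 | h2
  · exact hex.choose_spec.1 h2
  · exact hu h2

lemma sg_invol (hKc : IsCompact K) (hKs : StrictConvex ℝ K) {x u : ℝ × ℝ} (hu : u ≠ 0)
    (hx : x ∈ frontier K) : sg K u (sg K u x) = x := by
  obtain ⟨t, ht⟩ := sg_line (K := K) u x
  by_cases h0 : t = 0
  · rw [h0, zero_smul, add_zero] at ht
    rw [ht, ht]
  · have hm := sg_mem (K := K) u hx
    rw [ht] at hm ⊢
    have := sg_eq hKc hKs hu hm (neg_ne_zero.2 h0) (t := -t) (by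
      rw [neg_smul, add_neg_cancel_right]; exact hx)
    rw [this, neg_smul, add_neg_cancel_right]

lemma sg_smul (hKc : IsCompact K) (hKs : StrictConvex ℝ K) {x u : ℝ × ℝ} (hu : u ≠ 0)
    (hx : x ∈ frontier K) {c : ℝ} (hc : c ≠ 0) : sg K (c • u) x = sg K u x := by
  obtain ⟨t, ht⟩ := sg_line (K := K) u x
  by_cases h0 : t = 0
  · rw [h0, zero_smul, add_zero] at ht
    rw [ht]
    refine sg_eq_self fun s hs => ?_
    rw [smul_smul] at hs
    have := sg_fixed hu ht _ hs
    rcases mul_eq_zero.1 this with h | h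
    · exact h
    · exact absurd h hc
  · have hm := sg_mem (K := K) u hx
    rw [ht] at hm
    have hcu : c • u ≠ 0 := smul_ne_zero hc hu
    have := sg_eq hKc hKs hcu hx (t := t / c) (div_ne_zero h0 hc) (by
      rw [smul_smul, div_mul_cancel₀ _ hc]; exact hm)
    rw [this, ht, smul_smul, div_mul_cancel₀ _ hc]

/-- if the line through `x` in direction `tt ψ` contains a further point of `K` on the positive
side then it contains a further boundary point -/
lemma exists_exit (hKc : IsCompact K) {ψ : ℝ} {x : ℝ × ℝ} {t0 : ℝ} (ht0 : 0 < t0)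
    (hy : x + t0 • tt ψ ∈ K) : ∃ t1 : ℝ, 0 < t1 ∧ x + t1 • tt ψ ∈ frontier K := by
  set S : Set (ℝ × ℝ) := K ∩ {y | ell ψ y = ell ψ x} with hS
  have hSc : IsCompact S := hKc.inter_right (isClosed_eq (continuous_ell ψ) continuous_const)
  have hyS : x + t0 • tt ψ ∈ S := ⟨hy, by
    rw [mem_ofPred_eq, ell_add, ell_smul, ell_tt]; ring⟩
  obtain ⟨z, hz, hmax⟩ := hSc.exists_isMaxOn ⟨_, hyS⟩ (continuous_emm ψ).continuousOn
  have h1 : emm ψ (x + t0 • tt ψ) ≤ emm ψ z := hmax hyS
  rw [emm_add, emm_smul, emm_tt] at h1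
  have hze : z = x + (emm ψ z - emm ψ x) • tt ψ := eq_add_smul_tt ψ (Eq.symm hz.2)
  refine ⟨emm ψ z - emm ψ x, by linarith, ?_⟩
  rw [← hze, frontier_eq' hKc]
  refine ⟨hz.1, fun hint => ?_⟩
  obtain ⟨δ, hδ, _, hm⟩ := exists_move hint (tt ψ)
  have h2 : emm ψ (z + δ • tt ψ) ≤ emm ψ z := hmax ⟨hm, by
    rw [mem_ofPred_eq, ell_add, ell_smul, ell_tt, mul_zero, add_zero]; exact hz.2⟩
  rw [emm_add, emm_smul, emm_tt] at h2
  linarith

/-- fixed points of the chord involution in direction `tt ψ` -/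
theorem Supp.fixed (h : Supp K P) (hKc : IsCompact K) (hKs : StrictConvex ℝ K)
    {ψ : ℝ} {x : ℝ × ℝ} (hx : x ∈ frontier K)
    (hfix : ∀ t : ℝ, x + t • tt ψ ∈ frontier K → t = 0) : x = P ψ ∨ x = P (ψ + π) := by
  by_contra hcon
  push Not at hcon
  obtain ⟨h1, h2⟩ := hcon
  have hxK : x ∈ K := by rw [frontier_eq' hKc] at hx; exact hx.1
  have l1 := h.lt ψ x hxK h1
  have l2 := h.lt (ψ + π) x hxK h2
  rw [ell_add_pi, ell_add_pi] at l2
  -- a point of the chord on the same level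
  set A := ell ψ (P ψ) - ell ψ x with hA
  set B := ell ψ x - ell ψ (P (ψ + π)) with hB
  have hApos : 0 < A := by linarith
  have hBpos : 0 < B := by linarith
  have hne : P ψ ≠ P (ψ + π) := by
    intro he
    rw [← he] at l2
    linarith
  have hint := hKs (h.mem ψ) (h.mem (ψ + π)) hne (a := B / (A + B)) (b := A / (A + B))
    (by positivity) (by positivity) (by field_simp; ring)
  set y := (B / (A + B)) • P ψ + (A / (A + B)) • P (ψ + π) with hy
  have hey : ell ψ x = ell ψ y := by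
    rw [hy, ell_add, ell_smul, ell_smul]
    have e1 : ell ψ (P ψ) = A + ell ψ x := by rw [hA]; ring
    have e2 : ell ψ (P (ψ + π)) = ell ψ x - B := by rw [hB]; ring
    rw [e1, e2]; field_simp; ring
  have hye := eq_add_smul_tt ψ hey
  set t0 := emm ψ y - emm ψ x with ht0
  have hxne : t0 ≠ 0 := by
    intro h0
    rw [h0, zero_smul, add_zero] at hye
    rw [hye] at hint
    rw [frontier_eq' hKc] at hx
    exact hx.2 hint
  have hyK : x + t0 • tt ψ ∈ K := by rw [← hye]; exact interior_subset hint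
  rcases lt_or_gt_of_ne hxne with hneg | hpos
  · have : x + (-t0) • tt (ψ + π) ∈ K := by
      rw [tt_add_pi, smul_neg, neg_smul, neg_neg]; exact hyK
    obtain ⟨t1, ht1, hm⟩ := exists_exit hKc (neg_pos.2 hneg) this
    rw [tt_add_pi, smul_neg, ← neg_smul] at hm
    have := hfix _ hm
    linarith
  · obtain ⟨t1, ht1, hm⟩ := exists_exit hKc hpos hyK
    have := hfix _ hm
    linarith

lemma Supp.sg_self (h : Supp K P) (hKc : IsCompact K) (φ : ℝ) : sg K (tt φ) (P φ) = P φ := by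
  refine sg_eq_self fun t ht => ?_
  have hm : P φ + t • tt φ ∈ K := by rw [frontier_eq' hKc] at ht; exact ht.1
  have := h.eq_of_le (φ := φ) hm (by rw [ell_add, ell_smul, ell_tt]; linarith)
  rw [add_eq_left] at this
  rcases smul_eq_zero.1 this with h1 | h1
  · exact h1
  · exact absurd h1 (tt_ne φ)

end

end Pool.Agent.H664.OvalGeom
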