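import Pool.Agent.H664.OvalEst

open Topology Filter Set Asymptotics
open scoped Real ContDiff

namespace Pool.Agent.H664.OvalGeom

/-- the conjugate normal angle -/
noncomputable def gf (P : ℝ → ℝ × ℝ) (φ : ℝ) : ℝ :=
  φ + Real.arctan (emm φ (XX P φ) / ell φ (XX P φ)) - π / 2

noncomputable def Rf (P : ℝ → ℝ × ℝ) (φ : ℝ) : ℝ :=
  ell φ (XX P φ) / Real.cos (Real.arctan (emm φ (XX P φ) / ell φ (XX P φ)))

section

variable {K : Set (ℝ × ℝ)} {P γ : ℝ → ℝ × ℝ}

lemma ell_tt' (φ ψ : ℝ) : ell φ (tt ψ) = Real.sin (φ - ψ) := by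
  rw [Real.sin_sub]; simp only [ell, tt]; ring

lemma emm_tt' (φ ψ : ℝ) : emm φ (tt ψ) = Real.cos (φ - ψ) := by
  rw [Real.cos_sub]; simp only [emm, tt]; ring

lemma Oval.X_repr (h : Oval K P γ) (φ : ℝ) : XX P φ = Rf P φ • tt (gf P φ) := by
  have hw := h.X_pos φ
  have hc : 0 < Real.cos (Real.arctan (emm φ (XX P φ) / ell φ (XX P φ))) :=
    Real.cos_arctan_pos _
  have ht : Real.tan (Real.arctan (emm φ (XX P φ) / ell φ (XX P φ))) =
    emm φ (XX P φ) / ell φ (XX P φ) := Real.tan_arctan _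
  have hg : φ - gf P φ = π / 2 - Real.arctan (emm φ (XX P φ) / ell φ (XX P φ)) := by
    unfold gf; ring
  apply eq_of_comp φ
  · rw [ell_smul, ell_tt', hg, Real.sin_pi_div_two_sub, Rf]
    field_simp
  · rw [emm_smul, emm_tt', hg, Real.cos_pi_div_two_sub, Rf]
    rw [Real.tan_eq_sin_div_cos] at ht
    rw [div_mul_eq_mul_div, mul_div_assoc, ht]
    field_simp

lemma Oval.Rf_pos (h : Oval K P γ) (φ : ℝ) : 0 < Rf P φ :=
  div_pos (h.X_pos φ) (Real.cos_arctan_pos _)

lemma Oval.continuous_P (h : Oval K P γ) : Continuous P := h.supp.continuous h.cpt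

lemma Oval.continuous_X (h : Oval K P γ) : Continuous (XX P) := by
  have := h.continuous_P
  unfold XX; fun_prop

lemma Oval.continuous_w (h : Oval K P γ) : Continuous fun φ => ell φ (XX P φ) :=
  continuous_ell'.comp (continuous_id.prodMk h.continuous_X)

lemma Oval.continuous_w1 (h : Oval K P γ) : Continuous fun φ => emm φ (XX P φ) :=
  continuous_emm'.comp (continuous_id.prodMk h.continuous_X)

lemma Oval.continuous_s (h : Oval K P γ) :
    Continuous fun φ => emm φ (XX P φ) / ell φ (XX P φ) :=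
  h.continuous_w1.div h.continuous_w fun φ => (h.X_pos φ).ne'

lemma Oval.continuous_gf (h : Oval K P γ) : Continuous (gf P) :=
  (continuous_id.add (Real.continuous_arctan.comp h.continuous_s)).sub continuous_const

lemma Oval.continuous_Rf (h : Oval K P γ) : Continuous (Rf P) :=
  h.continuous_w.div (Real.continuous_cos.comp (Real.continuous_arctan.comp h.continuous_s))
    fun _ => (Real.cos_arctan_pos _).ne'

lemma Oval.radon' (h : Oval K P γ) (φ : ℝ) : ell φ (XX P (gf P φ)) = 0 :=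
  h.radon (h.Rf_pos φ).ne' (h.X_repr φ)

/-- identification of the support point near a given one -/
lemma Oval.near (h : Oval K P γ) {f : ℝ → ℝ} {s0 : ℝ} (hf : ContinuousAt f s0)
    (h0 : γ s0 = P (f s0)) (hev : ∀ᶠ s in 𝓝 s0, ell (f s) (deriv γ s) = 0) :
    ∀ᶠ s in 𝓝 s0, γ s = P (f s) := by
  have hγc : ContinuousAt γ s0 := (h.hasDerivAt_γ s0).continuousAt
  have c1 : ContinuousAt (fun s => ell (f s) (γ s)) s0 :=
    continuous_ell'.continuousAt.comp (hf.prodMk hγc)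
  have c2 : ContinuousAt (fun s => ell (f s) (P (f s0 + π))) s0 :=
    continuous_ell'.continuousAt.comp (hf.prodMk continuousAt_const)
  have hlt : ell (f s0) (P (f s0 + π)) < ell (f s0) (γ s0) := by
    have := h.X_pos (f s0)
    unfold XX at this
    rw [ell_sub] at this
    rw [h0]; linarith
  have hev2 : ∀ᶠ s in 𝓝 s0, ell (f s) (P (f s0 + π)) < ell (f s) (γ s) :=
    (c2.prodMk c1).eventually_mem ((isOpen_lt continuous_fst continuous_snd).mem_nhds hlt)
  filter_upwards [hev, hev2] with s h1 h2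
  rcases h.eq_of_tangent h1 with h3 | h3
  · exact h3
  · exfalso
    have h4 := h.supp.le (f s + π) (h.supp.mem (f s0 + π))
    rw [ell_add_pi, ell_add_pi, ← h3] at h4
    linarith

/-- the normal angle along the curve, near a given point -/
noncomputable def gm (γ : ℝ → ℝ × ℝ) (φ0 s : ℝ) : ℝ :=
  φ0 + Real.arctan (-ell φ0 (deriv γ s) / emm φ0 (deriv γ s))

lemma Oval.smooth_deriv (h : Oval K P γ) : ContDiff ℝ ∞ (deriv γ) :=
  (contDiff_infty_iff_deriv.1 h.smooth).2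

lemma contDiff_ell (φ : ℝ) {f : ℝ → ℝ × ℝ} (hf : ContDiff ℝ ∞ f) :
    ContDiff ℝ ∞ fun s => ell φ (f s) := by
  unfold ell
  exact ((contDiff_fst.comp hf).mul contDiff_const).add ((contDiff_snd.comp hf).mul contDiff_const)

lemma contDiff_emm (φ : ℝ) {f : ℝ → ℝ × ℝ} (hf : ContDiff ℝ ∞ f) :
    ContDiff ℝ ∞ fun s => emm φ (f s) := by
  unfold emm
  exact ((contDiff_snd.comp hf).mul contDiff_const).sub ((contDiff_fst.comp hf).mul contDiff_const)

lemma Oval.gm_self (h : Oval K P γ) {s0 φ0 : ℝ} (hs : γ s0 = P φ0) : gm γ φ0 s0 = φ0 := by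
  unfold gm
  rw [h.tangent hs]; simp

lemma Oval.gm_contDiffAt (h : Oval K P γ) {s0 φ0 : ℝ} (hs : γ s0 = P φ0) :
    ContDiffAt ℝ ∞ (gm γ φ0) s0 := by
  unfold gm
  have h1 := (contDiff_ell φ0 h.smooth_deriv).contDiffAt (x := s0)
  have h2 := (contDiff_emm φ0 h.smooth_deriv).contDiffAt (x := s0)
  exact contDiffAt_const.add (Real.contDiff_arctan.contDiffAt.comp s0
    (h1.neg.div h2 (h.emm_ne hs)))

lemma Oval.gm_tangent (h : Oval K P γ) {s0 φ0 : ℝ} (hs : γ s0 = P φ0) :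
    ∀ᶠ s in 𝓝 s0, ell (gm γ φ0 s) (deriv γ s) = 0 := by
  have hc : ContinuousAt (fun s => emm φ0 (deriv γ s)) s0 :=
    (contDiff_emm φ0 h.smooth_deriv).continuous.continuousAt
  filter_upwards [hc.eventually_ne (h.emm_ne hs)] with s hne
  unfold gm
  rw [ell_shift]
  set θ := Real.arctan (-ell φ0 (deriv γ s) / emm φ0 (deriv γ s)) with hθ
  have hcos : 0 < Real.cos θ := Real.cos_arctan_pos _
  have ht : Real.sin θ = -ell φ0 (deriv γ s) / emm φ0 (deriv γ s) * Real.cos θ := by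
    have : Real.tan θ = -ell φ0 (deriv γ s) / emm φ0 (deriv γ s) := Real.tan_arctan _
    rw [Real.tan_eq_sin_div_cos, div_eq_iff hcos.ne'] at this
    exact this
  rw [ht]
  field_simp
  ring

lemma Oval.gm_near (h : Oval K P γ) {s0 φ0 : ℝ} (hs : γ s0 = P φ0) :
    ∀ᶠ s in 𝓝 s0, γ s = P (gm γ φ0 s) :=
  h.near (h.gm_contDiffAt hs).continuousAt (by rw [h.gm_self hs]; exact hs) (h.gm_tangent hs)

lemma dt_smul (r t : ℝ) (φ ψ : ℝ) : dt (r • tt φ) (t • tt ψ) = r * t * Real.sin (ψ - φ) := by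
  unfold dt tt
  rw [Real.sin_sub]
  simp only [Prod.smul_fst, Prod.smul_snd, smul_eq_mul]
  ring

/-- eventual version of the turning estimate -/
lemma Oval.det_lower' (h : Oval K P γ) (φ0 : ℝ) : ∀ᶠ φ in 𝓝 φ0,
    ell φ0 (XX P φ0) / 2 * |emm φ0 (P φ - P φ0)| ≤ |dt (XX P φ0) (XX P φ)| := by
  have hw := h.X_pos φ0
  have hc : Continuous fun φ : ℝ => ell φ0 (XX P φ0) / 2 * Real.cos (φ - φ0) -
      |emm φ0 (XX P φ0)| * |Real.sin (φ - φ0)| := by fun_prop
  have hev : ∀ᶠ φ in 𝓝 φ0, 0 < ell φ0 (XX P φ0) / 2 * Real.cos (φ - φ0) -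
      |emm φ0 (XX P φ0)| * |Real.sin (φ - φ0)| := by
    refine hc.continuousAt.eventually_const_lt ?_
    simp only [sub_self, Real.cos_zero, Real.sin_zero, abs_zero]
    linarith
  have hball : ∀ᶠ φ in 𝓝 φ0, |φ - φ0| < 1 := by
    filter_upwards [Metric.ball_mem_nhds φ0 one_pos] with z hz
    rwa [Metric.mem_ball, Real.dist_eq] at hz
  filter_upwards [hev, hball] with φ h1 h2
  have hcos : 0 < Real.cos (φ - φ0) := by
    apply Real.cos_pos_of_mem_Ioo
    constructor <;> nlinarith [abs_lt.1 h2, Real.pi_gt_three]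
  by_cases hs : Real.sin (φ - φ0) = 0
  · have : φ - φ0 = 0 := by
      have h3 := (Real.sin_eq_zero_iff_of_lt_of_lt (x := φ - φ0)
        (by linarith [abs_lt.1 h2, Real.pi_gt_three]) (by linarith [abs_lt.1 h2, Real.pi_gt_three])).1 hs
      exact h3
    have h4 : φ = φ0 := by linarith
    rw [h4, sub_self]
    simp [emm]
  · have := h.supp.det_lower (φ0 := φ0) (δ := φ - φ0) hw hs hcos.le (by linarith)
    rwa [add_sub_cancel] at this

/-- positivity of the curvature -/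
theorem Oval.curvature_ne (h : Oval K P γ) {s0 φ0 : ℝ} (hs : γ s0 = P φ0) :
    ell φ0 (deriv (deriv γ) s0) ≠ 0 := by
  intro hzero
  have hb0 := h.emm_ne hs
  set b := emm φ0 (deriv γ s0) with hb
  -- the angle is of second order
  have hδo : (fun s => gm γ φ0 s - φ0) =o[𝓝 s0] fun s => s - s0 := by
    have hd : HasDerivAt (gm γ φ0) 0 s0 := by
      have hd2 : HasDerivAt (deriv γ) (deriv (deriv γ) s0) s0 :=
        ((h.smooth_deriv.differentiable (by simp)) s0).hasDerivAt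
      have h1 := hasDerivAt_ell_const φ0 hd2
      have h2 := hasDerivAt_emm_const φ0 hd2
      rw [hzero] at h1
      have h3 := ((h1.neg.div h2 hb0).arctan).const_add φ0
      refine h3.congr_deriv ?_
      simp only [Pi.neg_apply]
      rw [h.tangent hs]
      simp
    have h4 := hd.isLittleO
    simp only [h.gm_self hs, smul_zero, sub_zero] at h4
    exact h4
  have hgc : ContinuousAt (gm γ φ0) s0 := (h.gm_contDiffAt hs).continuousAt
  have hgt : Tendsto (gm γ φ0) (𝓝 s0) (𝓝 φ0) := by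
    have := hgc.tendsto
    rwa [h.gm_self hs] at this
  -- (1) linear motion
  have hlin : ∀ᶠ s in 𝓝 s0, |b| / 2 * |s - s0| ≤ |emm φ0 (γ s - γ s0)| := by
    have h1 : HasDerivAt (fun s => emm φ0 (γ s)) b s0 := hasDerivAt_emm_const φ0 (h.hasDerivAt_γ s0)
    have h3 := h1.isLittleO.bound (c := |b| / 2) (by positivity)
    filter_upwards [h3] with s hu
    simp only [smul_eq_mul, Real.norm_eq_abs] at hu
    rw [emm_sub]
    have h4 : |(s - s0) * b| ≤ |emm φ0 (γ s) - emm φ0 (γ s0) - (s - s0) * b| +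
        |emm φ0 (γ s) - emm φ0 (γ s0)| := by
      have := abs_sub_abs_le_abs_sub ((s - s0) * b) (emm φ0 (γ s) - emm φ0 (γ s0))
      rw [abs_sub_comm ((s - s0) * b)] at this
      linarith
    rw [abs_mul] at h4
    nlinarith
  -- constants
  set ψ0 := gf P φ0 with hψ0
  obtain ⟨m, hm, hlow⟩ := h.lower ψ0
  have hlow' : ∀ᶠ ψ in 𝓝 ψ0, m * |ψ - ψ0| ≤ |emm ψ0 (P ψ - P ψ0)| := by
    have ht : Tendsto (fun ψ => ψ - ψ0) (𝓝 ψ0) (𝓝 0) := by
      have : Tendsto (fun ψ => ψ - ψ0) (𝓝 ψ0) (𝓝 (ψ0 - ψ0)) :=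
        (continuous_id.sub continuous_const).tendsto ψ0
      rwa [sub_self] at this
    filter_upwards [ht.eventually hlow] with ψ hψ
    rwa [add_sub_cancel] at hψ
  have hgft : Tendsto (fun s => gf P (gm γ φ0 s)) (𝓝 s0) (𝓝 ψ0) :=
    (h.continuous_gf.tendsto φ0).comp hgt
  have hw0 := h.X_pos φ0
  have hwψ := h.X_pos ψ0
  -- bounds for `Rf`
  obtain ⟨C1, hC1⟩ : ∃ C, ∀ᶠ s in 𝓝 s0, |Rf P (gm γ φ0 s)| ≤ C := by
    refine ⟨|Rf P φ0| + 1, ?_⟩
    have : Tendsto (fun s => |Rf P (gm γ φ0 s)|) (𝓝 s0) (𝓝 |Rf P φ0|) :=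
      ((h.continuous_Rf.tendsto φ0).comp hgt).abs
    exact (this.eventually_lt_const (lt_add_one _)).mono fun s hs => hs.le
  obtain ⟨C2, hC2⟩ : ∃ C, ∀ᶠ s in 𝓝 s0, |emm (gm γ φ0 s) (XX P (gf P (gm γ φ0 s)))| ≤ C := by
    refine ⟨|emm φ0 (XX P ψ0)| + 1, ?_⟩
    have hcc : Continuous fun φ => emm φ (XX P (gf P φ)) :=
      continuous_emm'.comp (continuous_id.prodMk (h.continuous_X.comp h.continuous_gf))
    have : Tendsto (fun s => |emm (gm γ φ0 s) (XX P (gf P (gm γ φ0 s)))|) (𝓝 s0)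
        (𝓝 |emm φ0 (XX P ψ0)|) := ((hcc.tendsto φ0).comp hgt).abs
    exact (this.eventually_lt_const (lt_add_one _)).mono fun s hs => hs.le
  -- everything together
  set c0 := |b| / 2 with hc0
  have hc0pos : 0 < c0 := by positivity
  set A1 := ell φ0 (XX P φ0) / 2 with hA1
  set A2 := ell ψ0 (XX P ψ0) / 2 with hA2
  have hA1pos : 0 < A1 := by positivity
  have hA2pos : 0 < A2 := by positivity
  have hchain : ∀ᶠ s in 𝓝 s0, A2 * m * (A1 * (c0 * |s - s0|)) ≤
      (|Rf P φ0| * C1) * (|emm φ0 (XX P ψ0)| * C2 * |gm γ φ0 s - φ0|) := by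
    filter_upwards [hlin, hgt.eventually (h.det_lower' φ0), h.gm_near hs, hgft.eventually hlow',
      hgft.eventually (h.det_lower' ψ0), hC1, hC2] with s e1 e2 e3 e4 e5 e6 e7
    set φ := gm γ φ0 s with hφ
    set ψ := gf P φ with hψ
    have f1 : c0 * |s - s0| ≤ |emm φ0 (P φ - P φ0)| := by rw [← e3, ← hs]; exact e1
    -- first determinant
    have f2 : |dt (XX P φ0) (XX P φ)| ≤ |Rf P φ0| * C1 * |ψ - ψ0| := by
      rw [h.X_repr φ0, h.X_repr φ, dt_smul, abs_mul, abs_mul]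
      have hR : 0 ≤ |Rf P φ0| * C1 := mul_nonneg (abs_nonneg _) ((abs_nonneg _).trans e6)
      exact mul_le_mul (mul_le_mul_of_nonneg_left e6 (abs_nonneg _)) Real.abs_sin_le_abs
        (abs_nonneg _) hR
    -- second determinant
    have f3 : |dt (XX P ψ0) (XX P ψ)| ≤ |emm φ0 (XX P ψ0)| * C2 * |φ - φ0| := by
      have g1 : XX P ψ0 = emm φ0 (XX P ψ0) • tt φ0 := by
        have h1 := h.radon' φ0
        rw [← hψ0] at h1
        apply eq_of_comp φ0
        · rw [h1, ell_smul, ell_tt, mul_zero]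
        · rw [emm_smul, emm_tt, mul_one]
      have g2 : XX P ψ = emm φ (XX P ψ) • tt φ := by
        have h1 := h.radon' φ
        rw [← hψ] at h1
        apply eq_of_comp φ
        · rw [h1, ell_smul, ell_tt, mul_zero]
        · rw [emm_smul, emm_tt, mul_one]
      have g3 : |dt (XX P ψ0) (XX P ψ)| =
          |emm φ0 (XX P ψ0)| * |emm φ (XX P ψ)| * |Real.sin (φ - φ0)| := by
        conv_lhs => rw [g1, g2]
        rw [dt_smul, abs_mul, abs_mul]
      rw [g3]
      have hR : 0 ≤ |emm φ0 (XX P ψ0)| * C2 := mul_nonneg (abs_nonneg _) ((abs_nonneg _).trans e7)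
      exact mul_le_mul (mul_le_mul_of_nonneg_left e7 (abs_nonneg _)) Real.abs_sin_le_abs
        (abs_nonneg _) hR
    have f4 : A1 * (c0 * |s - s0|) ≤ |Rf P φ0| * C1 * |ψ - ψ0| :=
      (mul_le_mul_of_nonneg_left f1 hA1pos.le).trans (e2.trans f2)
    have f5 : A2 * (m * |ψ - ψ0|) ≤ |emm φ0 (XX P ψ0)| * C2 * |φ - φ0| :=
      (mul_le_mul_of_nonneg_left e4 hA2pos.le).trans (e5.trans f3)
    have hR : 0 ≤ |Rf P φ0| * C1 := mul_nonneg (abs_nonneg _) ((abs_nonneg _).trans e6)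
    calc A2 * m * (A1 * (c0 * |s - s0|)) ≤ A2 * m * (|Rf P φ0| * C1 * |ψ - ψ0|) :=
          mul_le_mul_of_nonneg_left f4 (by positivity)
      _ = (|Rf P φ0| * C1) * (A2 * (m * |ψ - ψ0|)) := by ring
      _ ≤ _ := mul_le_mul_of_nonneg_left f5 hR
  -- contradiction
  set D := A2 * m * (A1 * c0) with hD
  have hDpos : 0 < D := by positivity
  set E := (|Rf P φ0| * C1) * (|emm φ0 (XX P ψ0)| * C2) with hE
  have hsmall := hδo.bound (c := D / (2 * (|E| + 1))) (by positivity)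
  have hfinal : ∀ᶠ s in 𝓝 s0, s = s0 := by
    filter_upwards [hchain, hsmall] with s e1 e2
    rw [Real.norm_eq_abs, Real.norm_eq_abs] at e2
    by_contra hne
    have hpos : 0 < |s - s0| := abs_pos.2 (sub_ne_zero.2 hne)
    have g1 : D * |s - s0| ≤ E * |gm γ φ0 s - φ0| := by
      rw [hD, hE]; linarith [e1]
    have g2 : E * |gm γ φ0 s - φ0| ≤ (|E| + 1) * (D / (2 * (|E| + 1)) * |s - s0|) := by
      have hE1 : E ≤ |E| + 1 := by linarith [le_abs_self E]
      calc E * |gm γ φ0 s - φ0| ≤ (|E| + 1) * |gm γ φ0 s - φ0| :=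
            mul_le_mul_of_nonneg_right hE1 (abs_nonneg _)
        _ ≤ _ := mul_le_mul_of_nonneg_left e2 (by positivity)
    have g3 : (|E| + 1) * (D / (2 * (|E| + 1)) * |s - s0|) = D / 2 * |s - s0| := by
      field_simp
    rw [g3] at g2
    nlinarith
  obtain ⟨ε, hε, hb⟩ := Metric.eventually_nhds_iff_ball.1 hfinal
  have := hb (s0 + ε / 2) (by
    rw [Metric.mem_ball, Real.dist_eq, add_sub_cancel_left, abs_of_pos (by positivity)]
    linarith)
  linarith

end

end Pool.Agent.H664.OvalGeom
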