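import Mathlib

open Topology Filter Set Asymptotics

namespace Pool.Agent.H664.OvalJets

/-- integration of little-o bounds -/
lemma isLittleO_pow_of_deriv {F x' H : ℝ → ℝ} {m : ℕ} {C : ℝ}
    (hF : ∀ᶠ u in 𝓝 (0:ℝ), HasDerivAt F (x' u * H u) u) (hF0 : F 0 = 0)
    (hx : ∀ᶠ u in 𝓝 (0:ℝ), |x' u| ≤ C)
    (hH : H =o[𝓝 0] fun u => u ^ m) : F =o[𝓝 0] fun u => u ^ (m + 1) := by
  have hC : 0 ≤ C := by
    obtain ⟨u, hu⟩ := hx.exists
    exact (abs_nonneg _).trans hu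
  rw [isLittleO_iff]
  intro c hc
  rw [isLittleO_iff] at hH
  have h1 := hH (c := c / (C + 1)) (by positivity)
  have h2 := (hF.and hx).and h1
  rw [Metric.eventually_nhds_iff_ball] at h2
  obtain ⟨ε, hε, hb⟩ := h2
  refine Metric.eventually_nhds_iff_ball.2 ⟨ε, hε, fun u hu => ?_⟩
  have hseg : ∀ y ∈ segment ℝ (0:ℝ) u, y ∈ Metric.ball (0:ℝ) ε ∧ |y| ≤ |u| := by
    intro y hy
    have hy' : |y| ≤ |u| := by
      rw [segment_eq_uIcc] at hy
      rcases le_total 0 u with h | h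
      · rw [uIcc_of_le h] at hy
        rw [abs_of_nonneg hy.1, abs_of_nonneg h]; exact hy.2
      · rw [uIcc_of_ge h] at hy
        rw [abs_of_nonpos hy.2, abs_of_nonpos h]; linarith [hy.1]
    refine ⟨?_, hy'⟩
    rw [Metric.mem_ball, dist_zero_right, Real.norm_eq_abs] at hu ⊢
    linarith
  have hbound : ∀ y ∈ segment ℝ (0:ℝ) u, ‖x' y * H y‖ ≤ c * |u| ^ m := by
    intro y hy
    obtain ⟨hyb, hyu⟩ := hseg y hy
    obtain ⟨⟨_, h4⟩, h5⟩ := hb y hyb
    rw [norm_mul, Real.norm_eq_abs]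
    have h6 : ‖y ^ m‖ ≤ |u| ^ m := by
      rw [norm_pow, Real.norm_eq_abs]
      exact pow_le_pow_left₀ (abs_nonneg _) hyu _
    calc |x' y| * ‖H y‖ ≤ C * (c / (C + 1) * |u| ^ m) := by
          refine mul_le_mul h4 (h5.trans ?_) (norm_nonneg _) hC
          exact mul_le_mul_of_nonneg_left h6 (by positivity)
      _ = (C / (C + 1)) * (c * |u| ^ m) := by ring
      _ ≤ 1 * (c * |u| ^ m) := by
          refine mul_le_mul_of_nonneg_right ?_ (by positivity)
          rw [div_le_one (by positivity)]; linarith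
      _ = c * |u| ^ m := one_mul _
  have h3 := (convex_segment (0:ℝ) u).norm_image_sub_le_of_norm_hasDerivWithin_le
    (f := F) (f' := fun y => x' y * H y) (C := c * |u| ^ m)
    (fun y hy => (hb y (hseg y hy).1).1.1.hasDerivWithinAt) hbound
    (left_mem_segment ℝ 0 u) (right_mem_segment ℝ 0 u)
  rw [hF0, sub_zero, sub_zero] at h3
  calc ‖F u‖ ≤ c * |u| ^ m * ‖u‖ := h3
    _ = c * ‖u ^ (m + 1)‖ := by
        rw [norm_pow, Real.norm_eq_abs]; ring

/-- Taylor expansion with respect to another function -/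
lemma taylor_x {x x' G0 G1 G2 G3 G4 G5 : ℝ → ℝ} {C : ℝ}
    (hx0 : x 0 = 0) (hx : ∀ᶠ u in 𝓝 (0:ℝ), HasDerivAt x (x' u) u)
    (hC : ∀ᶠ u in 𝓝 (0:ℝ), |x' u| ≤ C)
    (h0 : ∀ᶠ u in 𝓝 (0:ℝ), HasDerivAt G0 (x' u * G1 u) u)
    (h1 : ∀ᶠ u in 𝓝 (0:ℝ), HasDerivAt G1 (x' u * G2 u) u)
    (h2 : ∀ᶠ u in 𝓝 (0:ℝ), HasDerivAt G2 (x' u * G3 u) u)
    (h3 : ∀ᶠ u in 𝓝 (0:ℝ), HasDerivAt G3 (x' u * G4 u) u)
    (h4 : ∀ᶠ u in 𝓝 (0:ℝ), HasDerivAt G4 (x' u * G5 u) u)
    (h5 : ContinuousAt G5 0) :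
    (fun u => G0 u - (G0 0 + G1 0 * x u + G2 0 * x u ^ 2 / 2 + G3 0 * x u ^ 3 / 6 +
      G4 0 * x u ^ 4 / 24 + G5 0 * x u ^ 5 / 120)) =o[𝓝 0] fun u => u ^ 5 := by
  have e5 : (fun u => G5 u - G5 0) =o[𝓝 0] fun u : ℝ => u ^ 0 := by
    have : (fun u : ℝ => u ^ 0) = fun _ => (1:ℝ) := by ext u; simp
    rw [this, isLittleO_one_iff]
    have := h5.tendsto.sub_const (G5 0)
    rwa [sub_self] at this
  have e4 : (fun u => G4 u - (G4 0 + G5 0 * x u)) =o[𝓝 0] fun u => u ^ 1 := by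
    refine isLittleO_pow_of_deriv (x' := x') (C := C) ?_ (by simp [hx0]) hC e5
    filter_upwards [hx, h4] with u hu hu4
    exact (hu4.sub ((hu.const_mul (G5 0)).const_add (G4 0))).congr_deriv (by ring)
  have e3 : (fun u => G3 u - (G3 0 + G4 0 * x u + G5 0 * x u ^ 2 / 2)) =o[𝓝 0]
      fun u => u ^ 2 := by
    refine isLittleO_pow_of_deriv (x' := x') (C := C) ?_ (by simp [hx0]) hC e4
    filter_upwards [hx, h3] with u hu hu4
    exact (hu4.sub (((hu.const_mul (G4 0)).const_add (G3 0)).add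
      (((hu.pow 2).const_mul (G5 0)).div_const 2))).congr_deriv (by push_cast; ring)
  have e2 : (fun u => G2 u - (G2 0 + G3 0 * x u + G4 0 * x u ^ 2 / 2 + G5 0 * x u ^ 3 / 6))
      =o[𝓝 0] fun u => u ^ 3 := by
    refine isLittleO_pow_of_deriv (x' := x') (C := C) ?_ (by simp [hx0]) hC e3
    filter_upwards [hx, h2] with u hu hu4
    exact (hu4.sub ((((hu.const_mul (G3 0)).const_add (G2 0)).add
      (((hu.pow 2).const_mul (G4 0)).div_const 2)).add
      (((hu.pow 3).const_mul (G5 0)).div_const 6))).congr_deriv (by push_cast; ring)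
  have e1 : (fun u => G1 u - (G1 0 + G2 0 * x u + G3 0 * x u ^ 2 / 2 + G4 0 * x u ^ 3 / 6 +
      G5 0 * x u ^ 4 / 24)) =o[𝓝 0] fun u => u ^ 4 := by
    refine isLittleO_pow_of_deriv (x' := x') (C := C) ?_ (by simp [hx0]) hC e2
    filter_upwards [hx, h1] with u hu hu4
    exact (hu4.sub (((((hu.const_mul (G2 0)).const_add (G1 0)).add
      (((hu.pow 2).const_mul (G3 0)).div_const 2)).add
      (((hu.pow 3).const_mul (G4 0)).div_const 6)).add
      (((hu.pow 4).const_mul (G5 0)).div_const 24))).congr_deriv (by push_cast; ring)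
  refine isLittleO_pow_of_deriv (x' := x') (C := C) ?_ (by simp [hx0]) hC e1
  filter_upwards [hx, h0] with u hu hu4
  exact (hu4.sub ((((((hu.const_mul (G1 0)).const_add (G0 0)).add
    (((hu.pow 2).const_mul (G2 0)).div_const 2)).add
    (((hu.pow 3).const_mul (G3 0)).div_const 6)).add
    (((hu.pow 4).const_mul (G4 0)).div_const 24)).add
    (((hu.pow 5).const_mul (G5 0)).div_const 120))).congr_deriv (by push_cast; ring)

/-- the partner point on the other side of the minimum -/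
lemma exists_partner {T : ℝ → ℝ} {t2 t3 t4 t5 : ℝ} (ht2 : 0 < t2)
    (hT : (fun x => T x - (t2 * x ^ 2 / 2 + t3 * x ^ 3 / 6 + t4 * x ^ 4 / 24 +
      t5 * x ^ 5 / 120)) =o[𝓝 0] fun x => x ^ 5)
    (hTc : ∀ᶠ x in 𝓝 (0:ℝ), ContinuousAt T x) :
    ∃ y : ℝ → ℝ, ∀ᶠ x in 𝓝[>] (0:ℝ), y x ∈ Icc (-(2 * x)) (-(x / 2)) ∧ T (y x) = T x := by
  have h1 : (fun x => T x - t2 * x ^ 2 / 2) =o[𝓝 0] fun x : ℝ => x ^ 2 := by
    have e : (fun x => T x - t2 * x ^ 2 / 2) = fun x =>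
        (T x - (t2 * x ^ 2 / 2 + t3 * x ^ 3 / 6 + t4 * x ^ 4 / 24 + t5 * x ^ 5 / 120)) +
        (t3 / 6 * x ^ 3 + t4 / 24 * x ^ 4 + t5 / 120 * x ^ 5) := by
      ext x; ring
    rw [e]
    have p3 : (fun x : ℝ => x ^ 3) =o[𝓝 0] fun x : ℝ => x ^ 2 := isLittleO_pow_pow (by norm_num)
    have p4 : (fun x : ℝ => x ^ 4) =o[𝓝 0] fun x : ℝ => x ^ 2 := isLittleO_pow_pow (by norm_num)
    have p5 : (fun x : ℝ => x ^ 5) =o[𝓝 0] fun x : ℝ => x ^ 2 := isLittleO_pow_pow (by norm_num)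
    exact (hT.trans p5).add (((p3.const_mul_left _).add (p4.const_mul_left _)).add
      (p5.const_mul_left _))
  have h2 := h1.bound (c := t2 / 8) (by positivity)
  obtain ⟨ε, hε, hb⟩ := Metric.eventually_nhds_iff_ball.1 (h2.and hTc)
  refine Filter.Eventually.choice (l := 𝓝[>] (0:ℝ))
    (r := fun x y => y ∈ Icc (-(2 * x)) (-(x / 2)) ∧ T y = T x) ?_
  have hev : ∀ᶠ x in 𝓝[>] (0:ℝ), x < ε / 2 :=
    (eventually_lt_nhds (by positivity)).filter_mono nhdsWithin_le_nhds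
  filter_upwards [hev, self_mem_nhdsWithin] with x hx hx0
  have hx0 : 0 < x := hx0
  have hball : ∀ y, |y| ≤ 2 * x → y ∈ Metric.ball (0:ℝ) ε := by
    intro y hy
    rw [Metric.mem_ball, dist_zero_right, Real.norm_eq_abs]; linarith
  have hest : ∀ y, |y| ≤ 2 * x → |T y - t2 * y ^ 2 / 2| ≤ t2 / 8 * y ^ 2 := by
    intro y hy
    have := (hb y (hball y hy)).1
    rw [Real.norm_eq_abs, norm_pow, Real.norm_eq_abs, sq_abs] at this
    exact this
  have ha := abs_le.1 (hest x (by rw [abs_of_pos hx0]; linarith))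
  have hb1 := abs_le.1 (hest (-(2 * x)) (by rw [abs_neg, abs_of_pos (by linarith)]))
  have hc := abs_le.1 (hest (-(x / 2)) (by rw [abs_neg, abs_of_pos (by linarith)]; linarith))
  have hcont : ContinuousOn T (Icc (-(2 * x)) (-(x / 2))) := by
    intro y hy
    have : |y| ≤ 2 * x := by
      rw [abs_le]; exact ⟨hy.1, by linarith [hy.2]⟩
    exact (hb y (hball y this)).2.continuousWithinAt
  have hpos : 0 < t2 * x ^ 2 := by positivity
  have hmem : T x ∈ Icc (T (-(x / 2))) (T (-(2 * x))) := by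
    constructor
    · nlinarith [ha.1, hc.2]
    · nlinarith [ha.2, hb1.1]
  obtain ⟨y, hy, hTy⟩ := intermediate_value_Icc' (by linarith) hcont hmem
  exact ⟨y, hy, hTy⟩

lemma quot_littleO {T y : ℝ → ℝ} {t2 t3 t4 t5 : ℝ}
    (hT : (fun x => T x - (t2 * x ^ 2 / 2 + t3 * x ^ 3 / 6 + t4 * x ^ 4 / 24 +
      t5 * x ^ 5 / 120)) =o[𝓝 0] fun x => x ^ 5)
    (hy : ∀ᶠ x in 𝓝[>] (0:ℝ), y x ∈ Icc (-(2 * x)) (-(x / 2)))
    (hTy : ∀ᶠ x in 𝓝[>] (0:ℝ), T (y x) = T x) :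
    Tendsto (fun x => (t2 / 2 * (x + y x) + t3 / 6 * (x ^ 2 + x * y x + y x ^ 2) +
      t4 / 24 * (x ^ 3 + x ^ 2 * y x + x * y x ^ 2 + y x ^ 3) +
      t5 / 120 * (x ^ 4 + x ^ 3 * y x + x ^ 2 * y x ^ 2 + x * y x ^ 3 + y x ^ 4)) / x ^ 4)
      (𝓝[>] 0) (𝓝 0) := by
  have hy0 : Tendsto y (𝓝[>] (0:ℝ)) (𝓝 0) := by
    have h1 : Tendsto (fun x : ℝ => -(2 * x)) (𝓝[>] (0:ℝ)) (𝓝 0) := by
      have : Tendsto (fun x : ℝ => -(2 * x)) (𝓝 (0:ℝ)) (𝓝 (-(2 * 0))) :=
        (continuous_const.mul continuous_id).neg.tendsto 0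
      rw [mul_zero, neg_zero] at this
      exact this.mono_left nhdsWithin_le_nhds
    have h2 : Tendsto (fun x : ℝ => -(x / 2)) (𝓝[>] (0:ℝ)) (𝓝 0) := by
      have : Tendsto (fun x : ℝ => -(x / 2)) (𝓝 (0:ℝ)) (𝓝 (-(0 / 2))) :=
        (continuous_id.div_const 2).neg.tendsto 0
      rw [zero_div, neg_zero] at this
      exact this.mono_left nhdsWithin_le_nhds
    exact tendsto_of_tendsto_of_tendsto_of_le_of_le' h1 h2 (hy.mono fun x hx => hx.1)
      (hy.mono fun x hx => hx.2)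
  have r1 := hT.mono (nhdsWithin_le_nhds (s := Ioi (0:ℝ)))
  have r2 : (fun x => T (y x) - (t2 * y x ^ 2 / 2 + t3 * y x ^ 3 / 6 + t4 * y x ^ 4 / 24 +
      t5 * y x ^ 5 / 120)) =o[𝓝[>] 0] fun x => x ^ 5 := by
    have h1 := hT.comp_tendsto hy0
    refine h1.trans_isBigO ?_
    refine IsBigO.of_bound (2 ^ 5) ?_
    filter_upwards [hy, self_mem_nhdsWithin] with x hx hx0
    have hx0 : 0 < x := hx0
    simp only [Function.comp]
    rw [norm_pow, norm_pow, ← mul_pow]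
    refine pow_le_pow_left₀ (norm_nonneg _) ?_ 5
    rw [Real.norm_eq_abs, Real.norm_eq_abs, abs_of_pos hx0, abs_le]
    exact ⟨by linarith [hx.1], by linarith [hx.2]⟩
  have r3 := (r2.sub r1)
  rw [isLittleO_iff] at r3
  rw [tendsto_zero_iff_norm_tendsto_zero]
  rw [Metric.tendsto_nhds]
  intro ε hε
  have r4 := r3 (c := ε / 2) (by positivity)
  filter_upwards [r4, hy, hTy, self_mem_nhdsWithin] with x hx hyx hTx hx0
  have hx0 : 0 < x := hx0
  rw [hTx] at hx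
  have hxy : 0 < x - y x := by linarith [hyx.2]
  have hxy2 : x ≤ x - y x := by linarith [hyx.2]
  set S := t2 / 2 * (x + y x) + t3 / 6 * (x ^ 2 + x * y x + y x ^ 2) +
      t4 / 24 * (x ^ 3 + x ^ 2 * y x + x * y x ^ 2 + y x ^ 3) +
      t5 / 120 * (x ^ 4 + x ^ 3 * y x + x ^ 2 * y x ^ 2 + x * y x ^ 3 + y x ^ 4) with hS
  have e : T x - (t2 * y x ^ 2 / 2 + t3 * y x ^ 3 / 6 + t4 * y x ^ 4 / 24 + t5 * y x ^ 5 / 120) -
      (T x - (t2 * x ^ 2 / 2 + t3 * x ^ 3 / 6 + t4 * x ^ 4 / 24 + t5 * x ^ 5 / 120)) =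
      (x - y x) * S := by rw [hS]; ring
  rw [e, norm_mul, Real.norm_eq_abs, Real.norm_eq_abs, abs_of_pos hxy, norm_pow,
    Real.norm_eq_abs, abs_of_pos hx0] at hx
  rw [dist_zero_right, norm_norm, Real.norm_eq_abs, abs_div, abs_of_pos (by positivity : 0 < x ^ 4),
    div_lt_iff₀ (by positivity)]
  have h5 : x * |S| ≤ ε / 2 * x ^ 5 :=
    (mul_le_mul_of_nonneg_right hxy2 (abs_nonneg _)).trans hx
  have h6 : x * |S| ≤ x * (ε / 2 * x ^ 4) := by linarith [h5, (by ring : ε / 2 * x ^ 5 = x * (ε / 2 * x ^ 4))]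
  have h7 := le_of_mul_le_mul_left h6 hx0
  have h8 : 0 < x ^ 4 := by positivity
  nlinarith

theorem jets {T B : ℝ → ℝ} {t2 t3 t4 t5 b2 b3 b4 b5 : ℝ} (ht2 : 0 < t2)
    (hT : (fun x => T x - (t2 * x ^ 2 / 2 + t3 * x ^ 3 / 6 + t4 * x ^ 4 / 24 +
      t5 * x ^ 5 / 120)) =o[𝓝 0] fun x => x ^ 5)
    (hB : (fun x => B x - (b2 * x ^ 2 / 2 + b3 * x ^ 3 / 6 + b4 * x ^ 4 / 24 +
      b5 * x ^ 5 / 120)) =o[𝓝 0] fun x => x ^ 5)
    (hTc : ∀ᶠ x in 𝓝 (0:ℝ), ContinuousAt T x)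
    (hC : ∃ ε > 0, ∀ x y : ℝ, |x| < ε → |y| < ε → T x = T y → B x = B y) :
    t3 * b2 = b3 * t2 ∧ 3 * t2 * (t5 * b2 - b5 * t2) = 10 * t3 * (t4 * b2 - b4 * t2) := by
  obtain ⟨y, hy⟩ := exists_partner ht2 hT hTc
  have hyI := hy.mono fun x hx => hx.1
  have hyT := hy.mono fun x hx => hx.2
  have hyB : ∀ᶠ x in 𝓝[>] (0:ℝ), B (y x) = B x := by
    obtain ⟨ε, hε, h⟩ := hC
    have hev : ∀ᶠ x in 𝓝[>] (0:ℝ), x < ε / 2 :=
      (eventually_lt_nhds (by positivity)).filter_mono nhdsWithin_le_nhds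
    filter_upwards [hy, hev, self_mem_nhdsWithin] with x hx hx1 hx0
    have hx0 : 0 < x := hx0
    refine h _ _ ?_ ?_ hx.2
    · rw [abs_lt]; exact ⟨by linarith [hx.1.1], by linarith [hx.1.2]⟩
    · rw [abs_lt]; exact ⟨by linarith, by linarith⟩
  have ST := quot_littleO hT hyI hyT
  have SB := quot_littleO hB hyI hyB
  have hx0 : Tendsto (fun x : ℝ => x) (𝓝[>] (0:ℝ)) (𝓝 0) := tendsto_id.mono_left nhdsWithin_le_nhds
  -- the ratio tends to -1
  set r : ℝ → ℝ := fun x => y x / x with hr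
  have hpos : ∀ᶠ x in 𝓝[>] (0:ℝ), 0 < x := self_mem_nhdsWithin
  have hrb : ∀ᶠ x in 𝓝[>] (0:ℝ), |r x| ≤ 2 := by
    filter_upwards [hyI, hpos] with x hx hx0
    rw [hr]; simp only
    rw [abs_div, abs_of_pos hx0, div_le_iff₀ hx0, abs_le]
    exact ⟨by linarith [hx.1], by linarith [hx.2]⟩
  have hr1 : Tendsto r (𝓝[>] 0) (𝓝 (-1)) := by
    have h1 : Tendsto (fun x => 1 + r x) (𝓝[>] 0) (𝓝 0) := by
      have h2 : Tendsto (fun x : ℝ => 2 / t2 * (x ^ 3 * ((t2 / 2 * (x + y x) +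
          t3 / 6 * (x ^ 2 + x * y x + y x ^ 2) +
          t4 / 24 * (x ^ 3 + x ^ 2 * y x + x * y x ^ 2 + y x ^ 3) +
          t5 / 120 * (x ^ 4 + x ^ 3 * y x + x ^ 2 * y x ^ 2 + x * y x ^ 3 + y x ^ 4)) / x ^ 4)))
          (𝓝[>] 0) (𝓝 0) := by
        have := ((hx0.pow 3).mul ST).const_mul (2 / t2)
        simpa using this
      have h3 : Tendsto (fun x : ℝ => 2 / t2 * (x * (t3 / 6 * (1 + r x + r x ^ 2) +
          t4 / 24 * (x * (1 + r x + r x ^ 2 + r x ^ 3)) +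
          t5 / 120 * (x ^ 2 * (1 + r x + r x ^ 2 + r x ^ 3 + r x ^ 4))))) (𝓝[>] 0) (𝓝 0) := by
        have hC0 : ∀ᶠ x in 𝓝[>] (0:ℝ), ‖2 / t2 * (x * (t3 / 6 * (1 + r x + r x ^ 2) +
          t4 / 24 * (x * (1 + r x + r x ^ 2 + r x ^ 3)) +
          t5 / 120 * (x ^ 2 * (1 + r x + r x ^ 2 + r x ^ 3 + r x ^ 4))))‖ ≤
          (2 / t2 * (|t3| * 7 + |t4| * 15 + |t5| * 31)) * x := by
          have hx1 : ∀ᶠ x in 𝓝[>] (0:ℝ), x < 1 :=
            (eventually_lt_nhds one_pos).filter_mono nhdsWithin_le_nhds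
          filter_upwards [hrb, hpos, hx1] with x hrx hx hx1
          have q2 : |r x ^ 2| ≤ 4 := by
            rw [abs_pow]; calc |r x| ^ 2 ≤ 2 ^ 2 := pow_le_pow_left₀ (abs_nonneg _) hrx 2
              _ = 4 := by norm_num
          have q3 : |r x ^ 3| ≤ 8 := by
            rw [abs_pow]; calc |r x| ^ 3 ≤ 2 ^ 3 := pow_le_pow_left₀ (abs_nonneg _) hrx 3
              _ = 8 := by norm_num
          have q4 : |r x ^ 4| ≤ 16 := by
            rw [abs_pow]; calc |r x| ^ 4 ≤ 2 ^ 4 := pow_le_pow_left₀ (abs_nonneg _) hrx 4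
              _ = 16 := by norm_num
          have a2 : |1 + r x + r x ^ 2| ≤ 7 := by
            rw [abs_le] at *; constructor <;> linarith
          have a3 : |1 + r x + r x ^ 2 + r x ^ 3| ≤ 15 := by
            rw [abs_le] at *; constructor <;> linarith
          have a4 : |1 + r x + r x ^ 2 + r x ^ 3 + r x ^ 4| ≤ 31 := by
            rw [abs_le] at *; constructor <;> linarith
          have b2 : |t3 / 6 * (1 + r x + r x ^ 2)| ≤ |t3| * 7 := by
            rw [abs_mul]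
            refine mul_le_mul ?_ a2 (abs_nonneg _) (abs_nonneg _)
            rw [abs_div, abs_of_pos (by norm_num : (0:ℝ) < 6)]
            linarith [abs_nonneg t3]
          have b3 : |t4 / 24 * (x * (1 + r x + r x ^ 2 + r x ^ 3))| ≤ |t4| * 15 := by
            rw [abs_mul, abs_mul, abs_of_pos hx]
            refine mul_le_mul ?_ ?_ (by positivity) (abs_nonneg _)
            · rw [abs_div, abs_of_pos (by norm_num : (0:ℝ) < 24)]
              linarith [abs_nonneg t4]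
            · calc x * _ ≤ 1 * 15 := mul_le_mul hx1.le a3 (abs_nonneg _) zero_le_one
                _ = 15 := one_mul _
          have b4 : |t5 / 120 * (x ^ 2 * (1 + r x + r x ^ 2 + r x ^ 3 + r x ^ 4))| ≤
              |t5| * 31 := by
            rw [abs_mul, abs_mul, abs_of_pos (by positivity : 0 < x ^ 2)]
            refine mul_le_mul ?_ ?_ (by positivity) (abs_nonneg _)
            · rw [abs_div, abs_of_pos (by norm_num : (0:ℝ) < 120)]
              linarith [abs_nonneg t5]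
            · have : x ^ 2 ≤ 1 := by nlinarith
              calc x ^ 2 * _ ≤ 1 * 31 := mul_le_mul this a4 (abs_nonneg _) zero_le_one
                _ = 31 := one_mul _
          rw [Real.norm_eq_abs, abs_mul, abs_of_pos (by positivity : 0 < 2 / t2), abs_mul,
            abs_of_pos hx, mul_assoc, mul_comm x]
          refine mul_le_mul_of_nonneg_left ?_ (by positivity)
          refine mul_le_mul_of_nonneg_right ?_ hx.le
          exact (abs_add_three _ _ _).trans (by linarith)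
        refine squeeze_zero_norm' hC0 ?_
        have := hx0.const_mul (2 / t2 * (|t3| * 7 + |t4| * 15 + |t5| * 31))
        simpa using this
      have h4 := h2.sub h3
      rw [sub_zero] at h4
      refine h4.congr' ?_
      filter_upwards [hpos] with x hx
      rw [hr]; simp only
      field_simp
      ring
    have h5 := h1.sub_const 1
    rw [zero_sub] at h5
    refine h5.congr fun x => by ring
  -- second order behaviour
  set δ : ℝ → ℝ := fun x => (1 + r x) / x with hδ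
  have hδ1 : Tendsto δ (𝓝[>] 0) (𝓝 (-t3 / (3 * t2))) := by
    have h2 : Tendsto (fun x : ℝ => 2 / t2 * (x ^ 2 * ((t2 / 2 * (x + y x) +
          t3 / 6 * (x ^ 2 + x * y x + y x ^ 2) +
          t4 / 24 * (x ^ 3 + x ^ 2 * y x + x * y x ^ 2 + y x ^ 3) +
          t5 / 120 * (x ^ 4 + x ^ 3 * y x + x ^ 2 * y x ^ 2 + x * y x ^ 3 + y x ^ 4)) / x ^ 4)))
          (𝓝[>] 0) (𝓝 0) := by
      have := ((hx0.pow 2).mul ST).const_mul (2 / t2)
      simpa using this
    have h3 : Tendsto (fun x : ℝ => 2 / t2 * (t3 / 6 * (1 + r x + r x ^ 2) +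
          t4 / 24 * (x * (1 + r x + r x ^ 2 + r x ^ 3)) +
          t5 / 120 * (x ^ 2 * (1 + r x + r x ^ 2 + r x ^ 3 + r x ^ 4)))) (𝓝[>] 0)
          (𝓝 (t3 / (3 * t2))) := by
      have p2 := (hr1.const_add 1).add (hr1.pow 2)
      have p3 := p2.add (hr1.pow 3)
      have p4 := p3.add (hr1.pow 4)
      have := (((p2.const_mul (t3 / 6)).add ((hx0.mul p3).const_mul (t4 / 24))).add
        (((hx0.pow 2).mul p4).const_mul (t5 / 120))).const_mul (2 / t2)
      refine this.trans (le_of_eq ?_)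
      congr 1
      field_simp
      ring
    have h4 := h2.sub h3
    rw [zero_sub] at h4
    rw [neg_div]
    refine h4.congr' ?_
    filter_upwards [hpos] with x hx
    rw [hδ, hr]; simp only
    field_simp
    ring
  -- comparison
  have hcomb := (ST.const_mul b2).sub (SB.const_mul t2)
  rw [mul_zero, mul_zero, sub_zero] at hcomb
  have p2 := (hr1.const_add 1).add (hr1.pow 2)
  have p3 := p2.add (hr1.pow 3)
  have p4 := p3.add (hr1.pow 4)
  have hR3 : (t3 * b2 - b3 * t2) / 6 = 0 := by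
    have k1 := (hx0.pow 2).mul hcomb
    have k2 : Tendsto (fun x : ℝ => (t3 * b2 - b3 * t2) / 6 * (1 + r x + r x ^ 2) +
        (t4 * b2 - b4 * t2) / 24 * (x * (1 + r x + r x ^ 2 + r x ^ 3)) +
        (t5 * b2 - b5 * t2) / 120 * (x ^ 2 * (1 + r x + r x ^ 2 + r x ^ 3 + r x ^ 4)))
        (𝓝[>] 0) (𝓝 ((t3 * b2 - b3 * t2) / 6)) := by
      have := (((p2.const_mul ((t3 * b2 - b3 * t2) / 6)).add
        ((hx0.mul p3).const_mul ((t4 * b2 - b4 * t2) / 24))).add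
        (((hx0.pow 2).mul p4).const_mul ((t5 * b2 - b5 * t2) / 120)))
      refine this.trans (le_of_eq ?_)
      congr 1
      ring
    refine tendsto_nhds_unique k2 ?_
    have k3 : Tendsto (fun x : ℝ => x ^ 2 * (b2 * ((t2 / 2 * (x + y x) +
          t3 / 6 * (x ^ 2 + x * y x + y x ^ 2) +
          t4 / 24 * (x ^ 3 + x ^ 2 * y x + x * y x ^ 2 + y x ^ 3) +
          t5 / 120 * (x ^ 4 + x ^ 3 * y x + x ^ 2 * y x ^ 2 + x * y x ^ 3 + y x ^ 4)) / x ^ 4) -
          t2 * ((b2 / 2 * (x + y x) +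
          b3 / 6 * (x ^ 2 + x * y x + y x ^ 2) +
          b4 / 24 * (x ^ 3 + x ^ 2 * y x + x * y x ^ 2 + y x ^ 3) +
          b5 / 120 * (x ^ 4 + x ^ 3 * y x + x ^ 2 * y x ^ 2 + x * y x ^ 3 + y x ^ 4)) / x ^ 4)))
          (𝓝[>] 0) (𝓝 0) := by
      refine k1.trans (le_of_eq ?_)
      congr 1
      ring
    refine k3.congr' ?_
    filter_upwards [hpos] with x hx
    rw [hr]; simp only
    field_simp
    ring
  have hR3' : t3 * b2 = b3 * t2 := by linarith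
  refine ⟨hR3', ?_⟩
  have k2 : Tendsto (fun x : ℝ => (t4 * b2 - b4 * t2) / 24 * (δ x * (1 + r x ^ 2)) +
        (t5 * b2 - b5 * t2) / 120 * (1 + r x + r x ^ 2 + r x ^ 3 + r x ^ 4))
        (𝓝[>] 0) (𝓝 ((t4 * b2 - b4 * t2) / 24 * (-t3 / (3 * t2) * 2) +
          (t5 * b2 - b5 * t2) / 120)) := by
      have := ((hδ1.mul ((hr1.pow 2).const_add 1)).const_mul ((t4 * b2 - b4 * t2) / 24)).add
        (p4.const_mul ((t5 * b2 - b5 * t2) / 120))
      refine this.trans (le_of_eq ?_)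
      congr 1
      ring
  have k3 : (t4 * b2 - b4 * t2) / 24 * (-t3 / (3 * t2) * 2) +
          (t5 * b2 - b5 * t2) / 120 = 0 := by
    refine tendsto_nhds_unique k2 (hcomb.congr' ?_)
    filter_upwards [hpos] with x hx
    have e : b3 = t3 * b2 / t2 := by field_simp; linarith
    rw [hδ, hr, e]; simp only
    field_simp
    ring
  field_simp at k3
  linarith

end Pool.Agent.H664.OvalJets
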