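import Pool.Agent.H664.OvalComm
import Pool.Agent.H664.OvalJets

open Topology Filter Set Asymptotics
open scoped Real ContDiff

namespace Pool.Agent.H664.OvalGeom

section

variable {K : Set (ℝ × ℝ)} {P γ : ℝ → ℝ × ℝ}

theorem Supp.continuous (h : Supp K P) (hKc : IsCompact K) : Continuous P := by
  rw [continuous_iff_continuousAt]
  intro φ0
  refine hKc.tendsto_nhds_of_unique_mapClusterPt (Eventually.of_forall h.mem) fun y hy hcl => ?_
  refine h.eq_of_le hy ?_
  by_contra hcon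
  rw [not_le] at hcon
  -- strict inequality persists
  have hc1 : Continuous fun p : ℝ × (ℝ × ℝ) => ell p.1 p.2 - ell p.1 (P φ0) := by
    unfold ell; fun_prop
  have hev : ∀ᶠ p : ℝ × (ℝ × ℝ) in 𝓝 (φ0, y), ell p.1 p.2 - ell p.1 (P φ0) < 0 := by
    refine hc1.continuousAt.eventually_lt_const ?_
    simp only
    linarith
  rw [nhds_prod_eq] at hev
  obtain ⟨U, hU, V, hV, hUV⟩ := Filter.eventually_prod_iff.1 hev
  have h1 : ∃ᶠ φ in 𝓝 φ0, V (P φ) := by
    rw [mapClusterPt_iff_frequently] at hcl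
    exact hcl {z | V z} hV
  obtain ⟨φ, hφV, hφU⟩ := (h1.and_eventually hU).exists
  have h2 := hUV hφU hφV
  simp only at h2
  have h3 := h.le φ (h.mem φ0)
  linarith

/-- determinant -/
def dt (x y : ℝ × ℝ) : ℝ := x.1 * y.2 - x.2 * y.1

lemma dt_eq (φ : ℝ) (x y : ℝ × ℝ) : dt x y = ell φ x * emm φ y - emm φ x * ell φ y := by
  unfold dt ell emm
  linear_combination (-(x.1 * y.2 - x.2 * y.1)) * Real.sin_sq_add_cos_sq φ

lemma ell_shift (φ δ : ℝ) (v : ℝ × ℝ) :
    ell (φ + δ) v = Real.cos δ * ell φ v + Real.sin δ * emm φ v := by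
  unfold ell emm; rw [Real.cos_add, Real.sin_add]; ring

lemma emm_shift (φ δ : ℝ) (v : ℝ × ℝ) :
    emm (φ + δ) v = Real.cos δ * emm φ v - Real.sin δ * ell φ v := by
  unfold ell emm; rw [Real.cos_add, Real.sin_add]; ring

lemma Supp.basic (h : Supp K P) (φ0 δ : ℝ) :
    ell φ0 (P (φ0 + δ) - P φ0) ≤ 0 ∧
    0 ≤ Real.cos δ * ell φ0 (P (φ0 + δ) - P φ0) + Real.sin δ * emm φ0 (P (φ0 + δ) - P φ0) := by
  constructor
  · rw [ell_sub]; linarith [h.le φ0 (h.mem (φ0 + δ))]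
  · rw [← ell_shift, ell_sub]; linarith [h.le (φ0 + δ) (h.mem φ0)]

/-- the chord `X` turns at least as fast as the point moves -/
lemma Supp.det_lower (h : Supp K P) {φ0 δ : ℝ} (hw : 0 < ell φ0 (XX P φ0))
    (hsin : Real.sin δ ≠ 0) (hcos : 0 ≤ Real.cos δ)
    (hsmall : |emm φ0 (XX P φ0)| * |Real.sin δ| ≤ ell φ0 (XX P φ0) / 2 * Real.cos δ) :
    ell φ0 (XX P φ0) / 2 * |emm φ0 (P (φ0 + δ) - P φ0)| ≤ |dt (XX P φ0) (XX P (φ0 + δ))| := by
  obtain ⟨b1, b2⟩ := h.basic φ0 δ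
  obtain ⟨c1, c2⟩ := h.basic (φ0 + π) δ
  rw [ell_add_pi] at c1
  rw [ell_add_pi, emm_add_pi] at c2
  set w := ell φ0 (XX P φ0) with hwdef
  set w1 := emm φ0 (XX P φ0) with hw1def
  set α := -ell φ0 (P (φ0 + δ) - P φ0) with hα
  set β := emm φ0 (P (φ0 + δ) - P φ0) with hβ
  set α' := ell φ0 (P (φ0 + π + δ) - P (φ0 + π)) with hα'
  set β' := -emm φ0 (P (φ0 + π + δ) - P (φ0 + π)) with hβ'
  have e1 : ell φ0 (XX P (φ0 + δ)) = w - α - α' := by
    rw [hwdef, hα, hα', XX, XX, add_right_comm φ0 δ π]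
    simp only [ell_sub]; ring
  have e2 : emm φ0 (XX P (φ0 + δ)) = w1 + β + β' := by
    rw [hw1def, hβ, hβ', XX, XX, add_right_comm φ0 δ π]
    simp only [emm_sub]; ring
  have e3 : dt (XX P φ0) (XX P (φ0 + δ)) = w * (β + β') + w1 * (α + α') := by
    rw [dt_eq φ0, e1, e2, ← hwdef, ← hw1def]; ring
  rw [e3]
  set s := Real.sin δ with hs
  set c := Real.cos δ with hc
  have hα0 : 0 ≤ α := by linarith
  have hα0' : 0 ≤ α' := by linarith
  have hb : c * α ≤ s * β := by nlinarith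
  have hb' : c * α' ≤ s * β' := by nlinarith
  have hspos : 0 < |s| := abs_pos.2 hsin
  have key : w / 2 * |β| * |s| ≤ |w * (β + β') + w1 * (α + α')| * |s| := by
    rw [← abs_mul]
    have h1 : w / 2 * |β| * |s| = w / 2 * (s * β) := by
      have : 0 ≤ s * β := le_trans (by positivity) hb
      rw [mul_assoc, ← abs_mul, mul_comm β s, abs_of_nonneg this]
    rw [h1]
    refine le_trans ?_ (le_abs_self _)
    have h2 : -(w1 * s) * (α + α') ≤ w / 2 * c * (α + α') := by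
      refine mul_le_mul_of_nonneg_right ?_ (by positivity)
      refine le_trans ?_ hsmall
      rw [← abs_mul]
      exact neg_le_abs _
    have h3 : 0 ≤ s * β' := le_trans (by positivity) hb'
    nlinarith
  exact le_of_mul_le_mul_right key hspos

/-- second order estimate for the normal component along the curve -/
lemma Oval.quadratic (h : Oval K P γ) {s0 ψ : ℝ} (hs : γ s0 = P ψ) :
    ∃ C > 0, ∀ᶠ u in 𝓝 (0:ℝ), |ell ψ (γ (s0 + u) - γ s0)| ≤ C * u ^ 2 := by
  have hsm : ContDiff ℝ ∞ γ := h.smooth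
  have hd1 : ∀ s, HasDerivAt γ (deriv γ s) s := h.hasDerivAt_γ
  have hd2 : HasDerivAt (deriv γ) (deriv (deriv γ) s0) s0 := by
    have : ContDiff ℝ ∞ (deriv γ) := by
      have := contDiff_infty_iff_deriv.1 hsm
      exact this.2
    exact ((this.differentiable (by simp)) s0).hasDerivAt
  set c := ell ψ (deriv (deriv γ) s0) with hc
  have hF : (fun u => ell ψ (γ (s0 + u)) - ell ψ (γ s0) - c * u ^ 2 / 2) =o[𝓝 0]
      fun u => u ^ (1 + 1) := by
    refine Pool.Agent.H664.OvalJets.isLittleO_pow_of_deriv (x' := fun _ => 1)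
      (H := fun u => ell ψ (deriv γ (s0 + u)) - c * u) (C := 1) ?_ ?_ ?_ ?_
    · refine Eventually.of_forall fun u => ?_
      have h1 : HasDerivAt (fun u => ell ψ (γ (s0 + u))) (ell ψ (deriv γ (s0 + u))) u :=
        (hasDerivAt_ell_const ψ (hd1 (s0 + u))).comp_const_add s0 u
      have h2 := (((hasDerivAt_id u).pow 2).const_mul c).div_const 2
      refine ((h1.sub_const (ell ψ (γ s0))).sub h2).congr_deriv ?_
      simp only [id]; push_cast; ring
    · simp
    · exact Eventually.of_forall fun u => by simp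
    · have h1 : HasDerivAt (fun u => ell ψ (deriv γ (s0 + u))) c 0 := by
        have h2 : HasDerivAt (fun s => ell ψ (deriv γ s)) c (s0 + 0) := by
          rw [add_zero]; exact hasDerivAt_ell_const ψ hd2
        exact h2.comp_const_add s0 0
      have h3 := h1.isLittleO
      simp only [add_zero, h.tangent hs, sub_zero, smul_eq_mul] at h3
      refine h3.congr (fun u => by ring) (fun u => by ring)
  have h1 := hF.bound (c := 1) one_pos
  refine ⟨|c| / 2 + 1, by positivity, ?_⟩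
  filter_upwards [h1] with u hu
  rw [Real.norm_eq_abs, Real.norm_eq_abs, one_mul, abs_of_nonneg (Even.pow_nonneg (by decide) u : 0 ≤ u ^ (1 + 1))]
    at hu
  rw [ell_sub]
  have h2 : |ell ψ (γ (s0 + u)) - ell ψ (γ s0)| ≤
      |ell ψ (γ (s0 + u)) - ell ψ (γ s0) - c * u ^ 2 / 2| + |c * u ^ 2 / 2| := by
    have := abs_add_le (ell ψ (γ (s0 + u)) - ell ψ (γ s0) - c * u ^ 2 / 2) (c * u ^ 2 / 2)
    simpa using this
  have h3 : |c * u ^ 2 / 2| = |c| / 2 * u ^ 2 := by
    rw [abs_div, abs_mul, abs_of_nonneg (sq_nonneg u), abs_two]; ring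
  rw [h3] at h2
  nlinarith

lemma Oval.emm_ne (h : Oval K P γ) {s0 ψ : ℝ} (hs : γ s0 = P ψ) : emm ψ (deriv γ s0) ≠ 0 := by
  intro h0
  apply h.reg s0
  apply eq_of_comp ψ
  · rw [h.tangent hs]; simp [ell]
  · rw [h0]; simp [emm]

/-- the support point moves at least linearly -/
lemma Oval.lower (h : Oval K P γ) (ψ : ℝ) : ∃ m > 0, ∀ᶠ δ in 𝓝 (0:ℝ),
    m * |δ| ≤ |emm ψ (P (ψ + δ) - P ψ)| := by
  obtain ⟨s0, hs⟩ : P ψ ∈ range γ := h.rng ▸ h.supp.mem_frontier h.cpt ψ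
  obtain ⟨C, hC, hq⟩ := h.quadratic hs
  set b := emm ψ (deriv γ s0) with hb
  have hb0 : b ≠ 0 := h.emm_ne hs
  have hlin : ∀ᶠ u in 𝓝 (0:ℝ), |emm ψ (γ (s0 + u) - γ s0) - b * u| ≤ |b| / 2 * |u| := by
    have h1 : HasDerivAt (fun u => emm ψ (γ (s0 + u))) b 0 := by
      have h2 : HasDerivAt (fun s => emm ψ (γ s)) b (s0 + 0) := by
        rw [add_zero]; exact hasDerivAt_emm_const ψ (h.hasDerivAt_γ s0)
      exact h2.comp_const_add s0 0
    have h3 := h1.isLittleO.bound (c := |b| / 2) (by positivity)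
    filter_upwards [h3] with u hu
    simp only [add_zero, sub_zero, smul_eq_mul, Real.norm_eq_abs] at hu
    rw [emm_sub]
    rwa [mul_comm u b] at hu
  -- choose the displacement proportional to `δ`
  set κ := 1 / (8 * C) with hκ
  have hκ0 : 0 < κ := by positivity
  have ht : Tendsto (fun δ : ℝ => κ * b * δ) (𝓝 0) (𝓝 0) := by
    have : Tendsto (fun δ : ℝ => κ * b * δ) (𝓝 0) (𝓝 (κ * b * 0)) :=
      (continuous_const.mul continuous_id).tendsto 0
    rwa [mul_zero] at this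
  have hbpos : 0 < b ^ 2 := by positivity
  refine ⟨κ * b ^ 2 / 8, by positivity, ?_⟩
  have hsmall : ∀ᶠ δ in 𝓝 (0:ℝ), |δ| < 1 := by
    have := Metric.ball_mem_nhds (0:ℝ) one_pos
    filter_upwards [this] with z hz
    rwa [Metric.mem_ball, dist_zero_right, Real.norm_eq_abs] at hz
  filter_upwards [ht.eventually hq, ht.eventually hlin, hsmall] with δ h1 h2 h3
  set u := κ * b * δ with hu
  set F := ell ψ (γ (s0 + u) - γ s0) with hF
  set G := emm ψ (γ (s0 + u) - γ s0) with hG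
  obtain ⟨p1, p2⟩ := h.supp.basic ψ δ
  set α := ell ψ (P (ψ + δ) - P ψ) with hα
  set β := emm ψ (P (ψ + δ) - P ψ) with hβ
  have hcos0 : 0 ≤ Real.cos δ := by
    apply Real.cos_nonneg_of_neg_pi_div_two_le_of_le <;> nlinarith [abs_lt.1 h3, Real.pi_gt_three]
  have hcos1 : Real.cos δ ≤ 1 := Real.cos_le_one δ
  -- comparison with the point of the curve
  have hcmp : Real.cos δ * F + Real.sin δ * G ≤ Real.cos δ * α + Real.sin δ * β := by
    rw [hF, hG, hα, hβ, ← ell_shift, ← ell_shift, hs, ell_sub, ell_sub]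
    linarith [h.supp.le (ψ + δ) (h.frK (h.γ_mem (s0 + u)))]
  have hδG : κ * b ^ 2 / 2 * δ ^ 2 ≤ δ * G := by
    have e1 : δ * G = κ * b ^ 2 * δ ^ 2 + δ * (G - b * u) := by rw [hu]; ring
    have e2 : |δ * (G - b * u)| ≤ |δ| * (|b| / 2 * |u|) := by
      rw [abs_mul]; exact mul_le_mul_of_nonneg_left h2 (abs_nonneg _)
    have e3 : |δ| * (|b| / 2 * |u|) = κ * b ^ 2 / 2 * δ ^ 2 := by
      rw [hu, abs_mul, abs_mul, abs_of_pos hκ0, ← sq_abs b, ← sq_abs δ]; ring
    rw [e3] at e2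
    rw [e1]
    linarith [neg_le_of_abs_le e2]
  have hsinG : κ * b ^ 2 / 4 * δ ^ 2 ≤ Real.sin δ * G := by
    by_cases hδ0 : δ = 0
    · rw [hδ0]; simp
    have hratio : 1 / 2 ≤ Real.sin δ / δ := by
      rcases lt_or_gt_of_ne hδ0 with hneg | hpos
      · have h5 : 0 < -δ := by linarith
        have h6 := Real.mul_le_sin (x := -δ) h5.le (by nlinarith [abs_lt.1 h3, Real.pi_gt_three])
        rw [Real.sin_neg] at h6
        rw [le_div_iff_of_neg hneg]
        have h7 : 1 / 2 ≤ 2 / π := by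
          rw [div_le_div_iff₀ (by norm_num) Real.pi_pos]; linarith [Real.pi_le_four]
        nlinarith
      · have h6 := Real.mul_le_sin hpos.le (by nlinarith [abs_lt.1 h3, Real.pi_gt_three])
        rw [le_div_iff₀ hpos]
        have h7 : 1 / 2 ≤ 2 / π := by
          rw [div_le_div_iff₀ (by norm_num) Real.pi_pos]; linarith [Real.pi_le_four]
        nlinarith
    have e : Real.sin δ * G = Real.sin δ / δ * (δ * G) := by field_simp
    rw [e]
    have h8 : 0 ≤ δ * G := le_trans (by positivity) hδG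
    nlinarith
  have hF2 : -(κ * b ^ 2 / 8 * δ ^ 2) ≤ Real.cos δ * F := by
    have e1 : C * u ^ 2 = κ * b ^ 2 / 8 * δ ^ 2 := by
      rw [hu, hκ]; field_simp
    rw [e1] at h1
    have h5 := neg_le_of_abs_le h1
    have h6 : 0 ≤ κ * b ^ 2 / 8 * δ ^ 2 := by positivity
    nlinarith
  have hfin : κ * b ^ 2 / 8 * δ ^ 2 ≤ Real.sin δ * β := by
    have : Real.cos δ * α ≤ 0 := mul_nonpos_of_nonneg_of_nonpos hcos0 p1
    linarith
  have hsd : |Real.sin δ| ≤ |δ| := Real.abs_sin_le_abs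
  have h9 : κ * b ^ 2 / 8 * |δ| * |δ| ≤ |β| * |δ| := by
    calc κ * b ^ 2 / 8 * |δ| * |δ| = κ * b ^ 2 / 8 * δ ^ 2 := by rw [← sq_abs δ]; ring
      _ ≤ Real.sin δ * β := hfin
      _ ≤ |Real.sin δ * β| := le_abs_self _
      _ = |Real.sin δ| * |β| := abs_mul _ _
      _ ≤ |δ| * |β| := mul_le_mul_of_nonneg_right hsd (abs_nonneg _)
      _ = |β| * |δ| := mul_comm _ _
  by_cases hδ0 : δ = 0
  · rw [hδ0]; simp
  · exact le_of_mul_le_mul_right h9 (abs_pos.2 hδ0)

end

end Pool.Agent.H664.OvalGeom
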