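import Pool.Agent.H664.OvalODE

open Topology Filter Set
open scoped Real

namespace Pool.Agent.H664.OvalODE

section

variable {a a1 a2 a3 w w1 : ℝ → ℝ} {q : ℝ}

/-- `k = 1 - z^2` -/
noncomputable def kk (a w : ℝ → ℝ) (q x : ℝ) : ℝ := 1 - zz a w q x ^ 2

noncomputable def gg (w w1 : ℝ → ℝ) (x : ℝ) : ℝ := x + Real.arctan (sf w w1 x) - π / 2

noncomputable def gg1 (a w w1 : ℝ → ℝ) (q x : ℝ) : ℝ :=
  q / (w x ^ 4 * kk a w q x * (1 + sf w w1 x ^ 2))

lemma Data.kk_pos (h : Data a a1 a2 a3 w w1) (hq : 0 < q)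
    (hs : ∀ x, a x + a (x + π) = 4 / q * w x ^ 3) (x : ℝ) : 0 < kk a w q x := h.abs_zz hq hs x

lemma kk_le_one (a w : ℝ → ℝ) (q x : ℝ) : kk a w q x ≤ 1 := by
  unfold kk; nlinarith [sq_nonneg (zz a w q x)]

lemma Data.sf_gg (h : Data a a1 a2 a3 w w1) (x : ℝ) : sf w w1 (gg w w1 x) = -sf w w1 x :=
  h.radon x

lemma Data.w1_eq (h : Data a a1 a2 a3 w w1) (x : ℝ) : w1 x = sf w w1 x * w x := by
  have := h.wpos x
  unfold sf; field_simp

lemma Data.hasDerivAt_gg (h : Data a a1 a2 a3 w w1) (hq : 0 < q)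
    (hs : ∀ x, a x + a (x + π) = 4 / q * w x ^ 3) (x : ℝ) :
    HasDerivAt (gg w w1) (gg1 a w w1 q x) x := by
  have hk := h.kk_pos hq hs x
  have hw := h.wpos x
  have d := ((hasDerivAt_id x).add ((h.hasDerivAt_sf hq hs x).arctan)).sub_const (π / 2)
  refine d.congr_deriv ?_
  unfold gg1 ss1
  have e : 1 - zz a w q x ^ 2 = kk a w q x := rfl
  rw [e]
  have h1 : 0 < 1 + sf w w1 x ^ 2 := by positivity
  field_simp
  ring

lemma Data.exists_N (h : Data a a1 a2 a3 w w1) (hq : 0 < q)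
    (hs : ∀ x, a x + a (x + π) = 4 / q * w x ^ 3) :
    ∃ N : ℝ, 0 < N ∧ ∀ x, w (gg w w1 x) ^ 2 * (w x ^ 2 * (1 + sf w w1 x ^ 2)) = N := by
  have hd : ∀ x, HasDerivAt (fun x => w (gg w w1 x) ^ 2 * (w x ^ 2 * (1 + sf w w1 x ^ 2))) 0 x := by
    intro x
    have hk := h.kk_pos hq hs x
    have hw := h.wpos x
    have dg := h.hasDerivAt_gg hq hs x
    have dwg : HasDerivAt (fun x => w (gg w w1 x)) (w1 (gg w w1 x) * gg1 a w w1 q x) x :=
      (h.hw (gg w w1 x)).comp x dg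
    have d := (dwg.pow 2).mul (((h.hw x).pow 2).mul (((h.hasDerivAt_sf hq hs x).pow 2).const_add 1))
    refine d.congr_deriv ?_
    simp only [Pi.pow_apply, Pi.mul_apply]
    rw [h.w1_eq (gg w w1 x), h.sf_gg, h.w1_eq x]
    unfold gg1 ss1
    have e : 1 - zz a w q x ^ 2 = kk a w q x := rfl
    rw [e]
    have h1 : 0 < 1 + sf w w1 x ^ 2 := by positivity
    push_cast
    field_simp
    ring
  refine ⟨w (gg w w1 0) ^ 2 * (w 0 ^ 2 * (1 + sf w w1 0 ^ 2)), ?_,
    fun x => const_of_deriv_zero hd x 0⟩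
  have h1 := h.wpos (gg w w1 0)
  have h2 := h.wpos 0
  positivity

lemma Data.kk_gg (h : Data a a1 a2 a3 w w1) (hq : 0 < q)
    (hs : ∀ x, a x + a (x + π) = 4 / q * w x ^ 3) {N : ℝ}
    (hN : ∀ x, w (gg w w1 x) ^ 2 * (w x ^ 2 * (1 + sf w w1 x ^ 2)) = N) (x : ℝ) :
    kk a w q (gg w w1 x) * kk a w q x = q ^ 2 / N ^ 2 := by
  have hk := h.kk_pos hq hs x
  have hkg := h.kk_pos hq hs (gg w w1 x)
  have hw := h.wpos x
  have hwg := h.wpos (gg w w1 x)
  have h1 : 0 < 1 + sf w w1 x ^ 2 := by positivity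
  have dg := h.hasDerivAt_gg hq hs x
  have d1 : HasDerivAt (fun x => sf w w1 (gg w w1 x)) (ss1 a w w1 q (gg w w1 x) * gg1 a w w1 q x) x :=
    (h.hasDerivAt_sf hq hs (gg w w1 x)).comp x dg
  have d2 : HasDerivAt (fun x => sf w w1 (gg w w1 x)) (-ss1 a w w1 q x) x := by
    have : (fun x => sf w w1 (gg w w1 x)) = fun x => -sf w w1 x := funext h.sf_gg
    rw [this]
    exact (h.hasDerivAt_sf hq hs x).neg
  have e := d1.unique d2
  unfold ss1 at e
  have e1 : 1 - zz a w q x ^ 2 = kk a w q x := rfl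
  have e2 : 1 - zz a w q (gg w w1 x) ^ 2 = kk a w q (gg w w1 x) := rfl
  rw [e1, e2, h.sf_gg] at e
  unfold gg1 at e
  rw [← hN x]
  field_simp at e ⊢
  nlinarith [e]

end


section

variable {a a1 a2 a3 w w1 : ℝ → ℝ} {q : ℝ}

lemma Data.w_per (h : Data a a1 a2 a3 w w1) (hq : 0 < q)
    (hs : ∀ x, a x + a (x + π) = 4 / q * w x ^ 3) (x : ℝ) : w (x + π) = w x := by
  have h1 := hs x
  have h2 := hs (x + π)
  have e : x + π + π = x + 2 * π := by ring
  rw [e, h.per x, add_comm (a (x + π)), h1] at h2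
  have h3 : w x ^ 3 = w (x + π) ^ 3 := mul_left_cancel₀ (by positivity) h2
  exact (pow_left_injective₀ h3).symm
where
  pow_left_injective₀ {u v : ℝ} (huv : u ^ 3 = v ^ 3) : u = v :=
    (Odd.strictMono_pow (by decide : Odd 3)).injective huv

lemma Data.zz_anti (h : Data a a1 a2 a3 w w1) (hq : 0 < q)
    (hs : ∀ x, a x + a (x + π) = 4 / q * w x ^ 3) (x : ℝ) :
    zz a w q (x + π) = -zz a w q x := by
  unfold zz dd
  have e : x + π + π = x + 2 * π := by ring
  rw [h.w_per hq hs, e, h.per x]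
  ring

lemma Data.exists_zero (h : Data a a1 a2 a3 w w1) (hq : 0 < q)
    (hs : ∀ x, a x + a (x + π) = 4 / q * w x ^ 3) : ∃ x, zz a w q x = 0 := by
  have hc : Continuous (zz a w q) := continuous_iff_continuousAt.2 fun x =>
    (h.hasDerivAt_zz q x).continuousAt
  have h0 : zz a w q π = -zz a w q 0 := by
    have := h.zz_anti hq hs 0
    rwa [zero_add] at this
  rcases le_total 0 (zz a w q 0) with h1 | h1
  · obtain ⟨x, _, hx⟩ := intermediate_value_Icc' Real.pi_pos.le hc.continuousOn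
      (⟨by rw [h0]; linarith, h1⟩ : (0:ℝ) ∈ Icc (zz a w q π) (zz a w q 0))
    exact ⟨x, hx⟩
  · obtain ⟨x, _, hx⟩ := intermediate_value_Icc Real.pi_pos.le hc.continuousOn
      (⟨h1, by rw [h0]; linarith⟩ : (0:ℝ) ∈ Icc (zz a w q 0) (zz a w q π))
    exact ⟨x, hx⟩

lemma Data.hasDerivAt_kk (h : Data a a1 a2 a3 w w1) (q x : ℝ) :
    HasDerivAt (kk a w q) (-(2 * zz a w q x * zz1 a a1 w w1 q x)) x := by
  have d := ((h.hasDerivAt_zz q x).pow 2).const_sub 1
  refine d.congr_deriv ?_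
  push_cast; ring

/-- the value of the first integral -/
lemma Data.value_A (h : Data a a1 a2 a3 w w1) (hq : 0 < q)
    (hs : ∀ x, a x + a (x + π) = 4 / q * w x ^ 3) (hne : ∃ x, zz a w q x ≠ 0) :
    ∃ m : ℝ, 0 < zz a w q m ∧ zz1 a a1 w w1 q m = 0 ∧
      ∀ x, E2 a a1 a2 w w1 q x = 9 * q * zz a w q m ^ 2 / kk a w q m := by
  obtain ⟨N, hN0, hN⟩ := h.exists_N hq hs
  have hkg := h.kk_gg hq hs hN
  obtain ⟨x0, hx0⟩ := h.exists_zero hq hs
  set g0 := gg w w1 x0 with hg0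
  have hk0 : kk a w q x0 = 1 := by unfold kk; rw [hx0]; ring
  have hkg0 : kk a w q g0 = q ^ 2 / N ^ 2 := by
    have := hkg x0
    rwa [hk0, mul_one] at this
  have hmin : ∀ x, q ^ 2 / N ^ 2 ≤ kk a w q x := by
    intro x
    rw [← hkg x]
    have h1 := h.kk_pos hq hs x
    have h2 := kk_le_one a w q (gg w w1 x)
    nlinarith
  have hzg0 : zz a w q g0 ≠ 0 := by
    intro h0
    have h1 : kk a w q g0 = 1 := by unfold kk; rw [h0]; ring
    obtain ⟨x, hx⟩ := hne
    have h2 := hmin x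
    rw [← hkg0, h1] at h2
    unfold kk at h2
    have : 0 < zz a w q x ^ 2 := by positivity
    linarith
  have hz1g0 : zz1 a a1 w w1 q g0 = 0 := by
    have hloc : IsLocalMin (kk a w q) g0 :=
      Eventually.of_forall fun x => by rw [hkg0]; exact hmin x
    have := hloc.hasDerivAt_eq_zero (h.hasDerivAt_kk q g0)
    rw [neg_eq_zero] at this
    rcases mul_eq_zero.1 this with h1 | h1
    · rcases mul_eq_zero.1 h1 with h2 | h2
      · norm_num at h2
      · exact absurd h2 hzg0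
    · exact h1
  have hE : ∀ x y, E2 a a1 a2 w w1 q x = E2 a a1 a2 w w1 q y :=
    const_of_deriv_zero (h.hasDerivAt_E2 hq hs)
  -- second derivative relation
  have hrel : ∀ x, -(2 * zz a w q (gg w w1 x) * zz1 a a1 w w1 q (gg w w1 x)) =
      -(2 * zz a w q x * zz1 a a1 w w1 q x) *
        (-(w x ^ 4 * (1 + sf w w1 x ^ 2) * (q / N ^ 2) / kk a w q x)) := by
    intro x
    have hk := h.kk_pos hq hs x
    have hw := h.wpos x
    have d1 : HasDerivAt (fun x => kk a w q (gg w w1 x) * kk a w q x)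
        (-(2 * zz a w q (gg w w1 x) * zz1 a a1 w w1 q (gg w w1 x)) * gg1 a w w1 q x *
          kk a w q x + kk a w q (gg w w1 x) * -(2 * zz a w q x * zz1 a a1 w w1 q x)) x :=
      ((h.hasDerivAt_kk q (gg w w1 x)).comp x (h.hasDerivAt_gg hq hs x)).mul
        (h.hasDerivAt_kk q x)
    have d2 : HasDerivAt (fun x => kk a w q (gg w w1 x) * kk a w q x) 0 x := by
      have : (fun x => kk a w q (gg w w1 x) * kk a w q x) = fun _ => q ^ 2 / N ^ 2 :=
        funext hkg
      rw [this]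
      exact hasDerivAt_const _ _
    have e := d1.unique d2
    have e2 : kk a w q (gg w w1 x) = q ^ 2 / N ^ 2 / kk a w q x := by
      rw [← hkg x]; field_simp
    rw [e2] at e
    unfold gg1 at e
    have h1 : 0 < 1 + sf w w1 x ^ 2 := by positivity
    field_simp at e ⊢
    rw [mul_zero] at e
    have e3 := (mul_eq_zero.1 e).resolve_left (by positivity)
    linarith
  have hrel2 : zz a w q g0 * zz2 a a1 a2 w w1 q g0 * gg1 a w w1 q x0 =
      -(zz1 a a1 w w1 q x0 ^ 2 * (w x0 ^ 4 * (1 + sf w w1 x0 ^ 2) * (q / N ^ 2))) := by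
    have hw := h.wpos x0
    have d1 : HasDerivAt (fun x => -(2 * zz a w q (gg w w1 x) * zz1 a a1 w w1 q (gg w w1 x)))
        (-(2 * zz1 a a1 w w1 q g0 * zz1 a a1 w w1 q g0 +
          2 * zz a w q g0 * zz2 a a1 a2 w w1 q g0) * gg1 a w w1 q x0) x0 := by
      have d := (((h.hasDerivAt_zz q g0).const_mul 2).mul (h.hasDerivAt_zz1 hq hs g0)).neg
      exact HasDerivAt.comp x0 (h₂ := fun y => -(2 * zz a w q y * zz1 a a1 w w1 q y)) d
        (h.hasDerivAt_gg hq hs x0)
    have dH : DifferentiableAt ℝ (fun x => -(w x ^ 4 * (1 + sf w w1 x ^ 2) * (q / N ^ 2) /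
        kk a w q x)) x0 := by
      have e1 := (h.hw x0).differentiableAt
      have e2 := (h.hasDerivAt_sf hq hs x0).differentiableAt
      have e3 := (h.hasDerivAt_kk q x0).differentiableAt
      have e4 : kk a w q x0 ≠ 0 := (h.kk_pos hq hs x0).ne'
      fun_prop (disch := assumption)
    have d2 := ((((h.hasDerivAt_zz q x0).const_mul 2).mul (h.hasDerivAt_zz1 hq hs x0)).neg).mul
      dH.hasDerivAt
    have hfe : (fun x => -(2 * zz a w q (gg w w1 x) * zz1 a a1 w w1 q (gg w w1 x))) =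
        fun x => -(2 * zz a w q x * zz1 a a1 w w1 q x) *
        (-(w x ^ 4 * (1 + sf w w1 x ^ 2) * (q / N ^ 2) / kk a w q x)) := funext hrel
    rw [hfe] at d1
    have e := d1.unique d2
    simp only [hx0, hz1g0, hk0, Pi.neg_apply, Pi.mul_apply] at e
    linear_combination (-1/2) * e
  have hA0 := hE g0 x0
  have hNx := hN x0
  rw [← hg0] at hNx
  have hE0 : E2 a a1 a2 w w1 q x0 = w x0 ^ 4 * zz1 a a1 w w1 q x0 ^ 2 := by
    unfold E2; rw [hx0]; ring
  have hEg : E2 a a1 a2 w w1 q g0 = -3 * (w g0 ^ 4 * (zz a w q g0 * zz2 a a1 a2 w w1 q g0)) -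
      18 * q * zz a w q g0 ^ 2 / kk a w q g0 := by
    unfold E2 kk; rw [hz1g0]; ring
  have hzz : w g0 ^ 4 * (zz a w q g0 * zz2 a a1 a2 w w1 q g0) =
      -(w x0 ^ 4 * zz1 a a1 w w1 q x0 ^ 2) := by
    have hw := h.wpos x0
    have hwg := h.wpos g0
    have h1 : 0 < 1 + sf w w1 x0 ^ 2 := by positivity
    unfold gg1 at hrel2
    rw [hk0] at hrel2
    have e4 : w g0 ^ 4 = N ^ 2 / (w x0 ^ 2 * (1 + sf w w1 x0 ^ 2)) ^ 2 := by
      rw [← hNx]; field_simp
    rw [e4]
    field_simp at hrel2 ⊢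
    linear_combination hrel2
  have hval : ∀ x, E2 a a1 a2 w w1 q x = 9 * q * zz a w q g0 ^ 2 / kk a w q g0 := by
    intro x
    rw [hE x g0]
    rw [hEg, hE0] at hA0
    rw [hEg]
    rw [hzz] at hA0 ⊢
    have : 9 * q * zz a w q g0 ^ 2 / kk a w q g0 =
      (18 * q * zz a w q g0 ^ 2 / kk a w q g0) / 2 := by ring
    rw [this]
    linarith
  rcases lt_or_gt_of_ne hzg0 with hneg | hpos
  · refine ⟨g0 + π, by rw [h.zz_anti hq hs]; linarith, ?_, ?_⟩
    · have hloc : IsLocalMin (kk a w q) (g0 + π) := by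
        refine Eventually.of_forall fun x => ?_
        have : kk a w q (g0 + π) = kk a w q g0 := by
          unfold kk; rw [h.zz_anti hq hs]; ring
        rw [this, hkg0]; exact hmin x
      have := hloc.hasDerivAt_eq_zero (h.hasDerivAt_kk q (g0 + π))
      rw [neg_eq_zero] at this
      rcases mul_eq_zero.1 this with h1 | h1
      · rcases mul_eq_zero.1 h1 with h2 | h2
        · norm_num at h2
        · rw [h.zz_anti hq hs] at h2
          exact absurd (neg_eq_zero.1 h2) hzg0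
      · exact h1
    · intro x
      rw [hval x]
      have : kk a w q (g0 + π) = kk a w q g0 := by
        unfold kk; rw [h.zz_anti hq hs]; ring
      rw [this, h.zz_anti hq hs]; ring
  · exact ⟨g0, hpos, hz1g0, hval⟩

end


section

variable {a a1 a2 a3 w w1 : ℝ → ℝ} {q : ℝ}

/-- the integrand -/
noncomputable def ff (q s : ℝ) : ℝ := 18 * q * s ^ (7 / 3 : ℝ) / (1 - s ^ 2) ^ 2

lemma continuousOn_ff (q : ℝ) : ContinuousOn (ff q) (Ioo (-1) 1) := by
  unfold ff
  refine ContinuousOn.div ?_ ?_ ?_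
  · refine Continuous.continuousOn ?_
    exact continuous_const.mul (continuous_id.rpow_const fun x => Or.inr (by norm_num))
  · fun_prop
  · intro x hx
    have : x ^ 2 < 1 := by nlinarith [hx.1, hx.2]
    have h2 : 1 - x ^ 2 ≠ 0 := by linarith
    exact pow_ne_zero 2 h2

noncomputable def GG (q t : ℝ) : ℝ := ∫ s in (0:ℝ)..t, ff q s

lemma hasDerivAt_GG (q : ℝ) {t : ℝ} (h0 : 0 ≤ t) (h1 : t < 1) : HasDerivAt (GG q) (ff q t) t := by
  have hmem : t ∈ Ioo (-1:ℝ) 1 := ⟨by linarith, h1⟩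
  refine intervalIntegral.integral_hasDerivAt_right ?_ ?_ ?_
  · refine ContinuousOn.intervalIntegrable ((continuousOn_ff q).mono ?_)
    rw [uIcc_of_le h0]
    intro x hx
    exact ⟨by linarith [hx.1], by linarith [hx.2]⟩
  · exact (continuousOn_ff q).stronglyMeasurableAtFilter isOpen_Ioo t hmem
  · exact (continuousOn_ff q).continuousAt (isOpen_Ioo.mem_nhds hmem)

lemma GG_pos {q : ℝ} (hq : 0 < q) {t : ℝ} (h0 : 0 < t) (h1 : t < 1) : 0 < GG q t := by
  refine intervalIntegral.intervalIntegral_pos_of_pos_on ?_ ?_ h0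
  · refine ContinuousOn.intervalIntegrable ((continuousOn_ff q).mono ?_)
    rw [uIcc_of_le h0.le]
    intro x hx
    exact ⟨by linarith [hx.1], by linarith [hx.2]⟩
  · intro x hx
    unfold ff
    have h2 : 0 < x := hx.1
    have h3 : 0 < 1 - x ^ 2 := by nlinarith [hx.2]
    positivity

theorem Data.contradiction (h : Data a a1 a2 a3 w w1) (hq : 0 < q)
    (hs : ∀ x, a x + a (x + π) = 4 / q * w x ^ 3) {m : ℝ} (hm : 0 < zz a w q m)
    (hm1 : zz1 a a1 w w1 q m = 0)
    (hE : ∀ x, E2 a a1 a2 w w1 q x = 9 * q * zz a w q m ^ 2 / kk a w q m) : False := by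
  set A := 9 * q * zz a w q m ^ 2 / kk a w q m with hA
  have hkm := h.kk_pos hq hs m
  have hApos : 0 < A := by positivity
  have hc : Continuous (zz a w q) := continuous_iff_continuousAt.2 fun x =>
    (h.hasDerivAt_zz q x).continuousAt
  set Yt : ℝ → ℝ := fun x => w x ^ 4 * zz1 a a1 w w1 q x ^ 2 +
    9 * q * zz a w q x ^ 2 / kk a w q x - A with hYt
  set Y1 : ℝ → ℝ := fun x => 4 * sf w w1 x * w x ^ 4 * zz1 a a1 w w1 q x ^ 2 +
    2 * w x ^ 4 * zz1 a a1 w w1 q x * zz2 a a1 a2 w w1 q x +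
    18 * q * zz a w q x * zz1 a a1 w w1 q x / kk a w q x ^ 2 with hY1
  have dY : ∀ x, HasDerivAt Yt (Y1 x) x := by
    intro x
    have hk := h.kk_pos hq hs x
    have d := ((((h.hw x).pow 4).mul ((h.hasDerivAt_zz1 hq hs x).pow 2)).add
      ((((h.hasDerivAt_zz q x).pow 2).const_mul (9 * q)).div (h.hasDerivAt_kk q x)
        hk.ne')).sub_const A
    refine d.congr_deriv ?_
    rw [hY1]
    simp only [Pi.pow_apply]
    rw [h.w1_eq x]
    have e : kk a w q x = 1 - zz a w q x ^ 2 := rfl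
    have hk2 := hk.ne'
    push_cast
    field_simp
    rw [e]
    ring
  have hrel : ∀ x, zz a w q x * Y1 x - 2 / 3 * (zz1 a a1 w w1 q x * Yt x) =
      18 * q * zz a w q x ^ 4 * zz1 a a1 w w1 q x / kk a w q x ^ 2 := by
    intro x
    have hk := h.kk_pos hq hs x
    have hk2 := hk.ne'
    have e := hE x
    unfold E2 at e
    have e1 : 1 - zz a w q x ^ 2 = kk a w q x := rfl
    rw [e1] at e
    have e2 : zz a w q x ^ 2 = 1 - kk a w q x := by rw [← e1]; ring
    have e3 : zz a w q x ^ 4 = zz a w q x ^ 2 * (1 - kk a w q x) := by rw [← e2]; ring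
    rw [hY1, hYt]
    simp only
    rw [← e, e3]
    field_simp
    ring
  -- the last zero before `m`
  have hzm : zz a w q (m - π) = -zz a w q m := by
    have := h.zz_anti hq hs (m - π)
    rw [sub_add_cancel] at this
    linarith
  obtain ⟨x1, hx1S, hx1⟩ : ∃ x1, IsGreatest {x | x ∈ Icc (m - π) m ∧ zz a w q x = 0} x1 := by
    refine IsCompact.exists_isGreatest ?_ ?_
    · have : {x | x ∈ Icc (m - π) m ∧ zz a w q x = 0} = Icc (m - π) m ∩ {x | zz a w q x = 0} := rfl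
      rw [this]
      exact isCompact_Icc.inter_right (isClosed_eq hc continuous_const)
    · obtain ⟨x, hx, hx'⟩ := intermediate_value_Icc (by linarith [Real.pi_pos] : m - π ≤ m)
        hc.continuousOn (⟨by rw [hzm]; linarith, hm.le⟩ :
          (0:ℝ) ∈ Icc (zz a w q (m - π)) (zz a w q m))
      exact ⟨x, hx, hx'⟩
  have hz0 : zz a w q x1 = 0 := hx1S.2
  have hx1m : x1 < m := by
    refine lt_of_le_of_ne hx1S.1.2 ?_
    rintro rfl
    rw [hz0] at hm
    exact lt_irrefl _ hm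
  have hzpos : ∀ x, x1 < x → x ≤ m → 0 < zz a w q x := by
    intro x hx hxm
    by_contra hcon
    rw [not_lt] at hcon
    obtain ⟨y, hy, hy'⟩ := intermediate_value_Icc hxm hc.continuousOn
      (⟨hcon, hm.le⟩ : (0:ℝ) ∈ Icc (zz a w q x) (zz a w q m))
    have := hx1 ⟨⟨by linarith [hy.1, hx1S.1.1], hy.2⟩, hy'⟩
    linarith [hy.1]
  have hzlt : ∀ x, zz a w q x < 1 := by
    intro x
    have := h.kk_pos hq hs x
    unfold kk at this
    nlinarith
  -- the derivative
  have dW : ∀ x, x1 < x → x ≤ m →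
      HasDerivAt (fun x => Yt x * zz a w q x ^ (-(2 / 3) : ℝ) - GG q (zz a w q x)) 0 x := by
    intro x hx hxm
    have hz := hzpos x hx hxm
    have hk := h.kk_pos hq hs x
    have d1 := (h.hasDerivAt_zz q x).rpow_const (p := (-(2 / 3) : ℝ)) (Or.inl hz.ne')
    have d2 : HasDerivAt (fun x => GG q (zz a w q x))
        (ff q (zz a w q x) * zz1 a a1 w w1 q x) x :=
      (hasDerivAt_GG q hz.le (hzlt x)).comp x (h.hasDerivAt_zz q x)
    refine (((dY x).mul d1).sub d2).congr_deriv ?_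
    unfold ff
    have e1 : 1 - zz a w q x ^ 2 = kk a w q x := rfl
    rw [e1]
    set z := zz a w q x with hzdef
    have p1 : z ^ (-(2 / 3) : ℝ) = z ^ (-(5 / 3) : ℝ) * z := by
      rw [← Real.rpow_add_one hz.ne']; norm_num
    have p2 : z ^ (-(2 / 3) - 1 : ℝ) = z ^ (-(5 / 3) : ℝ) := by norm_num
    have p3 : z ^ (7 / 3 : ℝ) = z ^ (-(5 / 3) : ℝ) * z ^ 4 := by
      rw [← Real.rpow_natCast z 4, ← Real.rpow_add hz]; norm_num
    rw [p1, p2, p3]
    have := hrel x
    rw [← hzdef] at this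
    linear_combination z ^ (-(5 / 3) : ℝ) * this
  have hconst : ∀ x, x1 < x → x ≤ m →
      Yt x * zz a w q x ^ (-(2 / 3) : ℝ) - GG q (zz a w q x) = -GG q (zz a w q m) := by
    intro x hx hxm
    have h1 := constant_of_has_deriv_right_zero
      (f := fun x => Yt x * zz a w q x ^ (-(2 / 3) : ℝ) - GG q (zz a w q x)) (a := x) (b := m)
      (fun y hy => (dW y (by linarith [hy.1]) hy.2).continuousAt.continuousWithinAt)
      (fun y hy => (dW y (by linarith [hy.1]) hy.2.le).hasDerivWithinAt) m (right_mem_Icc.2 hxm)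
    have hYm : Yt m = 0 := by
      rw [hYt]; simp only
      rw [hm1, ← hA]; ring
    rw [hYm, zero_mul, zero_sub] at h1
    exact h1.symm
  -- the limit at `x1`
  have hY0 : Yt x1 = 0 := by
    have e := hE x1
    unfold E2 at e
    rw [hz0] at e
    rw [hYt]; simp only
    rw [hz0]
    linarith [e, (by ring : w x1 ^ 4 * (zz1 a a1 w w1 q x1 ^ 2 - 3 * 0 * zz2 a a1 a2 w w1 q x1 -
      6 * sf w w1 x1 * 0 * zz1 a a1 w w1 q x1) - 18 * q * 0 ^ 2 / (1 - 0 ^ 2) =
      w x1 ^ 4 * zz1 a a1 w w1 q x1 ^ 2),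
      (by ring : 9 * q * (0:ℝ) ^ 2 / kk a w q x1 = 0)]
  have hz1ne : zz1 a a1 w w1 q x1 ≠ 0 := by
    intro h0
    rw [hYt] at hY0
    simp only at hY0
    rw [h0, hz0] at hY0
    have : (9:ℝ) * q * 0 ^ 2 / kk a w q x1 = 0 := by ring
    rw [this] at hY0
    linarith
  have t1 : Tendsto (fun x => Yt x / (x - x1)) (𝓝[>] x1) (𝓝 (Y1 x1)) := by
    have := (dY x1).tendsto_slope.mono_left (nhdsWithin_mono x1 (fun x hx => ne_of_gt hx) :
      𝓝[>] x1 ≤ 𝓝[≠] x1)
    refine this.congr fun x => ?_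
    rw [slope_def_field, hY0, sub_zero]
  have t2 : Tendsto (fun x => zz a w q x / (x - x1)) (𝓝[>] x1) (𝓝 (zz1 a a1 w w1 q x1)) := by
    have := (h.hasDerivAt_zz q x1).tendsto_slope.mono_left
      (nhdsWithin_mono x1 (fun x hx => ne_of_gt hx) : 𝓝[>] x1 ≤ 𝓝[≠] x1)
    refine this.congr fun x => ?_
    rw [slope_def_field, hz0, sub_zero]
  have t3 := t1.div t2 hz1ne
  have hzt : Tendsto (zz a w q) (𝓝[>] x1) (𝓝 0) := by
    have := hc.tendsto x1
    rw [hz0] at this
    exact this.mono_left nhdsWithin_le_nhds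
  have t4 : Tendsto (fun x => zz a w q x ^ (1 / 3 : ℝ)) (𝓝[>] x1) (𝓝 0) := by
    have : Tendsto (fun t : ℝ => t ^ (1 / 3 : ℝ)) (𝓝 0) (𝓝 ((0:ℝ) ^ (1 / 3 : ℝ))) :=
      (Real.continuous_rpow_const (by norm_num)).tendsto 0
    rw [Real.zero_rpow (by norm_num)] at this
    exact this.comp hzt
  have t5 : Tendsto (fun x => GG q (zz a w q x)) (𝓝[>] x1) (𝓝 0) := by
    have h0 : GG q 0 = 0 := by unfold GG; exact intervalIntegral.integral_same
    have : Tendsto (GG q) (𝓝 0) (𝓝 (GG q 0)) :=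
      (hasDerivAt_GG q le_rfl one_pos).continuousAt.tendsto
    rw [h0] at this
    exact this.comp hzt
  have t6 := (t3.mul t4).sub t5
  rw [mul_zero, sub_zero] at t6
  have t7 : Tendsto (fun _ : ℝ => -GG q (zz a w q m)) (𝓝[>] x1) (𝓝 0) := by
    refine t6.congr' ?_
    have hev : ∀ᶠ x in 𝓝[>] x1, x < m :=
      (eventually_lt_nhds hx1m).filter_mono nhdsWithin_le_nhds
    filter_upwards [hev, self_mem_nhdsWithin] with x hxm hx
    have hx : x1 < x := hx
    rw [← hconst x hx hxm.le]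
    congr 1
    have hz := hzpos x hx hxm.le
    have hxx : x - x1 ≠ 0 := (sub_pos.2 hx).ne'
    have p : zz a w q x ^ (-(2 / 3) : ℝ) = zz a w q x ^ (1 / 3 : ℝ) / zz a w q x := by
      rw [eq_div_iff hz.ne', ← Real.rpow_add_one hz.ne']; norm_num
    rw [p]
    simp only [Pi.div_apply]
    field_simp
  have := tendsto_nhds_unique t7 tendsto_const_nhds
  have hpos := GG_pos hq hm (hzlt m)
  linarith

theorem Data.zz_zero (h : Data a a1 a2 a3 w w1) (hq : 0 < q)
    (hs : ∀ x, a x + a (x + π) = 4 / q * w x ^ 3) (x : ℝ) : zz a w q x = 0 := by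
  by_contra hne
  obtain ⟨m, hm, hm1, hE⟩ := h.value_A hq hs ⟨x, hne⟩
  exact h.contradiction hq hs hm hm1 hE

/-- The conclusion of the analytic part: opposite curvatures agree and the width satisfies the
equation of an ellipse. -/
theorem Data.main (h : Data a a1 a2 a3 w w1) : (∀ x, a (x + π) = a x) ∧
    ∃ q : ℝ, 0 < q ∧ ∀ x, 1 / a x + 1 / a (x + π) = q / w x ^ 3 := by
  obtain ⟨q, hq, hs⟩ := h.exists_q
  have hz := h.zz_zero hq hs
  refine ⟨fun x => ?_, q, hq, fun x => ?_⟩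
  · obtain ⟨e1, e2⟩ := h.a_eq hq hs x
    rw [e1, e2, hz x]; ring
  · rw [h.rho_eq hq hs x, hz x]; ring

end

end Pool.Agent.H664.OvalODE
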