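import Pool.Agent.H664.OvalCurv
import Pool.Agent.H664.OvalRadon

open Topology Filter Set Asymptotics
open scoped Real ContDiff

namespace Pool.Agent.H664.OvalGeom

open Pool.Agent.H664.OvalJets (ee two_relations)
open Pool.Agent.H664.OvalODE (Data)

section

variable {K : Set (ℝ × ℝ)} {P γ : ℝ → ℝ × ℝ}

theorem Oval.contDiff_P (h : Oval K P γ) : ContDiff ℝ ∞ P := by
  rw [contDiff_iff_contDiffAt]
  intro φ0
  obtain ⟨s0, hs⟩ : P φ0 ∈ range γ := h.rng ▸ h.supp.mem_frontier h.cpt φ0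
  have hb0 := h.emm_ne hs
  have hcurv := h.curvature_ne hs
  have hf := h.gm_contDiffAt hs
  have hd : HasDerivAt (gm γ φ0) (-ell φ0 (deriv (deriv γ) s0) / emm φ0 (deriv γ s0)) s0 := by
    have hd2 : HasDerivAt (deriv γ) (deriv (deriv γ) s0) s0 :=
      ((h.smooth_deriv.differentiable (by simp)) s0).hasDerivAt
    have h1 := hasDerivAt_ell_const φ0 hd2
    have h2 := hasDerivAt_emm_const φ0 hd2
    have h3 := ((h1.neg.div h2 hb0).arctan).const_add φ0
    refine h3.congr_deriv ?_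
    simp only [Pi.neg_apply, Pi.div_apply]
    rw [h.tangent hs]
    simp only [neg_zero, zero_div, zero_mul, sub_zero]
    field_simp
    ring
  have hne : -ell φ0 (deriv (deriv γ) s0) / emm φ0 (deriv γ s0) ≠ 0 :=
    div_ne_zero (neg_ne_zero.2 hcurv) hb0
  have hn : (∞ : WithTop ℕ∞) ≠ 0 := by simp
  have hfd := hd.hasFDerivAt_equiv hne
  set e := hf.toOpenPartialHomeomorph (gm γ φ0) hfd hn with he
  have hself := h.gm_self hs
  have hinv : ContDiffAt ℝ ∞ (hf.localInverse hfd hn) φ0 := by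
    have := hf.to_localInverse hfd hn
    rwa [hself] at this
  have hinv0 : hf.localInverse hfd hn φ0 = s0 := by
    have := hf.localInverse_apply_image hfd hn
    rwa [hself] at this
  have ht : Tendsto (hf.localInverse hfd hn) (𝓝 φ0) (𝓝 s0) := by
    have := hinv.continuousAt.tendsto
    rwa [hinv0] at this
  have htar : ∀ᶠ φ in 𝓝 φ0, gm γ φ0 (hf.localInverse hfd hn φ) = φ := by
    have h1 := hf.image_mem_toOpenPartialHomeomorph_target hfd hn
    rw [hself] at h1
    filter_upwards [e.open_target.mem_nhds h1] with φ hφ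
    exact e.right_inv hφ
  have heq : P =ᶠ[𝓝 φ0] fun φ => γ (hf.localInverse hfd hn φ) := by
    filter_upwards [ht.eventually (h.gm_near hs), htar] with φ h1 h2
    rw [h1, h2]
  refine ContDiffAt.congr_of_eventuallyEq ?_ heq
  exact (h.smooth.contDiffAt).comp φ0 hinv

/-- radius of curvature -/
noncomputable def rho (P : ℝ → ℝ × ℝ) (φ : ℝ) : ℝ := emm φ (deriv P φ)

lemma Oval.hasDerivAt_P (h : Oval K P γ) (φ : ℝ) : HasDerivAt P (rho P φ • tt φ) φ := by
  have hd : HasDerivAt P (deriv P φ) φ := ((h.contDiff_P.differentiable (by simp)) φ).hasDerivAt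
  have hmax : IsLocalMax (fun x => ell φ (P x)) φ :=
    Eventually.of_forall fun x => h.supp.le φ (h.supp.mem x)
  have h0 := hmax.hasDerivAt_eq_zero (hasDerivAt_ell_const φ hd)
  have e : deriv P φ = rho P φ • tt φ := by
    apply eq_of_comp φ
    · rw [h0, ell_smul, ell_tt, mul_zero]
    · rw [emm_smul, emm_tt, mul_one, rho]
  rwa [← e]

lemma Oval.rho_pos (h : Oval K P γ) (φ : ℝ) : 0 < rho P φ := by
  obtain ⟨m, hm, hlow⟩ := h.lower φ
  have hd : HasDerivAt (fun δ => emm φ (P (φ + δ))) (rho P φ) 0 := by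
    have h1 : HasDerivAt (fun x => emm φ (P x)) (rho P φ) (φ + 0) := by
      rw [add_zero]
      have := hasDerivAt_emm_const φ (h.hasDerivAt_P φ)
      rwa [emm_smul, emm_tt, mul_one] at this
    exact h1.comp_const_add φ 0
  have hsl := hd.tendsto_slope.mono_left (nhdsWithin_mono 0 (fun x hx => ne_of_gt hx) :
      𝓝[>] (0:ℝ) ≤ 𝓝[≠] 0)
  have hge : m ≤ rho P φ := by
    refine ge_of_tendsto hsl ?_
    have hsmall : ∀ᶠ δ in 𝓝[>] (0:ℝ), δ < 1 :=
      (eventually_lt_nhds one_pos).filter_mono nhdsWithin_le_nhds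
    filter_upwards [hlow.filter_mono nhdsWithin_le_nhds, hsmall, self_mem_nhdsWithin]
      with δ h1 h2 h3
    have h3 : 0 < δ := h3
    rw [slope_def_field, sub_zero, add_zero, le_div_iff₀ h3]
    obtain ⟨b1, b2⟩ := h.supp.basic φ δ
    have hcos : 0 < Real.cos δ := by
      apply Real.cos_pos_of_mem_Ioo
      constructor <;> linarith [Real.pi_gt_three]
    have hsin : 0 < Real.sin δ := Real.sin_pos_of_pos_of_lt_pi h3 (by linarith [Real.pi_gt_three])
    have h4 : 0 ≤ emm φ (P (φ + δ) - P φ) := by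
      by_contra hcon
      rw [not_le] at hcon
      nlinarith
    rw [abs_of_pos h3, abs_of_nonneg h4, emm_sub] at h1
    exact h1
  linarith

lemma Oval.contDiff_rho (h : Oval K P γ) : ContDiff ℝ ∞ (rho P) := by
  have h1 : ContDiff ℝ ∞ (deriv P) := (contDiff_infty_iff_deriv.1 h.contDiff_P).2
  unfold rho emm
  exact ((contDiff_snd.comp h1).mul Real.contDiff_cos).sub
    ((contDiff_fst.comp h1).mul Real.contDiff_sin)

lemma Oval.rho_per (h : Oval K P γ) (φ : ℝ) : rho P (φ + 2 * π) = rho P φ := by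
  have h1 : deriv P (φ + 2 * π) = deriv P φ := by
    rw [← deriv_comp_add_const]
    congr 1
    funext x
    exact h.supp.periodic x
  unfold rho
  rw [h1]
  simp only [emm, Real.cos_add_two_pi, Real.sin_add_two_pi]

/-- curvature as a function of the normal angle -/
noncomputable def cv (P : ℝ → ℝ × ℝ) (φ : ℝ) : ℝ := (rho P φ)⁻¹

lemma Oval.contDiff_cv (h : Oval K P γ) : ContDiff ℝ ∞ (cv P) :=
  h.contDiff_rho.inv fun φ => (h.rho_pos φ).ne'

lemma Oval.hasDerivAt_X (h : Oval K P γ) (φ : ℝ) :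
    HasDerivAt (XX P) ((rho P φ + rho P (φ + π)) • tt φ) φ := by
  have h1 := h.hasDerivAt_P φ
  have h2 := (h.hasDerivAt_P (φ + π)).comp_add_const φ π
  rw [tt_add_pi, smul_neg] at h2
  refine (h1.sub h2).congr_deriv ?_
  rw [sub_neg_eq_add, ← add_smul]

lemma Oval.relations (h : Oval K P γ) (φ0 : ℝ) :
    deriv (cv P) φ0 + deriv (cv P) (φ0 + π) =
      3 * (emm φ0 (XX P φ0) / ell φ0 (XX P φ0)) * (cv P φ0 + cv P (φ0 + π)) ∧
    3 * (Pool.Agent.H664.OvalJets.QQ (emm φ0 (XX P φ0) / ell φ0 (XX P φ0)) (cv P φ0)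
        (deriv (cv P) φ0) (deriv (deriv (cv P)) φ0) (deriv (deriv (deriv (cv P))) φ0) +
      Pool.Agent.H664.OvalJets.QQ (emm φ0 (XX P φ0) / ell φ0 (XX P φ0)) (cv P (φ0 + π))
        (deriv (cv P) (φ0 + π)) (deriv (deriv (cv P)) (φ0 + π))
        (deriv (deriv (deriv (cv P))) (φ0 + π))) =
    10 * (deriv (cv P) φ0 - 3 * cv P φ0 * (emm φ0 (XX P φ0) / ell φ0 (XX P φ0))) *
      (Pool.Agent.H664.OvalJets.RR (emm φ0 (XX P φ0) / ell φ0 (XX P φ0)) (cv P φ0)
        (deriv (cv P) φ0) (deriv (deriv (cv P)) φ0) -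
      Pool.Agent.H664.OvalJets.RR (emm φ0 (XX P φ0) / ell φ0 (XX P φ0)) (cv P (φ0 + π))
        (deriv (cv P) (φ0 + π)) (deriv (deriv (cv P)) (φ0 + π))) := by
  set s := emm φ0 (XX P φ0) / ell φ0 (XX P φ0) with hs
  have hw := h.X_pos φ0
  have c0 := h.contDiff_cv
  have c1 : ContDiff ℝ ∞ (deriv (cv P)) := (contDiff_infty_iff_deriv.1 c0).2
  have c2 : ContDiff ℝ ∞ (deriv (deriv (cv P))) := (contDiff_infty_iff_deriv.1 c1).2
  have c3 : ContDiff ℝ ∞ (deriv (deriv (deriv (cv P)))) := (contDiff_infty_iff_deriv.1 c2).2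
  have hd : ∀ {f : ℝ → ℝ}, ContDiff ℝ ∞ f → ∀ c u : ℝ,
      HasDerivAt (fun u => f (c + u)) (deriv f (c + u)) u := fun hf c u =>
    (((hf.differentiable (by simp)) (c + u)).hasDerivAt).comp_const_add c u
  have hcp : ∀ φ, 0 < cv P φ := fun φ => inv_pos.2 (h.rho_pos φ)
  have hrc : ∀ φ, rho P φ = 1 / cv P φ := fun φ => by unfold cv; simp
  have dP : ∀ c u : ℝ, HasDerivAt (fun u => P (c + u)) (rho P (c + u) • tt (c + u)) u :=
    fun c u => (h.hasDerivAt_P (c + u)).comp_const_add c u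
  have htu : ∀ u, emm φ0 (tt (φ0 + u)) = Real.cos u ∧ ell φ0 (tt (φ0 + u)) = -Real.sin u := by
    intro u
    rw [emm_tt', ell_tt', sub_add_cancel_left, Real.cos_neg, Real.sin_neg]
    exact ⟨rfl, rfl⟩
  have htu' : ∀ u, emm φ0 (tt (φ0 + π + u)) = -Real.cos u ∧
      ell φ0 (tt (φ0 + π + u)) = Real.sin u := by
    intro u
    rw [emm_tt', ell_tt']
    have e : φ0 - (φ0 + π + u) = -(u + π) := by ring
    rw [e, Real.cos_neg, Real.sin_neg, Real.cos_add_pi, Real.sin_add_pi]
    exact ⟨rfl, by ring⟩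
  have hX0 : emm φ0 (XX P φ0) = s * ell φ0 (XX P φ0) := by rw [hs]; field_simp
  have key := two_relations (s := s) (a := fun u => cv P (φ0 + u))
    (a1 := fun u => deriv (cv P) (φ0 + u)) (a2 := fun u => deriv (deriv (cv P)) (φ0 + u))
    (a3 := fun u => deriv (deriv (deriv (cv P))) (φ0 + u))
    (b := fun u => cv P (φ0 + π + u))
    (b1 := fun u => deriv (cv P) (φ0 + π + u)) (b2 := fun u => deriv (deriv (cv P)) (φ0 + π + u))
    (b3 := fun u => deriv (deriv (deriv (cv P))) (φ0 + π + u))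
    (xT := fun u => emm φ0 (P (φ0 + u) - P φ0) - s * ell φ0 (P (φ0 + u) - P φ0))
    (fT := fun u => -ell φ0 (P (φ0 + u) - P φ0))
    (xB := fun u => emm φ0 (P (φ0 + π + u) - P (φ0 + π)) -
      s * ell φ0 (P (φ0 + π + u) - P (φ0 + π)))
    (fB := fun u => ell φ0 (P (φ0 + π + u) - P (φ0 + π)))
    (fun u => hcp _) (hd c0 φ0) (hd c1 φ0) (hd c2 φ0)
    (c3.continuous.comp (continuous_const.add continuous_id))
    (fun u => hcp _) (hd c0 (φ0 + π)) (hd c1 (φ0 + π)) (hd c2 (φ0 + π))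
    (c3.continuous.comp (continuous_const.add continuous_id))
    (fun u => ?_) (by simp [emm, ell]) (fun u => ?_) (by simp [ell])
    (fun u => ?_) (by simp [emm, ell]) (fun u => ?_) (by simp [ell]) ?_
  · simpa only [add_zero] using key
  · -- xT
    have d := (dP φ0 u).sub_const (P φ0)
    refine ((hasDerivAt_emm_const φ0 d).sub ((hasDerivAt_ell_const φ0 d).const_mul s)).congr_deriv ?_
    rw [emm_smul, ell_smul, (htu u).1, (htu u).2, hrc]
    unfold ee
    have := hcp (φ0 + u)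
    field_simp
    ring
  · have d := (dP φ0 u).sub_const (P φ0)
    refine (hasDerivAt_ell_const φ0 d).neg.congr_deriv ?_
    rw [ell_smul, (htu u).2, hrc]
    ring
  · have d := (dP (φ0 + π) u).sub_const (P (φ0 + π))
    refine ((hasDerivAt_emm_const φ0 d).sub ((hasDerivAt_ell_const φ0 d).const_mul s)).congr_deriv ?_
    rw [emm_smul, ell_smul, (htu' u).1, (htu' u).2, hrc]
    unfold ee
    have := hcp (φ0 + π + u)
    field_simp
    ring
  · have d := (dP (φ0 + π) u).sub_const (P (φ0 + π))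
    refine (hasDerivAt_ell_const φ0 d).congr_deriv ?_
    rw [ell_smul, (htu' u).2, hrc]
    ring
  · -- the common level involution
    set μ := (ell φ0 (P φ0) + ell φ0 (P (φ0 + π))) / 2 with hμ
    have hlt : ell φ0 (P (φ0 + π)) < ell φ0 (P φ0) := by
      have := hw
      unfold XX at this
      rw [ell_sub] at this
      linarith
    have hcP := h.continuous_P
    have t1 : ∀ᶠ u in 𝓝 (0:ℝ), μ < ell φ0 (P (φ0 + u)) := by
      have hc : Continuous fun u : ℝ => ell φ0 (P (φ0 + u)) :=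
        (continuous_ell φ0).comp (hcP.comp (continuous_const.add continuous_id))
      refine hc.continuousAt.eventually_const_lt ?_
      simp only [add_zero]
      rw [hμ]; linarith
    have t2 : ∀ᶠ u in 𝓝 (0:ℝ), ell φ0 (P (φ0 + π + u)) < μ := by
      have hc : Continuous fun u : ℝ => ell φ0 (P (φ0 + π + u)) :=
        (continuous_ell φ0).comp (hcP.comp (continuous_const.add continuous_id))
      refine hc.continuousAt.eventually_lt_const ?_
      simp only [add_zero]
      rw [hμ]; linarith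
    obtain ⟨ε, hε, hb⟩ := Metric.eventually_nhds_iff_ball.1 (t1.and t2)
    have hb' : ∀ u : ℝ, |u| < ε → μ < ell φ0 (P (φ0 + u)) ∧ ell φ0 (P (φ0 + π + u)) < μ := by
      intro u hu
      exact hb u (by rwa [Metric.mem_ball, dist_zero_right, Real.norm_eq_abs])
    refine ⟨ε, hε, fun u1 u2 u3 u4 h1 h2 h3 h4 hf hx1 hx2 => ?_⟩
    have frm := fun φ => h.supp.mem_frontier h.cpt φ
    have key2 : ∀ u v : ℝ, |u| < ε → |v| < ε →
        emm φ0 (P (φ0 + π + v) - P (φ0 + π)) - s * ell φ0 (P (φ0 + π + v) - P (φ0 + π)) =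
        emm φ0 (P (φ0 + u) - P φ0) - s * ell φ0 (P (φ0 + u) - P φ0) →
        ∃ r : ℝ, r ≠ 0 ∧ P (φ0 + π + v) = P (φ0 + u) + r • XX P φ0 := by
      intro u v hu hv hx
      refine ⟨(ell φ0 (P (φ0 + π + v)) - ell φ0 (P (φ0 + u))) / ell φ0 (XX P φ0), ?_, ?_⟩
      · have := (hb' u hu).1
        have := (hb' v hv).2
        refine div_ne_zero ?_ hw.ne'
        linarith
      · apply eq_of_comp φ0
        · rw [ell_add, ell_smul, div_mul_cancel₀ _ hw.ne']; ring
        · rw [emm_add, emm_smul, hX0]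
          have e1 : (ell φ0 (P (φ0 + π + v)) - ell φ0 (P (φ0 + u))) / ell φ0 (XX P φ0) *
              (s * ell φ0 (XX P φ0)) =
              s * (ell φ0 (P (φ0 + π + v)) - ell φ0 (P (φ0 + u))) := by field_simp
          rw [e1]
          have e2 : emm φ0 (XX P φ0) = emm φ0 (P φ0) - emm φ0 (P (φ0 + π)) := by
            unfold XX; rw [emm_sub]
          have e3 : ell φ0 (XX P φ0) = ell φ0 (P φ0) - ell φ0 (P (φ0 + π)) := by
            unfold XX; rw [ell_sub]
          rw [e2, e3] at hX0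
          simp only [emm_sub, ell_sub] at hx
          linarith
    obtain ⟨r, hr, hda⟩ := key2 u1 u3 h1 h3 hx1
    obtain ⟨r', hr', hcb⟩ := key2 u2 u4 h2 h4 hx2
    simp only [ell_sub] at hf ⊢
    have := h.levels φ0 (frm (φ0 + u1)) (frm (φ0 + u2)) (frm (φ0 + π + u4)) (frm (φ0 + π + u3))
      (by linarith) hr hr' hda hcb
    linarith

theorem Oval.data (h : Oval K P γ) : Data (cv P) (deriv (cv P)) (deriv (deriv (cv P)))
    (deriv (deriv (deriv (cv P)))) (fun φ => ell φ (XX P φ)) (fun φ => emm φ (XX P φ)) := by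
  have c0 := h.contDiff_cv
  have c1 : ContDiff ℝ ∞ (deriv (cv P)) := (contDiff_infty_iff_deriv.1 c0).2
  have c2 : ContDiff ℝ ∞ (deriv (deriv (cv P))) := (contDiff_infty_iff_deriv.1 c1).2
  have hrc : ∀ φ, rho P φ = 1 / cv P φ := fun φ => by unfold cv; simp
  refine ⟨fun φ => inv_pos.2 (h.rho_pos φ), fun φ => ((c0.differentiable (by simp)) φ).hasDerivAt,
    fun φ => ((c1.differentiable (by simp)) φ).hasDerivAt,
    fun φ => ((c2.differentiable (by simp)) φ).hasDerivAt, fun φ => ?_, h.X_pos, fun φ => ?_,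
    fun φ => ?_, fun φ => (h.relations φ).1, fun φ => (h.relations φ).2, fun φ => ?_⟩
  · unfold cv; rw [h.rho_per]
  · refine (hasDerivAt_ell (h.hasDerivAt_X φ)).congr_deriv ?_
    rw [ell_smul, ell_tt]; ring
  · refine (hasDerivAt_emm (h.hasDerivAt_X φ)).congr_deriv ?_
    rw [emm_smul, emm_tt, hrc, hrc]; ring
  · -- duality
    have hr := h.radon' φ
    have hw := h.X_pos φ
    have hwg := h.X_pos (gf P φ)
    have hg : φ + Real.arctan (emm φ (XX P φ) / ell φ (XX P φ)) - π / 2 = gf P φ := rfl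
    rw [hg]
    set θ := Real.arctan (emm φ (XX P φ) / ell φ (XX P φ)) with hθ
    set μ := emm φ (XX P (gf P φ)) with hμ
    have hXg : XX P (gf P φ) = μ • tt φ := by
      apply eq_of_comp φ
      · rw [hr, ell_smul, ell_tt, mul_zero]
      · rw [emm_smul, emm_tt, mul_one]
    have hgφ : gf P φ - φ = θ - π / 2 := by unfold gf; rw [← hθ]; ring
    have e1 : ell (gf P φ) (XX P (gf P φ)) = -(μ * Real.cos θ) := by
      rw [hXg, ell_smul, ell_tt', hgφ, Real.sin_sub_pi_div_two]; ring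
    have e2 : emm (gf P φ) (XX P (gf P φ)) = μ * Real.sin θ := by
      rw [hXg, emm_smul, emm_tt', hgφ, Real.cos_sub_pi_div_two]
    have hc : 0 < Real.cos θ := Real.cos_arctan_pos _
    have ht : Real.tan θ = emm φ (XX P φ) / ell φ (XX P φ) := Real.tan_arctan _
    have hμ0 : μ ≠ 0 := by
      intro h0
      rw [e1, h0] at hwg
      simp at hwg
    rw [e1, e2, ← ht, Real.tan_eq_sin_div_cos]
    field_simp

theorem Oval.ellipse (h : Oval K P γ) :
    ∃ A : (ℝ × ℝ) ≃ᵃ[ℝ] (ℝ × ℝ), frontier K = A '' {p : ℝ × ℝ | p.1 ^ 2 + p.2 ^ 2 = 1} := by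
  obtain ⟨hsym, q, hq, hW⟩ := h.data.main
  have hrc : ∀ φ, rho P φ = 1 / cv P φ := fun φ => by unfold cv; simp
  have hfr : frontier K = range P := by
    apply Subset.antisymm
    · intro x hx
      obtain ⟨φ, hφ⟩ := h.supp.exists_eq h.cpt h.sc h.int hx
      exact ⟨φ, hφ.symm⟩
    · rintro _ ⟨φ, rfl⟩
      exact h.supp.mem_frontier h.cpt φ
  rw [hfr]
  exact ellipse_of (ρ := rho P) (w := fun φ => ell φ (XX P φ)) h.hasDerivAt_P
    (fun φ => by rw [hrc, hrc, hsym]) hq (fun φ => rfl) h.X_pos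
    (fun φ => by rw [hrc, hrc]; exact hW φ)

end

end Pool.Agent.H664.OvalGeom
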