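import Mathlib

open Topology Filter Set
open scoped Real

namespace Pool.Agent.H664.OvalGeom

/-- tangent direction at the point with normal angle `φ` -/
noncomputable def tt (φ : ℝ) : ℝ × ℝ := (-Real.sin φ, Real.cos φ)

/-- component along the normal -/
noncomputable def ell (φ : ℝ) (x : ℝ × ℝ) : ℝ := x.1 * Real.cos φ + x.2 * Real.sin φ

/-- component along the tangent -/
noncomputable def emm (φ : ℝ) (x : ℝ × ℝ) : ℝ := x.2 * Real.cos φ - x.1 * Real.sin φ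

lemma ell_add (φ : ℝ) (x y : ℝ × ℝ) : ell φ (x + y) = ell φ x + ell φ y := by
  simp only [ell, Prod.fst_add, Prod.snd_add]; ring
lemma ell_sub (φ : ℝ) (x y : ℝ × ℝ) : ell φ (x - y) = ell φ x - ell φ y := by
  simp only [ell, Prod.fst_sub, Prod.snd_sub]; ring
lemma ell_smul (φ c : ℝ) (x : ℝ × ℝ) : ell φ (c • x) = c * ell φ x := by
  simp only [ell, Prod.smul_fst, Prod.smul_snd, smul_eq_mul]; ring
lemma emm_add (φ : ℝ) (x y : ℝ × ℝ) : emm φ (x + y) = emm φ x + emm φ y := by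
  simp only [emm, Prod.fst_add, Prod.snd_add]; ring
lemma emm_sub (φ : ℝ) (x y : ℝ × ℝ) : emm φ (x - y) = emm φ x - emm φ y := by
  simp only [emm, Prod.fst_sub, Prod.snd_sub]; ring
lemma emm_smul (φ c : ℝ) (x : ℝ × ℝ) : emm φ (c • x) = c * emm φ x := by
  simp only [emm, Prod.smul_fst, Prod.smul_snd, smul_eq_mul]; ring
lemma ell_tt (φ : ℝ) : ell φ (tt φ) = 0 := by simp only [ell, tt]; ring
lemma emm_tt (φ : ℝ) : emm φ (tt φ) = 1 := by
  simp only [emm, tt]; nlinarith [Real.sin_sq_add_cos_sq φ]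
lemma ell_add_pi (φ : ℝ) (x : ℝ × ℝ) : ell (φ + π) x = -ell φ x := by
  simp only [ell, Real.cos_add_pi, Real.sin_add_pi]; ring
lemma emm_add_pi (φ : ℝ) (x : ℝ × ℝ) : emm (φ + π) x = -emm φ x := by
  simp only [emm, Real.cos_add_pi, Real.sin_add_pi]; ring
lemma tt_add_pi (φ : ℝ) : tt (φ + π) = -tt φ := by
  simp only [tt, Real.cos_add_pi, Real.sin_add_pi]; ext <;> simp
lemma fst_eq (φ : ℝ) (x : ℝ × ℝ) : x.1 = ell φ x * Real.cos φ - emm φ x * Real.sin φ := by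
  simp only [ell, emm]; linear_combination -x.1 * Real.sin_sq_add_cos_sq φ
lemma snd_eq (φ : ℝ) (x : ℝ × ℝ) : x.2 = ell φ x * Real.sin φ + emm φ x * Real.cos φ := by
  simp only [ell, emm]; linear_combination -x.2 * Real.sin_sq_add_cos_sq φ

lemma hasDerivAt_ell {P : ℝ → ℝ × ℝ} {P' : ℝ × ℝ} {φ : ℝ} (h : HasDerivAt P P' φ) :
    HasDerivAt (fun x => ell x (P x)) (ell φ P' + emm φ (P φ)) φ := by
  have h1 : HasDerivAt (fun x => (P x).1) P'.1 φ :=
    (ContinuousLinearMap.fst ℝ ℝ ℝ).hasFDerivAt.comp_hasDerivAt φ h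
  have h2 : HasDerivAt (fun x => (P x).2) P'.2 φ :=
    (ContinuousLinearMap.snd ℝ ℝ ℝ).hasFDerivAt.comp_hasDerivAt φ h
  refine ((h1.mul (Real.hasDerivAt_cos φ)).add (h2.mul (Real.hasDerivAt_sin φ))).congr_deriv ?_
  simp only [ell, emm]; ring

lemma hasDerivAt_emm {P : ℝ → ℝ × ℝ} {P' : ℝ × ℝ} {φ : ℝ} (h : HasDerivAt P P' φ) :
    HasDerivAt (fun x => emm x (P x)) (emm φ P' - ell φ (P φ)) φ := by
  have h1 : HasDerivAt (fun x => (P x).1) P'.1 φ :=
    (ContinuousLinearMap.fst ℝ ℝ ℝ).hasFDerivAt.comp_hasDerivAt φ h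
  have h2 : HasDerivAt (fun x => (P x).2) P'.2 φ :=
    (ContinuousLinearMap.snd ℝ ℝ ℝ).hasFDerivAt.comp_hasDerivAt φ h
  refine ((h2.mul (Real.hasDerivAt_cos φ)).sub (h1.mul (Real.hasDerivAt_sin φ))).congr_deriv ?_
  simp only [ell, emm]; ring

lemma const_of_deriv_zero' {E : Type*} [NormedAddCommGroup E] [NormedSpace ℝ E] {F : ℝ → E}
    (h : ∀ x, HasDerivAt F 0 x) (x y : ℝ) : F x = F y :=
  is_const_of_deriv_eq_zero (fun x => (h x).differentiableAt) (fun x => (h x).deriv) x y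

lemma exists_polar {y : ℝ × ℝ} (hy : y ≠ 0) : ∃ r φ : ℝ, 0 < r ∧ y.1 = r * Real.cos φ ∧
    y.2 = r * Real.sin φ := by
  set c : ℂ := ⟨y.1, y.2⟩ with hc
  have hc0 : c ≠ 0 := by
    intro h
    apply hy
    have h1 := congrArg Complex.re h
    have h2 := congrArg Complex.im h
    exact Prod.ext h1 h2
  refine ⟨‖c‖, Complex.arg c, norm_pos_iff.2 hc0, ?_, ?_⟩
  · rw [Complex.norm_mul_cos_arg]
  · rw [Complex.norm_mul_sin_arg]

/-- the affine map with linear part a lower triangular matrix -/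
noncomputable def triEquiv (l1 l2 l3 : ℝ) (h1 : l1 ≠ 0) (h3 : l3 ≠ 0) :
    (ℝ × ℝ) ≃ₗ[ℝ] (ℝ × ℝ) where
  toFun p := (l1 * p.1, l2 * p.1 + l3 * p.2)
  invFun p := (p.1 / l1, (p.2 - l2 * (p.1 / l1)) / l3)
  map_add' p q := by ext <;> simp <;> ring
  map_smul' c p := by ext <;> simp <;> ring
  left_inv p := by ext <;> simp <;> field_simp <;> ring
  right_inv p := by ext <;> simp <;> field_simp <;> ring

theorem ellipse_of {P : ℝ → ℝ × ℝ} {ρ w : ℝ → ℝ} {q : ℝ}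
    (hP : ∀ φ, HasDerivAt P (ρ φ • tt φ) φ) (hρ : ∀ φ, ρ (φ + π) = ρ φ)
    (hq : 0 < q)
    (hw : ∀ φ, w φ = ell φ (P φ - P (φ + π))) (hwpos : ∀ φ, 0 < w φ)
    (hW : ∀ φ, ρ φ + ρ (φ + π) = q / w φ ^ 3) :
    ∃ A : (ℝ × ℝ) ≃ᵃ[ℝ] (ℝ × ℝ), range P = A '' {p : ℝ × ℝ | p.1 ^ 2 + p.2 ^ 2 = 1} := by
  set X : ℝ → ℝ × ℝ := fun φ => P φ - P (φ + π) with hX
  set w1 : ℝ → ℝ := fun φ => emm φ (X φ) with hw1
  have hPπ : ∀ φ, HasDerivAt (fun φ => P (φ + π)) (-(ρ (φ + π) • tt φ)) φ := by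
    intro φ
    have := (hP (φ + π)).comp_add_const φ π
    rwa [tt_add_pi, smul_neg] at this
  have dX : ∀ φ, HasDerivAt X ((q / w φ ^ 3) • tt φ) φ := by
    intro φ
    refine ((hP φ).sub (hPπ φ)).congr_deriv ?_
    rw [sub_neg_eq_add, ← add_smul, hW]
  have hwX : w = fun φ => ell φ (X φ) := funext hw
  have dw : ∀ φ, HasDerivAt w (w1 φ) φ := by
    intro φ
    rw [hwX]
    refine (hasDerivAt_ell (dX φ)).congr_deriv ?_
    rw [ell_smul, ell_tt, hw1]; ring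
  have dw1 : ∀ φ, HasDerivAt w1 (q / w φ ^ 3 - w φ) φ := by
    intro φ
    refine (hasDerivAt_emm (dX φ)).congr_deriv ?_
    rw [emm_smul, emm_tt, mul_one]
    have : w φ = ell φ (X φ) := hw φ
    rw [← this]
  have dE : ∀ φ, HasDerivAt (fun φ => w φ ^ 2 + w1 φ ^ 2 + q / w φ ^ 2) 0 φ := by
    intro φ
    have hp := hwpos φ
    refine (((dw φ).pow 2).add ((dw1 φ).pow 2) |>.add
      ((hasDerivAt_const φ q).div ((dw φ).pow 2) (pow_ne_zero 2 hp.ne'))).congr_deriv ?_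
    simp only [Pi.pow_apply]
    push_cast
    field_simp
    ring
  obtain ⟨E0, hE0⟩ : ∃ E0, ∀ φ, w φ ^ 2 + w1 φ ^ 2 + q / w φ ^ 2 = E0 :=
    ⟨_, fun φ => const_of_deriv_zero' dE φ 0⟩
  have hc2 : ∀ φ, HasDerivAt (fun φ : ℝ => Real.cos (2 * φ)) (-(2 * Real.sin (2 * φ))) φ := by
    intro φ
    have := ((hasDerivAt_id φ).const_mul 2).cos
    refine this.congr_deriv ?_
    simp; ring
  have hs2 : ∀ φ, HasDerivAt (fun φ : ℝ => Real.sin (2 * φ)) (2 * Real.cos (2 * φ)) φ := by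
    intro φ
    have := ((hasDerivAt_id φ).const_mul 2).sin
    refine this.congr_deriv ?_
    simp; ring
  have dα : ∀ φ, HasDerivAt (fun φ => (w φ ^ 2 - E0 / 2) * Real.cos (2 * φ) -
      w φ * w1 φ * Real.sin (2 * φ)) 0 φ := by
    intro φ
    have hp := hwpos φ
    refine (((((dw φ).pow 2).sub_const (E0 / 2)).mul (hc2 φ)).sub
      (((dw φ).mul (dw1 φ)).mul (hs2 φ))).congr_deriv ?_
    simp only [Pi.pow_apply, Pi.mul_apply]
    rw [← hE0 φ]
    push_cast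
    field_simp
    ring
  have dβ : ∀ φ, HasDerivAt (fun φ => (w φ ^ 2 - E0 / 2) * Real.sin (2 * φ) +
      w φ * w1 φ * Real.cos (2 * φ)) 0 φ := by
    intro φ
    have hp := hwpos φ
    refine (((((dw φ).pow 2).sub_const (E0 / 2)).mul (hs2 φ)).add
      (((dw φ).mul (dw1 φ)).mul (hc2 φ))).congr_deriv ?_
    simp only [Pi.pow_apply, Pi.mul_apply]
    rw [← hE0 φ]
    push_cast
    field_simp
    ring
  obtain ⟨α, hα⟩ : ∃ α, ∀ φ, (w φ ^ 2 - E0 / 2) * Real.cos (2 * φ) -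
      w φ * w1 φ * Real.sin (2 * φ) = α := ⟨_, fun φ => const_of_deriv_zero' dα φ 0⟩
  obtain ⟨β, hβ⟩ : ∃ β, ∀ φ, (w φ ^ 2 - E0 / 2) * Real.sin (2 * φ) +
      w φ * w1 φ * Real.cos (2 * φ) = β := ⟨_, fun φ => const_of_deriv_zero' dβ φ 0⟩
  have hsum : ∀ φ, w φ ^ 2 = E0 / 2 + α * Real.cos (2 * φ) + β * Real.sin (2 * φ) := by
    intro φ
    rw [← hα φ, ← hβ φ]
    linear_combination (-(w φ ^ 2 - E0 / 2)) * Real.sin_sq_add_cos_sq (2 * φ)
  have hdiff : ∀ φ, w φ * w1 φ = -α * Real.sin (2 * φ) + β * Real.cos (2 * φ) := by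
    intro φ
    rw [← hα φ, ← hβ φ]
    linear_combination (-(w φ * w1 φ)) * Real.sin_sq_add_cos_sq (2 * φ)
  -- the matrix
  set S11 := E0 / 2 + α with hS11
  set S22 := E0 / 2 - α with hS22
  have hdet : S11 * S22 - β ^ 2 = q := by
    have hp := hwpos 0
    have h1 := hsum 0
    have h2 := hdiff 0
    have h3 := hE0 0
    simp only [mul_zero, Real.cos_zero, Real.sin_zero, mul_one, add_zero, zero_add] at h1 h2
    have h4 : w 0 ^ 4 + (w 0 * w1 0) ^ 2 + q = E0 * w 0 ^ 2 := by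
      rw [← h3]; field_simp
    rw [hS11, hS22]
    have h5 : w 0 ^ 4 = (E0 / 2 + α) ^ 2 := by rw [← h1]; ring
    rw [h2, h5, h1] at h4
    linarith
  have hE0pos : 0 < E0 := by
    have hp := hwpos 0
    rw [← hE0 0]; positivity
  have hS11pos : 0 < S11 := by
    by_contra hcon
    rw [not_lt] at hcon
    have h1 : 0 < S22 := by rw [hS22]; rw [hS11] at hcon; linarith
    nlinarith [sq_nonneg β]
  set l1 := Real.sqrt S11 with hl1
  have hl1pos : 0 < l1 := Real.sqrt_pos.2 hS11pos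
  have hl1sq : l1 ^ 2 = S11 := Real.sq_sqrt hS11pos.le
  set l2 := β / l1 with hl2
  set l3 := Real.sqrt q / l1 with hl3
  have hqs : 0 < Real.sqrt q := Real.sqrt_pos.2 hq
  have hl3pos : 0 < l3 := by positivity
  have hl12 : l1 * l2 = β := by rw [hl2]; field_simp
  have hl23 : l2 ^ 2 + l3 ^ 2 = S22 := by
    rw [hl2, hl3, div_pow, div_pow, Real.sq_sqrt hq.le, hl1sq, ← add_div, div_eq_iff hS11pos.ne']
    linarith
  -- centre
  obtain ⟨c, hc⟩ : ∃ c : ℝ × ℝ, ∀ φ, P φ + P (φ + π) = c := by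
    have d : ∀ φ, HasDerivAt (fun φ => P φ + P (φ + π)) 0 φ := by
      intro φ
      refine ((hP φ).add (hPπ φ)).congr_deriv ?_
      rw [hρ]; simp
    exact ⟨_, fun φ => const_of_deriv_zero' d φ 0⟩
  have hPX : ∀ φ, P φ = (1/2 : ℝ) • c + (1/2 : ℝ) • X φ := by
    intro φ
    rw [← hc φ, hX]
    simp only
    module
  -- the formula for X
  have hwX1 : ∀ φ, w φ * (X φ).1 = S11 * Real.cos φ + β * Real.sin φ := by
    intro φ
    have e1 : ell φ (X φ) = w φ := (hw φ).symm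
    have e2 : emm φ (X φ) = w1 φ := rfl
    rw [fst_eq φ (X φ), e1, e2]
    have h1 := hsum φ
    have h2 := hdiff φ
    rw [Real.cos_two_mul, Real.sin_two_mul] at h1 h2
    have h3 := Real.sin_sq_add_cos_sq φ
    rw [hS11]
    linear_combination Real.cos φ * h1 - Real.sin φ * h2 +
      (2 * α * Real.cos φ) * h3
  have hwX2 : ∀ φ, w φ * (X φ).2 = β * Real.cos φ + S22 * Real.sin φ := by
    intro φ
    have e1 : ell φ (X φ) = w φ := (hw φ).symm
    have e2 : emm φ (X φ) = w1 φ := rfl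
    rw [snd_eq φ (X φ), e1, e2]
    have h1 := hsum φ
    have h2 := hdiff φ
    rw [Real.cos_two_mul, Real.sin_two_mul] at h1 h2
    have h3 := Real.sin_sq_add_cos_sq φ
    rw [hS22]
    linear_combination Real.sin φ * h1 + Real.cos φ * h2 +
      (2 * β * Real.cos φ) * h3
  have hsq : ∀ φ, (l1 * Real.cos φ + l2 * Real.sin φ) ^ 2 + (l3 * Real.sin φ) ^ 2 = w φ ^ 2 := by
    intro φ
    have h1 := hsum φ
    rw [Real.cos_two_mul, Real.sin_two_mul] at h1
    have h3 := Real.sin_sq_add_cos_sq φ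
    have e1 : (l1 * Real.cos φ + l2 * Real.sin φ) ^ 2 + (l3 * Real.sin φ) ^ 2 =
      l1 ^ 2 * Real.cos φ ^ 2 + 2 * (l1 * l2) * Real.cos φ * Real.sin φ +
      (l2 ^ 2 + l3 ^ 2) * Real.sin φ ^ 2 := by ring
    rw [e1, hl1sq, hl12, hl23, h1, hS11, hS22]
    linear_combination (E0 / 2 - α) * h3
  set A : (ℝ × ℝ) ≃ᵃ[ℝ] (ℝ × ℝ) := (triEquiv (l1 / 2) (l2 / 2) (l3 / 2) (by positivity)
    (by positivity)).toAffineEquiv.trans (AffineEquiv.constVAdd ℝ (ℝ × ℝ) ((1/2 : ℝ) • c)) with hA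
  have hAp : ∀ p : ℝ × ℝ, A p = (1/2 : ℝ) • c +
      (l1 / 2 * p.1, l2 / 2 * p.1 + l3 / 2 * p.2) := by
    intro p
    rw [hA]
    rfl
  have hPA : ∀ φ, P φ = A ((l1 * Real.cos φ + l2 * Real.sin φ) / w φ, l3 * Real.sin φ / w φ) := by
    intro φ
    have hp := hwpos φ
    rw [hAp, hPX φ]
    congr 1
    have h1 := hwX1 φ
    have h2 := hwX2 φ
    ext
    · simp only [Prod.smul_fst, smul_eq_mul]
      field_simp
      rw [mul_comm, h1, ← hl1sq, ← hl12]; ring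
    · simp only [Prod.smul_snd, smul_eq_mul]
      field_simp
      rw [mul_comm, h2, ← hl12, ← hl23]; ring
  refine ⟨A, ?_⟩
  ext x
  constructor
  · rintro ⟨φ, rfl⟩
    refine ⟨_, ?_, (hPA φ).symm⟩
    have hp := hwpos φ
    simp only [mem_ofPred_eq]
    rw [div_pow, div_pow, ← add_div, hsq φ, div_self (pow_ne_zero 2 hp.ne')]
  · rintro ⟨e, he, rfl⟩
    simp only [mem_ofPred_eq] at he
    -- solve Lᵀ y = e
    set y : ℝ × ℝ := ((e.1 - l2 * (e.2 / l3)) / l1, e.2 / l3) with hy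
    have hy0 : y ≠ 0 := by
      intro h
      have h2 : e.2 / l3 = 0 := congrArg Prod.snd h
      have h1 : (e.1 - l2 * (e.2 / l3)) / l1 = 0 := congrArg Prod.fst h
      rw [h2, mul_zero, sub_zero] at h1
      have h3 : e.2 = 0 := by
        rcases div_eq_zero_iff.1 h2 with h | h
        · exact h
        · exact absurd h hl3pos.ne'
      have h4 : e.1 = 0 := by
        rcases div_eq_zero_iff.1 h1 with h | h
        · exact h
        · exact absurd h hl1pos.ne'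
      rw [h3, h4] at he
      norm_num at he
    obtain ⟨r, φ, hr, hy1, hy2⟩ := exists_polar hy0
    have e2 : l3 * Real.sin φ = e.2 / r := by
      have : e.2 / l3 = r * Real.sin φ := hy2
      rw [eq_div_iff hr.ne']
      rw [div_eq_iff hl3pos.ne'] at this
      rw [this]; ring
    have e1 : l1 * Real.cos φ + l2 * Real.sin φ = e.1 / r := by
      have h1 : (e.1 - l2 * (e.2 / l3)) / l1 = r * Real.cos φ := hy1
      have h2 : e.2 / l3 = r * Real.sin φ := hy2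
      rw [h2, div_eq_iff hl1pos.ne'] at h1
      rw [eq_div_iff hr.ne']
      linarith
    have hwr : w φ = 1 / r := by
      have h1 := hsq φ
      rw [e1, e2, div_pow, div_pow, ← add_div, he] at h1
      have h2 : (w φ) ^ 2 = (1 / r) ^ 2 := by rw [← h1]; ring
      have h3 : (0:ℝ) ≤ 1 / r := by positivity
      exact (pow_left_inj₀ (hwpos φ).le h3 two_ne_zero).1 h2
    refine ⟨φ, ?_⟩
    rw [hPA φ, e1, e2, hwr]
    congr 1
    ext
    · simp only; field_simp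
    · simp only; field_simp

end Pool.Agent.H664.OvalGeom
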