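import Pool.Agent.H664.OvalBranch

open Topology Filter Set
open scoped Real

namespace Pool.Agent.H664.OvalODE

open Pool.Agent.H664.OvalJets (RR QQ)

lemma const_of_deriv_zero {F : ℝ → ℝ} (h : ∀ x, HasDerivAt F 0 x) (x y : ℝ) : F x = F y :=
  is_const_of_deriv_eq_zero (fun x => (h x).differentiableAt) (fun x => (h x).deriv) x y

/-- the algebraic heart: the fifth order relation in terms of `z` -/
lemma algebra_R5 {q w z z1 z2 z3 s : ℝ} (hq : 0 < q) (hw : 0 < w) (hk : 0 < 1 - z ^ 2)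
    (hR : 3 * (QQ s (2 / q * (1 - z) * w ^ 3) (2 / q * (3 * s * (1 - z) - z1) * w ^ 3)
        (2 / q * (9 * s ^ 2 * (1 - z) - 6 * s * z1 +
          3 * (q / (w ^ 4 * (1 - z ^ 2)) - 1 - s ^ 2) * (1 - z) - z2) * w ^ 3)
        (2 / q * ((27 * s ^ 3 + 27 * s * (q / (w ^ 4 * (1 - z ^ 2)) - 1 - s ^ 2) +
          3 * (q * (-4 * s * (1 - z ^ 2) + 2 * z * z1) / (w ^ 4 * (1 - z ^ 2) ^ 2) -
            2 * s * (q / (w ^ 4 * (1 - z ^ 2)) - 1 - s ^ 2))) * (1 - z) - 27 * s ^ 2 * z1 -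
          9 * (q / (w ^ 4 * (1 - z ^ 2)) - 1 - s ^ 2) * z1 - 9 * s * z2 - z3) * w ^ 3) +
      QQ s (2 / q * (1 + z) * w ^ 3) (2 / q * (3 * s * (1 + z) + z1) * w ^ 3)
        (2 / q * (9 * s ^ 2 * (1 + z) + 6 * s * z1 +
          3 * (q / (w ^ 4 * (1 - z ^ 2)) - 1 - s ^ 2) * (1 + z) + z2) * w ^ 3)
        (2 / q * ((27 * s ^ 3 + 27 * s * (q / (w ^ 4 * (1 - z ^ 2)) - 1 - s ^ 2) +
          3 * (q * (-4 * s * (1 - z ^ 2) + 2 * z * z1) / (w ^ 4 * (1 - z ^ 2) ^ 2) -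
            2 * s * (q / (w ^ 4 * (1 - z ^ 2)) - 1 - s ^ 2))) * (1 + z) + 27 * s ^ 2 * z1 +
          9 * (q / (w ^ 4 * (1 - z ^ 2)) - 1 - s ^ 2) * z1 + 9 * s * z2 + z3) * w ^ 3)) =
      10 * (2 / q * (3 * s * (1 - z) - z1) * w ^ 3 - 3 * (2 / q * (1 - z) * w ^ 3) * s) *
      (RR s (2 / q * (1 - z) * w ^ 3) (2 / q * (3 * s * (1 - z) - z1) * w ^ 3)
        (2 / q * (9 * s ^ 2 * (1 - z) - 6 * s * z1 +
          3 * (q / (w ^ 4 * (1 - z ^ 2)) - 1 - s ^ 2) * (1 - z) - z2) * w ^ 3) -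
      RR s (2 / q * (1 + z) * w ^ 3) (2 / q * (3 * s * (1 + z) + z1) * w ^ 3)
        (2 / q * (9 * s ^ 2 * (1 + z) + 6 * s * z1 +
          3 * (q / (w ^ 4 * (1 - z ^ 2)) - 1 - s ^ 2) * (1 + z) + z2) * w ^ 3))) :
    4 * s * w ^ 4 * (z1 ^ 2 - 3 * z * z2 - 6 * s * z * z1) +
      w ^ 4 * (2 * z1 * z2 - 3 * z1 * z2 - 3 * z * z3 -
        6 * (q / (w ^ 4 * (1 - z ^ 2)) - 1 - s ^ 2) * z * z1 - 6 * s * z1 ^ 2 -
        6 * s * z * z2) - 36 * q * z * z1 / (1 - z ^ 2) ^ 2 = 0 := by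
  have hw2 : w ≠ 0 := hw.ne'
  have hq2 : q ≠ 0 := hq.ne'
  obtain ⟨k, hk'⟩ : ∃ k, k = 1 - z ^ 2 := ⟨_, rfl⟩
  rw [← hk'] at hR hk ⊢
  have hk2 : k ≠ 0 := hk.ne'
  have key : 32 * w ^ 5 / q ^ 3 * (4 * s * w ^ 4 * (z1 ^ 2 - 3 * z * z2 - 6 * s * z * z1) +
      w ^ 4 * (2 * z1 * z2 - 3 * z1 * z2 - 3 * z * z3 -
        6 * (q / (w ^ 4 * k) - 1 - s ^ 2) * z * z1 - 6 * s * z1 ^ 2 -
        6 * s * z * z2) - 36 * q * z * z1 / k ^ 2) = 0 := by
    have hR2 := sub_eq_zero.2 hR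
    rw [← neg_eq_zero] at hR2
    refine Eq.trans ?_ hR2
    clear hR hR2
    unfold QQ RR
    field_simp
    rw [hk']
    ring
  have h32 : 32 * w ^ 5 / q ^ 3 ≠ 0 := by positivity
  exact (mul_eq_zero.1 key).resolve_left h32


/-- the analytic data of an oval: `a` is the curvature as a function of the angle of the normal,
`w` the width, `w1` its derivative -/
structure Data (a a1 a2 a3 w w1 : ℝ → ℝ) : Prop where
  apos : ∀ x, 0 < a x
  ha : ∀ x, HasDerivAt a (a1 x) x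
  ha1 : ∀ x, HasDerivAt a1 (a2 x) x
  ha2 : ∀ x, HasDerivAt a2 (a3 x) x
  per : ∀ x, a (x + 2 * π) = a x
  wpos : ∀ x, 0 < w x
  hw : ∀ x, HasDerivAt w (w1 x) x
  hw1 : ∀ x, HasDerivAt w1 (1 / a x + 1 / a (x + π) - w x) x
  R3 : ∀ x, a1 x + a1 (x + π) = 3 * (w1 x / w x) * (a x + a (x + π))
  R5 : ∀ x, 3 * (QQ (w1 x / w x) (a x) (a1 x) (a2 x) (a3 x) +
      QQ (w1 x / w x) (a (x + π)) (a1 (x + π)) (a2 (x + π)) (a3 (x + π))) =
    10 * (a1 x - 3 * a x * (w1 x / w x)) * (RR (w1 x / w x) (a x) (a1 x) (a2 x) -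
      RR (w1 x / w x) (a (x + π)) (a1 (x + π)) (a2 (x + π)))
  radon : ∀ x, w1 (x + Real.arctan (w1 x / w x) - π / 2) / w (x + Real.arctan (w1 x / w x) - π / 2)
    = -(w1 x / w x)

section

variable {a a1 a2 a3 w w1 : ℝ → ℝ}

lemma Data.hb (h : Data a a1 a2 a3 w w1) (x : ℝ) :
    HasDerivAt (fun x => a (x + π)) (a1 (x + π)) x := (h.ha (x + π)).comp_add_const x π
lemma Data.hb1 (h : Data a a1 a2 a3 w w1) (x : ℝ) :
    HasDerivAt (fun x => a1 (x + π)) (a2 (x + π)) x := (h.ha1 (x + π)).comp_add_const x π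
lemma Data.hb2 (h : Data a a1 a2 a3 w w1) (x : ℝ) :
    HasDerivAt (fun x => a2 (x + π)) (a3 (x + π)) x := (h.ha2 (x + π)).comp_add_const x π

lemma Data.exists_q (h : Data a a1 a2 a3 w w1) :
    ∃ q : ℝ, 0 < q ∧ ∀ x, a x + a (x + π) = 4 / q * w x ^ 3 := by
  have hd : ∀ x, HasDerivAt (fun x => (a x + a (x + π)) / w x ^ 3) 0 x := by
    intro x
    have hwp := h.wpos x
    refine (((h.ha x).add (h.hb x)).div ((h.hw x).pow 3) (pow_ne_zero 3 hwp.ne')).congr_deriv ?_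
    simp only [Pi.pow_apply, Pi.add_apply]
    rw [h.R3 x]
    push_cast
    field_simp
    ring
  set m := (a 0 + a (0 + π)) / w 0 ^ 3 with hm
  have hm0 : 0 < m := by
    have h1 := h.apos 0
    have h2 := h.apos (0 + π)
    have h3 := h.wpos 0
    positivity
  refine ⟨4 / m, by positivity, fun x => ?_⟩
  have h1 := const_of_deriv_zero hd x 0
  rw [← hm, div_eq_iff (pow_ne_zero 3 (h.wpos x).ne')] at h1
  rw [h1]
  field_simp

variable {q : ℝ}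

/-- logarithmic derivative of the width -/
noncomputable def sf (w w1 : ℝ → ℝ) (x : ℝ) : ℝ := w1 x / w x
/-- difference of the opposite curvatures and its derivatives, normalised -/
noncomputable def dd (a w : ℝ → ℝ) (q x : ℝ) : ℝ := q * (a (x + π) - a x) / (4 * w x ^ 3)

noncomputable def zz (a w : ℝ → ℝ) (q x : ℝ) : ℝ := dd a w q x
noncomputable def ss1 (a w w1 : ℝ → ℝ) (q x : ℝ) : ℝ :=
  q / (w x ^ 4 * (1 - zz a w q x ^ 2)) - 1 - sf w w1 x ^ 2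
noncomputable def zz1 (a a1 w w1 : ℝ → ℝ) (q x : ℝ) : ℝ :=
  dd a1 w q x - 3 * sf w w1 x * zz a w q x
noncomputable def zz2 (a a1 a2 w w1 : ℝ → ℝ) (q x : ℝ) : ℝ :=
  dd a2 w q x - 3 * sf w w1 x * dd a1 w q x - 3 * ss1 a w w1 q x * zz a w q x -
    3 * sf w w1 x * zz1 a a1 w w1 q x
noncomputable def ss2 (a a1 w w1 : ℝ → ℝ) (q x : ℝ) : ℝ :=
  q * (-4 * sf w w1 x * (1 - zz a w q x ^ 2) + 2 * zz a w q x * zz1 a a1 w w1 q x) /
    (w x ^ 4 * (1 - zz a w q x ^ 2) ^ 2) - 2 * sf w w1 x * ss1 a w w1 q x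
noncomputable def zz3 (a a1 a2 a3 w w1 : ℝ → ℝ) (q x : ℝ) : ℝ :=
  dd a3 w q x - 3 * sf w w1 x * dd a2 w q x - 3 * ss1 a w w1 q x * dd a1 w q x -
    3 * sf w w1 x * (dd a2 w q x - 3 * sf w w1 x * dd a1 w q x) -
    3 * ss2 a a1 w w1 q x * zz a w q x - 3 * ss1 a w w1 q x * zz1 a a1 w w1 q x -
    3 * ss1 a w w1 q x * zz1 a a1 w w1 q x - 3 * sf w w1 x * zz2 a a1 a2 w w1 q x

lemma Data.abs_zz (h : Data a a1 a2 a3 w w1) (hq : 0 < q)
    (hs : ∀ x, a x + a (x + π) = 4 / q * w x ^ 3) (x : ℝ) : 0 < 1 - zz a w q x ^ 2 := by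
  have h1 := h.apos x
  have h2 := h.apos (x + π)
  have h3 := h.wpos x
  have e : zz a w q x = (a (x + π) - a x) / (a x + a (x + π)) := by
    rw [hs x]; unfold zz dd; field_simp
  have e2 : 1 - zz a w q x ^ 2 = 4 * a x * a (x + π) / (a x + a (x + π)) ^ 2 := by
    rw [e]; field_simp; ring
  rw [e2]; positivity

lemma Data.a_eq (h : Data a a1 a2 a3 w w1) (hq : 0 < q)
    (hs : ∀ x, a x + a (x + π) = 4 / q * w x ^ 3) (x : ℝ) :
    a x = 2 / q * (1 - zz a w q x) * w x ^ 3 ∧ a (x + π) = 2 / q * (1 + zz a w q x) * w x ^ 3 := by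
  have h3 := h.wpos x
  have e : a (x + π) - a x = 4 / q * zz a w q x * w x ^ 3 := by
    unfold zz dd; field_simp
  have := hs x
  constructor
  · linear_combination (1/2) * this - (1/2) * e
  · linear_combination (1/2) * this + (1/2) * e

lemma Data.rho_eq (h : Data a a1 a2 a3 w w1) (hq : 0 < q)
    (hs : ∀ x, a x + a (x + π) = 4 / q * w x ^ 3) (x : ℝ) :
    1 / a x + 1 / a (x + π) = q / (w x ^ 3 * (1 - zz a w q x ^ 2)) := by
  have h3 := h.wpos x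
  have hk := h.abs_zz hq hs x
  obtain ⟨e1, e2⟩ := h.a_eq hq hs x
  have p1 := h.apos x
  have p2 := h.apos (x + π)
  have q1 : 1 - zz a w q x ≠ 0 := by
    intro h0; rw [e1, h0] at p1; simp at p1
  have q2 : 1 + zz a w q x ≠ 0 := by
    intro h0; rw [e2, h0] at p2; simp at p2
  rw [e1, e2]
  have e3 : 1 - zz a w q x ^ 2 = (1 - zz a w q x) * (1 + zz a w q x) := by ring
  rw [e3]
  field_simp
  ring

lemma Data.hasDerivAt_sf (h : Data a a1 a2 a3 w w1) (hq : 0 < q)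
    (hs : ∀ x, a x + a (x + π) = 4 / q * w x ^ 3) (x : ℝ) :
    HasDerivAt (sf w w1) (ss1 a w w1 q x) x := by
  have h3 := h.wpos x
  have hk := h.abs_zz hq hs x
  refine ((h.hw1 x).div (h.hw x) h3.ne').congr_deriv ?_
  rw [h.rho_eq hq hs x]
  unfold ss1 sf
  have hk2 := hk.ne'
  obtain ⟨k, hk'⟩ : ∃ k, k = 1 - zz a w q x ^ 2 := ⟨_, rfl⟩
  rw [← hk'] at hk2 ⊢
  field_simp

lemma Data.hasDerivAt_dd (h : Data a a1 a2 a3 w w1) {c c1 : ℝ → ℝ}
    (hc : ∀ x, HasDerivAt c (c1 x) x) (q x : ℝ) :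
    HasDerivAt (dd c w q) (dd c1 w q x - 3 * sf w w1 x * dd c w q x) x := by
  have h3 := h.wpos x
  refine (((((hc (x + π)).comp_add_const x π).sub (hc x)).const_mul q).div
    (((h.hw x).pow 3).const_mul 4) (mul_ne_zero four_ne_zero (pow_ne_zero 3 h3.ne'))).congr_deriv ?_
  unfold dd sf
  simp only [Pi.pow_apply, Pi.sub_apply]
  push_cast
  field_simp

lemma Data.hasDerivAt_zz (h : Data a a1 a2 a3 w w1) (q x : ℝ) :
    HasDerivAt (zz a w q) (zz1 a a1 w w1 q x) x := h.hasDerivAt_dd h.ha q x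

lemma Data.hasDerivAt_zz1 (h : Data a a1 a2 a3 w w1) (hq : 0 < q)
    (hs : ∀ x, a x + a (x + π) = 4 / q * w x ^ 3) (x : ℝ) :
    HasDerivAt (zz1 a a1 w w1 q) (zz2 a a1 a2 w w1 q x) x := by
  refine ((h.hasDerivAt_dd h.ha1 q x).sub
    (((h.hasDerivAt_sf hq hs x).const_mul 3).mul (h.hasDerivAt_zz q x))).congr_deriv ?_
  unfold zz2
  ring

lemma Data.hasDerivAt_ss1 (h : Data a a1 a2 a3 w w1) (hq : 0 < q)
    (hs : ∀ x, a x + a (x + π) = 4 / q * w x ^ 3) (x : ℝ) :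
    HasDerivAt (ss1 a w w1 q) (ss2 a a1 w w1 q x) x := by
  have h3 := h.wpos x
  have hk := h.abs_zz hq hs x
  have d1 := ((h.hw x).pow 4).mul (((h.hasDerivAt_zz q x).pow 2).const_sub 1)
  have d2 := (((hasDerivAt_const x q).div d1 (by
    simp only [Pi.pow_apply, Pi.mul_apply]
    positivity)).sub_const 1).sub ((h.hasDerivAt_sf hq hs x).pow 2)
  refine d2.congr_deriv ?_
  unfold ss2
  have e : w1 x = sf w w1 x * w x := by unfold sf; field_simp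
  have hk2 := hk.ne'
  simp only [Pi.pow_apply, Pi.mul_apply]
  rw [e]
  push_cast
  obtain ⟨k, hk'⟩ : ∃ k, k = 1 - zz a w q x ^ 2 := ⟨_, rfl⟩
  rw [← hk'] at hk2 ⊢
  field_simp
  ring

lemma Data.hasDerivAt_zz2 (h : Data a a1 a2 a3 w w1) (hq : 0 < q)
    (hs : ∀ x, a x + a (x + π) = 4 / q * w x ^ 3) (x : ℝ) :
    HasDerivAt (zz2 a a1 a2 w w1 q) (zz3 a a1 a2 a3 w w1 q x) x := by
  have ds := h.hasDerivAt_sf hq hs x
  refine ((((h.hasDerivAt_dd h.ha2 q x).sub ((ds.const_mul 3).mul (h.hasDerivAt_dd h.ha1 q x))).sub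
    (((h.hasDerivAt_ss1 hq hs x).const_mul 3).mul (h.hasDerivAt_zz q x))).sub
    ((ds.const_mul 3).mul (h.hasDerivAt_zz1 hq hs x))).congr_deriv ?_
  unfold zz3
  ring

/-- sums of derivatives of opposite curvatures -/
lemma Data.sums (h : Data a a1 a2 a3 w w1) (hq : 0 < q)
    (hs : ∀ x, a x + a (x + π) = 4 / q * w x ^ 3) (x : ℝ) :
    a1 x + a1 (x + π) = 4 / q * (3 * sf w w1 x) * w x ^ 3 ∧
    a2 x + a2 (x + π) = 4 / q * (3 * ss1 a w w1 q x + 9 * sf w w1 x ^ 2) * w x ^ 3 ∧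
    a3 x + a3 (x + π) = 4 / q * (3 * ss2 a a1 w w1 q x + 27 * sf w w1 x * ss1 a w w1 q x +
      27 * sf w w1 x ^ 3) * w x ^ 3 := by
  have e : ∀ x, w1 x = sf w w1 x * w x := fun x => by
    have := h.wpos x
    unfold sf; field_simp
  have s1 : ∀ x, a1 x + a1 (x + π) = 4 / q * (3 * sf w w1 x) * w x ^ 3 := by
    intro x
    rw [h.R3 x, hs x]; unfold sf; ring
  have s2 : ∀ x, a2 x + a2 (x + π) =
      4 / q * (3 * ss1 a w w1 q x + 9 * sf w w1 x ^ 2) * w x ^ 3 := by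
    intro x
    have d1 : HasDerivAt (fun x => a1 x + a1 (x + π)) (a2 x + a2 (x + π)) x :=
      (h.ha1 x).add (h.hb1 x)
    have d2 : HasDerivAt (fun x => 4 / q * (3 * sf w w1 x) * w x ^ 3)
        (4 / q * (3 * ss1 a w w1 q x + 9 * sf w w1 x ^ 2) * w x ^ 3) x := by
      refine ((((h.hasDerivAt_sf hq hs x).const_mul 3).const_mul (4 / q)).mul
        ((h.hw x).pow 3)).congr_deriv ?_
      simp only [Pi.pow_apply]
      rw [e x]; push_cast; ring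
    have : (fun x => a1 x + a1 (x + π)) = fun x => 4 / q * (3 * sf w w1 x) * w x ^ 3 :=
      funext s1
    rw [this] at d1
    exact d1.unique d2
  refine ⟨s1 x, s2 x, ?_⟩
  have d1 : HasDerivAt (fun x => a2 x + a2 (x + π)) (a3 x + a3 (x + π)) x :=
    (h.ha2 x).add (h.hb2 x)
  have d2 : HasDerivAt (fun x => 4 / q * (3 * ss1 a w w1 q x + 9 * sf w w1 x ^ 2) * w x ^ 3)
      (4 / q * (3 * ss2 a a1 w w1 q x + 27 * sf w w1 x * ss1 a w w1 q x +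
      27 * sf w w1 x ^ 3) * w x ^ 3) x := by
    refine (((((h.hasDerivAt_ss1 hq hs x).const_mul 3).add
      (((h.hasDerivAt_sf hq hs x).pow 2).const_mul 9)).const_mul (4 / q)).mul
      ((h.hw x).pow 3)).congr_deriv ?_
    simp only [Pi.pow_apply, Pi.add_apply]
    rw [e x]; push_cast; ring
  have : (fun x => a2 x + a2 (x + π)) =
      fun x => 4 / q * (3 * ss1 a w w1 q x + 9 * sf w w1 x ^ 2) * w x ^ 3 := funext s2
  rw [this] at d1
  exact d1.unique d2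

/-- the first integral -/
noncomputable def E2 (a a1 a2 w w1 : ℝ → ℝ) (q x : ℝ) : ℝ :=
  w x ^ 4 * (zz1 a a1 w w1 q x ^ 2 - 3 * zz a w q x * zz2 a a1 a2 w w1 q x -
    6 * sf w w1 x * zz a w q x * zz1 a a1 w w1 q x) -
    18 * q * zz a w q x ^ 2 / (1 - zz a w q x ^ 2)

lemma Data.hasDerivAt_E2 (h : Data a a1 a2 a3 w w1) (hq : 0 < q)
    (hs : ∀ x, a x + a (x + π) = 4 / q * w x ^ 3) (x : ℝ) :
    HasDerivAt (E2 a a1 a2 w w1 q) 0 x := by
  have h3 := h.wpos x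
  have hk := h.abs_zz hq hs x
  have e : w1 x = sf w w1 x * w x := by unfold sf; field_simp
  have dz := h.hasDerivAt_zz q x
  have dz1 := h.hasDerivAt_zz1 hq hs x
  have dz2 := h.hasDerivAt_zz2 hq hs x
  have dsf := h.hasDerivAt_sf hq hs x
  have d := (((h.hw x).pow 4).mul (((dz1.pow 2).sub ((dz.const_mul 3).mul dz2)).sub
    (((dsf.const_mul 6).mul dz).mul dz1))).sub
    (((dz.pow 2).const_mul (18 * q)).div ((dz.pow 2).const_sub 1) hk.ne')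
  refine d.congr_deriv ?_
  simp only [Pi.pow_apply, Pi.mul_apply, Pi.sub_apply]
  obtain ⟨S1, S2, S3⟩ := h.sums hq hs x
  obtain ⟨A0, B0⟩ := h.a_eq hq hs x
  have D1 : a1 (x + π) - a1 x = 4 / q * (zz1 a a1 w w1 q x + 3 * sf w w1 x * zz a w q x) *
      w x ^ 3 := by
    have : dd a1 w q x = zz1 a a1 w w1 q x + 3 * sf w w1 x * zz a w q x := by unfold zz1; ring
    rw [← this]; unfold dd; field_simp
  have D2 : a2 (x + π) - a2 x = 4 / q * (zz2 a a1 a2 w w1 q x + 6 * sf w w1 x * zz1 a a1 w w1 q x +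
      (3 * ss1 a w w1 q x + 9 * sf w w1 x ^ 2) * zz a w q x) * w x ^ 3 := by
    have : dd a2 w q x = zz2 a a1 a2 w w1 q x + 6 * sf w w1 x * zz1 a a1 w w1 q x +
      (3 * ss1 a w w1 q x + 9 * sf w w1 x ^ 2) * zz a w q x := by unfold zz2 zz1; ring
    rw [← this]; unfold dd; field_simp
  have D3 : a3 (x + π) - a3 x = 4 / q * (zz3 a a1 a2 a3 w w1 q x +
      (27 * sf w w1 x ^ 2 + 9 * ss1 a w w1 q x) * zz1 a a1 w w1 q x +
      9 * sf w w1 x * zz2 a a1 a2 w w1 q x +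
      (27 * sf w w1 x ^ 3 + 27 * sf w w1 x * ss1 a w w1 q x + 3 * ss2 a a1 w w1 q x) *
      zz a w q x) * w x ^ 3 := by
    have : dd a3 w q x = zz3 a a1 a2 a3 w w1 q x +
      (27 * sf w w1 x ^ 2 + 9 * ss1 a w w1 q x) * zz1 a a1 w w1 q x +
      9 * sf w w1 x * zz2 a a1 a2 w w1 q x +
      (27 * sf w w1 x ^ 3 + 27 * sf w w1 x * ss1 a w w1 q x + 3 * ss2 a a1 w w1 q x) *
      zz a w q x := by unfold zz3 zz2 zz1; ring
    rw [← this]; unfold dd; field_simp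
  have R := h.R5 x
  have es : w1 x / w x = sf w w1 x := rfl
  rw [es] at R
  have A1 : a1 x = 2 / q * (3 * sf w w1 x * (1 - zz a w q x) - zz1 a a1 w w1 q x) * w x ^ 3 := by
    linear_combination (1/2) * S1 - (1/2) * D1
  have B1 : a1 (x + π) = 2 / q * (3 * sf w w1 x * (1 + zz a w q x) + zz1 a a1 w w1 q x) *
      w x ^ 3 := by
    linear_combination (1/2) * S1 + (1/2) * D1
  have A2 : a2 x = 2 / q * (9 * sf w w1 x ^ 2 * (1 - zz a w q x) -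
      6 * sf w w1 x * zz1 a a1 w w1 q x + 3 * ss1 a w w1 q x * (1 - zz a w q x) -
      zz2 a a1 a2 w w1 q x) * w x ^ 3 := by
    linear_combination (1/2) * S2 - (1/2) * D2
  have B2 : a2 (x + π) = 2 / q * (9 * sf w w1 x ^ 2 * (1 + zz a w q x) +
      6 * sf w w1 x * zz1 a a1 w w1 q x + 3 * ss1 a w w1 q x * (1 + zz a w q x) +
      zz2 a a1 a2 w w1 q x) * w x ^ 3 := by
    linear_combination (1/2) * S2 + (1/2) * D2
  have A3 : a3 x = 2 / q * ((27 * sf w w1 x ^ 3 + 27 * sf w w1 x * ss1 a w w1 q x +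
      3 * ss2 a a1 w w1 q x) * (1 - zz a w q x) - 27 * sf w w1 x ^ 2 * zz1 a a1 w w1 q x -
      9 * ss1 a w w1 q x * zz1 a a1 w w1 q x - 9 * sf w w1 x * zz2 a a1 a2 w w1 q x -
      zz3 a a1 a2 a3 w w1 q x) * w x ^ 3 := by
    linear_combination (1/2) * S3 - (1/2) * D3
  have B3 : a3 (x + π) = 2 / q * ((27 * sf w w1 x ^ 3 + 27 * sf w w1 x * ss1 a w w1 q x +
      3 * ss2 a a1 w w1 q x) * (1 + zz a w q x) + 27 * sf w w1 x ^ 2 * zz1 a a1 w w1 q x +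
      9 * ss1 a w w1 q x * zz1 a a1 w w1 q x + 9 * sf w w1 x * zz2 a a1 a2 w w1 q x +
      zz3 a a1 a2 a3 w w1 q x) * w x ^ 3 := by
    linear_combination (1/2) * S3 + (1/2) * D3
  rw [A1, B1, A2, B2, A3, B3, A0, B0] at R
  have key := algebra_R5 (q := q) (w := w x) (z := zz a w q x) (z1 := zz1 a a1 w w1 q x)
    (z2 := zz2 a a1 a2 w w1 q x) (z3 := zz3 a a1 a2 a3 w w1 q x) (s := sf w w1 x) hq h3 hk R
  rw [e]
  have es1 : ss1 a w w1 q x = q / (w x ^ 4 * (1 - zz a w q x ^ 2)) - 1 - sf w w1 x ^ 2 := rfl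
  rw [← es1] at key
  refine Eq.trans ?_ key
  have hk2 := hk.ne'
  push_cast
  obtain ⟨k, hk'⟩ : ∃ k, k = 1 - zz a w q x ^ 2 := ⟨_, rfl⟩
  rw [← hk'] at hk2 ⊢
  have hz2 : zz a w q x ^ 2 = 1 - k := by rw [hk']; ring
  field_simp
  rw [hz2]
  ring

end

end Pool.Agent.H664.OvalODE
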