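import Mathlib

open Topology Filter Set MeasureTheory

namespace Pool.Agent.H664.Sard

noncomputable section

lemma mvt_pow {E F : Type} [NormedAddCommGroup E] [NormedSpace ℝ E] [NormedAddCommGroup F]
    [NormedSpace ℝ F] {f : E → F} (hf : Differentiable ℝ f) {Q : Set E} (hQc : Convex ℝ Q)
    {p : E} (hp : p ∈ Q) {C : ℝ} (hC : 0 ≤ C) {n : ℕ}
    (h : ∀ q ∈ Q, ‖fderiv ℝ f q‖ ≤ C * ‖q - p‖ ^ n) :
    ∀ q ∈ Q, ‖f q - f p‖ ≤ C * ‖q - p‖ ^ (n + 1) := by
  intro q hq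
  have hseg : segment ℝ p q ⊆ Q := hQc.segment_subset hp hq
  have h1 : ∀ z ∈ segment ℝ p q, ‖fderiv ℝ f z‖ ≤ C * ‖q - p‖ ^ n := by
    intro z hz
    refine (h z (hseg hz)).trans ?_
    have h2 : ‖z - p‖ ≤ ‖q - p‖ := by
      rw [segment_eq_image'] at hz
      obtain ⟨θ, hθ, rfl⟩ := hz
      simp only [add_sub_cancel_left]
      rw [norm_smul, Real.norm_of_nonneg hθ.1]
      calc θ * ‖q - p‖ ≤ 1 * ‖q - p‖ := by gcongr; exact hθ.2
        _ = _ := one_mul _
    gcongr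
  have h2 := (convex_segment p q).norm_image_sub_le_of_norm_fderiv_le (𝕜 := ℝ) (f := f)
    (fun z _ => hf z) h1 (left_mem_segment ℝ _ _) (right_mem_segment ℝ _ _)
  rw [pow_succ, ← mul_assoc]
  exact h2

lemma flat_taylor {E : Type} [NormedAddCommGroup E] [NormedSpace ℝ E] {Q : Set E}
    (hQ : IsCompact Q) (hQc : Convex ℝ Q) (n : ℕ) :
    ∀ {F : Type} [NormedAddCommGroup F] [NormedSpace ℝ F] (f : E → F), ContDiff ℝ n f →
      ∃ C : ℝ, 0 ≤ C ∧ ∀ p ∈ Q, (∀ i < n, iteratedFDeriv ℝ i f p = 0) →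
        ∀ q ∈ Q, ‖f q‖ ≤ C * ‖q - p‖ ^ n := by
  induction n with
  | zero =>
    intro F _ _ f hf
    obtain ⟨C, hC⟩ := hQ.exists_bound_of_continuousOn hf.continuous.continuousOn
    refine ⟨max C 0, le_max_right _ _, fun p _ _ q hq => ?_⟩
    rw [pow_zero, mul_one]
    exact (hC q hq).trans (le_max_left _ _)
  | succ n ih =>
    intro F _ _ f hf
    have hf1 : Differentiable ℝ f := hf.differentiable (by simp)
    have hf2 : ContDiff ℝ n (fderiv ℝ f) := by
      have h := hf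
      push_cast at h
      exact (contDiff_succ_iff_fderiv.1 h).2.2
    obtain ⟨C, hC, h⟩ := ih (fderiv ℝ f) hf2
    refine ⟨C, hC, fun p hp hflat q hq => ?_⟩
    have h0 : f p = 0 := by
      have := hflat 0 (Nat.succ_pos n)
      have h1 := norm_iteratedFDeriv_zero (𝕜 := ℝ) (f := f) (x := p)
      rw [this, norm_zero] at h1
      exact norm_eq_zero.1 h1.symm
    have h1 : ∀ i < n, iteratedFDeriv ℝ i (fderiv ℝ f) p = 0 := by
      intro i hi
      have := hflat (i + 1) (by omega)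
      rw [← norm_eq_zero, norm_iteratedFDeriv_fderiv, this, norm_zero]
    have h2 := mvt_pow hf1 hQc hp hC (h p hp h1) q hq
    rwa [h0, sub_zero] at h2

lemma holder_of {X Y : Type} [PseudoMetricSpace X] [PseudoMetricSpace Y] {f : X → Y} {s : Set X}
    {C : ℝ} (hC : 0 ≤ C) {n : ℕ} (h : ∀ x ∈ s, ∀ y ∈ s, dist (f x) (f y) ≤ C * dist x y ^ n) :
    HolderOnWith (Real.toNNReal C) (n : NNReal) f s := by
  intro x hx y hy
  have h1 := h x hx y hy
  rw [edist_dist, edist_dist]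
  have h2 : ENNReal.ofReal (dist x y) ^ (((n : NNReal) : ℝ)) = ENNReal.ofReal (dist x y ^ n) := by
    rw [NNReal.coe_natCast, ENNReal.rpow_natCast, ENNReal.ofReal_pow dist_nonneg]
  rw [h2]
  have h3 : (Real.toNNReal C : ENNReal) = ENNReal.ofReal C := rfl
  rw [h3, ← ENNReal.ofReal_mul hC]
  exact ENNReal.ofReal_le_ofReal h1

lemma dimH_image_of_pow {X Y : Type} [MetricSpace X] [MetricSpace Y]
    {f : X → Y} {s : Set X}
    {C : ℝ} (hC : 0 ≤ C) {n : ℕ} (hn : 0 < n)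
    (h : ∀ x ∈ s, ∀ y ∈ s, dist (f x) (f y) ≤ C * dist x y ^ n) :
    dimH (f '' s) ≤ dimH s / n := by
  have := (holder_of hC h).dimH_image_le (by exact_mod_cast hn)
  simpa using this

lemma dimH_image_le_of_local {X Y : Type} [MetricSpace X] [SecondCountableTopology X]
    [MetricSpace Y] {f : X → Y} {s : Set X} {r : ENNReal}
    (h : ∀ x ∈ s, ∃ V ∈ 𝓝 x, dimH (f '' (s ∩ V)) ≤ r) : dimH (f '' s) ≤ r := by
  choose! V hV hr using h
  obtain ⟨t, hts, htc, hcov⟩ := TopologicalSpace.countable_cover_nhdsWithin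
    (s := s) (f := V) (fun x hx => mem_nhdsWithin_of_mem_nhds (hV x hx))
  have h1 : f '' s ⊆ ⋃ x ∈ t, f '' (s ∩ V x) := by
    rintro _ ⟨y, hy, rfl⟩
    obtain ⟨x, hx, hyx⟩ := mem_iUnion₂.1 (hcov hy)
    exact mem_iUnion₂.2 ⟨x, hx, y, ⟨hy, hyx⟩, rfl⟩
  refine (dimH_mono h1).trans ?_
  rw [dimH_bUnion htc]
  exact iSup₂_le fun x hx => hr x (hts hx)

/-- one-dimensional Sard theorem: the critical values of a `C^k` function on the line have
dimension at most `1/k` -/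
theorem sard1d {k : ℕ} (hk : 1 ≤ k) {h : ℝ → ℝ} (hh : ContDiff ℝ k h) (A : Set ℝ)
    (hA : ∀ x ∈ A, deriv h x = 0) : dimH (h '' A) ≤ 1 / k := by
  set N : Set ℝ := {x ∈ A | ∃ U ∈ 𝓝 x, (A ∩ U).Countable} with hN
  have hNc : N.Countable := by
    have hex : ∀ x ∈ N, ∃ U ∈ 𝓝 x, (A ∩ U).Countable := fun x hx => hx.2
    choose! U hU hUc using hex
    obtain ⟨t, hts, htc, hcov⟩ := TopologicalSpace.countable_cover_nhdsWithin
      (s := N) (f := U) (fun x hx => mem_nhdsWithin_of_mem_nhds (hU x hx))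
    have h1 : N ⊆ ⋃ x ∈ t, A ∩ U x := by
      intro y hy
      obtain ⟨x, hx, hyx⟩ := mem_iUnion₂.1 (hcov hy)
      exact mem_iUnion₂.2 ⟨x, hx, hy.1, hyx⟩
    exact (htc.biUnion fun x hx => hUc x (hts hx)).mono h1
  set Ac : Set ℝ := A \ N with hAc
  have hacc : ∀ x ∈ Ac, ∃ᶠ y in 𝓝[≠] x, y ∈ Ac := by
    intro x hx
    rw [frequently_nhdsWithin_iff]
    rw [Filter.frequently_iff]
    intro U hU
    by_contra hcon
    push Not at hcon
    have h1 : A ∩ U ⊆ N ∪ {x} := by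
      intro y hy
      by_cases hyN : y ∈ N
      · exact Or.inl hyN
      · right
        by_contra hne
        exact hcon y hy.2 ⟨hy.1, hyN⟩ hne
    have h2 : (A ∩ U).Countable := (hNc.union (countable_singleton x)).mono h1
    exact hx.2 ⟨hx.1, U, hU, h2⟩
  have hder : ∀ i : ℕ, 1 ≤ i → i ≤ k → ∀ x ∈ Ac, iteratedDeriv i h x = 0 := by
    intro i hi
    induction i, hi using Nat.le_induction with
    | base =>
      intro _ x hx
      rw [iteratedDeriv_one]
      exact hA x hx.1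
    | succ i hi ih =>
      intro hik x hx
      have hd : HasDerivAt (iteratedDeriv i h) (iteratedDeriv (i + 1) h x) x := by
        rw [iteratedDeriv_succ]
        exact (hh.differentiable_iteratedDeriv i (by exact_mod_cast hik) x).hasDerivAt
      have h1 := hasDerivAt_iff_tendsto_slope.1 hd
      by_contra hne
      have h2 : ∀ᶠ y in 𝓝[≠] x, slope (iteratedDeriv i h) x y ≠ 0 :=
        h1.eventually_ne hne
      obtain ⟨y, hy1, hy2⟩ := ((hacc x hx).and_eventually h2).exists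
      apply hy2
      rw [slope_def_field, ih (by omega) x hx, ih (by omega) y hy1, sub_self, zero_div]
  have hbox : ∀ M : ℕ, dimH (h '' (Ac ∩ Icc (-(M:ℝ)) M)) ≤ 1 / k := by
    intro M
    obtain ⟨k', rfl⟩ : ∃ k', k = k' + 1 := ⟨k - 1, by omega⟩
    have hh1 : Differentiable ℝ h := hh.differentiable (by simp)
    have hh2 : ContDiff ℝ k' (deriv h) := by
      have h3 := hh
      push_cast at h3
      exact (contDiff_succ_iff_deriv.1 h3).2.2
    obtain ⟨C, hC, h3⟩ := flat_taylor (isCompact_Icc (a := -(M:ℝ)) (b := M))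
      (convex_Icc _ _) k' (deriv h) hh2
    have h4 : ∀ x ∈ Ac ∩ Icc (-(M:ℝ)) M, ∀ y ∈ Ac ∩ Icc (-(M:ℝ)) M,
        dist (h x) (h y) ≤ C * dist x y ^ (k' + 1) := by
      intro x hx y hy
      have h5 : ∀ i < k', iteratedFDeriv ℝ i (deriv h) x = 0 := by
        intro i hi
        rw [← norm_eq_zero, norm_iteratedFDeriv_eq_norm_iteratedDeriv, ← iteratedDeriv_succ',
          hder (i + 1) (by omega) (by omega) x hx.1, norm_zero]
      have h6 : ∀ q ∈ Icc (-(M:ℝ)) M, ‖fderiv ℝ h q‖ ≤ C * ‖q - x‖ ^ k' := by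
        intro q hq
        rw [← norm_deriv_eq_norm_fderiv]
        exact h3 x hx.2 h5 q hq
      have h7 := mvt_pow hh1 (convex_Icc _ _) hx.2 hC h6 y hy.2
      rw [dist_comm (h x), dist_comm x, dist_eq_norm, dist_eq_norm]
      exact h7
    refine (dimH_image_of_pow hC (Nat.succ_pos k') h4).trans ?_
    gcongr
    calc dimH (Ac ∩ Icc (-(M:ℝ)) M) ≤ dimH (univ : Set ℝ) := dimH_mono (subset_univ _)
      _ = 1 := Real.dimH_univ
  have hsub : h '' A ⊆ (h '' N) ∪ ⋃ M : ℕ, h '' (Ac ∩ Icc (-(M:ℝ)) M) := by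
    rintro _ ⟨x, hx, rfl⟩
    by_cases hxN : x ∈ N
    · exact Or.inl ⟨x, hxN, rfl⟩
    · right
      obtain ⟨M, hM⟩ := exists_nat_ge |x|
      exact mem_iUnion.2 ⟨M, x, ⟨⟨hx, hxN⟩, abs_le.1 hM⟩, rfl⟩
  refine (dimH_mono hsub).trans ?_
  rw [dimH_union, dimH_iUnion]
  refine max_le ?_ (iSup_le hbox)
  rw [dimH_countable (hNc.image h)]
  exact bot_le

/-- a germ of a `C^k` function extends to a global `C^k` function -/
lemma exists_contDiff_extension {F : Type} [NormedAddCommGroup F] [NormedSpace ℝ F] {k : ℕ}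
    {ψ : ℝ → F} {x : ℝ} (h : ContDiffAt ℝ k ψ x) :
    ∃ Ψ : ℝ → F, ContDiff ℝ k Ψ ∧ Ψ =ᶠ[𝓝 x] ψ := by
  have h1 := h.eventually (by simp)
  obtain ⟨r, hr, h2⟩ := Metric.eventually_nhds_iff_ball.1 h1
  let b : ContDiffBump x := ⟨r / 4, r / 2, by positivity, by linarith⟩
  refine ⟨fun y => b y • ψ y, ?_, ?_⟩
  · rw [contDiff_iff_contDiffAt]
    intro y
    by_cases hy : y ∈ Metric.ball x r
    · exact (b.contDiff (n := k)).contDiffAt.smul (h2 y hy)
    · have h3 : ∀ᶠ z in 𝓝 y, z ∉ Metric.closedBall x (r / 2) := by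
        apply (Metric.isClosed_closedBall.isOpen_compl).mem_nhds
        intro hz
        apply hy
        rw [Metric.mem_ball]
        rw [Metric.mem_closedBall] at hz
        linarith
      have h4 : (fun y => b y • ψ y) =ᶠ[𝓝 y] fun _ => 0 := by
        filter_upwards [h3] with z hz
        have h5 : b z = 0 := b.zero_of_le_dist (by
          rw [Metric.mem_closedBall, not_le] at hz
          exact hz.le)
        rw [h5, zero_smul]
      exact contDiffAt_const.congr_of_eventuallyEq h4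
  · filter_upwards [b.eventuallyEq_one] with y hy
    rw [hy]
    simp

lemma exists_graph {k : ℕ} (hk : 1 ≤ k) {w : ℝ × ℝ → ℝ} (hw : ContDiff ℝ k w) {p : ℝ × ℝ}
    (hp : w p = 0) (hd : fderiv ℝ w p (0, 1) ≠ 0) :
    ∃ γ : ℝ → ℝ × ℝ, ContDiff ℝ k γ ∧ ∀ᶠ q in 𝓝 p, w q = 0 → q ∈ range γ := by
  have hk' : (k : WithTop ℕ∞) ≠ 0 := by exact_mod_cast (by omega : k ≠ 0)
  have cdf : ContDiffAt ℝ k w p := hw.contDiffAt
  have hinv : (fderiv ℝ w p ∘L .inr ℝ ℝ ℝ).IsInvertible := by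
    set c : ℝ := fderiv ℝ w p (0, 1) with hc
    have h1 : (fderiv ℝ w p ∘L .inr ℝ ℝ ℝ) = c • ContinuousLinearMap.id ℝ ℝ := by
      ext
      simp [hc]
    rw [h1]
    refine ⟨ContinuousLinearEquiv.smulLeft (Units.mk0 c hd), ?_⟩
    ext
    simp
  have h1 := cdf.contDiffAt_implicitFunction hk' hinv
  have h2 := cdf.eventually_apply_eq_iff_implicitFunction hk' hinv
  obtain ⟨Ψ, hΨ, hΨ2⟩ := exists_contDiff_extension h1
  refine ⟨fun x => (x, Ψ x), contDiff_id.prodMk hΨ, ?_⟩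
  have h3 : ∀ᶠ q : ℝ × ℝ in 𝓝 p, Ψ q.1 = cdf.implicitFunction hk' hinv q.1 :=
    continuous_fst.continuousAt.eventually hΨ2
  filter_upwards [h2, h3] with q hq1 hq2 hq
  rw [hp] at hq1
  refine ⟨q.1, ?_⟩
  have := hq1.1 hq
  change (q.1, Ψ q.1) = q
  rw [hq2, this]

lemma exists_curve {k : ℕ} (hk : 1 ≤ k) {w : ℝ × ℝ → ℝ} (hw : ContDiff ℝ k w) {p v : ℝ × ℝ}
    (hp : w p = 0) (hd : fderiv ℝ w p v ≠ 0) :
    ∃ γ : ℝ → ℝ × ℝ, ContDiff ℝ k γ ∧ ∀ᶠ q in 𝓝 p, w q = 0 → q ∈ range γ := by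
  by_cases h : fderiv ℝ w p (0, 1) = 0
  · -- swap the coordinates
    have h1 : fderiv ℝ w p (1, 0) ≠ 0 := by
      intro h1
      apply hd
      have : v = v.1 • ((1:ℝ), (0:ℝ)) + v.2 • ((0:ℝ), (1:ℝ)) := by ext <;> simp
      rw [this, map_add, map_smul, map_smul, h, h1]
      simp
    have hsw : ContDiff ℝ k (Prod.swap : ℝ × ℝ → ℝ × ℝ) := contDiff_snd.prodMk contDiff_fst
    have hw1 : HasFDerivAt w (fderiv ℝ w p) (Prod.swap (Prod.swap p)) := by
      rw [Prod.swap_swap]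
      exact (hw.differentiable (by exact_mod_cast (by omega : k ≠ 0)) p).hasFDerivAt
    have h2 : HasFDerivAt (w ∘ Prod.swap) ((fderiv ℝ w p).comp
        ((ContinuousLinearMap.snd ℝ ℝ ℝ).prod (ContinuousLinearMap.fst ℝ ℝ ℝ))) (Prod.swap p) := by
      have h3 : HasFDerivAt (Prod.swap : ℝ × ℝ → ℝ × ℝ)
          ((ContinuousLinearMap.snd ℝ ℝ ℝ).prod (ContinuousLinearMap.fst ℝ ℝ ℝ)) (Prod.swap p) :=
        ((ContinuousLinearMap.snd ℝ ℝ ℝ).prod (ContinuousLinearMap.fst ℝ ℝ ℝ)).hasFDerivAt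
      exact hw1.comp _ h3
    obtain ⟨γ, hγ, h4⟩ := exists_graph hk (w := w ∘ Prod.swap) (p := Prod.swap p) (hw.comp hsw)
      (by simp [hp]) (by rw [h2.fderiv]; simpa using h1)
    refine ⟨fun x => Prod.swap (γ x), hsw.comp hγ, ?_⟩
    have h5 : Tendsto (Prod.swap : ℝ × ℝ → ℝ × ℝ) (𝓝 p) (𝓝 (Prod.swap p)) :=
      continuous_swap.tendsto p
    filter_upwards [h5.eventually h4] with q hq hq2
    obtain ⟨x, hx⟩ := hq (by simpa using hq2)
    exact ⟨x, by simp [hx]⟩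
  · exact exists_graph hk hw hp h

lemma dimH_range_curve {k : ℕ} (hk : 1 ≤ k) {γ : ℝ → ℝ × ℝ} (hγ : ContDiff ℝ k γ) :
    dimH (range γ) ≤ 1 := by
  have h1 : ContDiff ℝ 1 γ := hγ.of_le (by exact_mod_cast hk)
  simpa using h1.dimH_range_le

lemma inv_le_aux {a m : ℕ} (ha : 0 < a) (h : m + 1 ≤ 2 * a) :
    (1 : ENNReal) / a ≤ ENNReal.ofReal (2 / (m + 1)) := by
  have h1 : (1 : ENNReal) / a = ENNReal.ofReal (1 / a) := by
    rw [ENNReal.ofReal_div_of_pos (by exact_mod_cast ha)]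
    simp
  rw [h1]
  apply ENNReal.ofReal_le_ofReal
  rw [div_le_div_iff₀ (by exact_mod_cast ha) (by positivity)]
  have : (m:ℝ) + 1 ≤ 2 * a := by exact_mod_cast h
  linarith

/-- The Sard-type estimate: if `|DH| ≤ C |f|` with `f` of class `C^m` and `H` of class `C^m`,
the image under `H` of the zero set of `f` has dimension at most `2/(m+1)`. -/
theorem dim_image_le {m : ℕ} (hm : 2 ≤ m) {H : ℝ × ℝ → ℝ} (hH : ContDiff ℝ m H)
    {f : ℝ × ℝ → ℝ × ℝ} (hf : ContDiff ℝ m f) {Q : Set (ℝ × ℝ)} (hQ : IsCompact Q)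
    (hQc : Convex ℝ Q) {C : ℝ} (hC : 0 ≤ C) (hbound : ∀ q ∈ Q, ‖fderiv ℝ H q‖ ≤ C * ‖f q‖)
    {A : Set (ℝ × ℝ)} (hAQ : A ⊆ Q) (hA : ∀ p ∈ A, f p = 0) :
    dimH (H '' A) ≤ ENNReal.ofReal (2 / (m + 1)) := by
  have hHd : Differentiable ℝ H := hH.differentiable (by exact_mod_cast (by omega : m ≠ 0))
  -- Hölder estimate on flat sets
  have hflat : ∀ n : ℕ, n ≤ m → ∃ C' : ℝ, 0 ≤ C' ∧ ∀ p ∈ Q,
      (∀ i < n, iteratedFDeriv ℝ i f p = 0) → ∀ q ∈ Q, ‖H q - H p‖ ≤ C' * ‖q - p‖ ^ (n + 1) := by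
    intro n hn
    obtain ⟨C1, hC1, h1⟩ := flat_taylor hQ hQc n f (hf.of_le (by exact_mod_cast hn))
    refine ⟨C * C1, by positivity, fun p hp hi q hq => ?_⟩
    refine mvt_pow hHd hQc hp (by positivity) (fun z hz => ?_) q hq
    calc ‖fderiv ℝ H z‖ ≤ C * ‖f z‖ := hbound z hz
      _ ≤ C * (C1 * ‖z - p‖ ^ n) := by gcongr; exact h1 p hp hi z hz
      _ = C * C1 * ‖z - p‖ ^ n := by ring
  set S : ℕ → Set (ℝ × ℝ) := fun j => {p ∈ A | ∀ i ≤ j, iteratedFDeriv ℝ i f p = 0} with hS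
  have hSQ : ∀ j, S j ⊆ Q := fun j p hp => hAQ hp.1
  have hdimflat : ∀ j, j + 1 ≤ m → ∀ B ⊆ S j, dimH (H '' B) ≤ dimH B / ((j + 2 : ℕ) : ENNReal) := by
    intro j hj B hB
    obtain ⟨C', hC', h1⟩ := hflat (j + 1) hj
    refine dimH_image_of_pow hC' (by omega) fun x hx y hy => ?_
    have h2 := h1 x (hSQ j (hB hx)) (fun i hi => (hB hx).2 i (by omega)) y (hSQ j (hB hy))
    rw [dist_comm (H x), dist_comm x, dist_eq_norm, dist_eq_norm]
    exact h2
  -- the last stratum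
  have hlast : dimH (H '' (S (m - 1))) ≤ ENNReal.ofReal (2 / (m + 1)) := by
    refine (hdimflat (m - 1) (by omega) _ Subset.rfl).trans ?_
    have e : m - 1 + 2 = m + 1 := by omega
    rw [e]
    have h1 : dimH (S (m - 1)) ≤ 2 := by
      calc dimH (S (m - 1)) ≤ dimH (univ : Set (ℝ × ℝ)) := dimH_mono (subset_univ _)
        _ = 2 := by rw [Real.dimH_univ_eq_finrank]; simp
    have h2 : ENNReal.ofReal (2 / (m + 1)) = 2 / ((m + 1 : ℕ) : ENNReal) := by
      rw [ENNReal.ofReal_div_of_pos (by positivity)]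
      congr 1
      · simp
      · rw [← Nat.cast_one (R := ℝ), ← Nat.cast_add, ENNReal.ofReal_natCast]
    rw [h2]
    gcongr
  -- the intermediate strata
  have hstep : ∀ j, j + 2 ≤ m → dimH (H '' (S j \ S (j + 1))) ≤ ENNReal.ofReal (2 / (m + 1)) := by
    intro j hj
    refine dimH_image_le_of_local fun p hp => ?_
    have hp1 : p ∈ S j := hp.1
    have hne : iteratedFDeriv ℝ (j + 1) f p ≠ 0 := by
      intro h0
      apply hp.2
      refine ⟨hp1.1, fun i hi => ?_⟩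
      rcases Nat.lt_or_ge i (j + 1) with h | h
      · exact hp1.2 i (by omega)
      · have : i = j + 1 := le_antisymm hi h
        rw [this]; exact h0
    obtain ⟨v, hv⟩ : ∃ v, iteratedFDeriv ℝ (j + 1) f p v ≠ 0 := by
      by_contra hcon
      push Not at hcon
      exact hne (ContinuousMultilinearMap.ext hcon)
    rw [iteratedFDeriv_succ_apply_left] at hv
    -- the scalar function
    have hcd : ContDiff ℝ ((m - j : ℕ) : WithTop ℕ∞) (iteratedFDeriv ℝ j f) := by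
      apply hf.iteratedFDeriv_right
      norm_cast
      omega
    set T : (ContinuousMultilinearMap ℝ (fun _ : Fin j => ℝ × ℝ) (ℝ × ℝ)) →L[ℝ] (ℝ × ℝ) :=
      ContinuousMultilinearMap.apply ℝ (fun _ : Fin j => ℝ × ℝ) (ℝ × ℝ) (Fin.tail v) with hT
    have hmj : ((m - j : ℕ) : WithTop ℕ∞) ≠ 0 := by exact_mod_cast (by omega : m - j ≠ 0)
    have hcurve : ∃ γ : ℝ → ℝ × ℝ, ContDiff ℝ ((m - j : ℕ) : WithTop ℕ∞) γ ∧
        ∀ᶠ q in 𝓝 p, q ∈ S j → q ∈ range γ := by
      have hsome : ∀ π : (ℝ × ℝ) →L[ℝ] ℝ,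
          π (((fderiv ℝ (iteratedFDeriv ℝ j f) p) (v 0)) (Fin.tail v)) ≠ 0 →
          ∃ γ : ℝ → ℝ × ℝ, ContDiff ℝ ((m - j : ℕ) : WithTop ℕ∞) γ ∧
            ∀ᶠ q in 𝓝 p, q ∈ S j → q ∈ range γ := by
        intro π hπ
        set w : ℝ × ℝ → ℝ := fun q => (π.comp T) (iteratedFDeriv ℝ j f q) with hw
        have hwc : ContDiff ℝ ((m - j : ℕ) : WithTop ℕ∞) w := (π.comp T).contDiff.comp hcd
        have hw0 : ∀ q ∈ S j, w q = 0 := by
          intro q hq
          rw [hw]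
          simp only
          rw [hq.2 j le_rfl, map_zero]
        have hwd : fderiv ℝ w p (v 0) ≠ 0 := by
          have h1 : HasFDerivAt w ((π.comp T).comp (fderiv ℝ (iteratedFDeriv ℝ j f) p)) p :=
            (π.comp T).hasFDerivAt.comp p ((hcd.differentiable hmj p).hasFDerivAt)
          rw [h1.fderiv]
          exact hπ
        obtain ⟨γ, hγ, h1⟩ := exists_curve (by omega) hwc (hw0 p hp1) hwd
        exact ⟨γ, hγ, h1.mono fun q hq hqS => hq (hw0 q hqS)⟩
      by_cases h1 : (((fderiv ℝ (iteratedFDeriv ℝ j f) p) (v 0)) (Fin.tail v)).1 = 0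
      · have h2 : (((fderiv ℝ (iteratedFDeriv ℝ j f) p) (v 0)) (Fin.tail v)).2 ≠ 0 := by
          intro h2
          exact hv (Prod.ext h1 h2)
        exact hsome (ContinuousLinearMap.snd ℝ ℝ ℝ) h2
      · exact hsome (ContinuousLinearMap.fst ℝ ℝ ℝ) h1
    obtain ⟨γ, hγ, hγ2⟩ := hcurve
    refine ⟨_, hγ2, ?_⟩
    set V : Set (ℝ × ℝ) := {q | q ∈ S j → q ∈ range γ} with hV
    have hsub : (S j \ S (j + 1)) ∩ V ⊆ S j := fun q hq => hq.1.1
    have hsub2 : (S j \ S (j + 1)) ∩ V ⊆ range γ := fun q hq => hq.2 hq.1.1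
    by_cases hcase : m + 1 ≤ 2 * (j + 2)
    · refine (hdimflat j (by omega) _ hsub).trans ?_
      refine le_trans ?_ (inv_le_aux (a := j + 2) (by omega) hcase)
      have h1 : dimH ((S j \ S (j + 1)) ∩ V) ≤ 1 :=
        (dimH_mono hsub2).trans (dimH_range_curve (by omega) hγ)
      gcongr
    · refine le_trans ?_ (inv_le_aux (a := m - j) (by omega) (by omega))
      set A' : Set ℝ := {x | γ x ∈ S j} with hA'
      have h1 : H '' ((S j \ S (j + 1)) ∩ V) ⊆ (fun x => H (γ x)) '' A' := by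
        rintro _ ⟨q, hq, rfl⟩
        obtain ⟨x, rfl⟩ := hsub2 hq
        exact ⟨x, hsub hq, rfl⟩
      refine (dimH_mono h1).trans ?_
      refine sard1d (by omega) ((hH.of_le (by exact_mod_cast Nat.sub_le m j)).comp hγ) A' ?_
      intro x hx
      have h2 : HasDerivAt (H ∘ γ) (fderiv ℝ H (γ x) (deriv γ x)) x :=
        (hHd (γ x)).hasFDerivAt.comp_hasDerivAt x ((hγ.differentiable hmj x).hasDerivAt)
      rw [h2.deriv]
      have h3 : fderiv ℝ H (γ x) = 0 := by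
        have h4 := hbound (γ x) (hSQ j hx)
        rw [hA (γ x) hx.1, norm_zero, mul_zero] at h4
        exact norm_le_zero_iff.1 h4
      rw [h3]
      rfl
  -- assembling
  have hS0 : A ⊆ S 0 := by
    intro p hp
    refine ⟨hp, fun i hi => ?_⟩
    have : i = 0 := by omega
    subst this
    rw [← norm_eq_zero, norm_iteratedFDeriv_zero, hA p hp, norm_zero]
  have hind : ∀ j, j + 1 ≤ m → dimH (H '' (S (m - 1 - j))) ≤ ENNReal.ofReal (2 / (m + 1)) := by
    intro j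
    induction j with
    | zero => intro _; exact hlast
    | succ j ih =>
      intro hj
      have h1 := ih (by omega)
      have e : m - 1 - j = (m - 1 - (j + 1)) + 1 := by omega
      rw [e] at h1
      have h2 := hstep (m - 1 - (j + 1)) (by omega)
      have h3 : H '' (S (m - 1 - (j + 1))) ⊆ H '' (S (m - 1 - (j + 1) + 1)) ∪
          H '' (S (m - 1 - (j + 1)) \ S (m - 1 - (j + 1) + 1)) := by
        rw [← image_union]
        apply image_mono
        intro q hq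
        by_cases hq2 : q ∈ S (m - 1 - (j + 1) + 1)
        · exact Or.inl hq2
        · exact Or.inr ⟨hq, hq2⟩
      refine (dimH_mono h3).trans ?_
      rw [dimH_union]
      exact max_le h1 h2
  have h0 := hind (m - 1) (by omega)
  rw [Nat.sub_self] at h0
  exact (dimH_mono (image_mono hS0)).trans h0

end

end Pool.Agent.H664.Sard
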