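import Mathlib
import Pool.Agent.H664.Flow
import Pool.Agent.H664.CantorField
import Pool.Agent.H664.DimLower

open Topology Filter Set MeasureTheory
open Pool.Agent.H664.Flow Pool.Agent.H664.CantorField Pool.Agent.H664.DimLower

namespace Pool.Agent.H664.TrapLower

noncomputable section

/-- trapped set of a flow: bounded forward orbit, unbounded backward orbit -/
def trapped (g : ℝ → ℝ × ℝ → ℝ × ℝ) : Set (ℝ × ℝ) :=
  {p | Bornology.IsBounded ((fun t => g t p) '' Ici 0) ∧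
    ¬ Bornology.IsBounded ((fun t => g t p) '' Iic 0)}

lemma deriv_zero_of_mono {A : ℝ → ℝ} (hmono : Monotone A) {z w d : ℝ} (hd : HasDerivAt A d z)
    (hne : z ≠ w) (h : A z = A w) : d = 0 := by
  rcases lt_or_gt_of_ne hne with hlt | hlt
  · have h1 : HasDerivWithinAt A 0 (Icc z w) z := by
      refine (hasDerivWithinAt_const z (Icc z w) (A z)).congr (fun r hr => ?_) rfl
      exact le_antisymm ((hmono hr.2).trans h.ge) (hmono hr.1)
    exact (uniqueDiffOn_Icc hlt z ⟨le_rfl, hlt.le⟩).eq_deriv _ hd.hasDerivWithinAt h1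
  · have h1 : HasDerivWithinAt A 0 (Icc w z) z := by
      refine (hasDerivWithinAt_const z (Icc w z) (A z)).congr (fun r hr => ?_) rfl
      exact le_antisymm (hmono hr.2) (h.le.trans (hmono hr.1))
    exact (uniqueDiffOn_Icc hlt z ⟨hlt.le, le_rfl⟩).eq_deriv _ hd.hasDerivWithinAt h1

lemma fixed_of_zero {E : Type} [NormedAddCommGroup E] [NormedSpace ℝ E] {X : E → E} {K : NNReal}
    (hK : LipschitzWith K X) {g : ℝ → E → E} (hg : IsFlowOf X g) {q : E} (hq : X q = 0) (t : ℝ) :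
    g t q = q := by
  have h1 : (fun t => g t q) = fun _ => q := by
    refine ODE_solution_unique_univ (v := fun _ => X) (s := fun _ => univ) (K := K) (t₀ := 0)
      (fun t => hK.lipschitzOnWith) (fun t => ⟨hg.deriv _ t, trivial⟩)
      (fun t => ⟨?_, trivial⟩) (hg.zero q)
    rw [hq]
    exact hasDerivAt_const t q
  exact congrFun h1 t

theorem trapped_of {a b A Bf : ℝ → ℝ} (ha : ∀ y, 0 ≤ a y) (hb : ∀ x, 0 ≤ b x)
    (hA : ∀ y, HasDerivAt A (a y) y) (hB : ∀ x, HasDerivAt Bf (b x) x)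
    {X : ℝ × ℝ → ℝ × ℝ} (hX : ∀ p, X p = (a p.2, -b p.1)) {K : NNReal} (hK : LipschitzWith K X)
    {g : ℝ → ℝ × ℝ → ℝ × ℝ} (hg : IsFlowOf X g) {x0 y0 xf yf : ℝ} (hx : x0 < xf) (hy : yf < y0)
    (hbx : b xf = 0) (hay : a yf = 0) (hH : Bf x0 + A y0 = Bf xf + A yf) (hx0 : x0 ≤ -1)
    (hb1 : ∀ x ≤ -1, 1 ≤ b x) : (x0, y0) ∈ trapped g := by
  have hAm : Monotone A := monotone_of_hasDerivAt_nonneg hA ha
  have hBm : Monotone Bf := monotone_of_hasDerivAt_nonneg hB hb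
  set x : ℝ → ℝ := fun t => (g t (x0, y0)).1 with hxdef
  set y : ℝ → ℝ := fun t => (g t (x0, y0)).2 with hydef
  have hx' : ∀ t, HasDerivAt x (a (y t)) t := by
    intro t
    have h1 := (ContinuousLinearMap.fst ℝ ℝ ℝ).hasFDerivAt.comp_hasDerivAt t (hg.deriv (x0, y0) t)
    rw [hX] at h1
    exact h1
  have hy' : ∀ t, HasDerivAt y (-b (x t)) t := by
    intro t
    have h1 := (ContinuousLinearMap.snd ℝ ℝ ℝ).hasFDerivAt.comp_hasDerivAt t (hg.deriv (x0, y0) t)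
    rw [hX] at h1
    exact h1
  have hxm : Monotone x := monotone_of_hasDerivAt_nonneg hx' fun t => ha _
  have hym : Antitone y := antitone_of_hasDerivAt_nonpos hy' fun t => neg_nonpos.2 (hb _)
  have hxc : Continuous x := continuous_iff_continuousAt.2 fun t => (hx' t).continuousAt
  have hyc : Continuous y := continuous_iff_continuousAt.2 fun t => (hy' t).continuousAt
  have hx00 : x 0 = x0 := by simp [hxdef, hg.zero]
  have hy00 : y 0 = y0 := by simp [hydef, hg.zero]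
  have hcons : ∀ t, Bf (x t) + A (y t) = Bf x0 + A y0 := by
    intro t
    have h1 : ∀ s, HasDerivAt (fun s => Bf (x s) + A (y s)) 0 s := by
      intro s
      have h2 := ((hB (x s)).comp s (hx' s)).add ((hA (y s)).comp s (hy' s))
      have h3 : b (x s) * a (y s) + a (y s) * -b (x s) = 0 := by ring
      rw [h3] at h2
      exact h2
    have h4 := is_const_of_deriv_eq_zero (fun s => (h1 s).differentiableAt)
      (fun s => (h1 s).deriv) t 0
    simp only [hx00, hy00] at h4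
    exact h4
  have hback : ∀ t q, g t (x0, y0) = q → X q = 0 → (x0, y0) = q := by
    intro t q h1 h2
    have h3 : g (-t) (g t (x0, y0)) = (x0, y0) := by
      rw [← hg.add hK, neg_add_cancel, hg.zero]
    rw [h1, fixed_of_zero hK hg h2] at h3
    exact h3.symm
  have hxle : ∀ t, 0 ≤ t → x t ≤ xf := by
    intro t ht
    by_contra hcon
    push Not at hcon
    have h1 := intermediate_value_Icc ht hxc.continuousOn
    rw [hx00] at h1
    obtain ⟨t2, _, ht2⟩ := h1 ⟨hx.le, hcon.le⟩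
    have h2 : A (y t2) = A yf := by
      have := hcons t2
      rw [ht2, hH] at this
      linarith
    have h3 : a (y t2) = 0 := by
      by_cases h : y t2 = yf
      · rw [h, hay]
      · exact deriv_zero_of_mono hAm (hA _) h h2
    have h4 : X (xf, y t2) = 0 := by rw [hX]; simp [h3, hbx]
    have h5 : g t2 (x0, y0) = (xf, y t2) := by rw [← ht2]
    have h6 := hback t2 _ h5 h4
    exact hx.ne (congrArg Prod.fst h6)
  have hyge : ∀ t, 0 ≤ t → yf ≤ y t := by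
    intro t ht
    by_contra hcon
    push Not at hcon
    have h1 := intermediate_value_Icc' ht hyc.continuousOn
    rw [hy00] at h1
    obtain ⟨t2, _, ht2⟩ := h1 ⟨hcon.le, hy.le⟩
    have h2 : Bf (x t2) = Bf xf := by
      have := hcons t2
      rw [ht2, hH] at this
      linarith
    have h3 : b (x t2) = 0 := by
      by_cases h : x t2 = xf
      · rw [h, hbx]
      · exact deriv_zero_of_mono hBm (hB _) h h2
    have h4 : X (x t2, yf) = 0 := by rw [hX]; simp [h3, hay]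
    have h5 : g t2 (x0, y0) = (x t2, yf) := by rw [← ht2]
    have h6 := hback t2 _ h5 h4
    exact hy.ne' (congrArg Prod.snd h6)
  constructor
  · have h1 : Bornology.IsBounded (Icc x0 xf ×ˢ Icc yf y0 : Set (ℝ × ℝ)) :=
      (Metric.isBounded_Icc _ _).prod (Metric.isBounded_Icc _ _)
    refine h1.subset ?_
    rintro _ ⟨t, ht, rfl⟩
    have ht' : (0:ℝ) ≤ t := ht
    refine ⟨⟨?_, hxle t ht'⟩, ⟨hyge t ht', ?_⟩⟩
    · have := hxm ht'; rw [hx00] at this; exact this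
    · have := hym ht'; rw [hy00] at this; exact this
  · intro hbd
    obtain ⟨R, hR⟩ := hbd.exists_norm_le
    have hlow : ∀ t ≤ 0, y0 - t ≤ y t := by
      intro t ht
      have h1 : AntitoneOn (fun s => y s + s) (Iic 0) := by
        refine antitoneOn_of_hasDerivWithinAt_nonpos (f' := fun s => -b (x s) + 1) (convex_Iic 0)
          (hyc.add continuous_id).continuousOn
          (fun s _ => ((hy' s).add (hasDerivAt_id s)).hasDerivWithinAt) fun s hs => ?_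
        rw [interior_Iic] at hs
        have h2 : x s ≤ x0 := by rw [← hx00]; exact hxm (le_of_lt hs)
        have h3 := hb1 (x s) (h2.trans hx0)
        linarith
      have h2 := h1 (a := t) ht (b := 0) (mem_Iic.2 le_rfl) ht
      simp only [hy00] at h2
      linarith
    set t : ℝ := -(|R| + |y0| + 1) with ht
    have ht0 : t ≤ 0 := by rw [ht]; have := abs_nonneg R; have := abs_nonneg y0; linarith
    have h1 := hlow t ht0
    have h2 := hR _ ⟨t, ht0, rfl⟩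
    have h3 : ‖(g t (x0, y0)).2‖ ≤ R := (norm_snd_le _).trans h2
    have h4 : y t ≤ R := (le_abs_self _).trans h3
    have h5 := neg_abs_le y0
    have h6 := le_abs_self R
    linarith

/-! ### The concrete field -/

lemma continuous_W : Continuous W := (contDiff_W (n := 0)).continuous

def Q (z : ℝ) : ℝ := ∫ r in (0:ℝ)..z, W r

lemma hasDerivAt_Q (z : ℝ) : HasDerivAt Q (W z) z :=
  intervalIntegral.integral_hasDerivAt_right (continuous_W.intervalIntegrable _ _)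
    (continuous_W.stronglyMeasurableAtFilter _ _) continuous_W.continuousAt

lemma Q_of_le {z : ℝ} (h : z ≤ 0) : Q z = 0 := by
  unfold Q
  rw [intervalIntegral.integral_symm]
  have : ∫ r in z..0, W r = ∫ r in z..0, (0:ℝ) := by
    apply intervalIntegral.integral_congr
    intro r hr
    rw [uIcc_of_le h] at hr
    exact W_of_le hr.2
  rw [this]
  simp

lemma Q_of_ge {z : ℝ} (h : 1 ≤ z) : Q z = Q 1 + (z - 1) := by
  have h1 : Q z = Q 1 + ∫ r in (1:ℝ)..z, W r := by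
    unfold Q
    rw [intervalIntegral.integral_add_adjacent_intervals (continuous_W.intervalIntegrable _ _)
      (continuous_W.intervalIntegrable _ _)]
  have : ∫ r in (1:ℝ)..z, W r = ∫ r in (1:ℝ)..z, (1:ℝ) := by
    apply intervalIntegral.integral_congr
    intro r hr
    rw [uIcc_of_le h] at hr
    exact W_of_ge hr.1
  rw [h1, this]
  simp

def aF (m : ℕ) (y : ℝ) : ℝ := 2 * Fs m y + W (y - 2)
def AF (m : ℕ) (y : ℝ) : ℝ := 2 * uu m 0 y + Q (y - 2)
def bF (m : ℕ) (x : ℝ) : ℝ := Fs m x + W (-x)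
def BF (m : ℕ) (x : ℝ) : ℝ := uu m 0 x - Q (-x)

lemma aF_nonneg (m : ℕ) (y : ℝ) : 0 ≤ aF m y := by
  have := Fs_nonneg m y; have := W_nonneg (y - 2); unfold aF; linarith

lemma bF_nonneg (m : ℕ) (x : ℝ) : 0 ≤ bF m x := by
  have := Fs_nonneg m x; have := W_nonneg (-x); unfold bF; linarith

lemma hasDerivAt_AF {m : ℕ} (hm : 1 ≤ m) (y : ℝ) : HasDerivAt (AF m) (aF m y) y := by
  have h1 := (hasDerivAt_uu hm y).const_mul 2
  have h2 := (hasDerivAt_Q (y - 2)).comp y ((hasDerivAt_id y).sub_const 2)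
  rw [mul_one] at h2
  exact h1.add h2

lemma hasDerivAt_BF {m : ℕ} (hm : 1 ≤ m) (x : ℝ) : HasDerivAt (BF m) (bF m x) x := by
  have h1 := hasDerivAt_uu hm x
  have h2 := (hasDerivAt_Q (-x)).comp x (hasDerivAt_neg x)
  have h3 := h1.sub h2
  have e : Fs m x - W (-x) * -1 = bF m x := by unfold bF; ring
  rw [e] at h3
  exact h3

def XF (m : ℕ) (p : ℝ × ℝ) : ℝ × ℝ := (aF m p.2, -bF m p.1)

lemma contDiff_aF (m : ℕ) : ContDiff ℝ m (aF m) :=
  (contDiff_const.mul (contDiff_Fs m)).add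
    ((contDiff_W (n := m)).comp (contDiff_id.sub contDiff_const))

lemma contDiff_bF (m : ℕ) : ContDiff ℝ m (bF m) :=
  (contDiff_Fs m).add ((contDiff_W (n := m)).comp contDiff_neg)

lemma contDiff_XF (m : ℕ) : ContDiff ℝ m (XF m) :=
  ((contDiff_aF m).comp contDiff_snd).prodMk ((contDiff_bF m).comp contDiff_fst).neg

lemma exists_lipschitz_W : ∃ K, LipschitzWith K W := by
  obtain ⟨C, hC⟩ := hasCompactSupport_B.exists_bound_of_continuous continuous_B
  refine ⟨Real.toNNReal C, lipschitzWith_of_nnnorm_deriv_le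
    (fun x => (hasDerivAt_W x).differentiableAt) fun x => ?_⟩
  rw [(hasDerivAt_W x).deriv]
  have := hC x
  rw [← NNReal.coe_le_coe, coe_nnnorm]
  exact this.trans (Real.le_coe_toNNReal C)

lemma exists_lipschitz_XF {m : ℕ} (hm : 1 ≤ m) : ∃ K, LipschitzWith K (XF m) := by
  obtain ⟨K1, h1⟩ := exists_lipschitz_Fs hm
  obtain ⟨K2, h2⟩ := exists_lipschitz_W
  refine ⟨2 * K1 + K2, LipschitzWith.of_dist_le_mul fun p q => ?_⟩
  rw [Prod.dist_eq]
  have e1 : dist p.1 q.1 ≤ dist p q := by rw [Prod.dist_eq]; exact le_max_left _ _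
  have e2 : dist p.2 q.2 ≤ dist p q := by rw [Prod.dist_eq]; exact le_max_right _ _
  rw [Real.dist_eq] at e1 e2
  have hd : 0 ≤ dist p q := dist_nonneg
  have hK1 : (0:ℝ) ≤ K1 := K1.2
  have hK2 : (0:ℝ) ≤ K2 := K2.2
  push_cast
  apply max_le
  · have f1 := h1.dist_le_mul p.2 q.2
    have f2 := h2.dist_le_mul (p.2 - 2) (q.2 - 2)
    rw [Real.dist_eq, Real.dist_eq] at f1 f2
    have e3 : |p.2 - 2 - (q.2 - 2)| = |p.2 - q.2| := by congr 1; ring
    rw [e3] at f2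
    rw [Real.dist_eq]
    have e4 : (XF m p).1 - (XF m q).1 = 2 * (Fs m p.2 - Fs m q.2) + (W (p.2 - 2) - W (q.2 - 2)) := by
      unfold XF aF; ring
    rw [e4]
    calc |2 * (Fs m p.2 - Fs m q.2) + (W (p.2 - 2) - W (q.2 - 2))|
        ≤ |2 * (Fs m p.2 - Fs m q.2)| + |W (p.2 - 2) - W (q.2 - 2)| := abs_add_le _ _
      _ = 2 * |Fs m p.2 - Fs m q.2| + |W (p.2 - 2) - W (q.2 - 2)| := by
        rw [abs_mul, abs_of_pos (by norm_num : (0:ℝ) < 2)]
      _ ≤ 2 * (K1 * |p.2 - q.2|) + K2 * |p.2 - q.2| := by gcongr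
      _ ≤ 2 * (K1 * dist p q) + K2 * dist p q := by gcongr
      _ = _ := by ring
  · have f1 := h1.dist_le_mul p.1 q.1
    have f2 := h2.dist_le_mul (-p.1) (-q.1)
    rw [Real.dist_eq, Real.dist_eq] at f1 f2
    have e3 : |-p.1 - -q.1| = |p.1 - q.1| := by rw [← abs_neg]; congr 1; ring
    rw [e3] at f2
    rw [Real.dist_eq]
    have e4 : (XF m p).2 - (XF m q).2 = -((Fs m p.1 - Fs m q.1) + (W (-p.1) - W (-q.1))) := by
      unfold XF bF; ring
    rw [e4, abs_neg]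
    calc |(Fs m p.1 - Fs m q.1) + (W (-p.1) - W (-q.1))|
        ≤ |Fs m p.1 - Fs m q.1| + |W (-p.1) - W (-q.1)| := abs_add_le _ _
      _ ≤ K1 * |p.1 - q.1| + K2 * |p.1 - q.1| := by gcongr
      _ ≤ K1 * dist p q + K2 * dist p q := by gcongr
      _ ≤ _ := by nlinarith [mul_nonneg hK1 hd]

lemma exists_bound_XF (m : ℕ) : ∃ M : NNReal, ∀ p, ‖XF m p‖ ≤ M := by
  obtain ⟨C, hC⟩ := exists_bound_Fs m
  have hC0 : 0 ≤ C := (norm_nonneg _).trans (hC 0)
  refine ⟨⟨2 * C + 1, by positivity⟩, fun p => ?_⟩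
  have h1 := hC p.1
  have h2 := hC p.2
  rw [Real.norm_of_nonneg (Fs_nonneg _ _)] at h1 h2
  have h3 := W_le_one (p.2 - 2)
  have h4 := W_le_one (-p.1)
  rw [Prod.norm_def]
  apply max_le
  · change ‖aF m p.2‖ ≤ 2 * C + 1
    rw [Real.norm_of_nonneg (aF_nonneg _ _)]
    unfold aF; linarith
  · change ‖-bF m p.1‖ ≤ 2 * C + 1
    rw [norm_neg, Real.norm_of_nonneg (bF_nonneg _ _)]
    unfold bF; linarith

/-- the flow -/
lemma exists_gF {m : ℕ} (hm : 1 ≤ m) : ∃ g : ℝ → ℝ × ℝ → ℝ × ℝ, IsFlowOf (XF m) g := by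
  obtain ⟨K, hK⟩ := exists_lipschitz_XF hm
  obtain ⟨M, hM⟩ := exists_bound_XF m
  choose γ h0 h1 using exists_solution hK hM
  exact ⟨fun t x => γ x t, ⟨h0, h1⟩⟩

theorem flow_props {m : ℕ} (hm : 1 ≤ m) {g : ℝ → ℝ × ℝ → ℝ × ℝ} (hg : IsFlowOf (XF m) g) :
    ContDiff ℝ m (fun p : ℝ × (ℝ × ℝ) => g p.1 p.2) ∧ (∀ t s p, g (t + s) p = g t (g s p)) ∧
    (∀ t, MeasurePreserving (g t) volume volume) := by
  obtain ⟨K, hK⟩ := exists_lipschitz_XF hm
  set X : C(ℝ × ℝ, ℝ × ℝ) := ⟨XF m, (contDiff_XF m).continuous⟩ with hX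
  have hXC : ContDiff ℝ m X := contDiff_XF m
  have hXC1 : ContDiff ℝ 1 X := hXC.of_le (by exact_mod_cast hm)
  have hgX : IsFlowOf X g := hg
  have hKX : LipschitzWith K X := hK
  have h1 := contDiff_flow (by omega) hXC hKX hgX
  refine ⟨h1, fun t s p => hgX.add hKX t s p, fun t => ?_⟩
  have hd : ∀ p, HasFDerivAt (g t) (fderiv ℝ (g t) p) p := by
    intro p
    have h2 : ContDiff ℝ m (g t) := h1.comp (contDiff_const.prodMk contDiff_id)
    exact (h2.differentiable (by simp; omega) p).hasFDerivAt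
  refine measurePreserving_of_det (g t) ?_ _ hd ?_
  · refine Function.bijective_iff_has_inverse.2 ⟨g (-t), fun p => ?_, fun p => ?_⟩
    · rw [← hgX.add hKX, neg_add_cancel, hgX.zero]
    · rw [← hgX.add hKX, add_neg_cancel, hgX.zero]
  · intro p
    refine det_flow_eq_one hXC1 hKX hgX (fun q => ?_) t p
    have ha : HasDerivAt (aF m) (deriv (aF m) q.2) q.2 :=
      ((contDiff_aF m).differentiable (by simp; omega) _).hasDerivAt
    have hb : HasDerivAt (bF m) (deriv (bF m) q.1) q.1 :=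
      ((contDiff_bF m).differentiable (by simp; omega) _).hasDerivAt
    have h3 : HasFDerivAt X (((ContinuousLinearMap.smulRight (1 : ℝ →L[ℝ] ℝ)
        (deriv (aF m) q.2)).comp (ContinuousLinearMap.snd ℝ ℝ ℝ)).prod
        (-((ContinuousLinearMap.smulRight (1 : ℝ →L[ℝ] ℝ)
        (deriv (bF m) q.1)).comp (ContinuousLinearMap.fst ℝ ℝ ℝ)))) q := by
      have e1 := ha.hasFDerivAt.comp q (hasFDerivAt_snd (𝕜 := ℝ) (p := q))
      have e2 := (hb.hasFDerivAt.comp q (hasFDerivAt_fst (𝕜 := ℝ) (p := q))).neg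
      exact e1.prodMk e2
    rw [h3.fderiv]
    simp

/-! ### The dimension of the trapped set from below -/

def dlo (t : ℝ) (n : ℕ) : ℝ := ((digit 4 n t % 2 : ℤ) : ℝ)
def dhi (t : ℝ) (n : ℕ) : ℝ := ((digit 4 n t / 2 : ℤ) : ℝ)

lemma dlo_mem (t : ℝ) (n : ℕ) : dlo t n = 0 ∨ dlo t n = 1 := by
  unfold dlo
  rcases Int.emod_two_eq (digit 4 n t) with h | h <;> rw [h] <;> simp

lemma dhi_mem (t : ℝ) (n : ℕ) : dhi t n = 0 ∨ dhi t n = 1 := by
  unfold dhi
  have h1 := digit_nonneg (N := 4) (by norm_num) n t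
  have h2 := digit_lt (N := 4) (by norm_num) n t
  have h3 : digit 4 n t / 2 = 0 ∨ digit 4 n t / 2 = 1 := by
    push_cast at h2
    omega
  rcases h3 with h | h <;> rw [h] <;> simp

lemma dlo_dhi (t : ℝ) (n : ℕ) : dlo t n + 2 * dhi t n = (digit 4 n t : ℝ) := by
  unfold dlo dhi
  have := Int.emod_add_mul_ediv (digit 4 n t) 2
  exact_mod_cast this

lemma expan_eq {m : ℕ} (hm : 1 ≤ m) (t : ℝ) :
    uu m 0 (xs (dlo t) 0) + 2 * uu m 0 (xs (dhi t) 0) = expan 4 (bb m) t := by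
  have h1 := uu_xs_zero hm (dlo_mem t)
  have h2 := (uu_xs_zero hm (dhi_mem t)).mul_left 2
  have h3 := h1.add h2
  rw [← h3.tsum_eq]
  unfold expan
  apply tsum_congr
  intro n
  rw [← dlo_dhi]
  ring

lemma mem_trapped_XF {m : ℕ} (hm : 1 ≤ m) {g : ℝ → ℝ × ℝ → ℝ × ℝ} (hg : IsFlowOf (XF m) g)
    (t : ℝ) {x : ℝ} (hx : x ≤ -10) :
    (x, 2 - 2 * II m 0 + expan 4 (bb m) t - x) ∈ trapped g := by
  obtain ⟨K, hK⟩ := exists_lipschitz_XF hm
  have hlo := dlo_mem t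
  have hhi := dhi_mem t
  have hI := II_zero_le hm
  have hS := expan_eq hm t
  have hS0 : 0 ≤ expan 4 (bb m) t := by
    rw [← hS]
    have := uu_nonneg m 0 (xs (dlo t) 0)
    have := uu_nonneg m 0 (xs (dhi t) 0)
    linarith
  have hx1 := xs_nonneg hlo 0
  have hx2 := xs_le hlo 0
  have hy1 := xs_nonneg hhi 0
  have hy2 := xs_le hhi 0
  rw [Lam_zero] at hx2 hy2
  have hyge : (3:ℝ) ≤ 2 - 2 * II m 0 + expan 4 (bb m) t - x := by linarith
  refine trapped_of (a := aF m) (b := bF m) (A := AF m) (Bf := BF m) (xf := xs (dlo t) 0)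
    (yf := xs (dhi t) 0) (aF_nonneg m) (bF_nonneg m) (hasDerivAt_AF hm) (hasDerivAt_BF hm)
    (fun p => rfl) hK hg (by linarith) (by linarith) ?_ ?_ ?_ (by linarith) ?_
  · unfold bF
    rw [Fs_xs m hlo, W_of_le (by linarith), add_zero]
  · unfold aF
    rw [Fs_xs m hhi, W_of_le (by linarith), mul_zero, add_zero]
  · unfold BF AF
    rw [uu_of_le m 0 (by linarith : x ≤ 0), Q_of_ge (by linarith : 1 ≤ -x),
      uu_of_ge m 0 (by rw [Lam_zero]; linarith),
      Q_of_ge (z := 2 - 2 * II m 0 + expan 4 (bb m) t - x - 2) (by linarith),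
      Q_of_le (by linarith : -xs (dlo t) 0 ≤ 0), Q_of_le (by linarith : xs (dhi t) 0 - 2 ≤ 0),
      ← hS]
    ring
  · intro z hz
    unfold bF
    rw [W_of_ge (by linarith : 1 ≤ -z)]
    linarith [Fs_nonneg m z]

lemma ww_gap (m n : ℕ) : (1 / ((n:ℝ) + 3)) ^ (2 * m + 5) ≤ ww m n - ww m (n + 1) := by
  have hn : (0:ℝ) ≤ n := n.cast_nonneg
  have h1 : ww m (n + 1) = ww m n * (((n:ℝ) + 1) / (n + 3)) ^ (m + 2) := by
    unfold ww
    rw [← mul_pow]
    congr 1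
    push_cast
    field_simp
    ring
  have h2 : (((n:ℝ) + 1) / (n + 3)) ^ (m + 2) ≤ ((n:ℝ) + 1) / (n + 3) := by
    have h3 : ((n:ℝ) + 1) / (n + 3) ≤ 1 := by
      rw [div_le_one (by positivity)]; linarith
    calc (((n:ℝ) + 1) / (n + 3)) ^ (m + 2) ≤ (((n:ℝ) + 1) / (n + 3)) ^ 1 :=
          pow_le_pow_of_le_one (by positivity) h3 (by omega)
      _ = _ := pow_one _
  have h3 : (1 / ((n:ℝ) + 3)) ^ (2 * m + 4) ≤ ww m n := by
    unfold ww
    have : 2 * m + 4 = 2 * (m + 2) := by ring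
    rw [this, pow_mul]
    apply pow_le_pow_left₀ (by positivity)
    rw [div_pow, one_pow]
    apply one_div_le_one_div_of_le (by positivity)
    nlinarith
  have h4 := ww_pos m n
  have h5 : 1 - ((n:ℝ) + 1) / (n + 3) = 2 / (n + 3) := by field_simp; ring
  have h6 : (0:ℝ) < 1 / (n + 3) := by positivity
  calc (1 / ((n:ℝ) + 3)) ^ (2 * m + 5) = (1 / ((n:ℝ) + 3)) ^ (2 * m + 4) * (1 / ((n:ℝ) + 3)) := by
        rw [← pow_succ]
    _ ≤ ww m n * (1 / ((n:ℝ) + 3)) := by gcongr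
    _ ≤ ww m n * (2 / ((n:ℝ) + 3)) := by gcongr; norm_num
    _ = ww m n * (1 - ((n:ℝ) + 1) / (n + 3)) := by rw [h5]
    _ ≤ ww m n * (1 - (((n:ℝ) + 1) / (n + 3)) ^ (m + 2)) := by gcongr
    _ = _ := by rw [h1]; ring

lemma exists_const {m : ℕ} {s : ℝ} (hs2 : s * (m + 1) < 2) :
    ∃ C : ℝ, 0 < C ∧ ∀ n : ℕ, (((4:ℕ):ℝ) ^ n)⁻¹ ≤
      C * (((1 / 2 : ℝ) ^ n) ^ (m + 1) * (1 / ((n:ℝ) + 3)) ^ (2 * m + 5)) ^ s := by
  obtain ⟨P, hP⟩ := exists_nat_ge (s * (2 * m + 5))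
  set q : ℝ := (2:ℝ) ^ (s * (m + 1)) / 4 with hq
  have hq0 : 0 < q := by positivity
  have hq1 : q < 1 := by
    rw [hq, div_lt_one (by norm_num)]
    calc (2:ℝ) ^ (s * (m + 1)) < (2:ℝ) ^ (2:ℝ) := Real.rpow_lt_rpow_of_exponent_lt (by norm_num) hs2
      _ = 4 := by norm_num
  have hlim := (tendsto_pow_const_mul_const_pow_of_abs_lt_one P
    (by rw [abs_of_pos hq0]; exact hq1)).comp (tendsto_add_atTop_nat 3)
  obtain ⟨C0, hC0⟩ := hlim.bddAbove_range
  have hC0' : ∀ n : ℕ, ((n:ℝ) + 3) ^ P * q ^ (n + 3) ≤ C0 := by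
    intro n
    have := hC0 ⟨n, rfl⟩
    simpa using this
  have hC0pos : 0 < C0 := lt_of_lt_of_le (by positivity) (hC0' 0)
  refine ⟨C0 / q ^ 3, by positivity, fun n => ?_⟩
  have hn : (0:ℝ) ≤ n := n.cast_nonneg
  have h1 := hC0' n
  have h2 : (((1 / 2 : ℝ) ^ n) ^ (m + 1) * (1 / ((n:ℝ) + 3)) ^ (2 * m + 5)) ^ s =
      ((2:ℝ) ^ (s * (m + 1)))⁻¹ ^ n * (((n:ℝ) + 3) ^ (s * (2 * m + 5)))⁻¹ := by
    rw [Real.mul_rpow (by positivity) (by positivity)]
    congr 1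
    · rw [← pow_mul, one_div, inv_pow, Real.inv_rpow (by positivity), inv_pow]
      congr 1
      rw [← Real.rpow_natCast (2:ℝ), ← Real.rpow_mul (by norm_num), ← Real.rpow_natCast,
        ← Real.rpow_mul (by norm_num)]
      congr 1
      push_cast
      ring
    · rw [one_div, inv_pow, Real.inv_rpow (by positivity)]
      congr 1
      rw [← Real.rpow_natCast, ← Real.rpow_mul (by positivity)]
      congr 1
      push_cast
      ring
  have h3 : ((n:ℝ) + 3) ^ (s * (2 * m + 5)) ≤ ((n:ℝ) + 3) ^ P := by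
    rw [← Real.rpow_natCast]
    exact Real.rpow_le_rpow_of_exponent_le (by linarith) hP
  have h4 : (0:ℝ) < ((n:ℝ) + 3) ^ (s * (2 * m + 5)) := by positivity
  have h5 : (2:ℝ) ^ (s * (m + 1)) = 4 * q := by rw [hq]; ring
  rw [h2, h5, inv_pow, mul_pow]
  rw [div_mul_eq_mul_div, le_div_iff₀ (by positivity)]
  have h6 : (0:ℝ) < ((n:ℝ) + 3) ^ P := by positivity
  have h7 : ((((n:ℝ) + 3) ^ P)⁻¹) ≤ (((n:ℝ) + 3) ^ (s * (2 * m + 5)))⁻¹ := inv_anti₀ h4 h3
  have h8 : q ^ 3 * (q ^ n * ((n:ℝ) + 3) ^ P) ≤ C0 := by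
    calc _ = ((n:ℝ) + 3) ^ P * q ^ (n + 3) := by rw [pow_add]; ring
      _ ≤ C0 := h1
  have h9 : q ^ 3 ≤ C0 * (q ^ n * ((n:ℝ) + 3) ^ P)⁻¹ := by
    rw [← div_eq_mul_inv, le_div_iff₀ (by positivity)]
    exact h8
  push_cast
  calc ((4:ℝ) ^ n)⁻¹ * q ^ 3 ≤ ((4:ℝ) ^ n)⁻¹ * (C0 * (q ^ n * ((n:ℝ) + 3) ^ P)⁻¹) := by gcongr
    _ = C0 * ((4 ^ n * q ^ n)⁻¹ * ((((n:ℝ) + 3) ^ P)⁻¹)) := by
      rw [mul_inv, mul_inv]; ring
    _ ≤ C0 * ((4 ^ n * q ^ n)⁻¹ * (((n:ℝ) + 3) ^ (s * (2 * m + 5)))⁻¹) := by gcongr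

theorem dim_lower_s {m : ℕ} (hm : 1 ≤ m) {g : ℝ → ℝ × ℝ → ℝ × ℝ} (hg : IsFlowOf (XF m) g)
    {s : ℝ} (hs : 0 < s) (hs2 : s * (m + 1) < 2) : ENNReal.ofReal (1 + s) ≤ dimH (trapped g) := by
  obtain ⟨C, hC, hC2⟩ := exists_const hs2
  set L : ℝ × ℝ → ℝ × ℝ := fun p => (p.1 + p.2, p.1) with hL
  have hLl : LipschitzWith 2 L := by
    refine LipschitzWith.of_dist_le_mul fun p q => ?_
    rw [Prod.dist_eq]
    have e1 : dist p.1 q.1 ≤ dist p q := by rw [Prod.dist_eq]; exact le_max_left _ _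
    have e2 : dist p.2 q.2 ≤ dist p q := by rw [Prod.dist_eq]; exact le_max_right _ _
    have hd : 0 ≤ dist p q := dist_nonneg
    push_cast
    apply max_le
    · calc dist (p.1 + p.2) (q.1 + q.2) ≤ dist p.1 q.1 + dist p.2 q.2 := dist_add_add_le _ _ _ _
        _ ≤ 2 * dist p q := by linarith
    · change dist p.1 q.1 ≤ _
      linarith
  refine le_trans ?_ (hLl.dimH_image_le (trapped g))
  have hκ0 : ∀ n : ℕ, 0 < ((1 / 2 : ℝ) ^ n) ^ (m + 1) * (1 / ((n:ℝ) + 3)) ^ (2 * m + 5) :=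
    fun n => by positivity
  refine dimH_of_expan (N := 4) (B := bb m)
    (κ := fun n => ((1 / 2 : ℝ) ^ n) ^ (m + 1) * (1 / ((n:ℝ) + 3)) ^ (2 * m + 5)) (by norm_num)
    (bb_pos m) ?_ hκ0 ?_ hs hC hC2 (2 - 2 * II m 0) (a := -11) (b := -10) (by norm_num) ?_
  · simpa using (hasSum_bb hm 0).summable
  · intro n
    rw [(hasSum_bb hm (n + 1)).tsum_eq]
    have h1 := two_II_le hm n
    have h2 := ww_gap m n
    have h3 : bb m n = cc m n + II m (n + 1) := rfl
    have h4 := cc_eq m n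
    have h5 : (0:ℝ) < ((1 / 2 : ℝ) ^ n) ^ (m + 1) := by positivity
    have h6 : ((1 / 2 : ℝ) ^ n) ^ (m + 1) * (1 / ((n:ℝ) + 3)) ^ (2 * m + 5) ≤
      ((1 / 2 : ℝ) ^ n) ^ (m + 1) * (ww m n - ww m (n + 1)) := by gcongr
    push_cast
    rw [mul_sub] at h6
    linarith
  · intro t _ x hx
    refine ⟨(x, 2 - 2 * II m 0 + expan 4 (bb m) t - x), mem_trapped_XF hm hg t hx.2, ?_⟩
    simp [hL]

theorem dim_lower {m : ℕ} (hm : 1 ≤ m) {g : ℝ → ℝ × ℝ → ℝ × ℝ} (hg : IsFlowOf (XF m) g) :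
    ENNReal.ofReal (1 + 2 / (m + 1)) ≤ dimH (trapped g) := by
  have hlim : Tendsto (fun n : ℕ => ENNReal.ofReal (1 + (2 / ((m:ℝ) + 1)) * (1 - 1 / ((n:ℝ) + 2))))
      atTop (𝓝 (ENNReal.ofReal (1 + 2 / (m + 1)))) := by
    apply (ENNReal.continuous_ofReal.tendsto _).comp
    have h1 : Tendsto (fun n : ℕ => 1 / ((n:ℝ) + 2)) atTop (𝓝 0) := by
      have := (tendsto_one_div_add_atTop_nhds_zero_nat (𝕜 := ℝ)).comp (tendsto_add_atTop_nat 1)
      refine this.congr fun n => ?_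
      simp only [Function.comp_apply]
      push_cast
      ring
    have h2 := ((h1.const_sub 1).const_mul (2 / ((m:ℝ) + 1))).const_add 1
    simpa using h2
  refine le_of_tendsto' hlim fun n => ?_
  have hm0 : (0:ℝ) < (m:ℝ) + 1 := by positivity
  have hn : (0:ℝ) ≤ n := n.cast_nonneg
  have h3 : (0:ℝ) < 1 - 1 / ((n:ℝ) + 2) := by
    have : 1 / ((n:ℝ) + 2) < 1 := by rw [div_lt_one (by positivity)]; linarith
    linarith
  have h4 : (0:ℝ) < 1 / ((n:ℝ) + 2) := by positivity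
  refine dim_lower_s hm hg (by positivity) ?_
  have : 2 / ((m:ℝ) + 1) * (1 - 1 / ((n:ℝ) + 2)) * (m + 1) = 2 * (1 - 1 / ((n:ℝ) + 2)) := by
    field_simp
  rw [this]
  linarith

end

end Pool.Agent.H664.TrapLower
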