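import Mathlib
import Pool.Agent.H664.Flow
import Pool.Agent.H664.Sard
import Pool.Agent.H664.DimProd
import Pool.Agent.H664.TrapLower

open Topology Filter Set MeasureTheory
open Pool.Agent.H664.Flow Pool.Agent.H664.Sard Pool.Agent.H664.DimProd
open Pool.Agent.H664.TrapLower (trapped)

namespace Pool.Agent.H664.TrapUpper

noncomputable section

/-- a `C^m` Lebesgue measure preserving flow of the plane -/
structure IsMFlow (m : ℕ) (g : ℝ → ℝ × ℝ → ℝ × ℝ) : Prop where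
  zero : ∀ p, g 0 p = p
  add : ∀ t s p, g (t + s) p = g t (g s p)
  contDiff : ContDiff ℝ m (fun q : ℝ × (ℝ × ℝ) => g q.1 q.2)
  mp : ∀ t, MeasurePreserving (g t) volume volume

/-- joint map -/
def G (g : ℝ → ℝ × ℝ → ℝ × ℝ) (q : ℝ × (ℝ × ℝ)) : ℝ × ℝ := g q.1 q.2

/-- the generator -/
def gen (g : ℝ → ℝ × ℝ → ℝ × ℝ) (p : ℝ × ℝ) : ℝ × ℝ := fderiv ℝ (G g) (0, p) (1, 0)

variable {m : ℕ} {g : ℝ → ℝ × ℝ → ℝ × ℝ}

lemma IsMFlow.contDiff_G (hg : IsMFlow m g) : ContDiff ℝ m (G g) := hg.contDiff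

lemma IsMFlow.hasFDerivAt_G (hm : m ≠ 0) (hg : IsMFlow m g) (q : ℝ × (ℝ × ℝ)) :
    HasFDerivAt (G g) (fderiv ℝ (G g) q) q :=
  (hg.contDiff_G.differentiable (by exact_mod_cast hm) q).hasFDerivAt

lemma IsMFlow.contDiff_fderiv (hm : 2 ≤ m) (hg : IsMFlow m g) :
    ContDiff ℝ ((m - 1 : ℕ) : WithTop ℕ∞) (fderiv ℝ (G g)) := by
  refine hg.contDiff_G.fderiv_right ?_
  norm_cast
  omega

lemma IsMFlow.contDiff_gen (hm : 2 ≤ m) (hg : IsMFlow m g) :
    ContDiff ℝ ((m - 1 : ℕ) : WithTop ℕ∞) (gen g) :=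
  ((hg.contDiff_fderiv hm).comp (contDiff_const.prodMk contDiff_id)).clm_apply contDiff_const

lemma IsMFlow.hasDerivAt_zero (hm : m ≠ 0) (hg : IsMFlow m g) (p : ℝ × ℝ) :
    HasDerivAt (fun t => g t p) (gen g p) 0 := by
  have h1 := hg.hasFDerivAt_G hm (0, p)
  have h2 : HasDerivAt (fun t : ℝ => (t, p)) ((1:ℝ), (0 : ℝ × ℝ)) 0 :=
    (hasDerivAt_id (0:ℝ)).prodMk (hasDerivAt_const (0:ℝ) p)
  exact h1.comp_hasDerivAt (0:ℝ) h2

lemma IsMFlow.hasDerivAt (hm : m ≠ 0) (hg : IsMFlow m g) (p : ℝ × ℝ) (t : ℝ) :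
    HasDerivAt (fun t => g t p) (gen g (g t p)) t := by
  have h1 := hg.hasDerivAt_zero hm (g t p)
  rw [← sub_self t] at h1
  have h2 := HasDerivAt.scomp t (g₁ := fun s => g s (g t p)) (h := fun r => r - t) h1
    ((hasDerivAt_id t).sub_const t)
  rw [one_smul] at h2
  refine h2.congr_of_eventuallyEq (Eventually.of_forall fun r => ?_)
  simp only [Function.comp_apply]
  rw [← hg.add, sub_add_cancel]

lemma IsMFlow.hasFDerivAt_time (hm : m ≠ 0) (hg : IsMFlow m g) (t : ℝ) (p : ℝ × ℝ) :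
    HasFDerivAt (g t) ((fderiv ℝ (G g) (t, p)).comp (ContinuousLinearMap.inr ℝ ℝ (ℝ × ℝ))) p :=
  HasFDerivAt.comp (g := G g) p (hg.hasFDerivAt_G hm (t, p)) (hasFDerivAt_prodMk_right t p)

lemma IsMFlow.hasDerivAt' (hm : m ≠ 0) (hg : IsMFlow m g) (p : ℝ × ℝ) (t : ℝ) :
    HasDerivAt (fun t => g t p) (fderiv ℝ (G g) (t, p) (0, gen g p)) t := by
  have h1 := hg.hasFDerivAt_time hm t p
  have h1' : HasFDerivAt (g t) ((fderiv ℝ (G g) (t, p)).comp
      (ContinuousLinearMap.inr ℝ ℝ (ℝ × ℝ))) (g 0 p) := by rw [hg.zero]; exact h1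
  have h2 := h1'.comp_hasDerivAt (0:ℝ) (hg.hasDerivAt_zero hm p)
  rw [← sub_self t] at h2
  have h3 := HasDerivAt.scomp t (g₁ := g t ∘ fun s => g s p) (h := fun r => r - t) h2
    ((hasDerivAt_id t).sub_const t)
  rw [one_smul] at h3
  have h4 : ((fderiv ℝ (G g) (t, p)).comp (ContinuousLinearMap.inr ℝ ℝ (ℝ × ℝ))) (gen g p) =
    fderiv ℝ (G g) (t, p) (0, gen g p) := rfl
  rw [h4] at h3
  refine h3.congr_of_eventuallyEq (Eventually.of_forall fun r => ?_)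
  simp only [Function.comp_apply]
  rw [← hg.add]
  congr 1
  ring

/-! ### The Jacobian -/

/-- the Jacobian matrix of the time `t` map -/
def J (g : ℝ → ℝ × ℝ → ℝ × ℝ) (t : ℝ) (p : ℝ × ℝ) : (ℝ × ℝ) →L[ℝ] (ℝ × ℝ) :=
  (fderiv ℝ (G g) (t, p)).comp (ContinuousLinearMap.inr ℝ ℝ (ℝ × ℝ))

lemma continuous_J (hm : m ≠ 0) (hg : IsMFlow m g) :
    Continuous (fun q : ℝ × (ℝ × ℝ) => (J g q.1 q.2).det) := by
  have h1 : Continuous (fderiv ℝ (G g)) :=
    hg.contDiff_G.continuous_fderiv (by exact_mod_cast hm)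
  have h2 : (fun q : ℝ × (ℝ × ℝ) => (J g q.1 q.2).det) = fun q =>
      (fderiv ℝ (G g) q (0, (1, 0))).1 * (fderiv ℝ (G g) q (0, (0, 1))).2 -
        (fderiv ℝ (G g) q (0, (0, 1))).1 * (fderiv ℝ (G g) q (0, (1, 0))).2 := by
    ext q
    rw [det_plane]
    rfl
  rw [h2]
  have h3 : ∀ v : ℝ × (ℝ × ℝ), Continuous fun q => fderiv ℝ (G g) q v := fun v =>
    h1.clm_apply continuous_const
  exact ((continuous_fst.comp (h3 _)).mul (continuous_snd.comp (h3 _))).sub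
    ((continuous_fst.comp (h3 _)).mul (continuous_snd.comp (h3 _)))

lemma abs_det_J (hm : m ≠ 0) (hg : IsMFlow m g) (t : ℝ) (p : ℝ × ℝ) : |(J g t p).det| = 1 := by
  have hinj : Function.Injective (g t) := by
    intro a b hab
    have h1 : g (-t) (g t a) = a := by rw [← hg.add, neg_add_cancel, hg.zero]
    have h2 : g (-t) (g t b) = b := by rw [← hg.add, neg_add_cancel, hg.zero]
    rw [← h1, ← h2, hab]
  have himg : ∀ s : Set (ℝ × ℝ), g t '' s = g (-t) ⁻¹' s := by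
    intro s
    ext q
    constructor
    · rintro ⟨a, ha, rfl⟩
      change g (-t) (g t a) ∈ s
      rw [← hg.add, neg_add_cancel, hg.zero]
      exact ha
    · intro hq
      refine ⟨g (-t) q, hq, ?_⟩
      rw [← hg.add, add_neg_cancel, hg.zero]
  have hc : Continuous fun q : ℝ × ℝ => (J g t q).det :=
    (continuous_J hm hg).comp (continuous_const.prodMk continuous_id)
  have hc2 : Continuous fun q : ℝ × ℝ => ENNReal.ofReal |(J g t q).det| :=
    ENNReal.continuous_ofReal.comp (continuous_abs.comp hc)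
  have hae : (fun q : ℝ × ℝ => ENNReal.ofReal |(J g t q).det|) =ᵐ[volume] fun _ => 1 := by
    refine ae_eq_of_forall_setLIntegral_eq_of_sigmaFinite hc2.measurable measurable_const ?_
    intro s hs _
    have h1 := lintegral_abs_det_fderiv_eq_addHaar_image volume hs
      (fun q _ => (hg.hasFDerivAt_time hm t q).hasFDerivWithinAt) hinj.injOn
    calc ∫⁻ q in s, ENNReal.ofReal |(J g t q).det| = volume (g t '' s) := h1
      _ = volume (g (-t) ⁻¹' s) := by rw [himg]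
      _ = volume s := (hg.mp (-t)).measure_preimage hs.nullMeasurableSet
      _ = ∫⁻ _ in s, 1 := by simp
  have heq := (Continuous.ae_eq_iff_eq volume hc2 continuous_const).1 hae
  have h1 := congrFun heq p
  have h2 : ENNReal.ofReal |(J g t p).det| = ENNReal.ofReal 1 := by rw [h1]; simp
  exact (ENNReal.ofReal_eq_ofReal_iff (abs_nonneg _) zero_le_one).1 h2

lemma J_zero (hm : m ≠ 0) (hg : IsMFlow m g) (p : ℝ × ℝ) : J g 0 p = ContinuousLinearMap.id ℝ _ := by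
  have h1 := hg.hasFDerivAt_time hm 0 p
  have e0 : g 0 = id := by ext1 y; exact hg.zero y
  rw [e0] at h1
  exact h1.unique (hasFDerivAt_id p)

/-- the generator is divergence free -/
lemma div_gen (hm : 2 ≤ m) (hg : IsMFlow m g) (p : ℝ × ℝ) :
    (fderiv ℝ (gen g) p (1, 0)).1 + (fderiv ℝ (gen g) p (0, 1)).2 = 0 := by
  have hm0 : m ≠ 0 := by omega
  have hm1 : ((m - 1 : ℕ) : WithTop ℕ∞) ≠ 0 := by exact_mod_cast (by omega : m - 1 ≠ 0)
  have hD : ∀ q, HasFDerivAt (fderiv ℝ (G g)) (fderiv ℝ (fderiv ℝ (G g)) q) q := fun q =>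
    ((hg.contDiff_fderiv hm).differentiable hm1 q).hasFDerivAt
  set S := fderiv ℝ (fderiv ℝ (G g)) (0, p) with hS
  have hsymm : ∀ v w, S v w = S w v := by
    have h1 : ContDiffAt ℝ m (G g) (0, p) := hg.contDiff_G.contDiffAt
    have h2 := h1.isSymmSndFDerivAt (by
      rw [minSmoothness_of_isRCLikeNormedField]
      exact_mod_cast hm)
    exact fun v w => h2 v w
  -- derivative of the Jacobian
  have hJ : ∀ v : ℝ × ℝ, HasDerivAt (fun t => J g t p v) (S (1, 0) (0, v)) 0 := by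
    intro v
    have h2 : HasDerivAt (fun t : ℝ => (t, p)) ((1:ℝ), (0 : ℝ × ℝ)) 0 :=
      (hasDerivAt_id (0:ℝ)).prodMk (hasDerivAt_const (0:ℝ) p)
    have h3 := (hD (0, p)).comp_hasDerivAt (0:ℝ) h2
    have h4 := h3.clm_apply (hasDerivAt_const (0:ℝ) ((0:ℝ), v))
    simp only [map_zero, add_zero] at h4
    exact h4
  have hX : ∀ v : ℝ × ℝ, fderiv ℝ (gen g) p v = S (1, 0) (0, v) := by
    intro v
    have h3 : HasFDerivAt (fun q : ℝ × ℝ => fderiv ℝ (G g) (0, q))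
        (S.comp (ContinuousLinearMap.inr ℝ ℝ (ℝ × ℝ))) p :=
      HasFDerivAt.comp (g := fderiv ℝ (G g)) p (hD (0, p)) (hasFDerivAt_prodMk_right (0:ℝ) p)
    have h4 := h3.clm_apply (hasFDerivAt_const ((1:ℝ), (0 : ℝ × ℝ)) p)
    have h5 : HasFDerivAt (gen g) _ p := h4
    rw [h5.fderiv, hsymm]
    simp
  -- the determinant is locally constant in time
  have hdet : ∀ᶠ t in 𝓝 (0:ℝ), (J g t p).det = 1 := by
    have hc : Continuous fun t : ℝ => (J g t p).det :=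
      (continuous_J hm0 hg).comp (continuous_id.prodMk continuous_const)
    have h0 : (J g 0 p).det = 1 := by
      rw [J_zero hm0 hg, det_plane]; simp
    have h1 : ∀ᶠ t in 𝓝 (0:ℝ), 0 < (J g t p).det := by
      apply hc.continuousAt.eventually
      change ∀ᶠ y in 𝓝 ((J g 0 p).det), 0 < y
      rw [h0]
      exact lt_mem_nhds one_pos
    filter_upwards [h1] with t ht
    have := abs_det_J hm0 hg t p
    rwa [abs_of_pos ht] at this
  have hd0 : HasDerivAt (fun t => (J g t p).det) 0 0 :=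
    (hasDerivAt_const (0:ℝ) (1:ℝ)).congr_of_eventuallyEq hdet
  have h11 : HasDerivAt (fun s => (J g s p (1, 0)).1) (S (1, 0) (0, (1, 0))).1 0 :=
    (ContinuousLinearMap.fst ℝ ℝ ℝ).hasFDerivAt.comp_hasDerivAt (0:ℝ) (hJ (1, 0))
  have h12 : HasDerivAt (fun s => (J g s p (1, 0)).2) (S (1, 0) (0, (1, 0))).2 0 :=
    (ContinuousLinearMap.snd ℝ ℝ ℝ).hasFDerivAt.comp_hasDerivAt (0:ℝ) (hJ (1, 0))
  have h21 : HasDerivAt (fun s => (J g s p (0, 1)).1) (S (1, 0) (0, (0, 1))).1 0 :=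
    (ContinuousLinearMap.fst ℝ ℝ ℝ).hasFDerivAt.comp_hasDerivAt (0:ℝ) (hJ (0, 1))
  have h22 : HasDerivAt (fun s => (J g s p (0, 1)).2) (S (1, 0) (0, (0, 1))).2 0 :=
    (ContinuousLinearMap.snd ℝ ℝ ℝ).hasFDerivAt.comp_hasDerivAt (0:ℝ) (hJ (0, 1))
  have h3 := (h11.mul h22).sub (h21.mul h12)
  have h4 : (fun s => (J g s p).det) = fun s =>
      (J g s p (1, 0)).1 * (J g s p (0, 1)).2 - (J g s p (0, 1)).1 * (J g s p (1, 0)).2 := by
    ext s; exact det_plane _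
  rw [h4] at hd0
  have h5 := hd0.unique h3
  rw [J_zero hm0 hg] at h5
  simp only [ContinuousLinearMap.id_apply] at h5
  rw [hX, hX]
  linarith

/-! ### The Hamiltonian -/

lemma exists_hamiltonian (hm : 2 ≤ m) (hg : IsMFlow m g) :
    ∃ H : ℝ × ℝ → ℝ, ContDiff ℝ m H ∧ ∀ p, HasFDerivAt H
      ((gen g p).1 • ContinuousLinearMap.snd ℝ ℝ ℝ - (gen g p).2 • ContinuousLinearMap.fst ℝ ℝ ℝ) p := by
  have hXc := hg.contDiff_gen hm
  have hm1 : ((m - 1 : ℕ) : WithTop ℕ∞) ≠ 0 := by exact_mod_cast (by omega : m - 1 ≠ 0)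
  have hcont : Continuous (gen g) := hXc.continuous
  have hX1 : Continuous fun p : ℝ × ℝ => (gen g p).1 := continuous_fst.comp hcont
  have hX2 : Continuous fun p : ℝ × ℝ => (gen g p).2 := continuous_snd.comp hcont
  have hXd : ∀ p, HasFDerivAt (gen g) (fderiv ℝ (gen g) p) p := fun p =>
    (hXc.differentiable hm1 p).hasFDerivAt
  set f' : ℝ × ℝ → ℝ × ℝ →L[ℝ] ℝ := fun p =>
    (ContinuousLinearMap.fst ℝ ℝ ℝ).comp (fderiv ℝ (gen g) p) with hf'
  set g' : ℝ × ℝ → ℝ × ℝ →L[ℝ] ℝ := fun p =>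
    (ContinuousLinearMap.snd ℝ ℝ ℝ).comp (fderiv ℝ (gen g) p) with hg'
  have hdf : ∀ p, HasFDerivAt (fun p : ℝ × ℝ => (gen g p).1) (f' p) p := fun p =>
    (ContinuousLinearMap.fst ℝ ℝ ℝ).hasFDerivAt.comp p (hXd p)
  have hdg : ∀ p, HasFDerivAt (fun p : ℝ × ℝ => (gen g p).2) (g' p) p := fun p =>
    (ContinuousLinearMap.snd ℝ ℝ ℝ).hasFDerivAt.comp p (hXd p)
  have hdiv : ∀ p, f' p (1, 0) + g' p (0, 1) = 0 := fun p => div_gen hm hg p
  set H : ℝ → ℝ → ℝ := fun x y => (∫ η in (0:ℝ)..y, (gen g (0, η)).1) -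
    ∫ ξ in (0:ℝ)..x, (gen g (ξ, y)).2 with hH
  have hH2 : ∀ x y, H x y = (∫ η in (0:ℝ)..y, (gen g (x, η)).1) -
      ∫ ξ in (0:ℝ)..x, (gen g (ξ, 0)).2 := by
    intro x y
    have h1 := integral2_divergence_prod_of_hasFDerivAt (fun p : ℝ × ℝ => (gen g p).1)
      (fun p : ℝ × ℝ => (gen g p).2) f' g' 0 0 x y hX1.continuousOn hX2.continuousOn
      (fun p _ => hdf p) (fun p _ => hdg p) (by simp [hdiv])
    simp only [hdiv] at h1
    simp only [intervalIntegral.integral_zero] at h1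
    rw [hH]
    simp only
    linarith
  have hder1 : ∀ v : ℝ × ℝ, HasFDerivAt (H · v.2)
      ((fun (x y : ℝ) => (-(gen g (x, y)).2) • ContinuousLinearMap.id ℝ ℝ) v.1 v.2) v.1 := by
    intro v
    have hc : Continuous fun ξ : ℝ => (gen g (ξ, v.2)).2 :=
      hX2.comp (continuous_id.prodMk continuous_const)
    have h1 : HasDerivAt (fun x : ℝ => ∫ ξ in (0:ℝ)..x, (gen g (ξ, v.2)).2) ((gen g (v.1, v.2)).2)
        v.1 :=
      intervalIntegral.integral_hasDerivAt_right (hc.intervalIntegrable _ _)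
        (hc.stronglyMeasurableAtFilter _ _) hc.continuousAt
    have h2 : HasDerivAt (H · v.2) (-(gen g (v.1, v.2)).2) v.1 :=
      h1.const_sub (∫ η in (0:ℝ)..v.2, (gen g (0, η)).1)
    have h3 := h2.hasFDerivAt
    convert! h3 using 1
    ext
    simp
  have hder2 : ∀ v : ℝ × ℝ, HasFDerivAt (H v.1 ·)
      ((fun (x y : ℝ) => ((gen g (x, y)).1) • ContinuousLinearMap.id ℝ ℝ) v.1 v.2) v.2 := by
    intro v
    have hc : Continuous fun η : ℝ => (gen g (v.1, η)).1 :=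
      hX1.comp (continuous_const.prodMk continuous_id)
    have h1 : HasDerivAt (fun y : ℝ => ∫ η in (0:ℝ)..y, (gen g (v.1, η)).1) ((gen g (v.1, v.2)).1)
        v.2 :=
      intervalIntegral.integral_hasDerivAt_right (hc.intervalIntegrable _ _)
        (hc.stronglyMeasurableAtFilter _ _) hc.continuousAt
    have h2 : HasDerivAt (H v.1 ·) ((gen g (v.1, v.2)).1) v.2 := by
      have h3 : (H v.1 ·) = fun y => (∫ η in (0:ℝ)..y, (gen g (v.1, η)).1) -
          ∫ ξ in (0:ℝ)..v.1, (gen g (ξ, 0)).2 := by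
        ext y; exact hH2 v.1 y
      rw [h3]
      exact h1.sub_const _
    have h3 := h2.hasFDerivAt
    convert! h3 using 1
    ext
    simp
  have hfull : ∀ p : ℝ × ℝ, HasFDerivAt (fun p : ℝ × ℝ => H p.1 p.2)
      ((gen g p).1 • ContinuousLinearMap.snd ℝ ℝ ℝ - (gen g p).2 • ContinuousLinearMap.fst ℝ ℝ ℝ)
      p := by
    intro p
    have h1 := hasStrictFDerivAt_uncurry_coprod (𝕜 := ℝ) (u := p) (f := H)
      (f₁ := fun (x y : ℝ) => (-(gen g (x, y)).2) • ContinuousLinearMap.id ℝ ℝ)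
      (f₂ := fun (x y : ℝ) => ((gen g (x, y)).1) • ContinuousLinearMap.id ℝ ℝ)
      (Eventually.of_forall hder1) (Eventually.of_forall hder2)
      (by
        have : Continuous fun v : ℝ × ℝ => (-(gen g (v.1, v.2)).2) • ContinuousLinearMap.id ℝ ℝ :=
          (hX2.neg).smul continuous_const
        exact this.continuousAt)
      (by
        have : Continuous fun v : ℝ × ℝ => ((gen g (v.1, v.2)).1) • ContinuousLinearMap.id ℝ ℝ :=
          hX1.smul continuous_const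
        exact this.continuousAt)
    have h2 := h1.hasFDerivAt
    convert! h2 using 1
    ext <;> simp [Function.HasUncurry.uncurry]
  refine ⟨fun p => H p.1 p.2, ?_, hfull⟩
  obtain ⟨k, hk⟩ : ∃ k, m = k + 1 := ⟨m - 1, by omega⟩
  have hk' : m - 1 = k := by omega
  rw [hk]
  push_cast
  rw [contDiff_succ_iff_hasFDerivAt]
  refine ⟨_, ?_, hfull⟩
  rw [hk'] at hXc
  exact ((contDiff_fst.comp hXc).smul contDiff_const).sub
    ((contDiff_snd.comp hXc).smul contDiff_const)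

/-! ### Conservation and comparison -/

lemma hamiltonian_const (hm : m ≠ 0) (hg : IsMFlow m g) {H : ℝ × ℝ → ℝ}
    (hH : ∀ p, HasFDerivAt H
      ((gen g p).1 • ContinuousLinearMap.snd ℝ ℝ ℝ - (gen g p).2 • ContinuousLinearMap.fst ℝ ℝ ℝ) p)
    (t : ℝ) (p : ℝ × ℝ) : H (g t p) = H p := by
  have h1 : ∀ s, HasDerivAt (fun s => H (g s p)) 0 s := by
    intro s
    have h2 := (hH (g s p)).comp_hasDerivAt s (hg.hasDerivAt hm p s)
    have h3 : ((gen g (g s p)).1 • ContinuousLinearMap.snd ℝ ℝ ℝ -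
        (gen g (g s p)).2 • ContinuousLinearMap.fst ℝ ℝ ℝ) (gen g (g s p)) = 0 := by
      simp; ring
    rw [h3] at h2
    exact h2
  have h4 := is_const_of_deriv_eq_zero (fun s => (h1 s).differentiableAt)
    (fun s => (h1 s).deriv) t 0
  simp only [hg.zero] at h4
  exact h4

lemma fixed_of_gen_zero (hm : m ≠ 0) (hg : IsMFlow m g) {p : ℝ × ℝ} (hp : gen g p = 0) (t : ℝ) :
    g t p = p := by
  have h1 : ∀ s, HasDerivAt (fun s => g s p) 0 s := by
    intro s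
    have h2 := hg.hasDerivAt' hm p s
    rw [hp] at h2
    have h3 : ((0:ℝ), (0 : ℝ × ℝ)) = 0 := rfl
    rw [h3, map_zero] at h2
    exact h2
  have h4 := is_const_of_deriv_eq_zero (fun s => (h1 s).differentiableAt)
    (fun s => (h1 s).deriv) t 0
  simp only [hg.zero] at h4
  exact h4

lemma exists_compare (hm : m ≠ 0) (hg : IsMFlow m g) {Q : Set (ℝ × ℝ)} (hQ : IsCompact Q) :
    ∃ τ : ℝ, 0 < τ ∧ ∀ q ∈ Q, ‖gen g q‖ ≤ (2 / τ) * ‖g τ q - q‖ := by
  have hc : Continuous (fderiv ℝ (G g)) := hg.contDiff_G.continuous_fderiv (by exact_mod_cast hm)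
  have hJc : Continuous fun z : ℝ × (ℝ × ℝ) => J g z.1 z.2 :=
    ((ContinuousLinearMap.compL ℝ (ℝ × ℝ) (ℝ × (ℝ × ℝ)) (ℝ × ℝ)).flip
      (ContinuousLinearMap.inr ℝ ℝ (ℝ × ℝ))).continuous.comp hc
  have h1 : ∀ y ∈ Q, ∀ᶠ z : ℝ × (ℝ × ℝ) in 𝓝 ((0:ℝ), y),
      ‖J g z.1 z.2 - ContinuousLinearMap.id ℝ (ℝ × ℝ)‖ < 1 / 2 := by
    intro y _
    have h2 : Continuous fun z : ℝ × (ℝ × ℝ) => ‖J g z.1 z.2 - ContinuousLinearMap.id ℝ (ℝ × ℝ)‖ :=
      (hJc.sub continuous_const).norm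
    have h4 : ‖J g 0 y - ContinuousLinearMap.id ℝ (ℝ × ℝ)‖ < 1 / 2 := by
      rw [J_zero hm hg, sub_self, norm_zero]
      norm_num
    exact (h2.tendsto ((0:ℝ), y)).eventually (gt_mem_nhds h4)
  have h2 : ∀ᶠ t : ℝ in 𝓝 0, ∀ q ∈ Q, ‖J g t q - ContinuousLinearMap.id ℝ (ℝ × ℝ)‖ < 1 / 2 :=
    hQ.eventually_forall_of_forall_eventually h1
  obtain ⟨ε, hε, h3⟩ := Metric.eventually_nhds_iff.1 h2
  set τ : ℝ := ε / 2 with hτ
  have hτ0 : 0 < τ := by positivity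
  refine ⟨τ, hτ0, fun q hq => ?_⟩
  have hd : ∀ s ∈ Icc 0 τ, HasDerivWithinAt (fun s => g s q - s • gen g q)
      (J g s q (gen g q) - gen g q) (Icc 0 τ) s := by
    intro s _
    have h4 := hg.hasDerivAt' hm q s
    have h5 : HasDerivAt (fun s : ℝ => s • gen g q) (gen g q) s := by
      simpa using (hasDerivAt_id s).smul_const (gen g q)
    exact (h4.sub h5).hasDerivWithinAt
  have hb : ∀ s ∈ Ico 0 τ, ‖J g s q (gen g q) - gen g q‖ ≤ 1 / 2 * ‖gen g q‖ := by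
    intro s hs
    have h4 : J g s q (gen g q) - gen g q =
        (J g s q - ContinuousLinearMap.id ℝ (ℝ × ℝ)) (gen g q) := by simp
    rw [h4]
    refine (ContinuousLinearMap.le_opNorm _ _).trans ?_
    gcongr
    refine (h3 ?_ q hq).le
    rw [Real.dist_eq, sub_zero, abs_of_nonneg hs.1]
    linarith [hs.2]
  have h4 := norm_image_sub_le_of_norm_deriv_le_segment' hd hb τ ⟨hτ0.le, le_rfl⟩
  simp only [hg.zero, zero_smul, sub_zero] at h4
  have h5 : ‖τ • gen g q‖ = τ * ‖gen g q‖ := by rw [norm_smul, Real.norm_of_nonneg hτ0.le]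
  have h6 : ‖τ • gen g q‖ ≤ ‖g τ q - q‖ + ‖g τ q - τ • gen g q - q‖ := by
    have e : τ • gen g q = (g τ q - q) - (g τ q - τ • gen g q - q) := by abel
    calc ‖τ • gen g q‖ = ‖(g τ q - q) - (g τ q - τ • gen g q - q)‖ := by rw [← e]
      _ ≤ _ := norm_sub_le _ _
  rw [h5] at h6
  rw [div_mul_eq_mul_div, le_div_iff₀ hτ0]
  nlinarith

theorem dim_critical_values (hm : 2 ≤ m) (hg : IsMFlow m g) {H : ℝ × ℝ → ℝ}
    (hHc : ContDiff ℝ m H) (hH : ∀ p, HasFDerivAt H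
      ((gen g p).1 • ContinuousLinearMap.snd ℝ ℝ ℝ - (gen g p).2 • ContinuousLinearMap.fst ℝ ℝ ℝ) p) :
    dimH (H '' {p | gen g p = 0}) ≤ ENNReal.ofReal (2 / (m + 1)) := by
  have hm0 : m ≠ 0 := by omega
  have h1 : H '' {p | gen g p = 0} ⊆
      ⋃ N : ℕ, H '' ({p | gen g p = 0} ∩ Metric.closedBall 0 N) := by
    rintro _ ⟨p, hp, rfl⟩
    obtain ⟨N, hN⟩ := exists_nat_ge ‖p‖
    exact mem_iUnion.2 ⟨N, p, ⟨hp, by simpa using hN⟩, rfl⟩
  refine (dimH_mono h1).trans ?_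
  rw [dimH_iUnion]
  refine iSup_le fun N => ?_
  have hQ : IsCompact (Metric.closedBall (0 : ℝ × ℝ) N) := isCompact_closedBall _ _
  obtain ⟨τ, hτ, hcomp⟩ := exists_compare hm0 hg hQ
  have hf : ContDiff ℝ m (fun q : ℝ × ℝ => g τ q - q) :=
    (hg.contDiff.comp (contDiff_const.prodMk contDiff_id)).sub contDiff_id
  refine dim_image_le hm hHc hf hQ (convex_closedBall _ _) (C := 2 * (2 / τ)) (by positivity)
    (fun q hq => ?_) inter_subset_right (fun p hp => ?_)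
  · rw [(hH q).fderiv]
    have h2 : ‖(gen g q).1 • ContinuousLinearMap.snd ℝ ℝ ℝ -
        (gen g q).2 • ContinuousLinearMap.fst ℝ ℝ ℝ‖ ≤ 2 * ‖gen g q‖ := by
      refine ContinuousLinearMap.opNorm_le_bound _ (by positivity) fun v => ?_
      have e1 : |(gen g q).1| ≤ ‖gen g q‖ := norm_fst_le (gen g q)
      have e2 : |(gen g q).2| ≤ ‖gen g q‖ := norm_snd_le (gen g q)
      have e3 : |v.1| ≤ ‖v‖ := norm_fst_le v
      have e4 : |v.2| ≤ ‖v‖ := norm_snd_le v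
      have e5 : ((gen g q).1 • ContinuousLinearMap.snd ℝ ℝ ℝ -
        (gen g q).2 • ContinuousLinearMap.fst ℝ ℝ ℝ) v = (gen g q).1 * v.2 - (gen g q).2 * v.1 := rfl
      rw [e5]
      calc ‖(gen g q).1 * v.2 - (gen g q).2 * v.1‖
          ≤ |(gen g q).1 * v.2| + |(gen g q).2 * v.1| := norm_sub_le _ _
        _ = |(gen g q).1| * |v.2| + |(gen g q).2| * |v.1| := by rw [abs_mul, abs_mul]
        _ ≤ ‖gen g q‖ * ‖v‖ + ‖gen g q‖ * ‖v‖ := by gcongr
        _ = _ := by ring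
    calc _ ≤ 2 * ‖gen g q‖ := h2
      _ ≤ 2 * ((2 / τ) * ‖g τ q - q‖) := by gcongr; exact hcomp q hq
      _ = _ := by ring
  · rw [fixed_of_gen_zero hm0 hg hp.1, sub_self]

/-! ### Local structure near a regular point -/

lemma exists_local (hm : 2 ≤ m) {H : ℝ × ℝ → ℝ} (hHc : ContDiff ℝ m H) (hH : ∀ p, HasFDerivAt H
      ((gen g p).1 • ContinuousLinearMap.snd ℝ ℝ ℝ - (gen g p).2 • ContinuousLinearMap.fst ℝ ℝ ℝ) p)
    {q : ℝ × ℝ} (hq : gen g q ≠ 0) :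
    ∃ ℓ : (ℝ × ℝ) →L[ℝ] ℝ, ℓ (gen g q) ≠ 0 ∧ ∃ V ∈ 𝓝 q, ∃ K : NNReal,
      AntilipschitzWith K (V.domRestrict fun z => (ℓ z, H z)) := by
  obtain ⟨ℓ, hℓ⟩ : ∃ ℓ : (ℝ × ℝ) →L[ℝ] ℝ, ℓ (gen g q) ≠ 0 := by
    by_cases h : (gen g q).1 = 0
    · refine ⟨ContinuousLinearMap.snd ℝ ℝ ℝ, fun h2 => hq (Prod.ext h h2)⟩
    · exact ⟨ContinuousLinearMap.fst ℝ ℝ ℝ, h⟩
  refine ⟨ℓ, hℓ, ?_⟩
  set D : (ℝ × ℝ) →L[ℝ] (ℝ × ℝ) := ℓ.prod ((gen g q).1 • ContinuousLinearMap.snd ℝ ℝ ℝ -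
    (gen g q).2 • ContinuousLinearMap.fst ℝ ℝ ℝ) with hD
  have hinj : Function.Injective D.toLinearMap := by
    rw [injective_iff_map_eq_zero]
    intro v hv
    have h1 : ℓ v = 0 := congrArg Prod.fst hv
    have h2 : (gen g q).1 * v.2 - (gen g q).2 * v.1 = 0 := congrArg Prod.snd hv
    have e : ∀ z : ℝ × ℝ, ℓ z = z.1 * ℓ (1, 0) + z.2 * ℓ (0, 1) := by
      intro z
      have : z = z.1 • ((1:ℝ), (0:ℝ)) + z.2 • ((0:ℝ), (1:ℝ)) := by ext <;> simp
      conv_lhs => rw [this, map_add, map_smul, map_smul]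
      simp
    rw [e] at h1 hℓ
    have h3 : v.1 * ((gen g q).1 * ℓ (1, 0) + (gen g q).2 * ℓ (0, 1)) = 0 := by
      linear_combination (gen g q).1 * h1 - ℓ (0, 1) * h2
    have h4 : v.2 * ((gen g q).1 * ℓ (1, 0) + (gen g q).2 * ℓ (0, 1)) = 0 := by
      linear_combination (gen g q).2 * h1 + ℓ (1, 0) * h2
    exact Prod.ext ((mul_eq_zero.1 h3).resolve_right hℓ) ((mul_eq_zero.1 h4).resolve_right hℓ)
  set e : (ℝ × ℝ) ≃L[ℝ] (ℝ × ℝ) :=
    (LinearEquiv.ofInjectiveEndo D.toLinearMap hinj).toContinuousLinearEquiv with he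
  have heD : (e : (ℝ × ℝ) →L[ℝ] (ℝ × ℝ)) = D := ContinuousLinearMap.ext fun v => rfl
  have hstrict : HasStrictFDerivAt (fun z : ℝ × ℝ => (ℓ z, H z)) (e : (ℝ × ℝ) →L[ℝ] (ℝ × ℝ)) q := by
    rw [heD, hD]
    have h1 : HasStrictFDerivAt H ((gen g q).1 • ContinuousLinearMap.snd ℝ ℝ ℝ -
        (gen g q).2 • ContinuousLinearMap.fst ℝ ℝ ℝ) q :=
      hHc.contDiffAt.hasStrictFDerivAt' (hH q) (by exact_mod_cast (by omega : m ≠ 0))
    exact ℓ.hasStrictFDerivAt.prodMk h1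
  obtain ⟨V, hqV, hVo, hV⟩ := hstrict.approximates_deriv_on_open_nhds
  have hc : Subsingleton (ℝ × ℝ) ∨ ‖(e.symm : (ℝ × ℝ) →L[ℝ] (ℝ × ℝ))‖₊⁻¹ / 2 <
      ‖(e.symm : (ℝ × ℝ) →L[ℝ] (ℝ × ℝ))‖₊⁻¹ :=
    e.subsingleton_or_nnnorm_symm_pos.imp id fun hf' =>
      NNReal.half_lt_self <| ne_of_gt <| inv_pos.2 hf'
  exact ⟨V, hVo.mem_nhds hqV, _, hV.antilipschitz hc⟩

lemma flow_box (hm : 2 ≤ m) (hg : IsMFlow m g) {H : ℝ × ℝ → ℝ} (hHc : ContDiff ℝ m H)
    (hH : ∀ p, HasFDerivAt H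
      ((gen g p).1 • ContinuousLinearMap.snd ℝ ℝ ℝ - (gen g p).2 • ContinuousLinearMap.fst ℝ ℝ ℝ) p)
    {q : ℝ × ℝ} (hq : gen g q ≠ 0) :
    ∀ᶠ z in 𝓝 q, H z = H q → ∃ s : ℝ, |s| < 1 / 3 ∧ z = g s q := by
  have hm0 : m ≠ 0 := by omega
  obtain ⟨ℓ, hℓ, V, hV, K, hK⟩ := exists_local hm hHc hH hq
  have hcur : ContDiff ℝ m (fun s : ℝ => ℓ (g s q)) :=
    ℓ.contDiff.comp (hg.contDiff.comp (contDiff_id.prodMk contDiff_const))
  have hder : HasDerivAt (fun s : ℝ => ℓ (g s q)) (ℓ (gen g q)) 0 :=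
    ℓ.hasFDerivAt.comp_hasDerivAt (0:ℝ) (hg.hasDerivAt_zero hm0 q)
  have hstr : HasStrictDerivAt (fun s : ℝ => ℓ (g s q)) (ℓ (gen g q)) 0 :=
    hcur.contDiffAt.hasStrictDerivAt' hder (by exact_mod_cast hm0)
  have hmap := hstr.map_nhds_eq hℓ
  simp only [hg.zero] at hmap
  have hU : {s : ℝ | |s| < 1 / 3 ∧ g s q ∈ V} ∈ 𝓝 (0:ℝ) := by
    have h1 : ∀ᶠ s : ℝ in 𝓝 0, |s| < 1 / 3 := by
      have := (continuous_abs.tendsto (0:ℝ))
      rw [abs_zero] at this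
      exact this.eventually (gt_mem_nhds (by norm_num))
    have h2 : ∀ᶠ s : ℝ in 𝓝 0, g s q ∈ V := by
      have h3 : Tendsto (fun s => g s q) (𝓝 0) (𝓝 (g 0 q)) :=
        (hg.hasDerivAt_zero hm0 q).continuousAt
      rw [hg.zero] at h3
      exact h3 hV
    exact h1.and h2
  have himg : (fun s : ℝ => ℓ (g s q)) '' {s : ℝ | |s| < 1 / 3 ∧ g s q ∈ V} ∈ 𝓝 (ℓ q) := by
    rw [← hmap]
    exact image_mem_map hU
  have h4 : ∀ᶠ z in 𝓝 q, ℓ z ∈ (fun s : ℝ => ℓ (g s q)) '' {s : ℝ | |s| < 1 / 3 ∧ g s q ∈ V} :=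
    ℓ.continuous.continuousAt himg
  filter_upwards [h4, hV] with z hz hzV hzH
  obtain ⟨s, ⟨hs1, hs2⟩, hs3⟩ := hz
  refine ⟨s, hs1, ?_⟩
  have h5 : (V.domRestrict fun z => (ℓ z, H z)) ⟨z, hzV⟩ =
      (V.domRestrict fun z => (ℓ z, H z)) ⟨g s q, hs2⟩ := by
    simp only [Set.domRestrict_apply]
    rw [hzH, hamiltonian_const hm0 hg hH s q]
    exact Prod.ext hs3.symm rfl
  exact congrArg Subtype.val (hK.injective h5)

lemma bounded_back_of_periodic (hm : m ≠ 0) (hg : IsMFlow m g) {p : ℝ × ℝ} {τ : ℝ} (hτ : 0 < τ)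
    (h : g τ p = p) : Bornology.IsBounded ((fun t => g t p) '' Iic 0) := by
  have hper : Function.Periodic (fun t => g t p) τ := by
    intro t
    simp only
    rw [hg.add, h]
  have h1 : (fun t => g t p) '' Icc 0 (0 + τ) = range (fun t => g t p) := hper.image_Icc hτ 0
  have hc : Continuous (fun t => g t p) :=
    continuous_iff_continuousAt.2 fun t => (hg.hasDerivAt hm p t).continuousAt
  have h2 : IsCompact ((fun t => g t p) '' Icc 0 (0 + τ)) := isCompact_Icc.image hc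
  rw [h1] at h2
  exact h2.isBounded.subset (image_subset_range _ _)

theorem trapped_critical (hm : 2 ≤ m) (hg : IsMFlow m g) {H : ℝ × ℝ → ℝ} (hHc : ContDiff ℝ m H)
    (hH : ∀ p, HasFDerivAt H
      ((gen g p).1 • ContinuousLinearMap.snd ℝ ℝ ℝ - (gen g p).2 • ContinuousLinearMap.fst ℝ ℝ ℝ) p)
    {p : ℝ × ℝ} (hp : p ∈ trapped g) :
    gen g p ≠ 0 ∧ H p ∈ H '' {p | gen g p = 0} := by
  have hm0 : m ≠ 0 := by omega
  obtain ⟨hfw, hbw⟩ := hp
  constructor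
  · intro h0
    apply hbw
    have h1 : (fun t => g t p) '' Iic 0 ⊆ {p} := by
      rintro _ ⟨t, _, rfl⟩
      exact fixed_of_gen_zero hm0 hg h0 t
    exact (Bornology.isBounded_singleton).subset h1
  · have hx : ∀ n : ℕ, g (n:ℝ) p ∈ (fun t => g t p) '' Ici 0 := fun n =>
      ⟨(n:ℝ), mem_Ici.2 (Nat.cast_nonneg n), rfl⟩
    obtain ⟨q, _, φ, hφ, hlim⟩ := tendsto_subseq_of_bounded hfw hx
    have hHq : H q = H p := by
      have h1 : Tendsto (fun n => H (g (φ n : ℝ) p)) atTop (𝓝 (H q)) :=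
        (hHc.continuous.tendsto q).comp hlim
      have h2 : (fun n => H (g (φ n : ℝ) p)) = fun _ => H p := by
        ext n; exact hamiltonian_const hm0 hg hH _ _
      rw [h2] at h1
      exact tendsto_nhds_unique h1 tendsto_const_nhds
    by_contra hcon
    have hq : gen g q ≠ 0 := fun h0 => hcon ⟨q, h0, hHq⟩
    have hbox := hlim.eventually (flow_box hm hg hHc hH hq)
    obtain ⟨N, hN⟩ := eventually_atTop.1 hbox
    have key : ∀ n ≥ N, ∃ s : ℝ, |s| < 1 / 3 ∧ g (φ n : ℝ) p = g s q := by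
      intro n hn
      refine hN n hn ?_
      simp only [Function.comp_apply]
      rw [hamiltonian_const hm0 hg hH, hHq]
    obtain ⟨s, hs, h1⟩ := key N le_rfl
    obtain ⟨s', hs', h2⟩ := key (N + 1) (Nat.le_succ N)
    have e1 : q = g ((φ N : ℝ) - s) p := by
      have : g (-s) (g (φ N : ℝ) p) = q := by
        rw [h1, ← hg.add, neg_add_cancel, hg.zero]
      rw [← this, ← hg.add]
      congr 1
      ring
    have e2 : q = g ((φ (N + 1) : ℝ) - s') p := by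
      have : g (-s') (g (φ (N + 1) : ℝ) p) = q := by
        rw [h2, ← hg.add, neg_add_cancel, hg.zero]
      rw [← this, ← hg.add]
      congr 1
      ring
    have e3 : g (((φ (N + 1) : ℝ) - s') - ((φ N : ℝ) - s)) p = p := by
      have h3 : g (-((φ N : ℝ) - s)) q = p := by
        rw [e1, ← hg.add, neg_add_cancel, hg.zero]
      have h4 : g (-((φ N : ℝ) - s)) q = g (((φ (N + 1) : ℝ) - s') - ((φ N : ℝ) - s)) p := by
        conv_lhs => rw [e2, ← hg.add]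
        congr 1
        ring
      rw [← h4, h3]
    have hφ1 : (φ N : ℝ) + 1 ≤ φ (N + 1) := by
      exact_mod_cast hφ (Nat.lt_succ_self N)
    have hpos : 0 < ((φ (N + 1) : ℝ) - s') - ((φ N : ℝ) - s) := by
      have := abs_lt.1 hs
      have := abs_lt.1 hs'
      linarith [this.1, this.2]
    exact hbw (bounded_back_of_periodic hm0 hg hpos e3)

theorem dim_trapped_le (hm : 1 ≤ m) (hg : IsMFlow m g) :
    dimH (trapped g) ≤ ENNReal.ofReal (1 + 2 / (m + 1)) := by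
  rcases Nat.lt_or_ge 1 m with hm2 | hm1
  · have hm2 : 2 ≤ m := hm2
    obtain ⟨H, hHc, hH⟩ := exists_hamiltonian hm2 hg
    have hK := dim_critical_values hm2 hg hHc hH
    set Kr : Set ℝ := H '' {p | gen g p = 0} with hKr
    have hr : (1:ENNReal) + dimH Kr ≤ ENNReal.ofReal (1 + 2 / (m + 1)) := by
      rw [ENNReal.ofReal_add (by norm_num) (by positivity), ENNReal.ofReal_one]
      gcongr
    have h1 : dimH (id '' (trapped g)) ≤ ENNReal.ofReal (1 + 2 / (m + 1)) := by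
      refine dimH_image_le_of_local fun p hp => ?_
      have hreg := (trapped_critical hm2 hg hHc hH hp).1
      obtain ⟨ℓ, _, V, hV, K, hK⟩ := exists_local hm2 hHc hH hreg
      refine ⟨V, hV, ?_⟩
      rw [image_id]
      set s : Set V := {z | (z : ℝ × ℝ) ∈ trapped g} with hs
      have h2 : ((↑) : V → ℝ × ℝ) '' s = trapped g ∩ V := by
        ext z
        constructor
        · rintro ⟨w, hw, rfl⟩
          exact ⟨hw, w.2⟩
        · rintro ⟨hz1, hz2⟩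
          exact ⟨⟨z, hz2⟩, hz1, rfl⟩
      rw [← h2, isometry_subtype_coe.dimH_image]
      refine (hK.le_dimH_image s).trans ?_
      have h3 : (V.domRestrict fun z => (ℓ z, H z)) '' s ⊆ (univ : Set ℝ) ×ˢ Kr := by
        rintro _ ⟨z, hz, rfl⟩
        exact ⟨trivial, (trapped_critical hm2 hg hHc hH hz).2⟩
      exact (dimH_mono h3).trans ((dimH_univ_prod_le Kr).trans hr)
    rwa [image_id] at h1
  · have : m = 1 := by omega
    subst this
    calc dimH (trapped g) ≤ dimH (univ : Set (ℝ × ℝ)) := dimH_mono (subset_univ _)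
      _ = 2 := by rw [Real.dimH_univ_eq_finrank]; simp
      _ ≤ _ := by norm_num

end

end Pool.Agent.H664.TrapUpper
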